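import Mathlib
import Pool.Agent.NB5.Defs
import Pool.Agent.NB5.KepE

/-!
# At most five bodies take part (project NBO, MP_73d3cc_mp): definitions

The five bodies of NB5 move in the additional field `p` of the other (outside) bodies, which stay in a bounded region at
distance `≥ η` from all bodies. `Pb` : bounds for `p`; `PS` : perturbed solutions (replaces `SolOn (nfield m) (FreeSet 5 d)`).
`Good` gets the conditions `Fast` (otherwise the outside field may deflect slow bodies), the weight `G` gets the part `gS`.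
-/

open MeasureTheory Set Filter Topology Metric
open scoped NNReal ENNReal RealInnerProductSpace

namespace NBO

open HDN NB5

variable {d : ℕ}

/-- bounds for the field `p` of the outside bodies at the state `x` -/
structure Pb (B : ℝ) (x : St d) (p : Cf 5 d) : Prop where
  bd : ∀ i, ‖p i‖ ≤ B / (1 + ‖x.1 i‖) ^ 2
  lip : ∀ i j, ‖p i - p j‖ ≤ B * ‖x.1 i - x.1 j‖

/-- `γ` is a perturbed solution at the times of `S` -/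
def PS (B : ℝ) (m : Fin 5 → ℝ) (p : ℝ → Cf 5 d) (γ : ℝ → St d) (S : Set ℝ) : Prop :=
  ∀ t ∈ S, Free (γ t).1 ∧ Pb B (γ t) (p t) ∧ ContinuousAt p t ∧
    HasDerivAt γ ((γ t).2, acc m (γ t).1 + p t) t

/-- the bodies `Q, 2, 3, 4` are fast -/
structure Fast (P : Par) (b : ℝ) (m : Fin 5 → ℝ) (x : St d) : Prop where
  fQ : b ^ 5 + P.Kg * b ^ 96 / ‖x.2 2 - cm m 0 1 x.2‖ ≤ ‖cm m 0 1 x.2‖
  f2 : b ^ 5 + P.Kg * b ^ 96 / ‖x.2 2 - cm m 0 1 x.2‖ ≤ ‖x.2 2‖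
  f3 : b ^ 5 ≤ ‖x.2 3‖
  f4 : b ^ 5 ≤ ‖x.2 4‖

/-- exits with a slow body -/
noncomputable def gS (P : Par) (b : ℝ) (m : Fin 5 → ℝ) (x : St d) : ℝ≥0∞ :=
  onSet (S1 P b m x ∧ 1 / b ^ 96 ≤ ‖x.1 2 - cm m 0 1 x.1‖ ∧
    ‖x.1 2 - cm m 0 1 x.1‖ ≤ 2 / b ^ 96 ∧ Good P b m x ∧ ¬ Fast P b m x)
    (b ^ 96 * ‖x.2 2 - cm m 0 1 x.2‖ * Wt b (x.1 2 - cm m 0 1 x.1) (x.2 2 - cm m 0 1 x.2))

/-- the additional weight -/
noncomputable def GS (P : Par) (m : Fin 5 → ℝ) (x : St d) : ℝ≥0∞ :=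
  ∑ s : Equiv.Perm (Fin 5), ∑' k : ℕ, gS P (lev (P.k0 + k)) (m ∘ s) (rel s x)

/-- the weight -/
noncomputable def G (P : Par) (m : Fin 5 → ℝ) (x : St d) : ℝ≥0∞ := NB5.G P m x + GS P m x

/-- a perturbed solution on `[τ, T)`, `T - τ ≤ 1`, with small weight and arbitrarily small `Rg 4` -/
structure Cx (P : Par) (ε : ℝ) (m : Fin 5 → ℝ) (p : ℝ → Cf 5 d) (γ : ℝ → St d) (τ T : ℝ) : Prop where
  hm : Mb P.M m
  hτ : τ < T
  hT : T ≤ τ + 1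
  sol : PS P.R m p γ (Ico τ T)
  inv : ∀ t ∈ Ico τ T, γ t ∈ Inv m P.R
  hG : ∫⁻ t in Ico τ T, G P m (γ t) ≤ ENNReal.ofReal ε
  lim : ∀ δ > 0, ∃ t ∈ Ico τ T, Rg 4 (γ t).1 < δ

/-- accumulated relative error -/
noncomputable def Dg (P : Par) (C : ℝ) (m : Fin 5 → ℝ) (γ : ℝ → St d) (t t1 : ℝ) (k1 : ℕ) : ℝ :=
  C * ((∫⁻ s in Icc t t1, G P m (γ s)).toReal + (t1 - t) / lev k1 ^ 50)

/-- strict mode I is reached at the time `t` -/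
def StrI (P : Par) (C : ℝ) (m : Fin 5 → ℝ) (γ : ℝ → St d) (t t1 : ℝ) (k1 k : ℕ) : Prop :=
  k1 ≤ k ∧ t ≤ t1 ∧ TG P m γ t t1 k1 k ∧
    ∃ σ : Equiv.Perm (Fin 5), SI P (Dg P C m γ t t1 k1) (lev k) (m ∘ σ) (rel σ (γ t))

/-- mode III is entered at the time `t` -/
def StrIII (P : Par) (C : ℝ) (m : Fin 5 → ℝ) (γ : ℝ → St d) (t t1 : ℝ) (k1 k : ℕ) : Prop :=
  k1 ≤ k ∧ t ≤ t1 ∧ TG P m γ t t1 k1 k ∧
    ∃ σ : Equiv.Perm (Fin 5), SIII P (Dg P C m γ t t1 k1) (lev k) (m ∘ σ) (rel σ (γ t))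

/-- excursions -/
structure Exc (P : Par) (b : ℝ) (m : Fin 5 → ℝ) (p : ℝ → Cf 5 d) (γ : ℝ → St d) (α β : ℝ) : Prop where
  hαβ : α ≤ β
  sol : PS P.R m p γ (Icc α β)
  inv : ∀ t ∈ Icc α β, γ t ∈ Inv m P.R
  s1 : ∀ t ∈ Icc α β, S1 P b m (γ t)
  near : ∀ t ∈ Icc α β, ‖x2 m γ t‖ ≤ 2 / b ^ 96
  hh_ge : ∀ t ∈ Icc α β, -P.L1 b ≤ hh m 2 (γ t)

end NBO
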