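import Mathlib
import Pool.Agent.NBO.Defs
import Pool.Agent.NB5.VTX

/-!
# Exits with a slow body: Jacobi systems (module NBO-TS)

Follow `NB5/VTX.lean` (`tx`; its private lemmas for the trees C and K give `BoxX`, which is symmetric in the slots 2, 3). `M5 = ∑ m`, `V` = velocity of the centre of mass (`‖V‖ ≤ P.R`), `w = Yc _ 1 x.2 = v 2 - V_Q`, `‖w‖ ≥ Kg b^48 ≥ 1` (`Good.w_ge`).
`ASw = TA t m ∘ swap 2 3` (slots 2 and 3 exchanged). Cases of `¬ Fast`: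
- `f4` fails: tree C, `σ = 1`: slot 2 of `ASw` is `y = q 4 - X_{0123}`, `u = v 4 - V_{0123} = (M5/(M5 - m4)) (v 4 - V)`, `‖u‖ ≤ C (b^5 + R) ≤ C b^10`, `β = 0`.
- `f3` fails: the same with `σ = swap 3 4` (fixes 0, 1, 2).
- `fQ` fails: tree K: slot 2 of `ASw` is `X_{34} - X_{012}`, `u = V_{34} - V_T = (M5/(m3+m4)) (V - V_T)`, and `V_Q = V_T - (m2/mT) w`, so `u + β w = (M5/m34) (V - V_Q)` for `β = -M5 m2/(m34 mT)`... CHECK THE SIGN: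
  `V_T = V_Q + (m2/mT) w`, `u = (M5/m34)(V - V_Q) - (M5/m34)(m2/mT) w`, so `u + (M5/m34)(m2/mT) w = (M5/m34)(V - V_Q)`: `β = M5 m2/(m34 mT)` and `‖V_Q‖ < b^5 + Kg b^96/‖w‖`.
- `f2` fails: `v 2 = V_Q + w = V_T + (mQ/mT) w`: `u - (M5/m34)(mQ/mT) w = (M5/m34)(V - v 2)`: `β = -M5 mQ/(m34 mT)`.
-/

open MeasureTheory Set Filter Topology Metric
open scoped NNReal ENNReal RealInnerProductSpace

namespace NBO

open HDN NB5

variable {d : ℕ}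

/-- the Jacobi matrix of a tree with the slots 2, 3 exchanged -/
noncomputable def ASw (t : Tree) (m : Fin 5 → ℝ) : Fin 4 → Fin 5 → ℝ :=
  fun j => TA t m (Equiv.swap 2 3 j)

/-- the values of `β` -/
noncomputable def Sb (m : Fin 5 → ℝ) : Fin 3 → ℝ :=
  ![0, (m 0 + m 1 + m 2 + m 3 + m 4) * m 2 / ((m 3 + m 4) * (m 0 + m 1 + m 2)),
    -((m 0 + m 1 + m 2 + m 3 + m 4) * (m 0 + m 1) / ((m 3 + m 4) * (m 0 + m 1 + m 2)))]

section Aux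

private theorem TS_box_mono {A : Fin 4 → Fin 5 → ℝ} {C C' b : ℝ} {x : St d} (hb : 0 < b)
    (hC : C ≤ C') (h : BoxX A C b x) : BoxX A C' b x := by
  obtain ⟨h1, h2, h3, h4, h5, h6, h7, h8⟩ := h
  have hb200 : 0 < b ^ 200 := by positivity
  have hb100 : 0 < b ^ 100 := by positivity
  have e : C * b ^ 100 ≤ C' * b ^ 100 := mul_le_mul_of_nonneg_right hC hb100.le
  exact ⟨h1.trans (div_le_div_of_nonneg_right hC hb200.le),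
    h2.trans (div_le_div_of_nonneg_right hC (Real.sqrt_nonneg _)), h3, h4.trans e, h5.trans e,
    h6.trans e, h7.trans e, h8.trans e⟩

private theorem TS_fin4 : ∀ j : Fin 4, ¬ j = 0 → 1 ≤ j := by
  decide

private theorem TS_box (P : Par) : ∃ C0 C K : ℝ, 1 ≤ C0 ∧ 1 ≤ C ∧ 1 ≤ K ∧
    ∀ {d : ℕ} (m : Fin 5 → ℝ) (b : ℝ) (x : St d), Mb P.M m → K ≤ b → x ∈ Inv m P.R →
    S1 P b m x → ‖x.1 2 - cm m 0 1 x.1‖ ≤ 2 / b ^ 96 →
    ‖cm m 0 1 x.2‖ ≤ C0 * b ^ 100 ∧ (∀ j : Fin 5, 2 ≤ j → ‖x.2 j‖ ≤ C0 * b ^ 100) ∧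
    ∀ σ : Equiv.Perm (Fin 5), σ 0 = 0 → σ 1 = 1 → σ 2 = 2 → ∀ t : Tree, (t = .C ∨ t = .K) →
      Yc (TA t (m ∘ σ)) 1 (rel σ x).1 = x.1 2 - cm m 0 1 x.1 ∧
      Yc (TA t (m ∘ σ)) 1 (rel σ x).2 = x.2 2 - cm m 0 1 x.2 ∧
      BoxX (TA t (m ∘ σ)) C b (rel σ x) := by
  obtain ⟨C0, K, hC0, hK, hfacts⟩ := s1_factsX P
  have hM0 : 0 < P.M := lt_of_lt_of_le one_pos P.hM
  obtain ⟨C1, hC1, hjpos⟩ := jpos (R := P.R) (l := 1 / (2 * P.M)) (u := 5 * P.M)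
    (zero_le_one.trans P.hR) (by positivity) (by positivity)
  have hCr : 0 ≤ P.Cr := by
    unfold Par.Cr
    positivity
  set E : ℝ := C0 * (1 + P.Cr) with hE
  have hE1 : 1 ≤ E := by
    have : 1 * 1 ≤ C0 * (1 + P.Cr) := mul_le_mul hC0 (by linarith) zero_le_one (by linarith)
    linarith
  refine ⟨C0, P.Cr + 2 * C0 + C1 * (2 * C0 + √E), K, hC0, ?_, hK, ?_⟩
  · have : 0 ≤ C1 * (2 * C0 + √E) := by positivity
    linarith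
  intro d m b x hm hb hx hS hx2
  obtain ⟨hv0, hvc, hvj⟩ := hfacts m b x hm hb hx hS hx2
  have hb1 : 1 ≤ b := hK.trans hb
  have hb0 : 0 < b := by linarith
  have hb100 : 1 ≤ b ^ 100 := one_le_pow₀ hb1
  have hb200 : 1 ≤ b ^ 200 := one_le_pow₀ hb1
  refine ⟨hvc, hvj, ?_⟩
  intro σ s0 s1 s2 t ht
  have hmpos : ∀ i, 0 < m i := fun i => lt_of_lt_of_le (by positivity) (hm.2 i).1
  have hmpos' : ∀ i, 0 < (m ∘ σ) i := fun i => hmpos (σ i)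
  have hcm : ∀ q : Cf 5 d, cm (m ∘ σ) 0 1 (q ∘ σ) = cm m 0 1 q := by
    intro q
    unfold cm
    simp only [Function.comp_apply, s0, s1]
  have hq2 : ∀ q : Cf 5 d, (q ∘ σ) 2 = q 2 := fun q => by
    rw [Function.comp_apply, s2]
  have hY1 : ∀ q : Cf 5 d, Yc (TA t (m ∘ σ)) 1 (q ∘ σ) = q 2 - cm m 0 1 q := by
    intro q
    rcases ht with rfl | rfl
    · rw [ycC1 hmpos', hcm, hq2]
    · rw [ycK1 hmpos', hcm, hq2]
  have hY0 : ∀ q : Cf 5 d, Yc (TA t (m ∘ σ)) 0 (q ∘ σ) = q 0 - q 1 := by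
    intro q
    rw [yc0]
    simp only [Function.comp_apply, s0, s1]
  have hx' : rel σ x ∈ Inv (m ∘ σ) P.R := (inv_relV m P.R σ x).2 hx
  have hvel : ∀ j : Fin 4, 1 ≤ j → ‖Yc (TA t (m ∘ σ)) j (rel σ x).2‖ ≤ 2 * (C0 * b ^ 100) := by
    intro j hj
    refine yc_vel hmpos' t _ ?_ ?_ j hj
    · have h1 : cm (m ∘ σ) 0 1 (rel σ x).2 = cm m 0 1 x.2 := hcm x.2
      rw [h1]
      exact hvc
    · intro k hk
      show ‖x.2 (σ k)‖ ≤ C0 * b ^ 100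
      apply hvj
      by_contra hcon
      have h3 : σ k = 0 ∨ σ k = 1 := by
        have h4 : σ k < 2 := not_le.1 hcon
        revert h4
        generalize σ k = z
        revert z
        decide
      rcases h3 with h3 | h3
      · have h4 : k = 0 := σ.injective (h3.trans s0.symm)
        rw [h4] at hk
        exact absurd hk (by decide)
      · have h4 : k = 1 := σ.injective (h3.trans s1.symm)
        rw [h4] at hk
        exact absurd hk (by decide)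
  have e01 : Yc (TA t (m ∘ σ)) 0 (rel σ x).1 = x.1 0 - x.1 1 := hY0 x.1
  have e02 : Yc (TA t (m ∘ σ)) 0 (rel σ x).2 = x.2 0 - x.2 1 := hY0 x.2
  have e11 : Yc (TA t (m ∘ σ)) 1 (rel σ x).1 = x.1 2 - cm m 0 1 x.1 := hY1 x.1
  have e12 : Yc (TA t (m ∘ σ)) 1 (rel σ x).2 = x.2 2 - cm m 0 1 x.2 := hY1 x.2
  have hrle : ‖x.1 0 - x.1 1‖ ≤ P.Cr := by
    refine hS.r_le.trans (div_le_self hCr hb200)
  have hpos : ∀ j, ‖Yc (TA t (m ∘ σ)) j (rel σ x).1‖ ≤ C1 * (2 * C0 * b ^ 100 + √E) := by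
    refine hjpos (tree_jac t hmpos') (fun j => tmu_bd (mb_perm hm σ) t j) (rel σ x)
      hx'.2.2.2.2.2 E (2 * C0 * b ^ 100) hE1 (by positivity) ?_
    intro j
    have hnn : 0 ≤ 2 * C0 * b ^ 100 * ‖Yc (TA t (m ∘ σ)) j (rel σ x).1‖ := by positivity
    by_cases hj : j = 0
    · rw [hj] at hnn ⊢
      rw [e01] at hnn ⊢
      rw [e02]
      have h1 : ‖x.1 0 - x.1 1‖ * ‖x.2 0 - x.2 1‖ ≤ C0 * √‖x.1 0 - x.1 1‖ := by
        rcases (norm_nonneg (x.1 0 - x.1 1)).eq_or_lt with h | h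
        · rw [← h, zero_mul, Real.sqrt_zero, mul_zero]
        · have h2 := mul_le_mul_of_nonneg_left hv0 h.le
          refine h2.trans (le_of_eq ?_)
          have h3 : √‖x.1 0 - x.1 1‖ * √‖x.1 0 - x.1 1‖ = ‖x.1 0 - x.1 1‖ :=
            Real.mul_self_sqrt h.le
          have h4 : √‖x.1 0 - x.1 1‖ ≠ 0 := (Real.sqrt_pos.2 h).ne'
          conv_lhs => rw [← h3]
          rw [h3]
          rw [mul_div_assoc', div_eq_iff h4]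
          linear_combination -C0 * h3
      have h5 : √‖x.1 0 - x.1 1‖ ≤ 1 + P.Cr := by
        rw [Real.sqrt_le_left (by linarith)]
        nlinarith
      have h6 : C0 * √‖x.1 0 - x.1 1‖ ≤ E := mul_le_mul_of_nonneg_left h5 (by linarith)
      linarith
    · have hj1 : 1 ≤ j := TS_fin4 j hj
      have h1 := mul_le_mul_of_nonneg_left (hvel j hj1)
        (norm_nonneg (Yc (TA t (m ∘ σ)) j (rel σ x).1))
      have h2 : ‖Yc (TA t (m ∘ σ)) j (rel σ x).1‖ * (2 * (C0 * b ^ 100))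
          = 2 * C0 * b ^ 100 * ‖Yc (TA t (m ∘ σ)) j (rel σ x).1‖ := by ring
      linarith
  have hsE : 0 ≤ √E := Real.sqrt_nonneg _
  have hpos' : ∀ j, ‖Yc (TA t (m ∘ σ)) j (rel σ x).1‖
      ≤ (P.Cr + 2 * C0 + C1 * (2 * C0 + √E)) * b ^ 100 := by
    intro j
    refine (hpos j).trans ?_
    have h1 : √E ≤ √E * b ^ 100 := le_mul_of_one_le_right hsE hb100
    have h2 : C1 * (2 * C0 * b ^ 100 + √E) ≤ C1 * ((2 * C0 + √E) * b ^ 100) := by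
      refine mul_le_mul_of_nonneg_left ?_ (by linarith)
      linarith
    have h3 : 0 ≤ (P.Cr + 2 * C0) * b ^ 100 := by positivity
    linarith
  have hvel' : ∀ j : Fin 4, 1 ≤ j → ‖Yc (TA t (m ∘ σ)) j (rel σ x).2‖
      ≤ (P.Cr + 2 * C0 + C1 * (2 * C0 + √E)) * b ^ 100 := by
    intro j hj
    refine (hvel j hj).trans ?_
    have h3 : 0 ≤ (P.Cr + C1 * (2 * C0 + √E)) * b ^ 100 := by positivity
    linarith
  have hCC : 0 ≤ C1 * (2 * C0 + √E) := by positivity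
  refine ⟨e11, e12, ?_, ?_, ?_, hvel' 1 le_rfl, hpos' 2, hvel' 2 (by decide), hpos' 3,
    hvel' 3 (by decide)⟩
  · rw [e01]
    exact hS.r_le.trans (div_le_div_of_nonneg_right (by linarith) (by positivity))
  · rw [e01, e02]
    exact hv0.trans (div_le_div_of_nonneg_right (by linarith) (Real.sqrt_nonneg _))
  · rw [e11]
    exact hx2

private theorem TS_C3 {m : Fin 5 → ℝ} (hm : ∀ i, 0 < m i) (v : Cf 5 d) :
    Yc (TA .C m) 3 v =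
      ((m 0 + m 1 + m 2 + m 3 + m 4) / (m 0 + m 1 + m 2 + m 3)) • (v 4 - cmv m v) := by
  have h0 := hm 0
  have h1 := hm 1
  have h2 := hm 2
  have h3 := hm 3
  have h4 := hm 4
  unfold Yc cmv
  simp only [Fin.sum_univ_five, TA, Matrix.cons_val]
  match_scalars <;> field_simp <;> ring

private theorem TS_K3a {m : Fin 5 → ℝ} (hm : ∀ i, 0 < m i) (v : Cf 5 d) :
    Yc (TA .K m) 3 v + ((m 0 + m 1 + m 2 + m 3 + m 4) * m 2 /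
        ((m 3 + m 4) * (m 0 + m 1 + m 2))) • (v 2 - cm m 0 1 v) =
      ((m 0 + m 1 + m 2 + m 3 + m 4) / (m 3 + m 4)) • (cmv m v - cm m 0 1 v) := by
  have h0 := hm 0
  have h1 := hm 1
  have h2 := hm 2
  have h3 := hm 3
  have h4 := hm 4
  unfold Yc cmv cm
  simp only [Fin.sum_univ_five, TA, Matrix.cons_val]
  match_scalars <;> field_simp <;> ring

private theorem TS_K3b {m : Fin 5 → ℝ} (hm : ∀ i, 0 < m i) (v : Cf 5 d) :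
    Yc (TA .K m) 3 v + (-((m 0 + m 1 + m 2 + m 3 + m 4) * (m 0 + m 1) /
        ((m 3 + m 4) * (m 0 + m 1 + m 2)))) • (v 2 - cm m 0 1 v) =
      ((m 0 + m 1 + m 2 + m 3 + m 4) / (m 3 + m 4)) • (cmv m v - v 2) := by
  have h0 := hm 0
  have h1 := hm 1
  have h2 := hm 2
  have h3 := hm 3
  have h4 := hm 4
  unfold Yc cmv cm
  simp only [Fin.sum_univ_five, TA, Matrix.cons_val]
  match_scalars <;> field_simp <;> ring

private theorem TS_cmv_perm (m : Fin 5 → ℝ) (σ : Equiv.Perm (Fin 5)) (v : Cf 5 d) :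
    cmv (m ∘ σ) (v ∘ σ) = cmv m v := by
  unfold cmv
  simp only [Function.comp_apply]
  rw [Equiv.sum_comp σ m, Equiv.sum_comp σ (fun a => m a • v a)]

private theorem TS_boxsw {t : Tree} {m : Fin 5 → ℝ} {C b : ℝ} {x : St d}
    (h : BoxX (TA t m) C b x) : BoxX (ASw t m) C b x := by
  obtain ⟨h1, h2, h3, h4, h5, h6, h7, h8⟩ := h
  have s0 : Equiv.swap (2 : Fin 4) 3 0 = 0 := by decide
  have s1 : Equiv.swap (2 : Fin 4) 3 1 = 1 := by decide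
  have s2 : Equiv.swap (2 : Fin 4) 3 2 = 3 := by decide
  have s3 : Equiv.swap (2 : Fin 4) 3 3 = 2 := by decide
  have e : ∀ (j : Fin 4) (q : Cf 5 d),
      Yc (ASw t m) j q = Yc (TA t m) (Equiv.swap 2 3 j) q := fun _ _ => rfl
  unfold BoxX
  simp only [e, s0, s1, s2, s3]
  exact ⟨h1, h2, h3, h4, h7, h8, h5, h6⟩

private theorem TS_est {M R Kg b w c : ℝ} (hM : 1 ≤ M) (hR : 1 ≤ R) (hKg : 1 ≤ Kg) (hb : 1 ≤ b)
    (hw : 1 ≤ w) (_hc0 : 0 ≤ c) (hc : c ≤ 5 * M ^ 2) {U V Z : Sp d} (hU : ‖U‖ = c * ‖V - Z‖)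
    (hV : ‖V‖ ≤ R) (hZ : ‖Z‖ ≤ b ^ 5 + Kg * b ^ 96 / w) :
    ‖U‖ ≤ 5 * M ^ 2 * (1 + R + Kg) * (b ^ 10 + b ^ 96 / w) := by
  have hb0 : 0 < b := by linarith
  have h1 : ‖V - Z‖ ≤ (1 + R + Kg) * (b ^ 10 + b ^ 96 / w) := by
    have hq : 0 ≤ b ^ 96 / w := by positivity
    have h5 : b ^ 5 ≤ b ^ 10 := pow_le_pow_right₀ hb (by norm_num)
    have h10 : 1 ≤ b ^ 10 := one_le_pow₀ hb
    have e1 : Kg * b ^ 96 / w = Kg * (b ^ 96 / w) := by ring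
    rw [e1] at hZ
    have h2 := norm_sub_le V Z
    nlinarith [mul_nonneg (show (0 : ℝ) ≤ R by linarith) (show (0 : ℝ) ≤ b ^ 10 - 1 by linarith),
      mul_nonneg (show (0 : ℝ) ≤ 1 + R by linarith) hq,
      mul_nonneg (show (0 : ℝ) ≤ Kg by linarith) (show (0 : ℝ) ≤ b ^ 10 by linarith)]
  rw [hU]
  calc c * ‖V - Z‖ ≤ 5 * M ^ 2 * ((1 + R + Kg) * (b ^ 10 + b ^ 96 / w)) :=
        mul_le_mul hc h1 (norm_nonneg _) (by positivity)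
    _ = _ := by ring

private theorem TS_ratio {M : ℝ} {m : Fin 5 → ℝ} (hm : Mb M m) :
    (0 ≤ (m 0 + m 1 + m 2 + m 3 + m 4) / (m 0 + m 1 + m 2 + m 3) ∧
      (m 0 + m 1 + m 2 + m 3 + m 4) / (m 0 + m 1 + m 2 + m 3) ≤ 5 * M ^ 2) ∧
    (0 ≤ (m 0 + m 1 + m 2 + m 3 + m 4) / (m 3 + m 4) ∧
      (m 0 + m 1 + m 2 + m 3 + m 4) / (m 3 + m 4) ≤ 5 * M ^ 2) := by
  have hM0 : 0 < M := lt_of_lt_of_le one_pos hm.1
  have hpos : ∀ i, 0 < m i := fun i => lt_of_lt_of_le (by positivity) (hm.2 i).1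
  have hlo : ∀ i, 1 ≤ m i * M := by
    intro i
    have h := (hm.2 i).1
    rwa [div_le_iff₀ hM0] at h
  have h0 := hpos 0
  have h1 := hpos 1
  have h2 := hpos 2
  have h3 := hpos 3
  have h4 := hpos 4
  have hs : m 0 + m 1 + m 2 + m 3 + m 4 ≤ 5 * M := by
    linarith [(hm.2 0).2, (hm.2 1).2, (hm.2 2).2, (hm.2 3).2, (hm.2 4).2]
  refine ⟨⟨by positivity, ?_⟩, ⟨by positivity, ?_⟩⟩
  · rw [div_le_iff₀ (by positivity)]
    nlinarith [hlo 0, mul_pos hM0 h1, mul_pos hM0 h2, mul_pos hM0 h3]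
  · rw [div_le_iff₀ (by positivity)]
    nlinarith [hlo 3, mul_pos hM0 h4]

end Aux

theorem ts (P : Par) : ∃ C K : ℝ, 1 ≤ C ∧ 1 ≤ K ∧
    ∀ {d : ℕ} (m : Fin 5 → ℝ) (b : ℝ) (x : St d), Mb P.M m → K ≤ b → x ∈ Inv m P.R →
    S1 P b m x → ‖x.1 2 - cm m 0 1 x.1‖ ≤ 2 / b ^ 96 → Good P b m x → ¬ Fast P b m x →
    ∃ (σ : Equiv.Perm (Fin 5)) (t : Tree) (l : Fin 3),
      Yc (ASw t (m ∘ σ)) 1 (rel σ x).1 = x.1 2 - cm m 0 1 x.1 ∧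
      Yc (ASw t (m ∘ σ)) 1 (rel σ x).2 = x.2 2 - cm m 0 1 x.2 ∧
      BoxX (ASw t (m ∘ σ)) C b (rel σ x) ∧
      CondX 2 (ASw t (m ∘ σ)) C (Sb (m ∘ σ) l) b (rel σ x) := by
  obtain ⟨C0, C1, K, hC0, hC1, hK, hbox⟩ := TS_box P
  have hKg : 1 ≤ P.Kg := by
    refine le_trans ?_ P.hK
    have h1 : (1 : ℝ) ≤ P.M ^ 6 := one_le_pow₀ P.hM
    linarith
  have hM0 : 0 < P.M := lt_of_lt_of_le one_pos P.hM
  have hR := P.hR
  have hDnn : 0 ≤ 5 * P.M ^ 2 * (1 + P.R + P.Kg) :=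
    mul_nonneg (by positivity) (by linarith)
  refine ⟨C1 + 5 * P.M ^ 2 * (1 + P.R + P.Kg), K, by linarith, hK, ?_⟩
  intro d m b x hm hb hx hS hx2 hg hnf
  have hb1 : 1 ≤ b := hK.trans hb
  have hb0 : 0 < b := by linarith
  obtain ⟨hvc, hvj, hB⟩ := hbox m b x hm hb hx hS hx2
  have hmpos : ∀ i, 0 < m i := fun i => lt_of_lt_of_le (by positivity) (hm.2 i).1
  have hw1 : 1 ≤ ‖x.2 2 - cm m 0 1 x.2‖ := by
    refine le_trans ?_ hg.w_ge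
    have h1 : 1 ≤ b ^ 48 := one_le_pow₀ hb1
    calc (1 : ℝ) = 1 * 1 := (one_mul 1).symm
      _ ≤ P.Kg * b ^ 48 := mul_le_mul hKg h1 zero_le_one (by linarith)
  have hq : 0 ≤ b ^ 96 / ‖x.2 2 - cm m 0 1 x.2‖ := by positivity
  have hV : ‖cmv m x.2‖ ≤ P.R := hx.2.2.2.2.1
  have hV' : ∀ σ : Equiv.Perm (Fin 5), ‖cmv (m ∘ σ) (rel σ x).2‖ ≤ P.R := by
    intro σ
    have h : cmv (m ∘ σ) (rel σ x).2 = cmv m x.2 := TS_cmv_perm m σ x.2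
    rw [h]
    exact hV
  have e5 : 0 ≤ P.Kg * b ^ 96 / ‖x.2 2 - cm m 0 1 x.2‖ :=
    div_nonneg (mul_nonneg (by linarith) (by positivity)) (norm_nonneg _)
  -- it suffices to find a permutation, a tree and a bound
  have main : ∀ σ : Equiv.Perm (Fin 5), σ 0 = 0 → σ 1 = 1 → σ 2 = 2 → ∀ t : Tree,
      (t = .C ∨ t = .K) → ∀ (l : Fin 3),
      ‖Yc (TA t (m ∘ σ)) 3 (rel σ x).2 + Sb (m ∘ σ) l • (x.2 2 - cm m 0 1 x.2)‖
        ≤ 5 * P.M ^ 2 * (1 + P.R + P.Kg) *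
          (b ^ 10 + b ^ 96 / ‖x.2 2 - cm m 0 1 x.2‖) →
      ∃ (σ : Equiv.Perm (Fin 5)) (t : Tree) (l : Fin 3),
      Yc (ASw t (m ∘ σ)) 1 (rel σ x).1 = x.1 2 - cm m 0 1 x.1 ∧
      Yc (ASw t (m ∘ σ)) 1 (rel σ x).2 = x.2 2 - cm m 0 1 x.2 ∧
      BoxX (ASw t (m ∘ σ)) (C1 + 5 * P.M ^ 2 * (1 + P.R + P.Kg)) b (rel σ x) ∧
      CondX 2 (ASw t (m ∘ σ)) (C1 + 5 * P.M ^ 2 * (1 + P.R + P.Kg)) (Sb (m ∘ σ) l) b
        (rel σ x) := by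
    intro σ s0 s1 s2 t ht l hc
    obtain ⟨h1, h2, h3⟩ := hB σ s0 s1 s2 t ht
    have f1 : Yc (ASw t (m ∘ σ)) 1 (rel σ x).1 = x.1 2 - cm m 0 1 x.1 := h1
    have f2 : Yc (ASw t (m ∘ σ)) 1 (rel σ x).2 = x.2 2 - cm m 0 1 x.2 := h2
    have f3 : Yc (ASw t (m ∘ σ)) 2 (rel σ x).2 = Yc (TA t (m ∘ σ)) 3 (rel σ x).2 := rfl
    refine ⟨σ, t, l, f1, f2, TS_boxsw (TS_box_mono hb0 (by linarith) h3), ?_⟩
    show 1 ≤ ‖Yc (ASw t (m ∘ σ)) 1 (rel σ x).2‖ ∧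
      ‖Yc (ASw t (m ∘ σ)) 2 (rel σ x).2 + Sb (m ∘ σ) l • Yc (ASw t (m ∘ σ)) 1 (rel σ x).2‖ ≤
        (C1 + 5 * P.M ^ 2 * (1 + P.R + P.Kg)) *
          (b ^ 10 + b ^ 96 / ‖Yc (ASw t (m ∘ σ)) 1 (rel σ x).2‖)
    rw [f2, f3]
    exact ⟨hw1, hc.trans (mul_le_mul_of_nonneg_right (by linarith) (by positivity))⟩
  have one0 : (1 : Equiv.Perm (Fin 5)) 0 = 0 := rfl
  have one1 : (1 : Equiv.Perm (Fin 5)) 1 = 1 := rfl
  have one2 : (1 : Equiv.Perm (Fin 5)) 2 = 2 := rfl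
  have sw0 : Equiv.swap (3 : Fin 5) 4 0 = 0 := by decide
  have sw1 : Equiv.swap (3 : Fin 5) 4 1 = 1 := by decide
  have sw2 : Equiv.swap (3 : Fin 5) 4 2 = 2 := by decide
  have sw4 : Equiv.swap (3 : Fin 5) 4 4 = 3 := by decide
  -- a slow body among 3, 4
  have slow : ∀ σ : Equiv.Perm (Fin 5), σ 0 = 0 → σ 1 = 1 → σ 2 = 2 → ‖x.2 (σ 4)‖ < b ^ 5 →
      ‖Yc (TA .C (m ∘ σ)) 3 (rel σ x).2 + Sb (m ∘ σ) 0 • (x.2 2 - cm m 0 1 x.2)‖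
        ≤ 5 * P.M ^ 2 * (1 + P.R + P.Kg) *
          (b ^ 10 + b ^ 96 / ‖x.2 2 - cm m 0 1 x.2‖) := by
    intro σ s0 s1 s2 hs
    have hz : Sb (m ∘ σ) 0 = 0 := rfl
    have hmpos' : ∀ i, 0 < (m ∘ σ) i := fun i => hmpos (σ i)
    rw [hz, zero_smul, add_zero, TS_C3 hmpos']
    obtain ⟨⟨r0, r1⟩, _⟩ := TS_ratio (mb_perm hm σ)
    refine TS_est P.hM hR hKg hb1 hw1 r0 r1 (V := cmv (m ∘ σ) (rel σ x).2) (Z := x.2 (σ 4))
      ?_ (hV' σ) ?_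
    · rw [norm_smul, Real.norm_of_nonneg r0, norm_sub_rev]
      rfl
    · linarith
  by_cases f4 : b ^ 5 ≤ ‖x.2 4‖
  swap
  · exact main 1 one0 one1 one2 .C (Or.inl rfl) 0 (slow 1 one0 one1 one2 (not_le.1 f4))
  by_cases f3 : b ^ 5 ≤ ‖x.2 3‖
  swap
  · refine main (Equiv.swap 3 4) sw0 sw1 sw2 .C (Or.inl rfl) 0
      (slow (Equiv.swap 3 4) sw0 sw1 sw2 ?_)
    rw [sw4]
    exact not_le.1 f3
  obtain ⟨_, ⟨r0, r1⟩⟩ := TS_ratio hm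
  by_cases fQ : b ^ 5 + P.Kg * b ^ 96 / ‖x.2 2 - cm m 0 1 x.2‖ ≤ ‖cm m 0 1 x.2‖
  swap
  · refine main 1 one0 one1 one2 .K (Or.inr rfl) 1 ?_
    refine TS_est P.hM hR hKg hb1 hw1 r0 r1 (V := cmv m x.2) (Z := cm m 0 1 x.2)
      ?_ hV (not_le.1 fQ).le
    have h : Yc (TA .K (m ∘ (1 : Equiv.Perm (Fin 5)))) 3 (rel 1 x).2 +
        Sb (m ∘ (1 : Equiv.Perm (Fin 5))) 1 • (x.2 2 - cm m 0 1 x.2) =
        ((m 0 + m 1 + m 2 + m 3 + m 4) / (m 3 + m 4)) • (cmv m x.2 - cm m 0 1 x.2) :=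
      TS_K3a hmpos x.2
    rw [h, norm_smul, Real.norm_of_nonneg r0]
  by_cases f2 : b ^ 5 + P.Kg * b ^ 96 / ‖x.2 2 - cm m 0 1 x.2‖ ≤ ‖x.2 2‖
  swap
  · refine main 1 one0 one1 one2 .K (Or.inr rfl) 2 ?_
    refine TS_est P.hM hR hKg hb1 hw1 r0 r1 (V := cmv m x.2) (Z := x.2 2)
      ?_ hV (not_le.1 f2).le
    have h : Yc (TA .K (m ∘ (1 : Equiv.Perm (Fin 5)))) 3 (rel 1 x).2 +
        Sb (m ∘ (1 : Equiv.Perm (Fin 5))) 2 • (x.2 2 - cm m 0 1 x.2) =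
        ((m 0 + m 1 + m 2 + m 3 + m 4) / (m 3 + m 4)) • (cmv m x.2 - x.2 2) :=
      TS_K3b hmpos x.2
    rw [h, norm_smul, Real.norm_of_nonneg r0]
  exact absurd ⟨fQ, f2, f3, f4⟩ hnf

end NBO
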