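import Mathlib
import Pool.Agent.NBO.TS
import Pool.Agent.NB5.VAsX
import Pool.Agent.NB5.VX2

/-!
# The integral of gS (module NBO-AsS)

The proof of `asX` (`NB5/VAsX.lean`) with `ts` and `boxX2`, for the Jacobi matrices `ASw t (m ∘ σ)` (`asw_jac`):
`gS P b m x ≤ ∑ σ t l, gXb 2 (ASw t (m ∘ σ)) C (Sb (m ∘ σ) l) b (rel σ x)`, and `rel_sum`.
-/

open MeasureTheory Set Filter Topology Metric
open scoped NNReal ENNReal RealInnerProductSpace

namespace NBO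

open HDN NB5

variable {d : ℕ}

private theorem asw_jac {m : Fin 5 → ℝ} (t : Tree) (hm : ∀ i, 0 < m i) :
    Jac m (ASw t m) (fun j => Tμ t m (Equiv.swap 2 3 j)) := by
  have hj : Jac m (TA t m) (Tμ t m) := tree_jac (m := m) t hm
  refine ⟨hj.mpos, fun j => hj.pos _, fun j => hj.zero _, fun i j => ?_⟩
  have h1 := hj.orth (Equiv.swap 2 3 i) (Equiv.swap 2 3 j)
  have h2 : (Equiv.swap 2 3 i = Equiv.swap (2 : Fin 4) 3 j) ↔ i = j := (Equiv.swap (2 : Fin 4) 3).injective.eq_iff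
  unfold ASw
  rw [h1]
  by_cases h : i = j
  · rw [if_pos (h2.2 h), if_pos h]
  · rw [if_neg (fun h' => h (h2.1 h')), if_neg h]

theorem asS (P : Par) : ∃ K : ℝ, 1 ≤ K ∧ ∀ {d : ℕ}, 3 ≤ d → d ≤ 5 → ∀ m : Fin 5 → ℝ, Mb P.M m →
    ∃ C : ℝ, 0 < C ∧ ∀ b : ℝ, K ≤ b →
    ∫⁻ x : St d in Inv m P.R, gS P b m x ≤ ENNReal.ofReal (C / b) := by
  obtain ⟨C1, K, hC1, hK, hts⟩ := ts P
  refine ⟨K, hK, ?_⟩
  intro d hd hd5 m hm
  have hR : 0 ≤ P.R := by linarith [P.hR]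
  -- the constants of the boxes
  have hbox : ∀ (σ : Equiv.Perm (Fin 5)) (t : Tree), ∃ C' : ℝ, 0 < C' ∧
      ∀ b β : ℝ, 1 ≤ b → ∫⁻ x : St d in Inv (m ∘ σ) P.R, gXb 2 (ASw t (m ∘ σ)) C1 β b x ≤
        ENNReal.ofReal (C' / b) := by
    intro σ t
    have hm' := mb_perm hm σ
    have hpos : ∀ i, 0 < (m ∘ σ) i := by
      intro i
      have h1 := (hm'.2 i).1
      have hM : 0 < P.M := by linarith [P.hM]
      exact lt_of_lt_of_le (by positivity) h1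
    exact boxX2 hd hd5 (asw_jac t hpos) hR hC1
  choose Cf hCf hInt using hbox
  set B : ℝ := ∑ σ : Equiv.Perm (Fin 5), ∑ t : Tree, Cf σ t with hB
  have hCB : ∀ σ t, Cf σ t ≤ B := by
    intro σ t
    have h2 : Cf σ t ≤ ∑ t : Tree, Cf σ t :=
      Finset.single_le_sum (f := fun t => Cf σ t) (fun j _ => (hCf σ j).le) (Finset.mem_univ t)
    have h3 : (∑ t : Tree, Cf σ t) ≤ B :=
      Finset.single_le_sum (f := fun σ => ∑ t : Tree, Cf σ t)
        (fun j _ => Finset.sum_nonneg fun k _ => (hCf j k).le) (Finset.mem_univ σ)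
    linarith
  have hB0 : 0 < B := lt_of_lt_of_le (hCf 1 Tree.C) (hCB 1 Tree.C)
  refine ⟨(120 * Fintype.card (Tree × Fin 3) : ℕ) * B, ?_, ?_⟩
  · have h1 : 0 < Fintype.card (Tree × Fin 3) := Fintype.card_pos_iff.mpr ⟨(Tree.C, 0)⟩
    have h2 : (0 : ℝ) < ((120 * Fintype.card (Tree × Fin 3) : ℕ) : ℝ) := by
      exact_mod_cast Nat.mul_pos (by norm_num) h1
    positivity
  intro b hb
  have hb1 : 1 ≤ b := hK.trans hb
  have hb0 : 0 < b := by linarith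
  have key := rel_sum (d := d) (ι := Tree × Fin 3) m P.R (gS P b m)
    (fun σ k => gXb 2 (ASw k.1 (m ∘ σ)) C1 (Sb (m ∘ σ) k.2) b)
    (fun σ k => measurable_gXb _ _ _ _ _) (ENNReal.ofReal (B / b)) ?_ ?_
  · refine key.trans ?_
    rw [mul_div_assoc, ENNReal.ofReal_mul (by positivity), ENNReal.ofReal_natCast]
  · rintro σ ⟨t, l⟩
    refine (hInt σ t b _ hb1).trans ?_
    apply ENNReal.ofReal_le_ofReal
    exact div_le_div_of_nonneg_right (hCB σ t) hb0.le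
  · intro x hx
    by_cases h : S1 P b m x ∧ 1 / b ^ 96 ≤ ‖x.1 2 - cm m 0 1 x.1‖ ∧
        ‖x.1 2 - cm m 0 1 x.1‖ ≤ 2 / b ^ 96 ∧ Good P b m x ∧ ¬ Fast P b m x
    · obtain ⟨σ, t, l, e1, e2, h5, h6⟩ := hts m b x hm hb hx h.1 h.2.2.1 h.2.2.2.1 h.2.2.2.2
      have hle : gS P b m x ≤
          gXb 2 (ASw t (m ∘ σ)) C1 (Sb (m ∘ σ) l) b (rel σ x) := by
        have g1 : gS P b m x = ENNReal.ofReal (b ^ 96 * ‖x.2 2 - cm m 0 1 x.2‖ *
            Wt b (x.1 2 - cm m 0 1 x.1) (x.2 2 - cm m 0 1 x.2)) := if_pos h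
        have g2 : gXb 2 (ASw t (m ∘ σ)) C1 (Sb (m ∘ σ) l) b (rel σ x) =
            ENNReal.ofReal (b ^ 96 * ‖Yc (ASw t (m ∘ σ)) 1 (rel σ x).2‖ *
            Wt b (Yc (ASw t (m ∘ σ)) 1 (rel σ x).1) (Yc (ASw t (m ∘ σ)) 1 (rel σ x).2)) :=
          if_pos (And.intro h5 h6)
        rw [g1, g2, e1, e2]
      refine hle.trans ?_
      have h7 := Finset.single_le_sum (s := Finset.univ) (a := ((t, l) : Tree × Fin 3))
        (f := fun k : Tree × Fin 3 =>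
          gXb 2 (ASw k.1 (m ∘ σ)) C1 (Sb (m ∘ σ) k.2) b (rel σ x))
          (fun _ _ => bot_le) (Finset.mem_univ _)
      have h8 := Finset.single_le_sum (s := Finset.univ) (a := σ)
        (f := fun σ : Equiv.Perm (Fin 5) => ∑ k : Tree × Fin 3,
            gXb 2 (ASw k.1 (m ∘ σ)) C1 (Sb (m ∘ σ) k.2) b (rel σ x))
          (fun _ _ => bot_le) (Finset.mem_univ _)
      exact h7.trans h8
    · have : gS P b m x = 0 := by
        unfold gS onSet
        rw [if_neg h]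
      rw [this]
      exact bot_le

end NBO
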