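import Mathlib
import Pool.Agent.NBO.AsS
import Pool.Agent.NB5.VFin
import Pool.Agent.NB5.MMeas

/-!
# Finiteness of the integral of the weight (module NBO-SFin)

The weight `G` is `NB5.G` plus the additional weight `GS`. Measurability of both parts; the integral
over `Inv m P.R` is finite: `NB5.G_fin` for the first part, `asS` and a geometric series for the
second one.
-/

open MeasureTheory Set Filter Topology Metric
open scoped NNReal ENNReal RealInnerProductSpace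

namespace NBO

open HDN NB5

variable {d : ℕ}

private theorem SFin_fast (P : Par) (b : ℝ) (m : Fin 5 → ℝ) :
    MeasurableSet {x : St d | Fast P b m x} := by
  have h1 : {x : St d | Fast P b m x} =
      {x : St d | b ^ 5 + P.Kg * b ^ 96 / ‖x.2 2 - cm m 0 1 x.2‖ ≤ ‖cm m 0 1 x.2‖} ∩
      ({x : St d | b ^ 5 + P.Kg * b ^ 96 / ‖x.2 2 - cm m 0 1 x.2‖ ≤ ‖x.2 2‖} ∩
      ({x : St d | b ^ 5 ≤ ‖x.2 3‖} ∩ {x : St d | b ^ 5 ≤ ‖x.2 4‖})) := by
    ext x
    simp only [mem_inter_iff, mem_ofPred_eq]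
    constructor
    · rintro ⟨a, b, c, d⟩
      exact ⟨a, b, c, d⟩
    · rintro ⟨a, b, c, d⟩
      exact ⟨a, b, c, d⟩
  rw [h1]
  exact (measurableSet_le (by fun_prop) (by fun_prop)).inter
    ((measurableSet_le (by fun_prop) (by fun_prop)).inter
    ((measurableSet_le (by fun_prop) (by fun_prop)).inter
    (measurableSet_le (by fun_prop) (by fun_prop))))

theorem measurable_gS (P : Par) (b : ℝ) (m : Fin 5 → ℝ) : Measurable (gS P b m : St d → ℝ≥0∞) := by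
  unfold gS
  refine measurable_onSet ?_ ?_
  · have h2 : MeasurableSet {x : St d | 1 / b ^ 96 ≤ ‖x.1 2 - cm m 0 1 x.1‖} :=
      measurableSet_le (by fun_prop) (by fun_prop)
    have h3 : MeasurableSet {x : St d | ‖x.1 2 - cm m 0 1 x.1‖ ≤ 2 / b ^ 96} :=
      measurableSet_le (by fun_prop) (by fun_prop)
    exact (measurableSet_s1 P b m).inter (h2.inter (h3.inter ((measurableSet_good P b m).inter
      (SFin_fast P b m).compl)))
  · exact Measurable.mul (by fun_prop) (measurable_wt b (by fun_prop) (by fun_prop))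

private theorem SFin_GS (P : Par) (m : Fin 5 → ℝ) : Measurable (GS P m : St d → ℝ≥0∞) := by
  unfold GS
  refine Finset.measurable_sum _ fun s _ => Measurable.tsum fun k => ?_
  exact (measurable_gS P _ _).comp (measurable_rel (d := d) s)

theorem measurable_weight (P : Par) (m : Fin 5 → ℝ) : Measurable (G P m : St d → ℝ≥0∞) := by
  unfold G
  exact (NB5.measurable_weight P m).add (SFin_GS P m)

private theorem SFin_s1 {d : ℕ} {P P' : Par} (h1 : P.M = P'.M) (h2 : P.Zp = P'.Zp) {b : ℝ}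
    {m : Fin 5 → ℝ} {x : St d} (h : S1 P b m x) : S1 P' b m x := by
  have h3 : P.Cr = P'.Cr := by
    unfold Par.Cr
    rw [h1]
  exact ⟨by rw [← h3]; exact h.r_le, h.F_ge, h.F_le, by rw [← h2]; exact h.x_ge, h.R3, h.hard⟩

private theorem SFin_good {d : ℕ} {P P' : Par} (h1 : P.Kg = P'.Kg) {b : ℝ}
    {m : Fin 5 → ℝ} {x : St d} (h : Good P b m x) : Good P' b m x :=
  ⟨by rw [← h1]; exact h.w_ge, h.far3, h.far4, h.far34, by rw [← h1]; exact h.pairs, h.v34, h.j34⟩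

private theorem SFin_fast' {d : ℕ} {P P' : Par} (h1 : P.Kg = P'.Kg) {b : ℝ}
    {m : Fin 5 → ℝ} {x : St d} (h : Fast P b m x) : Fast P' b m x :=
  ⟨by rw [← h1]; exact h.fQ, by rw [← h1]; exact h.f2, h.f3, h.f4⟩

private theorem SFin_gS {d : ℕ} {P P' : Par} (h1 : P.M = P'.M) (h2 : P.Zp = P'.Zp)
    (h3 : P.Kg = P'.Kg) (b : ℝ) (m : Fin 5 → ℝ) (x : St d) : gS P b m x = gS P' b m x := by
  have e1 : S1 P b m x = S1 P' b m x := propext ⟨SFin_s1 h1 h2, SFin_s1 h1.symm h2.symm⟩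
  have e2 : Good P b m x = Good P' b m x := propext ⟨SFin_good h3, SFin_good h3.symm⟩
  have e3 : Fast P b m x = Fast P' b m x := propext ⟨SFin_fast' h3, SFin_fast' h3.symm⟩
  unfold gS
  rw [e1, e2, e3]

private theorem SFin_sum {K : ℝ} {k0 K0 : ℕ} (hK : K ≤ lev K0) (hk : K0 ≤ k0)
    {f : ℝ → ℝ≥0∞} {C : ℝ} (hC : 0 < C) (h : ∀ b : ℝ, K ≤ b → f b ≤ ENNReal.ofReal (C / b)) :
    ∑' k : ℕ, f (lev (k0 + k)) ≠ ⊤ := by
  refine ne_top_of_le_ne_top (sum_lev C) (ENNReal.tsum_le_tsum fun k => ?_)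
  have h1 : lev K0 ≤ lev (k0 + k) := by
    obtain ⟨j, hj⟩ := Nat.exists_eq_add_of_le (show K0 ≤ k0 + k by omega)
    rw [hj, lev_add]
    exact le_mul_of_one_le_right (zero_le_one.trans (lev_one K0)) (lev_one j)
  refine (h _ (hK.trans h1)).trans (ENNReal.ofReal_le_ofReal ?_)
  have h2 : lev k ≤ lev (k0 + k) := by
    rw [lev_add]
    exact le_mul_of_one_le_left (zero_le_one.trans (lev_one k)) (lev_one k0)
  exact div_le_div_of_nonneg_left hC.le (lt_of_lt_of_le one_pos (lev_one k)) h2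

private theorem SFin_GS_fin {d : ℕ} (hd : 3 ≤ d) (hd5 : d ≤ 5) (m : Fin 5 → ℝ)
    (M Zp Kg R : ℝ) :
    ∃ K0 : ℕ, ∀ P : Par, P.M = M → P.Zp = Zp → P.Kg = Kg → P.R = R → K0 ≤ P.k0 → Mb P.M m →
    ∫⁻ x : St d in Inv m P.R, GS P m x ≠ ⊤ := by
  by_cases hex : ∃ P0 : Par, P0.M = M ∧ P0.Zp = Zp ∧ P0.Kg = Kg ∧ P0.R = R
  swap
  · exact ⟨0, fun P h1 h2 h3 h4 => absurd ⟨P, h1, h2, h3, h4⟩ hex⟩
  obtain ⟨P0, g1, g2, g3, g4⟩ := hex
  obtain ⟨K1, -, hS⟩ := asS P0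
  obtain ⟨K0, hK0⟩ := lev_large K1
  refine ⟨K0, fun P h1 h2 h3 h4 hk hm => ?_⟩
  have f1 : P.M = P0.M := h1.trans g1.symm
  have f2 : P.Zp = P0.Zp := h2.trans g2.symm
  have f3 : P.Kg = P0.Kg := h3.trans g3.symm
  have f4 : P.R = P0.R := h4.trans g4.symm
  have hG : ∫⁻ x : St d in Inv m P.R, GS P m x = ∑ σ : Equiv.Perm (Fin 5),
      ∑' k : ℕ, ∫⁻ x : St d in Inv (m ∘ σ) P.R, gS P (lev (P.k0 + k)) (m ∘ σ) x := by
    unfold GS
    have hmS : ∀ (σ : Equiv.Perm (Fin 5)) (k : ℕ), Measurable fun x : St d =>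
        gS P (lev (P.k0 + k)) (m ∘ σ) (rel σ x) := fun σ k =>
      (measurable_gS P _ _).comp (measurable_rel σ)
    rw [lintegral_finsetSum _ fun σ _ => Measurable.tsum (hmS σ)]
    refine Finset.sum_congr rfl fun σ _ => ?_
    rw [lintegral_tsum fun k => (hmS σ k).aemeasurable]
    exact tsum_congr fun k => rel_map m P.R σ (gS P (lev (P.k0 + k)) (m ∘ σ))
  rw [hG]
  refine (ENNReal.sum_ne_top).2 fun σ _ => ?_
  have hmσ : Mb P0.M (m ∘ σ) := by
    rw [← f1]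
    exact mb_perm hm σ
  obtain ⟨C, hC, h⟩ := hS hd hd5 (m ∘ σ) hmσ
  have := SFin_sum hK0 hk hC h
  simp only [SFin_gS f1 f2 f3, f4]
  exact this

theorem G_fin {d : ℕ} (hd : 3 ≤ d) (hd5 : d ≤ 5) (m : Fin 5 → ℝ) (M Zp Kg R : ℝ) :
    ∃ K0 : ℕ, ∀ P : Par, P.M = M → P.Zp = Zp → P.Kg = Kg → P.R = R → K0 ≤ P.k0 → Mb P.M m →
    ∫⁻ x : St d in Inv m P.R, G P m x ≠ ⊤ := by
  obtain ⟨K1, h1⟩ := NB5.G_fin hd hd5 m M Zp Kg R
  obtain ⟨K2, h2⟩ := SFin_GS_fin hd hd5 m M Zp Kg R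
  refine ⟨max K1 K2, fun P e1 e2 e3 e4 hk hm => ?_⟩
  have h : ∫⁻ x : St d in Inv m P.R, G P m x =
      (∫⁻ x : St d in Inv m P.R, NB5.G P m x) + ∫⁻ x : St d in Inv m P.R, GS P m x := by
    unfold G
    exact lintegral_add_left (NB5.measurable_weight P m) _
  rw [h]
  exact ENNReal.add_ne_top.2 ⟨h1 P e1 e2 e3 e4 ((le_max_left _ _).trans hk) hm,
    h2 P e1 e2 e3 e4 ((le_max_right _ _).trans hk) hm⟩

end NBO
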