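import Mathlib
import Pool.Agent.NBO.Defs
import Pool.Agent.HDN.ConsH

/-!
# The participants and the outside bodies (module NBO-Sub)

`e : Fin 5 ↪ Fin N`: the participants; the outside bodies `c ∉ range e` stay at distance `≥ η` from all other bodies.
The participants move in the field of the outside bodies, which is bounded and Lipschitz in the sense of `Pb`.
-/

open MeasureTheory Set Filter Topology Metric
open scoped NNReal ENNReal RealInnerProductSpace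

namespace NBO

open HDN NB5

variable {N d : ℕ}

/-- the state of the participants -/
def sub (e : Fin 5 ↪ Fin N) (x : Ph N d) : St d := (fun i => x.1 (e i), fun i => x.2 (e i))

open scoped Classical in
/-- the field of the outside bodies at the participants -/
noncomputable def fld (m : Fin N → ℝ) (e : Fin 5 ↪ Fin N) (q : Cf N d) : Cf 5 d := fun i =>
  ∑ c ∈ Finset.univ.filter (fun c => c ∉ range e), (m c / ‖q c - q (e i)‖ ^ 3) • (q c - q (e i))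

/-- the outside bodies stay at distance `≥ η` from all other bodies -/
def Sep (e : Fin 5 ↪ Fin N) (η : ℝ) (q : Cf N d) : Prop :=
  ∀ b, b ∉ range e → ∀ c, c ≠ b → η ≤ ‖q b - q c‖

/-- the outside bodies are in a bounded region of the phase space -/
def OutB (e : Fin 5 ↪ Fin N) (R : ℝ) (x : Ph N d) : Prop :=
  ∀ c, c ∉ range e → ‖x.1 c‖ ≤ R ∧ ‖x.2 c‖ ≤ R

theorem free_sub (e : Fin 5 ↪ Fin N) {x : Ph N d} (h : Free x.1) : Free (sub e x).1 := by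
  intro a b hab
  exact h (e a) (e b) fun h' => hab (e.injective h')

open scoped Classical in
private theorem Sub_split (m : Fin N → ℝ) (e : Fin 5 ↪ Fin N) (q : Cf N d) (i : Fin 5) :
    acc m q (e i) = acc (m ∘ e) (fun j => q (e j)) i + fld m e q i := by
  have h1 : (Finset.univ.erase (e i)) = ((Finset.univ.erase i).map e) ∪
      (Finset.univ.filter (fun c => c ∉ range e)) := by
    ext c
    simp only [Finset.mem_erase, Finset.mem_univ, and_true, Finset.mem_union, Finset.mem_map,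
      Finset.mem_filter, true_and]
    constructor
    · intro hc
      by_cases h : c ∈ range e
      · obtain ⟨j, rfl⟩ := h
        exact Or.inl ⟨j, fun hji => hc (by rw [hji]), rfl⟩
      · exact Or.inr h
    · rintro (⟨j, hj, rfl⟩ | h)
      · exact fun h' => hj (e.injective h')
      · rintro rfl
        exact h ⟨i, rfl⟩
  have h2 : Disjoint ((Finset.univ.erase i).map e)
      (Finset.univ.filter (fun c => c ∉ range e)) := by
    rw [Finset.disjoint_left]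
    intro c hc hc'
    obtain ⟨j, -, rfl⟩ := Finset.mem_map.1 hc
    exact (Finset.mem_filter.1 hc').2 ⟨j, rfl⟩
  unfold acc fld
  rw [h1, Finset.sum_union h2, Finset.sum_map]
  rfl

theorem sub_deriv {m : Fin N → ℝ} (e : Fin 5 ↪ Fin N) {γ : ℝ → Ph N d} {t : ℝ}
    (h : HasDerivAt γ (nfield m (γ t)) t) :
    HasDerivAt (fun s => sub e (γ s)) ((sub e (γ t)).2,
      acc (m ∘ e) (sub e (γ t)).1 + fld m e (γ t).1) t := by
  have h1 : HasDerivAt (fun s => fun i => (γ s).1 (e i)) (sub e (γ t)).2 t :=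
    hasDerivAt_pi.2 fun i => ConsH.pos_deriv h (e i)
  have h2 : HasDerivAt (fun s => fun i => (γ s).2 (e i))
      (acc (m ∘ e) (sub e (γ t)).1 + fld m e (γ t).1) t := by
    refine hasDerivAt_pi.2 fun i => ?_
    have h3 := ConsH.vel_deriv h (e i)
    rw [Sub_split] at h3
    exact h3
  exact h1.prodMk h2

private theorem Sub_acc {m : Fin N → ℝ} (hm : ∀ i, 0 < m i) {e : Fin 5 ↪ Fin N} {η : ℝ}
    (hη : 0 < η) {q : Cf N d} (hs : Sep e η q) {c : Fin N} (hc : c ∉ range e) :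
    ‖acc m q c‖ ≤ (∑ b, m b) / η ^ 2 := by
  unfold acc
  refine (norm_sum_le _ _).trans ?_
  rw [Finset.sum_div]
  have h1 : ∀ b ∈ Finset.univ.erase c, ‖(m b / ‖q b - q c‖ ^ 3) • (q b - q c)‖ ≤ m b / η ^ 2 := by
    intro b hb
    have hbc : b ≠ c := Finset.ne_of_mem_erase hb
    have h2 : η ≤ ‖q b - q c‖ := by
      rw [norm_sub_rev]
      exact hs c hc b hbc
    have h3 : 0 < ‖q b - q c‖ := hη.trans_le h2
    rw [norm_smul, Real.norm_of_nonneg (div_nonneg (hm b).le (pow_nonneg h3.le 3))]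
    have h4 : m b / ‖q b - q c‖ ^ 3 * ‖q b - q c‖ = m b / ‖q b - q c‖ ^ 2 := by
      field_simp
    rw [h4]
    have h5 : η ^ 2 ≤ ‖q b - q c‖ ^ 2 := pow_le_pow_left₀ hη.le h2 2
    exact div_le_div_of_nonneg_left (hm b).le (pow_pos hη 2) h5
  refine (Finset.sum_le_sum h1).trans ?_
  exact Finset.sum_le_sum_of_subset_of_nonneg (Finset.erase_subset _ _) fun b _ _ =>
    div_nonneg (hm b).le (pow_pos hη 2).le

private theorem Sub_mv {f f' : ℝ → Sp d} {T C : ℝ} (hC : 0 ≤ C)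
    (h1 : ∀ t ∈ Ico 0 T, HasDerivAt f (f' t) t) (h2 : ∀ t ∈ Ico 0 T, ‖f' t‖ ≤ C) :
    ∀ t ∈ Ico 0 T, ‖f t‖ ≤ ‖f 0‖ + C * |T| := by
  intro t ht
  have h3 := norm_image_sub_le_of_norm_deriv_le_segment' (f := f) (f' := f') (a := 0) (b := t)
    (C := C) (fun x hx => (h1 x ⟨hx.1, hx.2.trans_lt ht.2⟩).hasDerivWithinAt)
    (fun x hx => h2 x ⟨hx.1, hx.2.trans ht.2⟩) t ⟨ht.1, le_rfl⟩
  have h4 : ‖f t‖ ≤ ‖f 0‖ + ‖f t - f 0‖ := by
    have := norm_add_le (f 0) (f t - f 0)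
    rwa [add_sub_cancel] at this
  have h5 : C * (t - 0) ≤ C * |T| := by
    apply mul_le_mul_of_nonneg_left _ hC
    rw [sub_zero]
    exact ht.2.le.trans (le_abs_self T)
  linarith

theorem out_bdd {m : Fin N → ℝ} (hm : ∀ i, 0 < m i) (e : Fin 5 ↪ Fin N) {η : ℝ} (hη : 0 < η)
    {γ : ℝ → Ph N d} {T : ℝ} (hγ : SolOn (nfield m) (FreeSet N d) γ (Ico 0 T))
    (hs : ∀ t ∈ Ico 0 T, Sep e η (γ t).1) : ∃ R : ℝ, ∀ t ∈ Ico 0 T, OutB e R (γ t) := by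
  obtain ⟨A, hA⟩ : ∃ A, A = (∑ b, m b) / η ^ 2 := ⟨_, rfl⟩
  have hA0 : 0 ≤ A := by
    rw [hA]
    exact div_nonneg (Finset.sum_nonneg fun b _ => (hm b).le) (pow_pos hη 2).le
  have hV0 : ∀ c, 0 ≤ ‖(γ 0).2 c‖ + A * |T| := fun c => by positivity
  have hv : ∀ c, c ∉ range e → ∀ t ∈ Ico 0 T, ‖(γ t).2 c‖ ≤ ‖(γ 0).2 c‖ + A * |T| := by
    intro c hc
    refine Sub_mv hA0 (f := fun t => (γ t).2 c) (f' := fun t => acc m (γ t).1 c)
      (fun t ht => ConsH.vel_deriv (hγ t ht).2 c) fun t ht => ?_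
    rw [hA]
    exact Sub_acc hm hη (hs t ht) hc
  have hp : ∀ c, c ∉ range e → ∀ t ∈ Ico 0 T,
      ‖(γ t).1 c‖ ≤ ‖(γ 0).1 c‖ + (‖(γ 0).2 c‖ + A * |T|) * |T| := by
    intro c hc
    exact Sub_mv (hV0 c) (f := fun t => (γ t).1 c) (f' := fun t => (γ t).2 c)
      (fun t ht => ConsH.pos_deriv (hγ t ht).2 c) (hv c hc)
  refine ⟨∑ c, (‖(γ 0).1 c‖ + (‖(γ 0).2 c‖ + A * |T|) * |T| + (‖(γ 0).2 c‖ + A * |T|)), ?_⟩
  intro t ht c hc
  have h1 : ‖(γ 0).1 c‖ + (‖(γ 0).2 c‖ + A * |T|) * |T| + (‖(γ 0).2 c‖ + A * |T|) ≤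
      ∑ c, (‖(γ 0).1 c‖ + (‖(γ 0).2 c‖ + A * |T|) * |T| + (‖(γ 0).2 c‖ + A * |T|)) :=
    Finset.single_le_sum (f := fun c => ‖(γ 0).1 c‖ + (‖(γ 0).2 c‖ + A * |T|) * |T| +
      (‖(γ 0).2 c‖ + A * |T|)) (fun c _ => by positivity) (Finset.mem_univ c)
  have h2 := hv c hc t ht
  have h3 := hp c hc t ht
  have h4 : 0 ≤ (‖(γ 0).2 c‖ + A * |T|) * |T| := by positivity
  have h5 : 0 ≤ ‖(γ 0).1 c‖ := norm_nonneg _
  have h6 := hV0 c
  constructor <;> linarith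

private theorem Sub_inv {a η : ℝ} (hη : 0 < η) (h : η ≤ a) : a⁻¹ ≤ η⁻¹ :=
  inv_anti₀ hη h

private theorem Sub_num {a b η : ℝ} (hη : 0 < η) (ha : η ≤ a) (hb : η ≤ b) :
    b * |1 / a ^ 3 - 1 / b ^ 3| ≤ 3 / η ^ 3 * |a - b| := by
  have ha0 : 0 < a := hη.trans_le ha
  have hb0 : 0 < b := hη.trans_le hb
  have h1 : b * |1 / a ^ 3 - 1 / b ^ 3| =
      (a⁻¹ ^ 3 + a⁻¹ ^ 2 * b⁻¹ + a⁻¹ * b⁻¹ ^ 2) * |a - b| := by
    have h2 : b * (1 / a ^ 3 - 1 / b ^ 3) =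
        (a⁻¹ ^ 3 + a⁻¹ ^ 2 * b⁻¹ + a⁻¹ * b⁻¹ ^ 2) * (b - a) := by
      field_simp
      ring
    have h3 : (0 : ℝ) ≤ a⁻¹ ^ 3 + a⁻¹ ^ 2 * b⁻¹ + a⁻¹ * b⁻¹ ^ 2 := by positivity
    have h4 := congrArg abs h2
    rwa [abs_mul, abs_mul, abs_of_pos hb0, abs_of_nonneg h3, abs_sub_comm b a] at h4
  rw [h1]
  apply mul_le_mul_of_nonneg_right _ (abs_nonneg _)
  have ia := Sub_inv hη ha
  have ib := Sub_inv hη hb
  have ia0 : 0 ≤ a⁻¹ := by positivity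
  have ib0 : 0 ≤ b⁻¹ := by positivity
  have ie0 : 0 ≤ η⁻¹ := by positivity
  have j1 : a⁻¹ ^ 3 ≤ η⁻¹ ^ 3 := pow_le_pow_left₀ ia0 ia 3
  have j2 : a⁻¹ ^ 2 * b⁻¹ ≤ η⁻¹ ^ 2 * η⁻¹ :=
    mul_le_mul (pow_le_pow_left₀ ia0 ia 2) ib ib0 (by positivity)
  have j3 : a⁻¹ * b⁻¹ ^ 2 ≤ η⁻¹ * η⁻¹ ^ 2 :=
    mul_le_mul ia (pow_le_pow_left₀ ib0 ib 2) (by positivity) ie0
  have j4 : (3 : ℝ) / η ^ 3 = η⁻¹ ^ 3 + η⁻¹ ^ 2 * η⁻¹ + η⁻¹ * η⁻¹ ^ 2 := by
    field_simp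
    norm_num
  rw [j4]
  linarith

private theorem Sub_grav {η : ℝ} (hη : 0 < η) {y z : Sp d} (hy : η ≤ ‖y‖) (hz : η ≤ ‖z‖) {μ : ℝ}
    (hμ : 0 ≤ μ) :
    ‖(μ / ‖y‖ ^ 3) • y - (μ / ‖z‖ ^ 3) • z‖ ≤ μ * (4 / η ^ 3 * ‖y - z‖) := by
  have hy0 : 0 < ‖y‖ := hη.trans_le hy
  have hz0 : 0 < ‖z‖ := hη.trans_le hz
  have h1 : (μ / ‖y‖ ^ 3) • y - (μ / ‖z‖ ^ 3) • z =
      μ • ((1 / ‖y‖ ^ 3) • (y - z) + (1 / ‖y‖ ^ 3 - 1 / ‖z‖ ^ 3) • z) := by
    have e1 : μ / ‖y‖ ^ 3 = μ * (1 / ‖y‖ ^ 3) := by ring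
    have e2 : μ / ‖z‖ ^ 3 = μ * (1 / ‖z‖ ^ 3) := by ring
    rw [e1, e2, mul_smul, mul_smul, sub_smul, smul_sub (1 / ‖y‖ ^ 3) y z, sub_add_sub_cancel,
      smul_sub]
  rw [h1, norm_smul, Real.norm_of_nonneg hμ]
  apply mul_le_mul_of_nonneg_left _ hμ
  refine (norm_add_le _ _).trans ?_
  rw [norm_smul, norm_smul, Real.norm_eq_abs, Real.norm_eq_abs]
  have h2 : |1 / ‖y‖ ^ 3| * ‖y - z‖ ≤ 1 / η ^ 3 * ‖y - z‖ := by
    apply mul_le_mul_of_nonneg_right _ (norm_nonneg _)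
    rw [abs_of_nonneg (by positivity)]
    exact div_le_div_of_nonneg_left zero_le_one (pow_pos hη 3) (pow_le_pow_left₀ hη.le hy 3)
  have h3 : |1 / ‖y‖ ^ 3 - 1 / ‖z‖ ^ 3| * ‖z‖ ≤ 3 / η ^ 3 * ‖y - z‖ := by
    rw [mul_comm]
    refine (Sub_num hη hy hz).trans ?_
    exact mul_le_mul_of_nonneg_left (abs_norm_sub_norm_le y z) (by positivity)
  have h4 : 4 / η ^ 3 * ‖y - z‖ = 1 / η ^ 3 * ‖y - z‖ + 3 / η ^ 3 * ‖y - z‖ := by ring
  linarith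

private theorem Sub_one {η R : ℝ} (hη : 0 < η) {y z : Sp d} (hy : ‖y‖ ≤ R) (hz : η ≤ ‖y - z‖)
    {μ : ℝ} (hμ : 0 ≤ μ) :
    ‖(μ / ‖y - z‖ ^ 3) • (y - z)‖ ≤ μ * (((1 + |R|) / η + 1) ^ 2 / (1 + ‖z‖) ^ 2) := by
  have h0 : 0 < ‖y - z‖ := hη.trans_le hz
  rw [norm_smul, Real.norm_of_nonneg (div_nonneg hμ (pow_nonneg h0.le 3))]
  have h4 : μ / ‖y - z‖ ^ 3 * ‖y - z‖ = μ * (1 / ‖y - z‖ ^ 2) := by
    field_simp
  rw [h4]
  apply mul_le_mul_of_nonneg_left _ hμ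
  have h1 : ‖z‖ ≤ ‖y‖ + ‖y - z‖ := by
    have := norm_sub_le y (y - z)
    rwa [sub_sub_cancel] at this
  have h2 : 1 + ‖z‖ ≤ ((1 + |R|) / η + 1) * ‖y - z‖ := by
    have h3 : 1 + |R| ≤ (1 + |R|) / η * ‖y - z‖ := by
      rw [div_mul_eq_mul_div, le_div_iff₀ hη]
      exact mul_le_mul_of_nonneg_left hz (by positivity)
    have h5 := hy.trans (le_abs_self R)
    linarith
  have hz1 : 0 < 1 + ‖z‖ := by positivity
  rw [div_le_div_iff₀ (pow_pos h0 2) (pow_pos hz1 2), one_mul, ← mul_pow]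
  exact pow_le_pow_left₀ hz1.le h2 2

open scoped Classical in
private theorem Sub_sum {m : Fin N → ℝ} (hm : ∀ i, 0 < m i) (e : Fin 5 ↪ Fin N) {F : Fin N → Sp d}
    {X : ℝ} (hX : 0 ≤ X) (h : ∀ c, c ∉ range e → ‖F c‖ ≤ m c * X) :
    ‖∑ c ∈ Finset.univ.filter (fun c => c ∉ range e), F c‖ ≤ (∑ c, m c) * X := by
  refine (norm_sum_le _ _).trans ?_
  refine (Finset.sum_le_sum fun c hc => h c (Finset.mem_filter.1 hc).2).trans ?_
  rw [Finset.sum_mul]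
  exact Finset.sum_le_sum_of_subset_of_nonneg (Finset.filter_subset _ _) fun c _ _ =>
    mul_nonneg (hm c).le hX

theorem pb_fld {m : Fin N → ℝ} (hm : ∀ i, 0 < m i) (e : Fin 5 ↪ Fin N) {η : ℝ} (hη : 0 < η) (R : ℝ) :
    ∃ B : ℝ, ∀ x : Ph N d, Sep e η x.1 → OutB e R x → Pb B (sub e x) (fld m e x.1) := by
  have hS : 0 ≤ ∑ c, m c := Finset.sum_nonneg fun b _ => (hm b).le
  refine ⟨(∑ c, m c) * ((1 + |R|) / η + 1) ^ 2 + (∑ c, m c) * (4 / η ^ 3), fun x hs ho => ?_⟩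
  constructor
  · intro i
    have h1 := Sub_sum hm e (F := fun c => (m c / ‖x.1 c - x.1 (e i)‖ ^ 3) • (x.1 c - x.1 (e i)))
      (X := ((1 + |R|) / η + 1) ^ 2 / (1 + ‖x.1 (e i)‖) ^ 2) (by positivity) (fun c hc =>
        Sub_one hη (ho c hc).1 (hs c hc (e i) fun h => hc ⟨i, h⟩) (hm c).le)
    refine le_trans h1 ?_
    show _ ≤ ((∑ c, m c) * ((1 + |R|) / η + 1) ^ 2 + (∑ c, m c) * (4 / η ^ 3)) /
      (1 + ‖x.1 (e i)‖) ^ 2
    have h2 : 0 ≤ (∑ c, m c) * (4 / η ^ 3) / (1 + ‖x.1 (e i)‖) ^ 2 := by positivity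
    rw [add_div ((∑ c, m c) * ((1 + |R|) / η + 1) ^ 2), mul_div_assoc (∑ c, m c)
      (((1 + |R|) / η + 1) ^ 2)]
    linarith
  · intro i j
    have h1 := Sub_sum hm e (F := fun c => (m c / ‖x.1 c - x.1 (e i)‖ ^ 3) • (x.1 c - x.1 (e i)) -
      (m c / ‖x.1 c - x.1 (e j)‖ ^ 3) • (x.1 c - x.1 (e j)))
      (X := 4 / η ^ 3 * ‖x.1 (e i) - x.1 (e j)‖) (by positivity) (fun c hc => by
        have h2 := Sub_grav hη (hs c hc (e i) fun h => hc ⟨i, h⟩)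
          (hs c hc (e j) fun h => hc ⟨j, h⟩) (hm c).le
        rw [sub_sub_sub_cancel_left, norm_sub_rev (x.1 (e j))] at h2
        exact h2)
    rw [Finset.sum_sub_distrib] at h1
    refine le_trans h1 ?_
    show _ ≤ ((∑ c, m c) * ((1 + |R|) / η + 1) ^ 2 + (∑ c, m c) * (4 / η ^ 3)) *
      ‖x.1 (e i) - x.1 (e j)‖
    rw [add_mul, mul_assoc (∑ c, m c) (4 / η ^ 3)]
    have h2 : 0 ≤ (∑ c, m c) * ((1 + |R|) / η + 1) ^ 2 * ‖x.1 (e i) - x.1 (e j)‖ := by positivity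
    linarith

theorem continuousAt_fld {m : Fin N → ℝ} (e : Fin 5 ↪ Fin N) {γ : ℝ → Ph N d} {t : ℝ}
    (hf : Free (γ t).1) (h : ContinuousAt γ t) : ContinuousAt (fun s => fld m e (γ s).1) t := by
  have hp : ∀ a, ContinuousAt (fun s => (γ s).1 a) t := fun a =>
    (continuous_apply a).continuousAt.comp (continuous_fst.continuousAt.comp h)
  refine continuousAt_pi.2 fun i => ?_
  unfold fld
  refine tendsto_finsetSum _ fun c hc => ?_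
  have hne : c ≠ e i := by
    rintro rfl
    exact (Finset.mem_filter.1 hc).2 ⟨i, rfl⟩
  have h1 : ContinuousAt (fun s => (γ s).1 c - (γ s).1 (e i)) t := (hp c).sub (hp (e i))
  have h2 : ‖(γ t).1 c - (γ t).1 (e i)‖ ^ 3 ≠ 0 :=
    pow_ne_zero 3 (norm_ne_zero_iff.2 (sub_ne_zero.2 (hf c (e i) hne)))
  exact ContinuousAt.smul (continuousAt_const.div (h1.norm.pow 3) h2) h1

theorem Pb.mono {B B' : ℝ} {x : St d} {p : Cf 5 d} (h : Pb B x p) (hB : B ≤ B') : Pb B' x p := by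
  constructor
  · intro i
    refine (h.bd i).trans ?_
    exact div_le_div_of_nonneg_right hB (by positivity)
  · intro i j
    exact (h.lip i j).trans (mul_le_mul_of_nonneg_right hB (norm_nonneg _))

/-- the participants move in the field of the outside bodies -/
theorem ps_sub {m : Fin N → ℝ} (hm : ∀ i, 0 < m i) (e : Fin 5 ↪ Fin N) {η : ℝ} (hη : 0 < η)
    {γ : ℝ → Ph N d} {T : ℝ} (hγ : SolOn (nfield m) (FreeSet N d) γ (Ico 0 T))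
    (hs : ∀ t ∈ Ico 0 T, Sep e η (γ t).1) : ∃ B0 : ℝ, ∀ B ≥ B0,
    PS B (m ∘ e) (fun t => fld m e (γ t).1) (fun t => sub e (γ t)) (Ico 0 T) := by
  obtain ⟨R, hR⟩ := out_bdd hm e hη hγ hs
  obtain ⟨B, hB⟩ := pb_fld (d := d) hm e hη R
  refine ⟨B, fun B' hB' t ht => ?_⟩
  obtain ⟨h1, h2⟩ := hγ t ht
  exact ⟨free_sub e h1, (hB _ (hs t ht) (hR t ht)).mono hB', continuousAt_fld e h1 h2.continuousAt,
    sub_deriv e h2⟩

end NBO
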