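import Mathlib
import Pool.Agent.NBO.Sub
import Pool.Agent.HDN.ConsH
import Pool.Agent.HDN.ConsL
import Pool.Agent.NB5.MInv

/-!
# Energy, angular momentum and centre of mass of the participants are bounded (module NBO-SubI)

On `[0,T)`: `Ham (m ∘ e) (sub e x) = Ham m x - (kinetic energy of the outside bodies) + (potential terms with at least one outside body)`; the first is constant
(`ham_const`), the second `≤ C R^2`, the third `≤ C/η`. Total momentum is constant and the centre of mass linear in time (`cmv_vel_const`, `cmv_pos_le` in `NB5/MInv.lean`); the outside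
bodies are bounded: so are `cmv (m ∘ e)` of positions and velocities of the participants. `∑ a, m a • wedge (q a) (v a)` over all bodies is constant (`HDN/ConsL.lean`:
`Lop` constant and the momentum terms bounded), the outside part is bounded, so `Lop (m ∘ e) (sub e x)` is bounded.
-/

open MeasureTheory Set Filter Topology Metric
open scoped NNReal ENNReal RealInnerProductSpace

namespace NBO

open HDN NB5

variable {N d : ℕ}

open scoped Classical in
/-- the outside bodies -/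
private noncomputable def subI_out (e : Fin 5 ↪ Fin N) : Finset (Fin N) :=
  Finset.univ.filter (fun c => c ∉ range e)

private theorem subI_mem {e : Fin 5 ↪ Fin N} {c : Fin N} : c ∈ subI_out e ↔ c ∉ range e := by
  classical
  simp [subI_out]

private theorem subI_sum {E : Type*} [AddCommMonoid E] (e : Fin 5 ↪ Fin N) (f : Fin N → E) :
    ∑ a, f a = ∑ i, f (e i) + ∑ c ∈ subI_out e, f c := by
  classical
  have h1 : Finset.univ.filter (fun c => c ∈ range e) = Finset.univ.map e := by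
    ext c
    simp
  rw [← Finset.sum_filter_add_sum_filter_not Finset.univ (fun c => c ∈ range e) f, h1,
    Finset.sum_map]
  rfl

private theorem subI_pair (e : Fin 5 ↪ Fin N) (F : Fin N → Fin N → ℝ) :
    ∑ a, ∑ b ∈ Finset.univ.erase a, F a b =
      ∑ i, ∑ j ∈ Finset.univ.erase i, F (e i) (e j) +
        (∑ i, ∑ c ∈ subI_out e, F (e i) c + ∑ c ∈ subI_out e, ∑ b ∈ Finset.univ.erase c, F c b) := by
  rw [subI_sum e, ← add_assoc, ← Finset.sum_add_distrib]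
  congr 1
  refine Finset.sum_congr rfl fun i _ => ?_
  rw [Finset.sum_erase_eq_sub (Finset.mem_univ (e i)), Finset.sum_erase_eq_sub (Finset.mem_univ i),
    subI_sum e]
  ring

private theorem subI_wedge (x w : Sp d) : ‖wedge x w‖ ≤ 2 * (‖x‖ * ‖w‖) := by
  unfold wedge
  refine (norm_sub_le _ _).trans ?_
  rw [ContinuousLinearMap.norm_smulRight_apply, ContinuousLinearMap.norm_smulRight_apply,
    innerSL_apply_norm, innerSL_apply_norm]
  linarith [mul_comm ‖x‖ ‖w‖]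

/-- sums over the participants -/
private theorem subI_part {m : Fin N → ℝ} (hm : ∀ i, 0 < m i) (e : Fin 5 ↪ Fin N) (q : Cf N d)
    {X R : ℝ} (hX : ‖cmv m q‖ ≤ X) (hq : ∀ c ∈ subI_out e, ‖q c‖ ≤ R) :
    ‖∑ i, m (e i) • q (e i)‖ ≤ (∑ a, m a) * X + ∑ c ∈ subI_out e, m c * R := by
  have hM : 0 ≤ ∑ a, m a := Finset.sum_nonneg fun i _ => (hm i).le
  have h1 := subI_sum e (fun a => m a • q a)
  rw [← sum_smul_cmv hm] at h1
  have h2 : ∑ i, m (e i) • q (e i) =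
      (∑ a, m a) • cmv m q - ∑ c ∈ subI_out e, m c • q c := by
    rw [h1]
    simp
  rw [h2]
  refine (norm_sub_le _ _).trans (add_le_add ?_ ?_)
  · rw [norm_smul, Real.norm_eq_abs, abs_of_nonneg hM]
    exact mul_le_mul_of_nonneg_left hX hM
  · refine (norm_sum_le _ _).trans (Finset.sum_le_sum fun c hc => ?_)
    rw [norm_smul, Real.norm_eq_abs, abs_of_pos (hm c)]
    exact mul_le_mul_of_nonneg_left (hq c hc) (hm c).le

private theorem subI_kin {m : Fin N → ℝ} (hm : ∀ i, 0 < m i) (e : Fin 5 ↪ Fin N) (v : Cf N d)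
    {R : ℝ} (hq : ∀ c ∈ subI_out e, ‖v c‖ ≤ R) :
    |Kin m v - Kin (m ∘ e) (fun i => v (e i))| ≤ (1 / 2) * ∑ c ∈ subI_out e, m c * R ^ 2 := by
  have h1 : Kin m v - Kin (m ∘ e) (fun i => v (e i)) =
      (1 / 2) * ∑ c ∈ subI_out e, m c * ‖v c‖ ^ 2 := by
    unfold Kin
    rw [subI_sum e (fun a => m a * ‖v a‖ ^ 2)]
    simp only [Function.comp_apply]
    ring
  rw [h1, abs_of_nonneg (mul_nonneg (by norm_num)
    (Finset.sum_nonneg fun c _ => mul_nonneg (hm c).le (sq_nonneg _)))]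
  refine mul_le_mul_of_nonneg_left (Finset.sum_le_sum fun c hc => ?_) (by norm_num)
  exact mul_le_mul_of_nonneg_left (pow_le_pow_left₀ (norm_nonneg _) (hq c hc) 2) (hm c).le

private theorem subI_pot {m : Fin N → ℝ} (hm : ∀ i, 0 < m i) (e : Fin 5 ↪ Fin N) (q : Cf N d)
    {η : ℝ} (hη : 0 < η) (hs : Sep e η q) :
    |Pot m q - Pot (m ∘ e) (fun i => q (e i))| ≤ (1 / 2) *
      (∑ i, ∑ c ∈ subI_out e, m (e i) * m c / η +
        ∑ c ∈ subI_out e, ∑ b ∈ Finset.univ.erase c, m c * m b / η) := by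
  have h1 : Pot m q - Pot (m ∘ e) (fun i => q (e i)) = (1 / 2) *
      (∑ i, ∑ c ∈ subI_out e, m (e i) * m c / ‖q c - q (e i)‖ +
        ∑ c ∈ subI_out e, ∑ b ∈ Finset.univ.erase c, m c * m b / ‖q b - q c‖) := by
    unfold Pot
    rw [subI_pair e (fun a b => m a * m b / ‖q b - q a‖)]
    simp only [Function.comp_apply]
    ring
  have h2 : ∀ (i : Fin 5) (c : Fin N), c ∈ subI_out e →
      m (e i) * m c / ‖q c - q (e i)‖ ≤ m (e i) * m c / η := by
    intro i c hc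
    have hc' := subI_mem.1 hc
    have h3 := hs c hc' (e i) (fun h => hc' ⟨i, h⟩)
    exact div_le_div_of_nonneg_left (mul_pos (hm _) (hm _)).le hη h3
  have h4 : ∀ (c b : Fin N), c ∈ subI_out e → b ∈ Finset.univ.erase c →
      m c * m b / ‖q b - q c‖ ≤ m c * m b / η := by
    intro c b hc hb
    have h3 := hs c (subI_mem.1 hc) b (Finset.ne_of_mem_erase hb)
    rw [norm_sub_rev] at h3
    exact div_le_div_of_nonneg_left (mul_pos (hm _) (hm _)).le hη h3
  rw [h1, abs_of_nonneg]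
  · refine mul_le_mul_of_nonneg_left (add_le_add ?_ ?_) (by norm_num)
    · exact Finset.sum_le_sum fun i _ => Finset.sum_le_sum fun c hc => h2 i c hc
    · exact Finset.sum_le_sum fun c hc => Finset.sum_le_sum fun b hb => h4 c b hc hb
  · refine mul_nonneg (by norm_num) (add_nonneg ?_ ?_)
    · exact Finset.sum_nonneg fun i _ => Finset.sum_nonneg fun c _ =>
        div_nonneg (mul_pos (hm _) (hm _)).le (norm_nonneg _)
    · exact Finset.sum_nonneg fun c _ => Finset.sum_nonneg fun b _ =>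
        div_nonneg (mul_pos (hm _) (hm _)).le (norm_nonneg _)

private theorem subI_lop {m : Fin N → ℝ} (hm : ∀ i, 0 < m i) (e : Fin 5 ↪ Fin N) (x : Ph N d)
    {L X P R A1 A2 : ℝ} (hL : ‖Lop m x‖ ≤ L) (hX : ‖cmv m x.1‖ ≤ X) (hP : ‖cmv m x.2‖ ≤ P)
    (h1 : ∀ c ∈ subI_out e, ‖x.1 c‖ ≤ R) (h2 : ∀ c ∈ subI_out e, ‖x.2 c‖ ≤ R)
    (hA1 : ‖∑ i, m (e i) • x.1 (e i)‖ ≤ A1) (hA2 : ‖∑ i, m (e i) • x.2 (e i)‖ ≤ A2) :
    ‖Lop (m ∘ e) (sub e x)‖ ≤
      (L + |(∑ a, m a)⁻¹| * (2 * (((∑ a, m a) * X) * ((∑ a, m a) * P))) +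
        ∑ c ∈ subI_out e, m c * (2 * (R * R))) +
      |(∑ i, m (e i))⁻¹| * (2 * (A1 * A2)) := by
  have hM : 0 ≤ ∑ a, m a := Finset.sum_nonneg fun i _ => (hm i).le
  have e1 : Lop (m ∘ e) (sub e x) = ((Lop m x + (∑ a, m a)⁻¹ •
      wedge (∑ a, m a • x.1 a) (∑ a, m a • x.2 a)) -
      ∑ c ∈ subI_out e, m c • wedge (x.1 c) (x.2 c)) -
      (∑ i, m (e i))⁻¹ • wedge (∑ i, m (e i) • x.1 (e i)) (∑ i, m (e i) • x.2 (e i)) := by
    unfold Lop
    rw [subI_sum e (fun a => m a • wedge (x.1 a) (x.2 a))]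
    simp only [Function.comp_apply, sub]
    abel
  have hw : ‖(∑ a, m a)⁻¹ • wedge (∑ a, m a • x.1 a) (∑ a, m a • x.2 a)‖ ≤
      |(∑ a, m a)⁻¹| * (2 * (((∑ a, m a) * X) * ((∑ a, m a) * P))) := by
    rw [norm_smul, Real.norm_eq_abs]
    refine mul_le_mul_of_nonneg_left ((subI_wedge _ _).trans ?_) (abs_nonneg _)
    have h3 : ‖∑ a, m a • x.1 a‖ ≤ (∑ a, m a) * X := by
      rw [← sum_smul_cmv hm, norm_smul, Real.norm_eq_abs, abs_of_nonneg hM]
      exact mul_le_mul_of_nonneg_left hX hM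
    have h4 : ‖∑ a, m a • x.2 a‖ ≤ (∑ a, m a) * P := by
      rw [← sum_smul_cmv hm, norm_smul, Real.norm_eq_abs, abs_of_nonneg hM]
      exact mul_le_mul_of_nonneg_left hP hM
    exact mul_le_mul_of_nonneg_left
      (mul_le_mul h3 h4 (norm_nonneg _) ((norm_nonneg _).trans h3)) (by norm_num)
  have ho : ‖∑ c ∈ subI_out e, m c • wedge (x.1 c) (x.2 c)‖ ≤
      ∑ c ∈ subI_out e, m c * (2 * (R * R)) := by
    refine (norm_sum_le _ _).trans (Finset.sum_le_sum fun c hc => ?_)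
    rw [norm_smul, Real.norm_eq_abs, abs_of_pos (hm c)]
    refine mul_le_mul_of_nonneg_left ((subI_wedge _ _).trans ?_) (hm c).le
    exact mul_le_mul_of_nonneg_left (mul_le_mul (h1 c hc) (h2 c hc) (norm_nonneg _)
      ((norm_nonneg _).trans (h1 c hc))) (by norm_num)
  have hs : ‖(∑ i, m (e i))⁻¹ • wedge (∑ i, m (e i) • x.1 (e i)) (∑ i, m (e i) • x.2 (e i))‖ ≤
      |(∑ i, m (e i))⁻¹| * (2 * (A1 * A2)) := by
    rw [norm_smul, Real.norm_eq_abs]
    refine mul_le_mul_of_nonneg_left ((subI_wedge _ _).trans ?_) (abs_nonneg _)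
    exact mul_le_mul_of_nonneg_left (mul_le_mul hA1 hA2 (norm_nonneg _)
      ((norm_nonneg _).trans hA1)) (by norm_num)
  rw [e1]
  exact (norm_sub_le _ _).trans (add_le_add ((norm_sub_le _ _).trans
    (add_le_add ((norm_add_le _ _).trans (add_le_add hL hw)) ho)) hs)

theorem sub_bdd {m : Fin N → ℝ} (hm : ∀ i, 0 < m i) (e : Fin 5 ↪ Fin N) {η : ℝ} (hη : 0 < η)
    {γ : ℝ → Ph N d} {T : ℝ} (hT : 0 < T) (hγ : SolOn (nfield m) (FreeSet N d) γ (Ico 0 T))
    (hs : ∀ t ∈ Ico 0 T, Sep e η (γ t).1) : ∃ R : ℝ, ∀ t ∈ Ico 0 T,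
    |Ham (m ∘ e) (sub e (γ t))| ≤ R ∧ ‖Lop (m ∘ e) (sub e (γ t))‖ ≤ R ∧
      ‖cmv (m ∘ e) (sub e (γ t)).1‖ ≤ R ∧ ‖cmv (m ∘ e) (sub e (γ t)).2‖ ≤ R := by
  obtain ⟨R0, hR0⟩ := out_bdd hm e hη hγ hs
  have hham := ham_const hγ
  have hvel := cmv_vel_const hγ
  have hlop := lop_const hγ
  set R1 := |R0| with hR1
  set P := ‖cmv m (γ 0).2‖ with hP
  set X := ‖cmv m (γ 0).1‖ + P * T with hX
  set O := ∑ c ∈ subI_out e, m c * R1 with hO
  set A1 := (∑ a, m a) * X + O with hA1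
  set A2 := (∑ a, m a) * P + O with hA2
  have hM : 0 ≤ ∑ a, m a := Finset.sum_nonneg fun i _ => (hm i).le
  have hP0 : 0 ≤ P := norm_nonneg _
  have hX0 : 0 ≤ X := add_nonneg (norm_nonneg _) (mul_nonneg hP0 hT.le)
  have hO0 : 0 ≤ O := Finset.sum_nonneg fun c _ => mul_nonneg (hm c).le (abs_nonneg _)
  have hA10 : 0 ≤ A1 := add_nonneg (mul_nonneg hM hX0) hO0
  have hA20 : 0 ≤ A2 := add_nonneg (mul_nonneg hM hP0) hO0
  set B1 := |Ham m (γ 0)| + ((1 / 2) * ∑ c ∈ subI_out e, m c * R1 ^ 2 + (1 / 2) *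
      (∑ i, ∑ c ∈ subI_out e, m (e i) * m c / η +
        ∑ c ∈ subI_out e, ∑ b ∈ Finset.univ.erase c, m c * m b / η)) with hB1
  set B2 := (‖Lop m (γ 0)‖ + |(∑ a, m a)⁻¹| * (2 * (((∑ a, m a) * X) * ((∑ a, m a) * P))) +
        ∑ c ∈ subI_out e, m c * (2 * (R1 * R1))) +
      |(∑ i, m (e i))⁻¹| * (2 * (A1 * A2)) with hB2
  set B3 := |(∑ i, m (e i))⁻¹| * A1 with hB3
  set B4 := |(∑ i, m (e i))⁻¹| * A2 with hB4
  have key : ∀ t ∈ Ico 0 T, |Ham (m ∘ e) (sub e (γ t))| ≤ B1 ∧ ‖Lop (m ∘ e) (sub e (γ t))‖ ≤ B2 ∧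
      ‖cmv (m ∘ e) (sub e (γ t)).1‖ ≤ B3 ∧ ‖cmv (m ∘ e) (sub e (γ t)).2‖ ≤ B4 := by
    intro t ht
    have hq : ∀ c ∈ subI_out e, ‖(γ t).1 c‖ ≤ R1 := fun c hc =>
      (hR0 t ht c (subI_mem.1 hc)).1.trans (le_abs_self _)
    have hv : ∀ c ∈ subI_out e, ‖(γ t).2 c‖ ≤ R1 := fun c hc =>
      (hR0 t ht c (subI_mem.1 hc)).2.trans (le_abs_self _)
    have hXt : ‖cmv m (γ t).1‖ ≤ X := (cmv_pos_le hγ t ht).trans
      (add_le_add le_rfl (mul_le_mul_of_nonneg_left ht.2.le hP0))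
    have hPt : ‖cmv m (γ t).2‖ ≤ P := by
      rw [hvel t ht]
    have h1 : ‖∑ i, m (e i) • (γ t).1 (e i)‖ ≤ A1 := subI_part hm e _ hXt hq
    have h2 : ‖∑ i, m (e i) • (γ t).2 (e i)‖ ≤ A2 := subI_part hm e _ hPt hv
    refine ⟨?_, ?_, ?_, ?_⟩
    · have h3 := subI_kin hm e (γ t).2 hv
      have h4 := subI_pot hm e (γ t).1 hη (hs t ht)
      have h5 : Ham (m ∘ e) (sub e (γ t)) = Ham m (γ t) -
          (Kin m (γ t).2 - Kin (m ∘ e) (fun i => (γ t).2 (e i))) +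
          (Pot m (γ t).1 - Pot (m ∘ e) (fun i => (γ t).1 (e i))) := by
        unfold Ham sub
        ring
      rw [h5, hham t ht]
      calc |Ham m (γ 0) - (Kin m (γ t).2 - Kin (m ∘ e) (fun i => (γ t).2 (e i))) +
          (Pot m (γ t).1 - Pot (m ∘ e) (fun i => (γ t).1 (e i)))|
          ≤ |Ham m (γ 0) - (Kin m (γ t).2 - Kin (m ∘ e) (fun i => (γ t).2 (e i)))| +
            |Pot m (γ t).1 - Pot (m ∘ e) (fun i => (γ t).1 (e i))| := abs_add_le _ _
        _ ≤ (|Ham m (γ 0)| + |Kin m (γ t).2 - Kin (m ∘ e) (fun i => (γ t).2 (e i))|) +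
            |Pot m (γ t).1 - Pot (m ∘ e) (fun i => (γ t).1 (e i))| :=
          add_le_add (abs_sub _ _) le_rfl
        _ ≤ B1 := by
          rw [hB1]
          linarith
    · exact subI_lop hm e (γ t) (le_of_eq (by rw [hlop t ht])) hXt hPt hq hv h1 h2
    · show ‖(∑ i, m (e i))⁻¹ • ∑ i, m (e i) • (γ t).1 (e i)‖ ≤ B3
      rw [norm_smul, Real.norm_eq_abs]
      exact mul_le_mul_of_nonneg_left h1 (abs_nonneg _)
    · show ‖(∑ i, m (e i))⁻¹ • ∑ i, m (e i) • (γ t).2 (e i)‖ ≤ B4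
      rw [norm_smul, Real.norm_eq_abs]
      exact mul_le_mul_of_nonneg_left h2 (abs_nonneg _)
  refine ⟨max (max B1 B2) (max B3 B4), fun t ht => ?_⟩
  obtain ⟨k1, k2, k3, k4⟩ := key t ht
  exact ⟨k1.trans ((le_max_left _ _).trans (le_max_left _ _)),
    k2.trans ((le_max_right _ _).trans (le_max_left _ _)),
    k3.trans ((le_max_left _ _).trans (le_max_right _ _)),
    k4.trans ((le_max_right _ _).trans (le_max_right _ _))⟩

end NBO
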