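import Mathlib
import Pool.Agent.NBO.Sub
import Pool.Agent.NBO.SubI
import Pool.Agent.NB5.MInv

/-!
# Lagrange-Jacobi for the participants (module NBO-SubJ)

With `J = Jner m (γ t)` of a perturbed solution (5 bodies, field `p`): `Iner' = 2 J`,
`J' = 2 Ham - M ‖V‖^2 + Pot + ∑ m_i <q_i - X, p_i>`, and `|<q_i - X, p_i>| ≤ (‖q_i‖ + ‖X‖) B/(1+‖q_i‖)^2 ≤ B (1 + ‖X‖)`.
With `|Ham|, ‖V‖, ‖X‖` bounded (`sub_bdd`) and `Pot ≥ 0`: `J' ≥ -C`, so `J s ≤ J t + C (t - s)` for `s ≤ t`,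
`Iner t = Iner 0 + 2 ∫_0^t J ≤ R (1 + |J t|)` as in `NB5.exists_inv`.
-/

open MeasureTheory Set Filter Topology Metric
open scoped NNReal ENNReal RealInnerProductSpace

namespace NBO

open HDN NB5

variable {N d : ℕ}

private theorem SubJ_pos {γ : ℝ → St d} {t : ℝ} {u : St d} (h : HasDerivAt γ u t) (a : Fin 5) :
    HasDerivAt (fun s => (γ s).1 a) (u.1 a) t := by
  have h1 : HasDerivAt (fun s => (γ s).1) u.1 t := by
    have := (ContinuousLinearMap.fst ℝ (Cf 5 d) (Cf 5 d)).hasFDerivAt.comp_hasDerivAt t h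
    exact this
  exact hasDerivAt_pi.1 h1 a

private theorem SubJ_vel {γ : ℝ → St d} {t : ℝ} {u : St d} (h : HasDerivAt γ u t) (a : Fin 5) :
    HasDerivAt (fun s => (γ s).2 a) (u.2 a) t := by
  have h1 : HasDerivAt (fun s => (γ s).2) u.2 t := by
    have := (ContinuousLinearMap.snd ℝ (Cf 5 d) (Cf 5 d)).hasFDerivAt.comp_hasDerivAt t h
    exact this
  exact hasDerivAt_pi.1 h1 a

private theorem SubJ_cpos {m : Fin 5 → ℝ} {γ : ℝ → St d} {t : ℝ} {u : St d} (h : HasDerivAt γ u t) :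
    HasDerivAt (fun s => cmv m (γ s).1) (cmv m u.1) t := by
  unfold cmv
  exact (HasDerivAt.fun_sum fun a _ => (SubJ_pos h a).const_smul (m a)).const_smul ((∑ a, m a)⁻¹)

private theorem SubJ_cvel {m : Fin 5 → ℝ} {γ : ℝ → St d} {t : ℝ} {u : St d} (h : HasDerivAt γ u t) :
    HasDerivAt (fun s => cmv m (γ s).2) (cmv m u.2) t := by
  unfold cmv
  exact (HasDerivAt.fun_sum fun a _ => (SubJ_vel h a).const_smul (m a)).const_smul ((∑ a, m a)⁻¹)

private theorem SubJ_cadd (m : Fin 5 → ℝ) (a p : Cf 5 d) : cmv m (a + p) = cmv m a + cmv m p := by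
  unfold cmv
  rw [← smul_add, ← Finset.sum_add_distrib]
  congr 1
  refine Finset.sum_congr rfl fun i _ => ?_
  rw [Pi.add_apply, smul_add]

private theorem SubJ_cacc (m : Fin 5 → ℝ) (q : Cf 5 d) : cmv m (acc m q) = 0 := by
  unfold cmv
  rw [ConsL.sum_acc, smul_zero]

/-- the derivative of `Iner` -/
private theorem SubJ_iner {m : Fin 5 → ℝ} {γ : ℝ → St d} {t : ℝ} {w : Cf 5 d}
    (h : HasDerivAt γ ((γ t).2, w) t) :
    HasDerivAt (fun s => Iner m (γ s)) (2 * Jner m (γ t)) t := by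
  have h1 : HasDerivAt (fun s => Iner m (γ s))
      (∑ a, m a * (2 * ⟪(γ t).1 a - cmv m (γ t).1, (γ t).2 a - cmv m (γ t).2⟫)) t := by
    unfold Iner
    refine HasDerivAt.fun_sum fun a _ => ?_
    exact (((SubJ_pos h a).sub (SubJ_cpos h)).norm_sq).const_mul _
  refine h1.congr_deriv ?_
  unfold Jner
  rw [Finset.mul_sum]
  refine Finset.sum_congr rfl fun a _ => ?_
  ring

/-- the work of the outside field -/
private noncomputable def SubJ_w (m : Fin 5 → ℝ) (q p : Cf 5 d) : ℝ := ∑ a, m a * ⟪q a - cmv m q, p a⟫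

/-- the derivative of `Jner` -/
private theorem SubJ_jner {m : Fin 5 → ℝ} (hm : ∀ i, 0 < m i) {γ : ℝ → St d} {t : ℝ} {p : Cf 5 d}
    (hf : Free (γ t).1) (h : HasDerivAt γ ((γ t).2, acc m (γ t).1 + p) t) :
    HasDerivAt (fun s => Jner m (γ s))
      (2 * Ham m (γ t) - (∑ a, m a) * ‖cmv m (γ t).2‖ ^ 2 + Pot m (γ t).1 + SubJ_w m (γ t).1 p) t := by
  have hc : HasDerivAt (fun s => cmv m (γ s).2) (cmv m p) t := by
    have h0 := SubJ_cvel (m := m) h
    have e : cmv m (acc m (γ t).1 + p) = cmv m p := by rw [SubJ_cadd, SubJ_cacc, zero_add]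
    simp only at h0
    rwa [e] at h0
  have h1 : HasDerivAt (fun s => Jner m (γ s))
      (∑ a, m a * (⟪(γ t).1 a - cmv m (γ t).1, (acc m (γ t).1 + p) a - cmv m p⟫ +
        ⟪(γ t).2 a - cmv m (γ t).2, (γ t).2 a - cmv m (γ t).2⟫)) t := by
    unfold Jner
    refine HasDerivAt.fun_sum fun a _ => ?_
    exact (((SubJ_pos h a).sub (SubJ_cpos h)).inner ℝ ((SubJ_vel h a).sub hc)).const_mul _
  refine h1.congr_deriv ?_
  have h2 : ∀ a, m a * (⟪(γ t).1 a - cmv m (γ t).1, (acc m (γ t).1 + p) a - cmv m p⟫ +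
        ⟪(γ t).2 a - cmv m (γ t).2, (γ t).2 a - cmv m (γ t).2⟫) =
      m a * ⟪(γ t).1 a, acc m (γ t).1 a⟫ - ⟪cmv m (γ t).1, m a • acc m (γ t).1 a⟫ +
        m a * ‖(γ t).2 a - cmv m (γ t).2‖ ^ 2 + m a * ⟪(γ t).1 a - cmv m (γ t).1, p a⟫ -
        ⟪m a • (γ t).1 a - m a • cmv m (γ t).1, cmv m p⟫ := by
    intro a
    rw [Pi.add_apply, real_inner_self_eq_norm_sq, real_inner_smul_right, inner_sub_right, inner_add_right,
      ← smul_sub, real_inner_smul_left, inner_sub_left (𝕜 := ℝ) ((γ t).1 a) (cmv m (γ t).1) (acc m (γ t).1 a)]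
    ring
  have h3 : ∑ a, (m a • (γ t).1 a - m a • cmv m (γ t).1) = 0 := by
    rw [Finset.sum_sub_distrib, ← sum_smul_cmv hm, ← Finset.sum_smul, sub_self]
  rw [Finset.sum_congr rfl fun a _ => h2 a, Finset.sum_sub_distrib, Finset.sum_add_distrib,
    Finset.sum_add_distrib, Finset.sum_sub_distrib, ← inner_sum, ← sum_inner, h3, inner_zero_left,
    ConsL.sum_acc, inner_zero_right, sum_inner_acc hf, kin_cmv hm]
  unfold Ham SubJ_w
  ring

private theorem SubJ_wb {m : Fin 5 → ℝ} (hm : ∀ i, 0 < m i) {x : St d} {p : Cf 5 d} {B R : ℝ} (hB : 0 ≤ B)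
    (h : Pb B x p) (hX : ‖cmv m x.1‖ ≤ R) : -((∑ a, m a) * (B * (1 + R))) ≤ SubJ_w m x.1 p := by
  unfold SubJ_w
  rw [Finset.sum_mul, ← Finset.sum_neg_distrib]
  refine Finset.sum_le_sum fun a _ => ?_
  have hR : 0 ≤ R := (norm_nonneg _).trans hX
  have h1 : |⟪x.1 a - cmv m x.1, p a⟫| ≤ B * (1 + R) := by
    refine (abs_real_inner_le_norm _ _).trans ?_
    have hq := norm_nonneg (x.1 a)
    have h2 : ‖x.1 a - cmv m x.1‖ ≤ (1 + R) * (1 + ‖x.1 a‖) := by
      have := norm_sub_le (x.1 a) (cmv m x.1)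
      nlinarith
    have h3 := h.bd a
    have h4 : 0 < 1 + ‖x.1 a‖ := by linarith
    calc ‖x.1 a - cmv m x.1‖ * ‖p a‖ ≤ ((1 + R) * (1 + ‖x.1 a‖)) * (B / (1 + ‖x.1 a‖) ^ 2) :=
          mul_le_mul h2 h3 (norm_nonneg _) (by positivity)
      _ = (B * (1 + R)) * (1 / (1 + ‖x.1 a‖)) := by
          field_simp
      _ ≤ (B * (1 + R)) * 1 := by
          refine mul_le_mul_of_nonneg_left ?_ (by positivity)
          rw [div_le_one h4]
          linarith
      _ = B * (1 + R) := mul_one _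
  have h2 := mul_le_mul_of_nonneg_left ((neg_le_neg h1).trans (neg_abs_le _)) (hm a).le
  linarith

theorem sub_inv {m : Fin N → ℝ} (hm : ∀ i, 0 < m i) (e : Fin 5 ↪ Fin N) {η : ℝ} (hη : 0 < η)
    {γ : ℝ → Ph N d} {T : ℝ} (hT : 0 < T) (hγ : SolOn (nfield m) (FreeSet N d) γ (Ico 0 T))
    (hs : ∀ t ∈ Ico 0 T, Sep e η (γ t).1) :
    ∃ R : ℕ, ∀ t ∈ Ico 0 T, sub e (γ t) ∈ Inv (m ∘ e) (R : ℝ) := by
  obtain ⟨Q, hQ⟩ := sub_bdd hm e hη hT hγ hs
  obtain ⟨B0, hB0⟩ := ps_sub hm e hη hγ hs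
  obtain ⟨B, hB⟩ : ∃ B, B = max B0 0 := ⟨_, rfl⟩
  have hBn : 0 ≤ B := by rw [hB]; exact le_max_right _ _
  have hps := hB0 B (by rw [hB]; exact le_max_left _ _)
  obtain ⟨x, hx⟩ : ∃ x : ℝ → St d, x = fun t => sub e (γ t) := ⟨_, rfl⟩
  obtain ⟨p, hp⟩ : ∃ p : ℝ → Cf 5 d, p = fun t => fld m e (γ t).1 := ⟨_, rfl⟩
  obtain ⟨w, hw⟩ : ∃ w : Fin 5 → ℝ, w = m ∘ e := ⟨_, rfl⟩
  rw [← hx, ← hp, ← hw] at hps
  have hQ' : ∀ t ∈ Ico 0 T, |Ham w (x t)| ≤ Q ∧ ‖Lop w (x t)‖ ≤ Q ∧ ‖cmv w (x t).1‖ ≤ Q ∧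
      ‖cmv w (x t).2‖ ≤ Q := by
    intro t ht
    rw [hw, hx]
    exact hQ t ht
  have hwm : ∀ i, 0 < w i := by
    intro i
    rw [hw]
    exact hm _
  have hM : 0 ≤ ∑ a, w a := Finset.sum_nonneg fun i _ => (hwm i).le
  have h0mem : (0 : ℝ) ∈ Ico 0 T := ⟨le_rfl, hT⟩
  have hQ0 : 0 ≤ Q := (abs_nonneg _).trans (hQ' 0 h0mem).1
  obtain ⟨C, hC⟩ : ∃ C, C = 2 * Q + (∑ a, w a) * Q ^ 2 + (∑ a, w a) * (B * (1 + Q)) := ⟨_, rfl⟩
  have hC0 : 0 ≤ C := by rw [hC]; positivity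
  have hJ : ∀ t ∈ Ico 0 T, ∀ s ∈ Icc 0 t, Jner w (x s) ≤ Jner w (x t) + C * T := by
    intro t ht s hs
    have hmono : MonotoneOn (fun s => Jner w (x s) + C * s) (Icc s t) := by
      refine monotoneOn_of_hasDerivWithinAt_nonneg (convex_Icc s t) (f' := fun u =>
        (2 * Ham w (x u) - (∑ a, w a) * ‖cmv w (x u).2‖ ^ 2 + Pot w (x u).1 + SubJ_w w (x u).1 (p u)) + C)
        ?_ ?_ ?_
      · intro u hu
        have hu' : u ∈ Ico 0 T := ⟨hs.1.trans hu.1, hu.2.trans_lt ht.2⟩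
        have h1 := (SubJ_jner hwm (hps u hu').1 (hps u hu').2.2.2).continuousAt
        exact (h1.add (continuousAt_const.mul continuousAt_id)).continuousWithinAt
      · intro u hu
        rw [interior_Icc] at hu
        have hu' : u ∈ Ico 0 T := ⟨hs.1.trans hu.1.le, hu.2.trans ht.2⟩
        have h1 := SubJ_jner hwm (hps u hu').1 (hps u hu').2.2.2
        have h2 := (hasDerivAt_id u).const_mul C
        rw [mul_one] at h2
        exact (h1.add h2).hasDerivWithinAt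
      · intro u hu
        rw [interior_Icc] at hu
        have hu' : u ∈ Ico 0 T := ⟨hs.1.trans hu.1.le, hu.2.trans ht.2⟩
        have h1 := pot_nonneg hwm (x u).1
        obtain ⟨g1, -, g3, g4⟩ := hQ' u hu'
        have h2 := SubJ_wb hwm hBn (hps u hu').2.1 g3
        have h3 := (neg_le_neg g1).trans (neg_abs_le (Ham w (x u)))
        have h4 : ‖cmv w (x u).2‖ ^ 2 ≤ Q ^ 2 := pow_le_pow_left₀ (norm_nonneg _) g4 2
        have h5 := mul_le_mul_of_nonneg_left h4 hM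
        rw [hC]
        linarith
    have h3 := hmono (left_mem_Icc.2 hs.2) (right_mem_Icc.2 hs.2) hs.2
    simp only at h3
    have h4 : C * t - C * s ≤ C * T := by
      rw [← mul_sub]
      exact mul_le_mul_of_nonneg_left (by linarith [hs.1, ht.2]) hC0
    linarith
  have hI : ∀ t ∈ Ico 0 T, Iner w (x t) ≤ Iner w (x 0) + 2 * T * (|Jner w (x t)| + C * T) := by
    intro t ht
    obtain ⟨D, hD⟩ : ∃ D, D = 2 * (Jner w (x t) + C * T) := ⟨_, rfl⟩
    have hanti : MonotoneOn (fun s => D * s - Iner w (x s)) (Icc 0 t) := by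
      refine monotoneOn_of_hasDerivWithinAt_nonneg (convex_Icc 0 t) (f' := fun u =>
        D - 2 * Jner w (x u)) ?_ ?_ ?_
      · intro u hu
        have hu' : u ∈ Ico 0 T := ⟨hu.1, hu.2.trans_lt ht.2⟩
        have h1 := (SubJ_iner (m := w) (hps u hu').2.2.2).continuousAt
        exact ((continuousAt_const.mul continuousAt_id).sub h1).continuousWithinAt
      · intro u hu
        rw [interior_Icc] at hu
        have hu' : u ∈ Ico 0 T := ⟨hu.1.le, hu.2.trans ht.2⟩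
        have h1 := SubJ_iner (m := w) (hps u hu').2.2.2
        have h2 := (hasDerivAt_id u).const_mul D
        rw [mul_one] at h2
        exact (h2.sub h1).hasDerivWithinAt
      · intro u hu
        rw [interior_Icc] at hu
        have h1 := hJ t ht u ⟨hu.1.le, hu.2.le⟩
        rw [hD]
        linarith
    have h3 := hanti (left_mem_Icc.2 ht.1) (right_mem_Icc.2 ht.1) ht.1
    simp only [mul_zero, zero_sub] at h3
    have h4 : D * t ≤ 2 * T * (|Jner w (x t)| + C * T) := by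
      have h5 : D ≤ 2 * (|Jner w (x t)| + C * T) := by
        rw [hD]
        linarith [le_abs_self (Jner w (x t))]
      have h6 : 0 ≤ 2 * (|Jner w (x t)| + C * T) := by positivity
      calc D * t ≤ 2 * (|Jner w (x t)| + C * T) * t := mul_le_mul_of_nonneg_right h5 ht.1
        _ ≤ 2 * (|Jner w (x t)| + C * T) * T := mul_le_mul_of_nonneg_left ht.2.le h6
        _ = _ := by ring
    linarith
  obtain ⟨R, hR⟩ := exists_nat_ge (Q + (|Iner w (x 0)| + 2 * T * (C * T)) + 2 * T)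
  have e5 := abs_nonneg (Iner w (x 0))
  have e7 : 0 ≤ 2 * T * (C * T) := by positivity
  refine ⟨R, fun t ht => ?_⟩
  have key : x t ∈ Inv w (R : ℝ) := by
    obtain ⟨g1, g2, g3, g4⟩ := hQ' t ht
    refine ⟨(hps t ht).1, by linarith, by linarith, by linarith, by linarith, ?_⟩
    refine (hI t ht).trans ?_
    have h1 := le_abs_self (Iner w (x 0))
    have h2 : 0 ≤ |Jner w (x t)| := abs_nonneg _
    have h3 : 2 * T * |Jner w (x t)| ≤ R * |Jner w (x t)| :=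
      mul_le_mul_of_nonneg_right (by linarith) h2
    have h4 : (R : ℝ) * (1 + |Jner w (x t)|) = R + R * |Jner w (x t)| := by ring
    rw [h4]
    have h5 : 2 * T * (|Jner w (x t)| + C * T) = 2 * T * |Jner w (x t)| + 2 * T * (C * T) := by
      ring
    rw [h5]
    linarith
  rw [hx, hw] at key
  exact key

end NBO
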