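import Mathlib
import Pool.Agent.NBO.Sub

/-!
# Integrals of functions of the participants (module NBO-SubM)

Fubini: `Ph N d = (Fin N → Sp d) × (Fin N → Sp d)` with the product (pi) measure. Split `Fin N` into `range e` and its complement (`MeasurableEquiv.piEquivPiSubtypeProd`,
`volume_preserving_piEquivPiSubtypeProd`), reindex `range e` by `e` (`Equiv.ofInjective`, `volume_measurePreserving_piCongrLeft`), for positions and velocities. The outside part is in a bounded set
(product of balls of radius `R`) of finite volume `V`; `C = V^2`. You may choose another route (e.g. `Fin 5 ⊕ ({c // c ∉ range e}) ≃ Fin N` and `MeasurableEquiv.sumPiEquivProdPi`).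
-/

open MeasureTheory Set Filter Topology Metric
open scoped NNReal ENNReal RealInnerProductSpace

namespace NBO

open HDN NB5

variable {N d : ℕ}

theorem measurable_sub (e : Fin 5 ↪ Fin N) : Measurable (sub e : Ph N d → St d) := by
  unfold sub
  refine Measurable.prodMk ?_ ?_
  · exact measurable_pi_lambda _ fun i => (measurable_pi_apply (e i)).comp measurable_fst
  · exact measurable_pi_lambda _ fun i => (measurable_pi_apply (e i)).comp measurable_snd

theorem measurableSet_out (e : Fin 5 ↪ Fin N) (R : ℝ) :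
    MeasurableSet {x : Ph N d | OutB e R x} := by
  have h : {x : Ph N d | OutB e R x} = ⋂ c : Fin N, ⋂ _ : c ∉ range e,
      {x : Ph N d | ‖x.1 c‖ ≤ R} ∩ {x : Ph N d | ‖x.2 c‖ ≤ R} := by
    ext x
    simp only [mem_iInter, mem_inter_iff]
    exact Iff.rfl
  rw [h]
  refine MeasurableSet.iInter fun c => MeasurableSet.iInter fun _ => MeasurableSet.inter ?_ ?_
  · exact measurableSet_le ((measurable_pi_apply c).comp measurable_fst).norm measurable_const
  · exact measurableSet_le ((measurable_pi_apply c).comp measurable_snd).norm measurable_const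

open Classical in
private noncomputable def SubM_eq (e : Fin 5 ↪ Fin N) :
    (Fin 5 ⊕ {c : Fin N // c ∉ range e}) ≃ Fin N :=
  (Equiv.sumCongr (Equiv.ofInjective e e.injective) (Equiv.refl _)).trans
    (Equiv.sumCompl (· ∈ range e))

private theorem SubM_eq_inl (e : Fin 5 ↪ Fin N) (i : Fin 5) : SubM_eq e (Sum.inl i) = e i := by
  unfold SubM_eq
  simp

private theorem SubM_eq_inr (e : Fin 5 ↪ Fin N) (c : {c : Fin N // c ∉ range e}) :
    SubM_eq e (Sum.inr c) = c.1 := by
  unfold SubM_eq
  simp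

private def SubM_psi (e : Fin 5 ↪ Fin N) (x : Fin N → Sp d) :
    (Fin 5 → Sp d) × ({c : Fin N // c ∉ range e} → Sp d) :=
  (fun i => x (e i), fun c => x c.1)

private theorem SubM_mp (e : Fin 5 ↪ Fin N) :
    MeasurePreserving (SubM_psi (d := d) e) volume volume := by
  classical
  have h1 := volume_measurePreserving_sumPiEquivProdPi
    (fun _ : Fin 5 ⊕ {c : Fin N // c ∉ range e} => Sp d)
  have h2 := (volume_measurePreserving_piCongrLeft (fun _ : Fin N => Sp d) (SubM_eq e)).symm
  have h3 := h1.comp h2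
  have h4 : SubM_psi (d := d) e = (MeasurableEquiv.sumPiEquivProdPi
      (fun _ : Fin 5 ⊕ {c : Fin N // c ∉ range e} => Sp d)) ∘
      (MeasurableEquiv.piCongrLeft (fun _ : Fin N => Sp d) (SubM_eq e)).symm := by
    funext x
    refine Prod.ext ?_ ?_
    · funext i
      change x (e i) = x (SubM_eq e (Sum.inl i))
      rw [SubM_eq_inl]
    · funext c
      change x c.1 = x (SubM_eq e (Sum.inr c))
      rw [SubM_eq_inr]
  rw [h4]
  exact h3

theorem sub_lint (e : Fin 5 ↪ Fin N) (R : ℝ) : ∃ C : ℝ≥0∞, C ≠ ∞ ∧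
    ∀ (A : Set (St d)) (g : St d → ℝ≥0∞), MeasurableSet A → Measurable g →
    ∫⁻ x in {x : Ph N d | sub e x ∈ A ∧ OutB e R x}, g (sub e x) ≤ C * ∫⁻ y in A, g y := by
  classical
  obtain ⟨B, hB⟩ : ∃ B : Set ({c : Fin N // c ∉ range e} → Sp d), B = {b | ∀ c, ‖b c‖ ≤ R} :=
    ⟨_, rfl⟩
  have hBm : MeasurableSet B := by
    have h : B = ⋂ c, {b : {c : Fin N // c ∉ range e} → Sp d | ‖b c‖ ≤ R} := by
      rw [hB]
      ext b
      simp only [mem_iInter]
      exact Iff.rfl
    rw [h]
    exact MeasurableSet.iInter fun c => measurableSet_le (measurable_pi_apply c).norm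
      measurable_const
  have hBf : volume B < ∞ := by
    have h : B ⊆ closedBall 0 |R| := by
      intro b hb
      rw [hB] at hb
      rw [mem_closedBall_zero_iff, pi_norm_le_iff_of_nonneg (abs_nonneg R)]
      intro c
      exact (hb c).trans (le_abs_self R)
    exact (isBounded_closedBall.subset h).measure_lt_top
  refine ⟨volume B * volume B, (ENNReal.mul_lt_top hBf hBf).ne, fun A g hA hg => ?_⟩
  obtain ⟨h, hh⟩ : ∃ h : (Fin 5 → Sp d) × (Fin 5 → Sp d) → ℝ≥0∞, h = A.indicator g := ⟨_, rfl⟩
  obtain ⟨k, hk⟩ : ∃ k : ({c : Fin N // c ∉ range e} → Sp d) → ℝ≥0∞,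
      k = B.indicator (fun _ => 1) := ⟨_, rfl⟩
  have hhm : Measurable h := by
    rw [hh]
    exact hg.indicator hA
  have hkm : Measurable k := by
    rw [hk]
    exact measurable_const.indicator hBm
  have hki : ∫⁻ b, k b = volume B := by
    rw [hk, lintegral_indicator hBm]
    simp
  have hf : Measurable (fun z : ((Fin 5 → Sp d) × ({c : Fin N // c ∉ range e} → Sp d)) ×
      ((Fin 5 → Sp d) × ({c : Fin N // c ∉ range e} → Sp d)) =>
      h (z.1.1, z.2.1) * k z.1.2 * k z.2.2) := by
    refine Measurable.mul (Measurable.mul (hhm.comp ?_) (hkm.comp ?_)) (hkm.comp ?_)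
    · exact (measurable_fst.comp measurable_fst).prodMk (measurable_fst.comp measurable_snd)
    · exact measurable_snd.comp measurable_fst
    · exact measurable_snd.comp measurable_snd
  have hmeas : MeasurableSet {x : Ph N d | sub e x ∈ A ∧ OutB e R x} :=
    (measurable_sub e hA).inter (measurableSet_out e R)
  have h1 : ∫⁻ x in {x : Ph N d | sub e x ∈ A ∧ OutB e R x}, g (sub e x) =
      ∫⁻ x : (Fin N → Sp d) × (Fin N → Sp d),
        (fun z : ((Fin 5 → Sp d) × ({c : Fin N // c ∉ range e} → Sp d)) ×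
          ((Fin 5 → Sp d) × ({c : Fin N // c ∉ range e} → Sp d)) =>
          h (z.1.1, z.2.1) * k z.1.2 * k z.2.2) (Prod.map (SubM_psi e) (SubM_psi e) x)
        ∂(volume.prod volume) := by
    rw [← lintegral_indicator hmeas]
    refine lintegral_congr fun x => ?_
    have e1 : ((SubM_psi e x.1).1, (SubM_psi e x.2).1) = sub e x := rfl
    change _ = h ((SubM_psi e x.1).1, (SubM_psi e x.2).1) * k (SubM_psi e x.1).2 *
      k (SubM_psi e x.2).2
    rw [e1]
    by_cases hx : x ∈ {x : Ph N d | sub e x ∈ A ∧ OutB e R x}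
    · rw [indicator_of_mem hx, hh, indicator_of_mem hx.1, hk, indicator_of_mem, indicator_of_mem]
      · simp
      · rw [hB]
        intro c
        exact (hx.2 c.1 c.2).2
      · rw [hB]
        intro c
        exact (hx.2 c.1 c.2).1
    · rw [indicator_of_notMem hx]
      by_cases h2 : sub e x ∈ A
      · by_cases h3 : (SubM_psi e x.1).2 ∈ B
        · by_cases h4 : (SubM_psi e x.2).2 ∈ B
          · refine absurd ⟨h2, fun c hc => ?_⟩ hx
            rw [hB] at h3 h4
            exact ⟨h3 ⟨c, hc⟩, h4 ⟨c, hc⟩⟩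
          · rw [hk, indicator_of_notMem h4, mul_zero]
        · rw [hk, indicator_of_notMem h3, mul_zero, zero_mul]
      · rw [hh, indicator_of_notMem h2, zero_mul, zero_mul]
  have h2 := ((SubM_mp (d := d) e).prod (SubM_mp (d := d) e)).lintegral_comp hf
  have h3 : ∫⁻ y in A, g y = ∫⁻ a : Fin 5 → Sp d, ∫⁻ a' : Fin 5 → Sp d, h (a, a') := by
    rw [← lintegral_indicator hA, ← hh]
    exact lintegral_prod _ hhm.aemeasurable
  refine le_of_eq ?_
  rw [h1]
  refine h2.trans ?_
  rw [h3]
  rw [lintegral_prod _ hf.aemeasurable]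
  have hH : Measurable fun a : Fin 5 → Sp d => ∫⁻ a' : Fin 5 → Sp d, h (a, a') :=
    hhm.lintegral_prod_right'
  have h4 : ∀ z1 : (Fin 5 → Sp d) × ({c : Fin N // c ∉ range e} → Sp d),
      ∫⁻ z2 : (Fin 5 → Sp d) × ({c : Fin N // c ∉ range e} → Sp d),
        h (z1.1, z2.1) * k z1.2 * k z2.2 =
      (∫⁻ a' : Fin 5 → Sp d, h (z1.1, a')) * k z1.2 * volume B := by
    intro z1
    have hm1 : Measurable fun a' : Fin 5 → Sp d => h (z1.1, a') * k z1.2 :=
      (hhm.comp measurable_prodMk_left).mul_const _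
    have h5 := lintegral_prod_mul (μ := (volume : Measure (Fin 5 → Sp d)))
      (ν := (volume : Measure ({c : Fin N // c ∉ range e} → Sp d)))
      (f := fun a' => h (z1.1, a') * k z1.2) (g := k) hm1.aemeasurable hkm.aemeasurable
    have h8 : ∫⁻ a' : Fin 5 → Sp d, h (z1.1, a') * k z1.2 =
        (∫⁻ a' : Fin 5 → Sp d, h (z1.1, a')) * k z1.2 :=
      lintegral_mul_const _ (hhm.comp measurable_prodMk_left)
    rw [h8, hki] at h5
    exact h5
  rw [lintegral_congr h4]
  have hm2 : Measurable fun b : {c : Fin N // c ∉ range e} → Sp d => k b * volume B :=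
    hkm.mul_const _
  have h6 := lintegral_prod_mul (μ := (volume : Measure (Fin 5 → Sp d)))
    (ν := (volume : Measure ({c : Fin N // c ∉ range e} → Sp d)))
    (f := fun a => ∫⁻ a' : Fin 5 → Sp d, h (a, a')) (g := fun b => k b * volume B)
    hH.aemeasurable hm2.aemeasurable
  rw [lintegral_mul_const _ hkm, hki] at h6
  have h7 : ∀ z1 : (Fin 5 → Sp d) × ({c : Fin N // c ∉ range e} → Sp d),
      (∫⁻ a' : Fin 5 → Sp d, h (z1.1, a')) * k z1.2 * volume B =
      (∫⁻ a' : Fin 5 → Sp d, h (z1.1, a')) * (k z1.2 * volume B) := fun z1 => mul_assoc _ _ _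
  rw [lintegral_congr h7]
  refine h6.trans ?_
  rw [mul_comm]

end NBO
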