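import Mathlib
import Pool.Agent.NBO.SubJ
import Pool.Agent.NBO.SubM
import Pool.Agent.NBO.SFin
import Pool.Agent.NB5.MCombo

/-!
# The context exists for almost every state (module NBO-Cmb)

Copy the proof of `exists_cx` in `NB5/MCombo.lean`: `markov` (general `N`) with the sets `A R = {x | sub e x ∈ Inv (m ∘ e) (P R).R ∧ OutB e R x}`, the weight `fun x => G (P R) (m ∘ e) (sub e x)` (`sub_lint`, `hfin`), for all `R : ℕ` and time bounds `n : ℕ`.
For a solution as in the theorem take `R` larger than the `R` of `sub_inv`, of `out_bdd` and the `B0` of `ps_sub` (`inv_mono`, `hPR`). `lim`: `NB5.iso_null` (general `N`): if `Rg 4 (sub e (γ t)).1 ≥ δ` then by `iso_of_rg`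
all pairs of participants but one are `≥ δ` apart, so `Iso (min δ η)` for the N bodies (`Sep`); so for every `δ > 0` some `t ∈ [0,T)` has `Rg 4 < δ`, and then also some `t ∈ [τ,T)`
(as in `rg_null`: `Rg 4` is bounded below on the compact `[0,τ]`).
-/

open MeasureTheory Set Filter Topology Metric
open scoped NNReal ENNReal RealInnerProductSpace

namespace NBO

open HDN NB5

variable {N d : ℕ}

theorem Cmb.outB_mono {e : Fin 5 ↪ Fin N} {R R' : ℝ} {x : Ph N d} (h : OutB e R x) (hR : R ≤ R') :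
    OutB e R' x := fun c hc => ⟨(h c hc).1.trans hR, (h c hc).2.trans hR⟩

/-- `Rg 4` of the participants comes arbitrarily close to zero -/
private theorem rg_lim (e : Fin 5 ↪ Fin N) {γ : ℝ → Ph N d} {T η : ℝ} (hη : 0 < η) {m : Fin N → ℝ}
    (hγ : SolOn (nfield m) (FreeSet N d) γ (Ico 0 T))
    (hs : ∀ t ∈ Ico 0 T, Sep e η (γ t).1)
    (hx : ∀ δ > 0, ∃ t ∈ Ico 0 T, ∀ a b, a ≠ b → ¬ Iso δ a b (γ t).1) {τ : ℝ} (hτ : τ ∈ Ico 0 T)
    {δ : ℝ} (hδ : 0 < δ) : ∃ t ∈ Ico τ T, Rg 4 (sub e (γ t)).1 < δ := by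
  have hcont : ContinuousOn γ (Icc 0 τ) := fun t ht =>
    ((hγ t ⟨ht.1, lt_of_le_of_lt ht.2 hτ.2⟩).2).continuousAt.continuousWithinAt
  have h3 : ∀ p : Fin 5 × Fin 5, ∃ r > 0, p.1 ≠ p.2 →
      ∀ t ∈ Icc 0 τ, r ≤ ‖(γ t).1 (e p.1) - (γ t).1 (e p.2)‖ := by
    rintro ⟨a, b⟩
    by_cases hab : a = b
    · exact ⟨1, one_pos, fun h => absurd hab h⟩
    · have hc : ContinuousOn (fun t => ‖(γ t).1 (e a) - (γ t).1 (e b)‖) (Icc 0 τ) := by
        have hc1 : Continuous fun x : Ph N d => ‖x.1 (e a) - x.1 (e b)‖ := by fun_prop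
        exact hc1.comp_continuousOn hcont
      obtain ⟨s, hs', hmin⟩ := isCompact_Icc.exists_isMinOn (nonempty_Icc.2 hτ.1) hc
      refine ⟨‖(γ s).1 (e a) - (γ s).1 (e b)‖, ?_, fun _ t ht => hmin ht⟩
      have hfree : Free (γ s).1 := (hγ s ⟨hs'.1, lt_of_le_of_lt hs'.2 hτ.2⟩).1
      exact norm_pos_iff.2 (sub_ne_zero.2 (hfree _ _ fun h => hab (e.injective h)))
  choose r hr hle using h3
  obtain ⟨p0, hp0⟩ := Finite.exists_min r
  obtain ⟨t, ht, hbad⟩ := hx (min (min δ η) (r p0)) (lt_min (lt_min hδ hη) (hr p0))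
  have hlt : Rg 4 (sub e (γ t)).1 < min (min δ η) (r p0) := by
    by_contra hcon
    rw [not_lt] at hcon
    obtain ⟨a, b, hab, hiso⟩ := iso_of_rg hcon
    refine hbad (e a) (e b) (fun h => hab (e.injective h)) fun i j hij h1 h2 => ?_
    have hη' : min (min δ η) (r p0) ≤ η := (min_le_left _ _).trans (min_le_right _ _)
    by_cases hi : i ∈ range e
    · by_cases hj : j ∈ range e
      · obtain ⟨i', rfl⟩ := hi
        obtain ⟨j', rfl⟩ := hj
        exact hiso i' j' (fun h => hij (by rw [h])) (fun h => h1 ⟨by rw [h.1], by rw [h.2]⟩)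
          (fun h => h2 ⟨by rw [h.1], by rw [h.2]⟩)
      · have h3 := hs t ht j hj i hij
        rw [norm_sub_rev] at h3
        exact hη'.trans h3
    · exact hη'.trans (hs t ht i hi j hij.symm)
  refine ⟨t, ⟨?_, ht.2⟩, hlt.trans_le ((min_le_left _ _).trans (min_le_left _ _))⟩
  by_contra hcon
  rw [not_le] at hcon
  have h4 : r p0 ≤ Rg 4 (sub e (γ t)).1 := by
    refine min_le_rg (by norm_num) (by norm_num) fun i j hij => ?_
    exact (hp0 (i, j)).trans (hle (i, j) hij t ⟨ht.1, hcon.le⟩)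
  have h5 := hlt.trans_le (min_le_right (min δ η) (r p0))
  linarith

theorem exists_cx (hd : 3 ≤ d) {m : Fin N → ℝ} (hm : ∀ i, 0 < m i) (e : Fin 5 ↪ Fin N) (P : ℕ → Par)
    (hMb : ∀ R, Mb (P R).M (m ∘ e)) (hPR : ∀ R : ℕ, (R : ℝ) ≤ (P R).R)
    (hfin : ∀ R, ∫⁻ y in (Inv (m ∘ e) (P R).R : Set (St d)), G (P R) (m ∘ e) y ≠ ∞) :
    ∀ᵐ x : Ph N d, ∀ T > 0, ∀ γ : ℝ → Ph N d, γ 0 = x →
      SolOn (nfield m) (FreeSet N d) γ (Ico 0 T) →
      (∀ K, IsCompact K → K ⊆ FreeSet N d → ∃ t ∈ Ico 0 T, γ t ∉ K) →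
      ∀ η > 0, (∀ t ∈ Ico 0 T, Sep e η (γ t).1) →
      ∃ R : ℕ, ∀ ε > 0, ∀ᶠ τ in 𝓝[<] T,
        Cx (P R) ε (m ∘ e) (fun t => fld m e (γ t).1) (fun t => sub e (γ t)) τ T := by
  classical
  have hA : ∀ R : ℕ, MeasurableSet
      {x : Ph N d | sub e x ∈ (Inv (m ∘ e) (P R).R : Set (St d)) ∧ OutB e R x} := fun R =>
    ((measurable_sub e) (measurableSet_inv (m ∘ e) (P R).R)).inter (measurableSet_out e (R : ℝ))
  have hG : ∀ R : ℕ, Measurable (fun x : Ph N d => G (P R) (m ∘ e) (sub e x)) := fun R =>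
    (measurable_weight (P R) (m ∘ e)).comp (measurable_sub e)
  have hF : ∀ R : ℕ, ∫⁻ x in
      {x : Ph N d | sub e x ∈ (Inv (m ∘ e) (P R).R : Set (St d)) ∧ OutB e R x},
      G (P R) (m ∘ e) (sub e x) ≠ ∞ := by
    intro R
    obtain ⟨C, hC, hle⟩ := sub_lint (d := d) e (R : ℝ)
    exact ne_top_of_le_ne_top (ENNReal.mul_ne_top hC (hfin R))
      (hle _ _ (measurableSet_inv (m ∘ e) (P R).R) (measurable_weight (P R) (m ∘ e)))
  have h1 := ae_all_iff.2 fun p : ℕ × ℕ => markov m (hA p.1) (hG p.1) (hF p.1) p.2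
  filter_upwards [h1, iso_null (N := N) (d := d) hd hm] with x hx hrg T hT γ h0 hγ hK η hη hs
  obtain ⟨R1, hR1⟩ := sub_inv hm e hη hT hγ hs
  obtain ⟨R2, hR2⟩ := out_bdd hm e hη hγ hs
  obtain ⟨B0, hB0⟩ := ps_sub hm e hη hγ hs
  obtain ⟨R, hR⟩ := exists_nat_ge (max (R1 : ℝ) (max R2 B0))
  obtain ⟨n, hn⟩ := exists_nat_ge T
  have hRa : (R1 : ℝ) ≤ R := (le_max_left _ _).trans hR
  have hRb : R2 ≤ R := ((le_max_left _ _).trans (le_max_right _ _)).trans hR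
  have hRc : B0 ≤ R := ((le_max_right _ _).trans (le_max_right _ _)).trans hR
  have hinv : ∀ t ∈ Ico 0 T, sub e (γ t) ∈ (Inv (m ∘ e) (P R).R : Set (St d)) := fun t ht =>
    inv_mono (hRa.trans (hPR R)) (hR1 t ht)
  have hint := hx (R, n) T hn γ h0 hγ (fun t ht => ⟨hinv t ht, Cmb.outB_mono (hR2 t ht) hRb⟩)
  refine ⟨R, fun ε hε => ?_⟩
  obtain ⟨δ, hδ, hs'⟩ := exists_pos_setLIntegral_lt_of_measure_lt hint
    (ε := ENNReal.ofReal ε) (by simpa using hε)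
  have hlim : ∀ᶠ τ in 𝓝[<] T, ENNReal.ofReal (T - τ) < δ := by
    have hc : Tendsto (fun τ : ℝ => ENNReal.ofReal (T - τ)) (𝓝[<] T) (𝓝 0) := by
      have h2 : Tendsto (fun τ : ℝ => T - τ) (𝓝[<] T) (𝓝 (T - T)) :=
        (tendsto_const_nhds.sub tendsto_id).mono_left nhdsWithin_le_nhds
      rw [sub_self] at h2
      simpa using ENNReal.tendsto_ofReal h2
    exact hc (Iio_mem_nhds hδ)
  have hlt : ∀ᶠ τ in 𝓝[<] T, τ < T := self_mem_nhdsWithin
  have hgt : ∀ᶠ τ in 𝓝[<] T, max 0 (T - 1) < τ := by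
    have h2 : Ioi (max 0 (T - 1)) ∈ 𝓝 T := Ioi_mem_nhds (max_lt hT (by linarith))
    exact nhdsWithin_le_nhds h2
  filter_upwards [hlim, hlt, hgt] with τ h2 h3 h4
  have h5 : 0 < τ := lt_of_le_of_lt (le_max_left _ _) h4
  have h6 : T - 1 < τ := lt_of_le_of_lt (le_max_right _ _) h4
  have hsub : Ico τ T ⊆ Ico 0 T := Ico_subset_Ico_left h5.le
  refine ⟨hMb R, h3, by linarith, fun t ht => hB0 _ (hRc.trans (hPR R)) t (hsub ht),
    fun t ht => hinv t (hsub ht), ?_,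
    fun δ' hδ' => rg_lim e hη hγ hs (fun δ hδ => hrg T hT γ h0 hγ hK δ hδ) ⟨h5.le, h3⟩ hδ'⟩
  have h7 := hs' (Ico τ T) (by
    rw [Measure.restrict_apply measurableSet_Ico, inter_eq_self_of_subset_left hsub,
      Real.volume_Ico]
    exact h2)
  rw [Measure.restrict_restrict measurableSet_Ico, inter_eq_self_of_subset_left hsub] at h7
  exact h7.le

end NBO
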