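import Mathlib
import Pool.Agent.NBO.Defs
import Pool.Agent.NB5.RelB
import Pool.Agent.NB5.RelD
import Pool.Agent.NB5.P5L

/-!
# Relabelling and comparison of the weights (module NBO-Rel)

Copy the proofs of `NB5/RelB.lean` (`sol_rel`, `G_rel`), `NB5/RelD.lean` and `NB5/P5L.lean` (`gP_le_G` ...). `G = NB5.G + GS`; `gS` is
relabelled like `gX`. `Pb` is clearly invariant.
-/

open MeasureTheory Set Filter Topology Metric
open scoped NNReal ENNReal RealInnerProductSpace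

namespace NBO

open HDN NB5

variable {d : ℕ} {m : Fin 5 → ℝ}

theorem PS.rel {B : ℝ} {p : ℝ → Cf 5 d} {γ : ℝ → St d} {S : Set ℝ} (h : PS B m p γ S)
    (σ : Equiv.Perm (Fin 5)) :
    PS B (m ∘ σ) (fun t => p t ∘ σ) (fun t => rel σ (γ t)) S := by
  intro t ht
  obtain ⟨h1, h2, h0, h3⟩ := h t ht
  refine ⟨free_rel σ h1, ⟨fun i => h2.bd (σ i), fun i j => h2.lip (σ i) (σ j)⟩,
    continuousAt_pi.2 fun i => (continuousAt_pi.1 h0) (σ i), ?_⟩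
  have h4 : HasDerivAt (fun s => (γ s).1) (γ t).2 t := h3.fst
  have h5 : HasDerivAt (fun s => (γ s).2) (acc m (γ t).1 + p t) t := h3.snd
  have h6 : HasDerivAt (fun s => (γ s).1 ∘ σ) ((γ t).2 ∘ σ) t :=
    hasDerivAt_pi.2 fun i => (hasDerivAt_pi.1 h4) (σ i)
  have h7 : HasDerivAt (fun s => (γ s).2 ∘ σ) (acc m (γ t).1 ∘ σ + p t ∘ σ) t :=
    hasDerivAt_pi.2 fun i => (hasDerivAt_pi.1 h5) (σ i)
  have h8 := h6.prodMk h7
  rw [← acc_rel] at h8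
  exact h8

theorem PS.mono {B : ℝ} {p : ℝ → Cf 5 d} {γ : ℝ → St d} {S S' : Set ℝ} (h : PS B m p γ S)
    (hS : S' ⊆ S) : PS B m p γ S' := fun t ht => h t (hS ht)

theorem PS.continuousOn {B : ℝ} {p : ℝ → Cf 5 d} {γ : ℝ → St d} {S : Set ℝ} (h : PS B m p γ S) :
    ContinuousOn γ S := fun t ht => (h t ht).2.2.2.continuousAt.continuousWithinAt

theorem GS_rel (P : Par) (σ : Equiv.Perm (Fin 5)) (x : St d) :
    GS P (m ∘ σ) (rel σ x) = GS P m x := by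
  unfold GS
  exact Equiv.sum_comp (Equiv.mulLeft σ) fun s : Equiv.Perm (Fin 5) =>
    ∑' k : ℕ, gS P (lev (P.k0 + k)) (m ∘ s) (rel s x)

theorem G_rel (P : Par) (σ : Equiv.Perm (Fin 5)) (x : St d) :
    G P (m ∘ σ) (rel σ x) = G P m x := by
  unfold G
  rw [NB5.G_rel, GS_rel]

theorem nb5_le_G (P : Par) (m : Fin 5 → ℝ) (x : St d) : NB5.G P m x ≤ G P m x :=
  le_self_add

theorem gP_le_G (P : Par) {k : ℕ} (hk : P.k0 ≤ k) (σ : Equiv.Perm (Fin 5)) (m : Fin 5 → ℝ) (x : St d) :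
    gP P (lev k) (m ∘ σ) (rel σ x) ≤ G P m x :=
  (NB5.gP_le_G P hk σ m x).trans (nb5_le_G P m x)

theorem gD_le_G (P : Par) {k : ℕ} (hk : P.k0 ≤ k) (σ : Equiv.Perm (Fin 5)) (m : Fin 5 → ℝ) (x : St d) :
    gD P (lev k) (m ∘ σ) (rel σ x) ≤ G P m x :=
  (NB5.gD_le_G P hk σ m x).trans (nb5_le_G P m x)

theorem gX_le_G (P : Par) {k : ℕ} (hk : P.k0 ≤ k) (σ : Equiv.Perm (Fin 5)) (m : Fin 5 → ℝ) (x : St d) :
    gX P (lev k) (m ∘ σ) (rel σ x) ≤ G P m x :=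
  (NB5.gX_le_G P hk σ m x).trans (nb5_le_G P m x)

theorem gB_le_G (P : Par) (n : ℕ) (σ : Equiv.Perm (Fin 5)) (m : Fin 5 → ℝ) (x : St d) :
    gB n (m ∘ σ) (rel σ x) ≤ G P m x :=
  (NB5.gB_le_G P n σ m x).trans (nb5_le_G P m x)

theorem gS_le_G (P : Par) {k : ℕ} (hk : P.k0 ≤ k) (σ : Equiv.Perm (Fin 5)) (m : Fin 5 → ℝ) (x : St d) :
    gS P (lev k) (m ∘ σ) (rel σ x) ≤ G P m x := by
  obtain ⟨j, rfl⟩ := Nat.exists_eq_add_of_le hk
  refine le_trans ?_ (le_add_self : GS P m x ≤ NB5.G P m x + GS P m x)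
  unfold GS
  refine le_trans ?_ (Finset.single_le_sum (f := fun s : Equiv.Perm (Fin 5) =>
    ∑' k : ℕ, gS P (lev (P.k0 + k)) (m ∘ s) (rel s x)) (fun _ _ => zero_le)
    (Finset.mem_univ σ))
  exact ENNReal.le_tsum (f := fun k : ℕ => gS P (lev (P.k0 + k)) (m ∘ σ) (rel σ x)) j

private theorem Rel_ex (Q : (Fin 5 → ℝ) → St d → Prop) (m : Fin 5 → ℝ) (σ : Equiv.Perm (Fin 5))
    (x : St d) : (∃ s : Equiv.Perm (Fin 5), Q ((m ∘ σ) ∘ s) (rel s (rel σ x))) ↔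
      ∃ s : Equiv.Perm (Fin 5), Q (m ∘ s) (rel s x) := by
  constructor
  · rintro ⟨s, h⟩
    exact ⟨σ * s, h⟩
  · rintro ⟨s, h⟩
    refine ⟨σ⁻¹ * s, ?_⟩
    rw [rel_rel, mass_mul, mul_inv_cancel_left]
    exact h

theorem Cx.rel {P : Par} {ε : ℝ} {p : ℝ → Cf 5 d} {γ : ℝ → St d} {τ T : ℝ}
    (h : Cx P ε m p γ τ T) (σ : Equiv.Perm (Fin 5)) :
    Cx P ε (m ∘ σ) (fun t => p t ∘ σ) (fun t => rel σ (γ t)) τ T where
  hm := h.hm.rel σ
  hτ := h.hτ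
  hT := h.hT
  sol := h.sol.rel σ
  inv := fun t ht => inv_rel σ (h.inv t ht)
  hG := by
    have h1 := h.hG
    simp only [G_rel]
    exact h1
  lim := by
    intro δ hδ
    obtain ⟨t, ht, h1⟩ := h.lim δ hδ
    refine ⟨t, ht, ?_⟩
    show Rg 4 ((γ t).1 ∘ σ) < δ
    rw [Rg_rel]
    exact h1

variable {P : Par} {C : ℝ} {γ : ℝ → St d} {t t1 τ : ℝ} {k1 k : ℕ}

theorem Dg_rel (σ : Equiv.Perm (Fin 5)) :
    Dg P C (m ∘ σ) (fun t => rel σ (γ t)) t t1 k1 = Dg P C m γ t t1 k1 := by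
  unfold Dg
  simp only [G_rel]

theorem StrI_rel (σ : Equiv.Perm (Fin 5)) :
    StrI P C (m ∘ σ) (fun t => rel σ (γ t)) t t1 k1 k ↔ StrI P C m γ t t1 k1 k := by
  unfold StrI
  rw [TG_rel, Dg_rel]
  refine and_congr_right fun _ => and_congr_right fun _ => and_congr_right fun _ => ?_
  exact Rel_ex (fun m' x => SI P (Dg P C m γ t t1 k1) (lev k) m' x) m σ (γ t)

theorem StrIII_rel (σ : Equiv.Perm (Fin 5)) :
    StrIII P C (m ∘ σ) (fun t => rel σ (γ t)) t t1 k1 k ↔ StrIII P C m γ t t1 k1 k := by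
  unfold StrIII
  rw [TG_rel, Dg_rel]
  refine and_congr_right fun _ => and_congr_right fun _ => and_congr_right fun _ => ?_
  exact Rel_ex (fun m' x => SIII P (Dg P C m γ t t1 k1) (lev k) m' x) m σ (γ t)

end NBO
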