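import Mathlib
import Pool.Agent.NBO.Defs
import Pool.Agent.NB5.DerFQ
import Pool.Agent.NB5.DerFT
import Pool.Agent.NB5.RelMot

/-!
# Derivatives in the outside field (module NBO-Der)

Copy the proofs of `NB5/DerFQ.lean`, `NB5/DerFT.lean`, `NB5/RelMot.lean`; the outside field `p` adds the work `WkQ`, `WkT`
(`KQ`, `KT` are quadratic in the velocities of the reduced bodies; `FQ - KQ`, `FT - KT` depend on the positions only).
-/

open MeasureTheory Set Filter Topology Metric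
open scoped NNReal ENNReal RealInnerProductSpace

namespace NBO

open HDN NB5

variable {d : ℕ} {m : Fin 5 → ℝ}

/-- work of the field `p` on the bodies `{0,1}, 2, 3, 4` -/
noncomputable def WkQ (m : Fin 5 → ℝ) (x : St d) (p : Cf 5 d) : ℝ :=
  (m 0 + m 1) * ⟪cm m 0 1 x.2, cm m 0 1 p⟫ + m 2 * ⟪x.2 2, p 2⟫ + m 3 * ⟪x.2 3, p 3⟫ +
    m 4 * ⟪x.2 4, p 4⟫

/-- work of the field `p` on the bodies `{0,1,2}, 3, 4` -/
noncomputable def WkT (m : Fin 5 → ℝ) (x : St d) (p : Cf 5 d) : ℝ :=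
  (m 0 + m 1 + m 2) * ⟪cm3 m 0 1 2 x.2, cm3 m 0 1 2 p⟫ + m 3 * ⟪x.2 3, p 3⟫ + m 4 * ⟪x.2 4, p 4⟫

private theorem der_comp1 {γ : ℝ → St d} {t : ℝ} {γ' : St d} (hγ : HasDerivAt γ γ' t)
    (i : Fin 5) : HasDerivAt (fun s => (γ s).1 i) (γ'.1 i) t := by
  have h1 : HasDerivAt (fun s => (γ s).1) γ'.1 t := hγ.fst
  exact (hasDerivAt_pi.1 h1) i

private theorem der_comp2 {γ : ℝ → St d} {t : ℝ} {γ' : St d} (hγ : HasDerivAt γ γ' t)
    (i : Fin 5) : HasDerivAt (fun s => (γ s).2 i) (γ'.2 i) t := by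
  have h1 : HasDerivAt (fun s => (γ s).2) γ'.2 t := hγ.snd
  exact (hasDerivAt_pi.1 h1) i

/-- the curve with the velocities of the unperturbed motion -/
private theorem der_base {γ : ℝ → St d} {t : ℝ} {p : Cf 5 d}
    (hγ : HasDerivAt γ ((γ t).2, acc m (γ t).1 + p) t) :
    HasDerivAt (fun s => (((γ s).1, (γ s).2 - (s - t) • p) : St d)) (nfield m (γ t)) t := by
  have h1 : HasDerivAt (fun s => (γ s).1) (γ t).2 t := hγ.fst
  have h2 : HasDerivAt (fun s => (γ s).2) (acc m (γ t).1 + p) t := hγ.snd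
  have h3 : HasDerivAt (fun s : ℝ => (s - t) • p) ((1 : ℝ) • p) t :=
    ((hasDerivAt_id t).sub_const t).smul_const p
  have h4 := h1.prodMk (h2.sub h3)
  refine h4.congr_deriv ?_
  unfold nfield
  rw [one_smul, add_sub_cancel_right]

private theorem der_base_t {γ : ℝ → St d} {t : ℝ} {p : Cf 5 d} :
    (((γ t).1, (γ t).2 - (t - t) • p) : St d) = γ t := by
  rw [sub_self, zero_smul, sub_zero]

private theorem der_cm_add (a b : Fin 5) (u v : Cf 5 d) :
    cm m a b (u + v) = cm m a b u + cm m a b v := by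
  unfold cm
  rw [Pi.add_apply, Pi.add_apply]
  module

private theorem der_cm3_add (a b c : Fin 5) (u v : Cf 5 d) :
    cm3 m a b c (u + v) = cm3 m a b c u + cm3 m a b c v := by
  unfold cm3
  rw [Pi.add_apply, Pi.add_apply, Pi.add_apply]
  module

private theorem der_cm3 {η : ℝ → Cf 5 d} {η' : Cf 5 d} {t : ℝ}
    (h : ∀ i, HasDerivAt (fun s => η s i) (η' i) t) :
    HasDerivAt (fun s => cm3 m 0 1 2 (η s)) (cm3 m 0 1 2 η') t := by
  unfold cm3
  exact ((((h 0).const_smul (m 0)).add ((h 1).const_smul (m 1))).add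
    ((h 2).const_smul (m 2))).const_smul (m 0 + m 1 + m 2)⁻¹

private theorem der_KQ {η : ℝ → Cf 5 d} {η' : Cf 5 d} {t : ℝ}
    (h : ∀ i, HasDerivAt (fun s => η s i) (η' i) t) :
    HasDerivAt (fun s => KQ m (η s)) ((m 0 + m 1) * ⟪cm m 0 1 (η t), cm m 0 1 η'⟫ +
      m 2 * ⟪η t 2, η' 2⟫ + m 3 * ⟪η t 3, η' 3⟫ + m 4 * ⟪η t 4, η' 4⟫) t := by
  have hW : HasDerivAt (fun s => cm m 0 1 (η s)) (cm m 0 1 η') t := XDerA.cm_deriv h
  have hK := (((((hW.norm_sq).const_mul (m 0 + m 1)).add (((h 2).norm_sq).const_mul (m 2))).add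
    (((h 3).norm_sq).const_mul (m 3))).add (((h 4).norm_sq).const_mul (m 4))).const_mul (1 / 2)
  refine hK.congr_deriv ?_
  ring

private theorem der_KT {η : ℝ → Cf 5 d} {η' : Cf 5 d} {t : ℝ}
    (h : ∀ i, HasDerivAt (fun s => η s i) (η' i) t) :
    HasDerivAt (fun s => KT m (η s)) ((m 0 + m 1 + m 2) * ⟪cm3 m 0 1 2 (η t), cm3 m 0 1 2 η'⟫ +
      m 3 * ⟪η t 3, η' 3⟫ + m 4 * ⟪η t 4, η' 4⟫) t := by
  have hW : HasDerivAt (fun s => cm3 m 0 1 2 (η s)) (cm3 m 0 1 2 η') t := der_cm3 h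
  have hK := ((((hW.norm_sq).const_mul (m 0 + m 1 + m 2)).add
    (((h 3).norm_sq).const_mul (m 3))).add (((h 4).norm_sq).const_mul (m 4))).const_mul (1 / 2)
  refine hK.congr_deriv ?_
  ring

theorem hasDerivAt_FQ (hm : ∀ i, 0 < m i) {γ : ℝ → St d} {t : ℝ} {p : Cf 5 d} (hfree : Free (γ t).1)
    (hγ : HasDerivAt γ ((γ t).2, acc m (γ t).1 + p) t)
    (hc : ∀ j : Fin 5, 2 ≤ j → 0 < ‖(γ t).1 j - cm m 0 1 (γ t).1‖) :
    HasDerivAt (fun s => FQ m (γ s)) (dFQ m (γ t) + WkQ m (γ t) p) t := by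
  have h0 := der_base (m := m) hγ
  have ht := der_base_t (γ := γ) (t := t) (p := p)
  have h1 := NB5.hasDerivAt_FQ (m := m) (γ := fun s => (((γ s).1, (γ s).2 - (s - t) • p) : St d))
    (t := t) hm hfree (by simpa only [ht] using h0) hc
  have h2 := der_KQ (m := m) (η := fun s => (γ s).2) (der_comp2 hγ)
  have h3 := der_KQ (m := m) (η := fun s => (γ s).2 - (s - t) • p) (η' := acc m (γ t).1)
    (fun i => der_comp2 h0 i)
  have h4 := h1.add (h2.sub h3)
  have e : (fun s => FQ m (γ s)) = fun s => FQ m (((γ s).1, (γ s).2 - (s - t) • p) : St d) +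
      (KQ m (γ s).2 - KQ m ((γ s).2 - (s - t) • p)) := by
    funext s
    unfold FQ
    simp only
    ring
  rw [e]
  refine h4.congr_deriv ?_
  simp only [sub_self, zero_smul, sub_zero, Prod.mk.eta]
  unfold WkQ
  rw [der_cm_add, Pi.add_apply, Pi.add_apply, Pi.add_apply]
  simp only [inner_add_right]
  ring

theorem hasDerivAt_FT (hm : ∀ i, 0 < m i) {γ : ℝ → St d} {t : ℝ} {p : Cf 5 d} (hfree : Free (γ t).1)
    (hγ : HasDerivAt γ ((γ t).2, acc m (γ t).1 + p) t)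
    (h3 : 0 < ‖(γ t).1 3 - cm3 m 0 1 2 (γ t).1‖) (h4 : 0 < ‖(γ t).1 4 - cm3 m 0 1 2 (γ t).1‖) :
    HasDerivAt (fun s => FT m (γ s)) (dFT m (γ t) + WkT m (γ t) p) t := by
  have h0 := der_base (m := m) hγ
  have ht := der_base_t (γ := γ) (t := t) (p := p)
  have h1 := NB5.hasDerivAt_FT (m := m) (γ := fun s => (((γ s).1, (γ s).2 - (s - t) • p) : St d))
    (t := t) hm hfree (by simpa only [ht] using h0) h3 h4
  have h2 := der_KT (m := m) (η := fun s => (γ s).2) (der_comp2 hγ)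
  have h3' := der_KT (m := m) (η := fun s => (γ s).2 - (s - t) • p) (η' := acc m (γ t).1)
    (fun i => der_comp2 h0 i)
  have h5 := h1.add (h2.sub h3')
  have e : (fun s => FT m (γ s)) = fun s => FT m (((γ s).1, (γ s).2 - (s - t) • p) : St d) +
      (KT m (γ s).2 - KT m ((γ s).2 - (s - t) • p)) := by
    funext s
    unfold FT
    simp only
    ring
  rw [e]
  refine h5.congr_deriv ?_
  simp only [sub_self, zero_smul, sub_zero, Prod.mk.eta]
  unfold WkT
  rw [der_cm3_add, Pi.add_apply, Pi.add_apply]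
  simp only [inner_add_right]
  ring

theorem hasDerivAt_x2 {γ : ℝ → St d} {t : ℝ} {p : Cf 5 d}
    (hγ : HasDerivAt γ ((γ t).2, acc m (γ t).1 + p) t) :
    HasDerivAt (fun s => (γ s).1 2 - cm m 0 1 (γ s).1) ((γ t).2 2 - cm m 0 1 (γ t).2) t := by
  exact (der_comp1 hγ 2).sub (XDerA.cm_deriv (γ := fun s => (γ s).1) (der_comp1 hγ))

theorem hasDerivAt_w2 {γ : ℝ → St d} {t : ℝ} {p : Cf 5 d}
    (hγ : HasDerivAt γ ((γ t).2, acc m (γ t).1 + p) t) :
    HasDerivAt (fun s => (γ s).2 2 - cm m 0 1 (γ s).2)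
      (-((m 0 + m 1 + m 2) • grav ((γ t).1 2 - cm m 0 1 (γ t).1)) +
        (pQ m (γ t).1 + (p 2 - cm m 0 1 p))) t := by
  have h := (der_comp2 hγ 2).sub (XDerA.cm_deriv (m := m) (a := 0) (b := 1)
    (γ := fun s => (γ s).2) (der_comp2 hγ))
  refine h.congr_deriv ?_
  simp only
  unfold pQ
  rw [der_cm_add, Pi.add_apply]
  abel

theorem hasDerivAt_pos {γ : ℝ → St d} {t : ℝ} {p : Cf 5 d}
    (hγ : HasDerivAt γ ((γ t).2, acc m (γ t).1 + p) t) (i : Fin 5) :
    HasDerivAt (fun s => (γ s).1 i) ((γ t).2 i) t := by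
  exact der_comp1 hγ i

theorem hasDerivAt_vel {γ : ℝ → St d} {t : ℝ} {p : Cf 5 d}
    (hγ : HasDerivAt γ ((γ t).2, acc m (γ t).1 + p) t) (i : Fin 5) :
    HasDerivAt (fun s => (γ s).2 i) (acc m (γ t).1 i + p i) t := by
  exact der_comp2 hγ i

/-- the work is continuous in time -/
theorem continuousAt_WkQ {γ : ℝ → St d} {p : ℝ → Cf 5 d} {t : ℝ} (hγ : ContinuousAt γ t)
    (hp : ContinuousAt p t) : ContinuousAt (fun s => WkQ m (γ s) (p s)) t := by
  have h1 : ∀ i, ContinuousAt (fun s => (γ s).2 i) t := fun i =>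
    continuousAt_pi.1 hγ.snd i
  have h2 : ∀ i, ContinuousAt (fun s => p s i) t := fun i => continuousAt_pi.1 hp i
  have c1 : ContinuousAt (fun s => cm m 0 1 (γ s).2) t := by
    unfold cm
    exact (((h1 0).const_smul (m 0)).add ((h1 1).const_smul (m 1))).const_smul (m 0 + m 1)⁻¹
  have c2 : ContinuousAt (fun s => cm m 0 1 (p s)) t := by
    unfold cm
    exact (((h2 0).const_smul (m 0)).add ((h2 1).const_smul (m 1))).const_smul (m 0 + m 1)⁻¹
  unfold WkQ
  exact (((continuousAt_const.mul (c1.inner c2)).add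
    (continuousAt_const.mul ((h1 2).inner (h2 2)))).add
    (continuousAt_const.mul ((h1 3).inner (h2 3)))).add
    (continuousAt_const.mul ((h1 4).inner (h2 4)))

theorem continuousAt_WkT {γ : ℝ → St d} {p : ℝ → Cf 5 d} {t : ℝ} (hγ : ContinuousAt γ t)
    (hp : ContinuousAt p t) : ContinuousAt (fun s => WkT m (γ s) (p s)) t := by
  have h1 : ∀ i, ContinuousAt (fun s => (γ s).2 i) t := fun i =>
    continuousAt_pi.1 hγ.snd i
  have h2 : ∀ i, ContinuousAt (fun s => p s i) t := fun i => continuousAt_pi.1 hp i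
  have c1 : ContinuousAt (fun s => cm3 m 0 1 2 (γ s).2) t := by
    unfold cm3
    exact ((((h1 0).const_smul (m 0)).add ((h1 1).const_smul (m 1))).add
      ((h1 2).const_smul (m 2))).const_smul (m 0 + m 1 + m 2)⁻¹
  have c2 : ContinuousAt (fun s => cm3 m 0 1 2 (p s)) t := by
    unfold cm3
    exact ((((h2 0).const_smul (m 0)).add ((h2 1).const_smul (m 1))).add
      ((h2 2).const_smul (m 2))).const_smul (m 0 + m 1 + m 2)⁻¹
  unfold WkT
  exact ((continuousAt_const.mul (c1.inner c2)).add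
    (continuousAt_const.mul ((h1 3).inner (h2 3)))).add
    (continuousAt_const.mul ((h1 4).inner (h2 4)))

end NBO
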