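import Mathlib
import Pool.Agent.NBO.Defs

/-!
# Deflection of a fast body by a bounded region (module NBO-Fly)

`f s = <X s, e>`, `e = V τ/‖V τ‖`: `f' = <V s, e> ≥ (9/10) ‖V τ‖`, `‖X s‖ ≥ |f s|`, and
`∫ f'/(1+|f|)^2 ≤ 2` (antiderivative `y/(1+|y|)`, which is `C^1`; values in `(-1, 1)`), so the integral is `≤ 2/(0.9 ‖V τ‖)`.
-/

open MeasureTheory Set Filter Topology Metric
open scoped NNReal ENNReal RealInnerProductSpace

namespace NBO

open HDN NB5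

private theorem Fly_pos (y : ℝ) : 0 < 1 + |y| := by
  have := abs_nonneg y
  linarith

private theorem Fly_deriv (y : ℝ) :
    HasDerivAt (fun y : ℝ => y / (1 + |y|)) (1 / (1 + |y|) ^ 2) y := by
  have hc1 : Continuous fun y : ℝ => y / (1 + |y|) :=
    continuous_id.div (continuous_const.add continuous_abs) (fun y => (Fly_pos y).ne')
  have hc2 : Continuous fun y : ℝ => 1 / (1 + |y|) ^ 2 :=
    continuous_const.div ((continuous_const.add continuous_abs).pow 2)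
      (fun y => (pow_pos (Fly_pos y) 2).ne')
  refine hasDerivAt_of_hasDerivAt_of_ne' (x := 0) (fun z hz => ?_) hc1.continuousAt
    hc2.continuousAt y
  have h1 : HasDerivAt (fun y : ℝ => 1 + |y|) ((SignType.sign z : SignType) : ℝ) z :=
    (hasDerivAt_abs hz).const_add 1
  have h2 := (hasDerivAt_id z).div h1 (Fly_pos z).ne'
  have h3 : (1 * (1 + |z|) - id z * ((SignType.sign z : SignType) : ℝ)) / (1 + |z|) ^ 2 =
      1 / (1 + |z|) ^ 2 := by
    have h4 : z * ((SignType.sign z : SignType) : ℝ) = |z| := by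
      rw [mul_comm]
      exact sign_mul_self z
    rw [id, h4]
    congr 1
    ring
  rw [h3] at h2
  exact h2

private theorem Fly_bd (y : ℝ) : |y / (1 + |y|)| ≤ 1 := by
  rw [abs_div, abs_of_pos (Fly_pos y), div_le_one (Fly_pos y)]
  linarith

theorem fly {d : ℕ} {X V : ℝ → Sp d} {τ t : ℝ} (hτt : τ ≤ t)
    (hX : ∀ s ∈ Icc τ t, HasDerivAt X (V s) s) (hV : ContinuousOn V (Icc τ t))
    (h0 : 0 < ‖V τ‖) (hd : ∀ s ∈ Icc τ t, 10 * ‖V s - V τ‖ ≤ ‖V τ‖) :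
    ∫ s in τ..t, 1 / (1 + ‖X s‖) ^ 2 ≤ 3 / ‖V τ‖ := by
  set e : Sp d := ‖V τ‖⁻¹ • V τ with he
  have hen : ‖e‖ = 1 := by
    rw [he, norm_smul, norm_inv, norm_norm, inv_mul_cancel₀ h0.ne']
  have hVe : ⟪V τ, e⟫ = ‖V τ‖ := by
    rw [he, real_inner_smul_right, real_inner_self_eq_norm_sq]
    field_simp
  have hf : ∀ s ∈ Icc τ t, HasDerivAt (fun s => ⟪X s, e⟫) ⟪V s, e⟫ s := by
    intro s hs
    have h := (hX s hs).inner ℝ (hasDerivAt_const s e)
    simpa using h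
  have hXc : ContinuousOn X (Icc τ t) := fun s hs => (hX s hs).continuousAt.continuousWithinAt
  have hfc : ContinuousOn (fun s => ⟪X s, e⟫) (Icc τ t) :=
    fun s hs => (hf s hs).continuousAt.continuousWithinAt
  have hlow : ∀ s ∈ Icc τ t, (9 / 10) * ‖V τ‖ ≤ ⟪V s, e⟫ := by
    intro s hs
    have h1 : ⟪V s, e⟫ = ⟪V τ, e⟫ + ⟪V s - V τ, e⟫ := by
      rw [inner_sub_left]
      ring
    have h2 : |⟪V s - V τ, e⟫| ≤ ‖V s - V τ‖ := by
      have := abs_real_inner_le_norm (V s - V τ) e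
      rwa [hen, mul_one] at this
    have h3 := (abs_le.1 h2).1
    have h4 := hd s hs
    rw [h1, hVe]
    linarith
  have habs : ∀ s, |⟪X s, e⟫| ≤ ‖X s‖ := by
    intro s
    have := abs_real_inner_le_norm (X s) e
    rwa [hen, mul_one] at this
  set g : ℝ → ℝ := fun s => 1 / (1 + |⟪X s, e⟫|) ^ 2 * ⟪V s, e⟫ with hg
  have hgc : ContinuousOn g (Icc τ t) := by
    refine ContinuousOn.mul ?_ (hV.inner continuousOn_const)
    exact continuousOn_const.div ((continuousOn_const.add hfc.abs).pow 2)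
      (fun s _ => (pow_pos (Fly_pos _) 2).ne')
  have hcg : ContinuousOn (fun s => 1 / (1 + ‖X s‖) ^ 2) (Icc τ t) := by
    refine continuousOn_const.div ((continuousOn_const.add hXc.norm).pow 2) (fun s _ => ?_)
    have : 0 < 1 + ‖X s‖ := by positivity
    exact (pow_pos this 2).ne'
  have hFTC : ∫ s in τ..t, g s = ⟪X t, e⟫ / (1 + |⟪X t, e⟫|) - ⟪X τ, e⟫ / (1 + |⟪X τ, e⟫|) := by
    refine intervalIntegral.integral_eq_sub_of_hasDerivAt
      (f := fun s => ⟪X s, e⟫ / (1 + |⟪X s, e⟫|)) (fun s hs => ?_) ?_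
    · rw [uIcc_of_le hτt] at hs
      exact (Fly_deriv _).comp s (hf s hs)
    · exact (hgc.mono (by rw [uIcc_of_le hτt])).intervalIntegrable
  have hle : ∫ s in τ..t, 1 / (1 + ‖X s‖) ^ 2 ≤ ∫ s in τ..t, (10 / (9 * ‖V τ‖)) * g s := by
    refine intervalIntegral.integral_mono_on hτt ?_ ?_ (fun s hs => ?_)
    · exact (hcg.mono (by rw [uIcc_of_le hτt])).intervalIntegrable
    · exact ((continuousOn_const.mul hgc).mono (by rw [uIcc_of_le hτt])).intervalIntegrable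
    · have h1 : 1 / (1 + ‖X s‖) ^ 2 ≤ 1 / (1 + |⟪X s, e⟫|) ^ 2 := by
        apply one_div_le_one_div_of_le (pow_pos (Fly_pos _) 2)
        exact pow_le_pow_left₀ (Fly_pos _).le (by linarith [habs s]) 2
      have h2 : 0 < 1 / (1 + |⟪X s, e⟫|) ^ 2 := one_div_pos.2 (pow_pos (Fly_pos _) 2)
      have h3 : 1 ≤ (10 / (9 * ‖V τ‖)) * ⟪V s, e⟫ := by
        rw [div_mul_eq_mul_div, le_div_iff₀ (by positivity)]
        linarith [hlow s hs]
      calc 1 / (1 + ‖X s‖) ^ 2 ≤ 1 / (1 + |⟪X s, e⟫|) ^ 2 := h1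
        _ = 1 / (1 + |⟪X s, e⟫|) ^ 2 * 1 := (mul_one _).symm
        _ ≤ 1 / (1 + |⟪X s, e⟫|) ^ 2 * ((10 / (9 * ‖V τ‖)) * ⟪V s, e⟫) :=
          mul_le_mul_of_nonneg_left h3 h2.le
        _ = (10 / (9 * ‖V τ‖)) * g s := by
          rw [hg]
          ring
  refine hle.trans ?_
  rw [intervalIntegral.integral_const_mul, hFTC]
  have hb1 := (abs_le.1 (Fly_bd ⟪X t, e⟫)).2
  have hb2 := (abs_le.1 (Fly_bd ⟪X τ, e⟫)).1
  have h5 : ⟪X t, e⟫ / (1 + |⟪X t, e⟫|) - ⟪X τ, e⟫ / (1 + |⟪X τ, e⟫|) ≤ 2 := by linarith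
  calc (10 / (9 * ‖V τ‖)) * (⟪X t, e⟫ / (1 + |⟪X t, e⟫|) - ⟪X τ, e⟫ / (1 + |⟪X τ, e⟫|))
      ≤ (10 / (9 * ‖V τ‖)) * 2 := mul_le_mul_of_nonneg_left h5 (by positivity)
    _ ≤ 3 / ‖V τ‖ := by
      rw [div_mul_eq_mul_div, div_le_div_iff₀ (by positivity) h0]
      nlinarith

end NBO
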