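import Mathlib
import Pool.Agent.NBO.Defs
import Pool.Agent.NBO.Der
import Pool.Agent.NB5.S1F
import Pool.Agent.NB5.S3F
import Pool.Agent.NB5.RelC
import Pool.Agent.NB5.DrI

/-!
# Bounds for the work of the outside field (module NBO-Wk)

`‖p i‖ ≤ B`, `‖cm m 0 1 p‖ ≤ B` (convex combination), `B = P.R`.
`wkQ_le` (S1). If all `‖q i - q j‖ ≥ 1/(8 b^77)` for `i ≠ j` in `{2,3,4}`: `KQ ≤ 9 b^200` (`s1_KQ`), so all the velocities in `WkQ`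
are `≤ C b^100` (`KQ` is the sum of `m ‖v‖^2/2`, `m ≥ 1/M`). Otherwise some pair, say `2, 3`, is closer than `1/(2 b^77)`
(relabel by a permutation fixing `{0, 1}` as in `NB5/DrI.lean`, `dFQ_rel`, `PQ`; `WkQ` is invariant in the same way):
`s1_KP`: `KP ≤ 34 b^200`, `‖v 2 - v 3‖^2 ≤ 40 M^3 (b^200 + 1/‖q 2 - q 3‖)`. Write
`m2 <v2,p2> + m3 <v3,p3> = (m2+m3) <V, cm m 2 3 p> + (m2 m3/(m2+m3)) <v2 - v3, p2 - p3>` with `V = cm m 2 3 v`, the first term and the others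
are `≤ C b^100` by `KP`, the second is `≤ C (b^100 + 1/sqrt ‖q2-q3‖) * min(2B, B ‖q2-q3‖) ≤ C b^100`.
`wkT_le` (S3): `s3_facts`: `KT ≤ 41 b^200`.
-/

open MeasureTheory Set Filter Topology Metric
open scoped NNReal ENNReal RealInnerProductSpace

namespace NBO

open HDN NB5

variable {d : ℕ}

private theorem Wk_term {a k s M B b : ℝ} (ha : 0 ≤ a) (haM : a ≤ 3 * M) (hM : 1 ≤ M)
    (hb : 0 ≤ b) (V c : Sp d) (hV : a * ‖V‖ ^ 2 ≤ k * b ^ 200) (hc : ‖c‖ ≤ B) (hs : 0 ≤ s)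
    (hk : 3 * k ≤ s ^ 2) : |a * ⟪V, c⟫| ≤ s * M * B * b ^ 100 := by
  have hB : 0 ≤ B := (norm_nonneg c).trans hc
  have h0 : 0 ≤ k * b ^ 200 := le_trans (by positivity) hV
  have h1 : a * ‖V‖ ≤ s * M * b ^ 100 := by
    refine abs_le_of_sq_le_sq' ?_ (by positivity) |>.2
    have e1 : (a * ‖V‖) ^ 2 = a * (a * ‖V‖ ^ 2) := by ring
    have e2 : (s * M * b ^ 100) ^ 2 = s ^ 2 * (M * M) * b ^ 200 := by ring
    have e3 : a * (a * ‖V‖ ^ 2) ≤ (3 * M) * (k * b ^ 200) :=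
      mul_le_mul haM hV (by positivity) (by positivity)
    have e4 : (3 * M) * (k * b ^ 200) = M * (3 * k * b ^ 200) := by ring
    have e5 : 3 * k * b ^ 200 ≤ s ^ 2 * b ^ 200 :=
      mul_le_mul_of_nonneg_right hk (by positivity)
    have e6 : M * (s ^ 2 * b ^ 200) ≤ M * M * (s ^ 2 * b ^ 200) := by
      refine mul_le_mul_of_nonneg_right ?_ (by positivity)
      nlinarith
    have e7 : M * (3 * k * b ^ 200) ≤ M * (s ^ 2 * b ^ 200) :=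
      mul_le_mul_of_nonneg_left e5 (by linarith)
    rw [e1, e2]
    nlinarith
  rw [abs_mul, abs_of_nonneg ha]
  calc a * |⟪V, c⟫| ≤ a * (‖V‖ * ‖c‖) :=
        mul_le_mul_of_nonneg_left (abs_real_inner_le_norm V c) ha
    _ = (a * ‖V‖) * ‖c‖ := by ring
    _ ≤ (s * M * b ^ 100) * B := mul_le_mul h1 hc (norm_nonneg c) (by positivity)
    _ = s * M * B * b ^ 100 := by ring

private theorem Wk_cm {m : Fin 5 → ℝ} (hm : ∀ i, 0 < m i) {p : Cf 5 d} {B : ℝ}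
    (hp : ∀ i, ‖p i‖ ≤ B) (i j : Fin 5) : ‖cm m i j p‖ ≤ B := by
  have hi := hm i
  have hj := hm j
  have hs : 0 < m i + m j := by linarith
  unfold cm
  rw [norm_smul, norm_inv, Real.norm_of_nonneg hs.le]
  have h1 : ‖m i • p i + m j • p j‖ ≤ (m i + m j) * B := by
    refine (norm_add_le _ _).trans ?_
    rw [norm_smul, norm_smul, Real.norm_of_nonneg hi.le, Real.norm_of_nonneg hj.le, add_mul]
    exact add_le_add (mul_le_mul_of_nonneg_left (hp i) hi.le)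
      (mul_le_mul_of_nonneg_left (hp j) hj.le)
  calc (m i + m j)⁻¹ * ‖m i • p i + m j • p j‖ ≤ (m i + m j)⁻¹ * ((m i + m j) * B) :=
        mul_le_mul_of_nonneg_left h1 (by positivity)
    _ = B := by field_simp

private theorem Wk_cm3 {m : Fin 5 → ℝ} (hm : ∀ i, 0 < m i) {p : Cf 5 d} {B : ℝ}
    (hp : ∀ i, ‖p i‖ ≤ B) : ‖cm3 m 0 1 2 p‖ ≤ B := by
  have h0 := hm 0
  have h1 := hm 1
  have h2 := hm 2
  have hs : 0 < m 0 + m 1 + m 2 := by linarith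
  unfold cm3
  rw [norm_smul, norm_inv, Real.norm_of_nonneg hs.le]
  have h3 : ‖m 0 • p 0 + m 1 • p 1 + m 2 • p 2‖ ≤ (m 0 + m 1 + m 2) * B := by
    refine (norm_add_le _ _).trans ?_
    have h4 := norm_add_le (m 0 • p 0) (m 1 • p 1)
    rw [norm_smul, norm_smul, Real.norm_of_nonneg h0.le, Real.norm_of_nonneg h1.le] at h4
    rw [norm_smul, Real.norm_of_nonneg h2.le]
    have e0 := mul_le_mul_of_nonneg_left (hp 0) h0.le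
    have e1 := mul_le_mul_of_nonneg_left (hp 1) h1.le
    have e2 := mul_le_mul_of_nonneg_left (hp 2) h2.le
    nlinarith
  calc (m 0 + m 1 + m 2)⁻¹ * ‖m 0 • p 0 + m 1 • p 1 + m 2 • p 2‖ ≤
        (m 0 + m 1 + m 2)⁻¹ * ((m 0 + m 1 + m 2) * B) :=
        mul_le_mul_of_nonneg_left h3 (by positivity)
    _ = B := by field_simp

private theorem Wk_bd {B : ℝ} (hB : 0 ≤ B) {x : St d} {p : Cf 5 d} (h : Pb B x p) (i : Fin 5) :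
    ‖p i‖ ≤ B := by
  refine (h.bd i).trans (div_le_self hB ?_)
  have h1 : 1 ≤ 1 + ‖x.1 i‖ := by
    have := norm_nonneg (x.1 i)
    linarith
  exact one_le_pow₀ h1

private theorem Wk_exists_perm (i j : Fin 5) (hi : 2 ≤ i) (hj : 2 ≤ j) (hij : i ≠ j) :
    ∃ σ : Equiv.Perm (Fin 5), PQ σ ∧ σ 2 = i ∧ σ 3 = j := by
  refine ⟨Equiv.swap 2 i * Equiv.swap 3 (Equiv.swap 2 i j), ?_⟩
  unfold PQ
  revert i j
  decide

private theorem Wk_pq {σ : Equiv.Perm (Fin 5)} (h : PQ σ) :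
    ((σ 0 = 0 ∧ σ 1 = 1) ∨ (σ 0 = 1 ∧ σ 1 = 0)) ∧
    ((σ 2 = 2 ∧ σ 3 = 3 ∧ σ 4 = 4) ∨ (σ 2 = 2 ∧ σ 3 = 4 ∧ σ 4 = 3) ∨
      (σ 2 = 3 ∧ σ 3 = 2 ∧ σ 4 = 4) ∨ (σ 2 = 3 ∧ σ 3 = 4 ∧ σ 4 = 2) ∨
      (σ 2 = 4 ∧ σ 3 = 2 ∧ σ 4 = 3) ∨ (σ 2 = 4 ∧ σ 3 = 3 ∧ σ 4 = 2)) := by
  have val_ne : ∀ {i j : Fin 5}, i ≠ j → (σ i).val ≠ (σ j).val :=
    fun h e => h (σ.injective (Fin.ext e))
  have h0 : (σ 0).val ≤ 1 := (h 0).2 (by decide)
  have h1 : (σ 1).val ≤ 1 := (h 1).2 (by decide)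
  have h2 : ¬ (σ 2).val ≤ 1 := fun e => absurd ((h 2).1 e) (by decide)
  have h3 : ¬ (σ 3).val ≤ 1 := fun e => absurd ((h 3).1 e) (by decide)
  have h4 : ¬ (σ 4).val ≤ 1 := fun e => absurd ((h 4).1 e) (by decide)
  have n01 := val_ne (show (0 : Fin 5) ≠ 1 by decide)
  have n23 := val_ne (show (2 : Fin 5) ≠ 3 by decide)
  have n24 := val_ne (show (2 : Fin 5) ≠ 4 by decide)
  have n34 := val_ne (show (3 : Fin 5) ≠ 4 by decide)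
  have l2 := (σ 2).isLt
  have l3 := (σ 3).isLt
  have l4 := (σ 4).isLt
  have e0 : ((0 : Fin 5) : ℕ) = 0 := rfl
  have e1 : ((1 : Fin 5) : ℕ) = 1 := rfl
  have e2 : ((2 : Fin 5) : ℕ) = 2 := rfl
  have e3 : ((3 : Fin 5) : ℕ) = 3 := rfl
  have e4 : ((4 : Fin 5) : ℕ) = 4 := rfl
  simp only [Fin.ext_iff, e0, e1, e2, e3, e4]
  omega

private theorem Wk_rel {σ : Equiv.Perm (Fin 5)} (h : PQ σ) (m : Fin 5 → ℝ) (x : St d)
    (p : Cf 5 d) : WkQ (m ∘ σ) (rel σ x) (p ∘ σ) = WkQ m x p := by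
  have e1 : cm (m ∘ σ) 0 1 (rel σ x).2 = cm m 0 1 x.2 := cm_rel h x.2
  have e2 : cm (m ∘ σ) 0 1 (p ∘ σ) = cm m 0 1 p := cm_rel h p
  have e3 : m (σ 0) + m (σ 1) = m 0 + m 1 := by
    rcases (Wk_pq h).1 with ⟨a, b⟩ | ⟨a, b⟩ <;> rw [a, b]
    ring
  have e4 : m (σ 2) * ⟪x.2 (σ 2), p (σ 2)⟫ + m (σ 3) * ⟪x.2 (σ 3), p (σ 3)⟫ +
      m (σ 4) * ⟪x.2 (σ 4), p (σ 4)⟫ =
      m 2 * ⟪x.2 2, p 2⟫ + m 3 * ⟪x.2 3, p 3⟫ + m 4 * ⟪x.2 4, p 4⟫ := by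
    rcases (Wk_pq h).2 with ⟨a, b, c⟩ | ⟨a, b, c⟩ | ⟨a, b, c⟩ | ⟨a, b, c⟩ |
      ⟨a, b, c⟩ | ⟨a, b, c⟩ <;> rw [a, b, c] <;> ring
  unfold WkQ
  rw [e1, e2]
  have e5 : ∀ i, (rel σ x).2 i = x.2 (σ i) := fun i => rfl
  simp only [Function.comp_apply, e5]
  rw [e3]
  linarith

private theorem Wk_pb {B : ℝ} {x : St d} {p : Cf 5 d} (h : Pb B x p) (σ : Equiv.Perm (Fin 5)) :
    Pb B (rel σ x) (p ∘ σ) :=
  ⟨fun i => h.bd (σ i), fun i j => h.lip (σ i) (σ j)⟩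

private theorem Wk_id (a b : ℝ) (hab : 0 < a + b) (v w p q : Sp d) :
    a * ⟪v, p⟫ + b * ⟪w, q⟫ =
      (a + b) * ⟪(a + b)⁻¹ • (a • v + b • w), (a + b)⁻¹ • (a • p + b • q)⟫ +
        a * b / (a + b) * ⟪v - w, p - q⟫ := by
  simp only [inner_smul_left, inner_smul_right, inner_add_left, inner_add_right, inner_sub_left,
    inner_sub_right, conj_trivial]
  have h := hab.ne'
  field_simp
  ring

/-- the first case -/
private theorem Wk_case1 {M B b : ℝ} (hM : 1 ≤ M) (hb : 1 ≤ b) {m : Fin 5 → ℝ} (hm : Mb M m)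
    {x : St d} {p : Cf 5 d} (hp : ∀ i, ‖p i‖ ≤ B) (hK : KQ m x.2 ≤ 9 * b ^ 200) :
    |WkQ m x p| ≤ 32 * M * B * b ^ 100 := by
  have hpos := hm.pos
  have hle : ∀ i, m i ≤ M := fun i => (hm.2 i).2
  have hb0 : 0 ≤ b := by linarith
  unfold KQ at hK
  have n1 : 0 ≤ (m 0 + m 1) * ‖cm m 0 1 x.2‖ ^ 2 := by
    have := hpos 0
    have := hpos 1
    positivity
  have n2 : 0 ≤ m 2 * ‖x.2 2‖ ^ 2 := mul_nonneg (hpos 2).le (by positivity)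
  have n3 : 0 ≤ m 3 * ‖x.2 3‖ ^ 2 := mul_nonneg (hpos 3).le (by positivity)
  have n4 : 0 ≤ m 4 * ‖x.2 4‖ ^ 2 := mul_nonneg (hpos 4).le (by positivity)
  have t1 := Wk_term (k := 18) (s := 8) (a := m 0 + m 1) (by linarith [hpos 0, hpos 1])
    (by linarith [hle 0, hle 1]) hM hb0 (cm m 0 1 x.2) (cm m 0 1 p) (by linarith)
    (Wk_cm hpos hp 0 1) (by norm_num) (by norm_num)
  have t2 := Wk_term (k := 18) (s := 8) (a := m 2) (hpos 2).le (by linarith [hle 2]) hM hb0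
    (x.2 2) (p 2) (by linarith) (hp 2) (by norm_num) (by norm_num)
  have t3 := Wk_term (k := 18) (s := 8) (a := m 3) (hpos 3).le (by linarith [hle 3]) hM hb0
    (x.2 3) (p 3) (by linarith) (hp 3) (by norm_num) (by norm_num)
  have t4 := Wk_term (k := 18) (s := 8) (a := m 4) (hpos 4).le (by linarith [hle 4]) hM hb0
    (x.2 4) (p 4) (by linarith) (hp 4) (by norm_num) (by norm_num)
  unfold WkQ
  refine (abs_add_le _ _).trans ?_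
  have u1 := abs_add_le ((m 0 + m 1) * ⟪cm m 0 1 x.2, cm m 0 1 p⟫ + m 2 * ⟪x.2 2, p 2⟫)
    (m 3 * ⟪x.2 3, p 3⟫)
  have u2 := abs_add_le ((m 0 + m 1) * ⟪cm m 0 1 x.2, cm m 0 1 p⟫) (m 2 * ⟪x.2 2, p 2⟫)
  linarith

/-- the second case -/
private theorem Wk_case2 {M B b : ℝ} (hM : 1 ≤ M) (hb : 1 ≤ b) {m : Fin 5 → ℝ} (hm : Mb M m)
    {x : St d} {p : Cf 5 d} (hB : 0 ≤ B) (hp : ∀ i, ‖p i‖ ≤ B)
    (hl : ‖p 2 - p 3‖ ≤ B * ‖x.1 2 - x.1 3‖) (hr0 : 0 < ‖x.1 2 - x.1 3‖)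
    (hr1 : ‖x.1 2 - x.1 3‖ ≤ 1) (hK : KP m x.2 ≤ 34 * b ^ 200)
    (hv : ‖x.2 2 - x.2 3‖ ^ 2 ≤ 40 * M ^ 3 * (b ^ 200 + 1 / ‖x.1 2 - x.1 3‖)) :
    |WkQ m x p| ≤ 60 * M ^ 3 * B * b ^ 100 := by
  have hpos := hm.pos
  have hle : ∀ i, m i ≤ M := fun i => (hm.2 i).2
  have hb0 : 0 ≤ b := by linarith
  have h2 := hpos 2
  have h3 := hpos 3
  unfold KP at hK
  have n1 : 0 ≤ (m 0 + m 1) * ‖cm m 0 1 x.2‖ ^ 2 := by
    have := hpos 0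
    have := hpos 1
    positivity
  have n2 : 0 ≤ (m 2 + m 3) * ‖cm m 2 3 x.2‖ ^ 2 := by positivity
  have n4 : 0 ≤ m 4 * ‖x.2 4‖ ^ 2 := mul_nonneg (hpos 4).le (by positivity)
  have t1 := Wk_term (k := 68) (s := 15) (a := m 0 + m 1) (by linarith [hpos 0, hpos 1])
    (by linarith [hle 0, hle 1]) hM hb0 (cm m 0 1 x.2) (cm m 0 1 p) (by linarith)
    (Wk_cm hpos hp 0 1) (by norm_num) (by norm_num)
  have t2 := Wk_term (k := 68) (s := 15) (a := m 2 + m 3) (by linarith)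
    (by linarith [hle 2, hle 3]) hM hb0 (cm m 2 3 x.2) (cm m 2 3 p) (by linarith)
    (Wk_cm hpos hp 2 3) (by norm_num) (by norm_num)
  have t4 := Wk_term (k := 68) (s := 15) (a := m 4) (hpos 4).le (by linarith [hle 4]) hM hb0
    (x.2 4) (p 4) (by linarith) (hp 4) (by norm_num) (by norm_num)
  have hid := Wk_id (m 2) (m 3) (by linarith) (x.2 2) (x.2 3) (p 2) (p 3)
  -- the relative part
  obtain ⟨r, hr⟩ : ∃ r, r = ‖x.1 2 - x.1 3‖ := ⟨_, rfl⟩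
  rw [← hr] at hl hr0 hr1 hv
  have hM3 : (1 : ℝ) ≤ M ^ 3 := one_le_pow₀ hM
  have hb200 : (1 : ℝ) ≤ b ^ 200 := one_le_pow₀ hb
  have t3 : ‖x.2 2 - x.2 3‖ * ‖p 2 - p 3‖ ≤ 9 * M ^ 2 * B * b ^ 100 := by
    refine abs_le_of_sq_le_sq' ?_ (by positivity) |>.2
    have e1 : (‖x.2 2 - x.2 3‖ * ‖p 2 - p 3‖) ^ 2 = ‖x.2 2 - x.2 3‖ ^ 2 * ‖p 2 - p 3‖ ^ 2 := by
      ring
    have e2 : ‖p 2 - p 3‖ ^ 2 ≤ (B * r) ^ 2 := pow_le_pow_left₀ (norm_nonneg _) hl 2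
    have e3 : ‖x.2 2 - x.2 3‖ ^ 2 * ‖p 2 - p 3‖ ^ 2 ≤
        (40 * M ^ 3 * (b ^ 200 + 1 / r)) * (B * r) ^ 2 :=
      mul_le_mul hv e2 (by positivity) (by positivity)
    have e4 : (40 * M ^ 3 * (b ^ 200 + 1 / r)) * (B * r) ^ 2 =
        40 * M ^ 3 * B ^ 2 * (b ^ 200 * r ^ 2 + r) := by
      field_simp
    have e5 : b ^ 200 * r ^ 2 + r ≤ 2 * b ^ 200 := by
      have f1 : r ^ 2 ≤ 1 := pow_le_one₀ hr0.le hr1
      have f2 : b ^ 200 * r ^ 2 ≤ b ^ 200 * 1 := mul_le_mul_of_nonneg_left f1 (by positivity)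
      linarith
    have e6 : 40 * M ^ 3 * B ^ 2 * (b ^ 200 * r ^ 2 + r) ≤ 40 * M ^ 3 * B ^ 2 * (2 * b ^ 200) :=
      mul_le_mul_of_nonneg_left e5 (by positivity)
    have e7 : (9 * M ^ 2 * B * b ^ 100) ^ 2 = 81 * (M ^ 3 * M) * B ^ 2 * b ^ 200 := by ring
    have e8 : 40 * M ^ 3 * B ^ 2 * (2 * b ^ 200) ≤ 81 * (M ^ 3 * M) * B ^ 2 * b ^ 200 := by
      have f1 : M ^ 3 * 1 ≤ M ^ 3 * M := mul_le_mul_of_nonneg_left hM (by positivity)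
      have f2 : 0 ≤ B ^ 2 * b ^ 200 := by positivity
      nlinarith
    rw [e1, e7]
    linarith
  have t5 : |m 2 * m 3 / (m 2 + m 3) * ⟪x.2 2 - x.2 3, p 2 - p 3⟫| ≤
      9 * M ^ 3 * B * b ^ 100 := by
    have hmu0 : 0 ≤ m 2 * m 3 / (m 2 + m 3) := by positivity
    have hmu1 : m 2 * m 3 / (m 2 + m 3) ≤ M := by
      rw [div_le_iff₀ (by linarith)]
      have := hle 2
      nlinarith
    rw [abs_mul, abs_of_nonneg hmu0]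
    calc m 2 * m 3 / (m 2 + m 3) * |⟪x.2 2 - x.2 3, p 2 - p 3⟫| ≤
          M * (9 * M ^ 2 * B * b ^ 100) :=
          mul_le_mul hmu1 ((abs_real_inner_le_norm _ _).trans t3) (abs_nonneg _) (by linarith)
      _ = 9 * M ^ 3 * B * b ^ 100 := by ring
  have hsum : WkQ m x p = (m 0 + m 1) * ⟪cm m 0 1 x.2, cm m 0 1 p⟫ +
      (m 2 + m 3) * ⟪cm m 2 3 x.2, cm m 2 3 p⟫ +
      m 2 * m 3 / (m 2 + m 3) * ⟪x.2 2 - x.2 3, p 2 - p 3⟫ + m 4 * ⟪x.2 4, p 4⟫ := by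
    have e1 : cm m 2 3 x.2 = (m 2 + m 3)⁻¹ • (m 2 • x.2 2 + m 3 • x.2 3) := rfl
    have e2 : cm m 2 3 p = (m 2 + m 3)⁻¹ • (m 2 • p 2 + m 3 • p 3) := rfl
    unfold WkQ
    rw [e1, e2]
    linarith
  rw [hsum]
  have u0 := abs_add_le ((m 0 + m 1) * ⟪cm m 0 1 x.2, cm m 0 1 p⟫ +
      (m 2 + m 3) * ⟪cm m 2 3 x.2, cm m 2 3 p⟫ +
      m 2 * m 3 / (m 2 + m 3) * ⟪x.2 2 - x.2 3, p 2 - p 3⟫) (m 4 * ⟪x.2 4, p 4⟫)
  have u1 := abs_add_le ((m 0 + m 1) * ⟪cm m 0 1 x.2, cm m 0 1 p⟫ +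
      (m 2 + m 3) * ⟪cm m 2 3 x.2, cm m 2 3 p⟫)
      (m 2 * m 3 / (m 2 + m 3) * ⟪x.2 2 - x.2 3, p 2 - p 3⟫)
  have u2 := abs_add_le ((m 0 + m 1) * ⟪cm m 0 1 x.2, cm m 0 1 p⟫)
      ((m 2 + m 3) * ⟪cm m 2 3 x.2, cm m 2 3 p⟫)
  have w1 : M * (B * b ^ 100) ≤ M ^ 3 * (B * b ^ 100) :=
    mul_le_mul_of_nonneg_right (le_self_pow₀ hM (by norm_num)) (by positivity)
  have w2 : 0 ≤ M ^ 3 * (B * b ^ 100) := by positivity
  nlinarith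

theorem wkQ_le (P : Par) : ∃ C > 0, ∃ b0 : ℝ, 1 ≤ b0 ∧ ∀ b ≥ b0, ∀ m : Fin 5 → ℝ, Mb P.M m →
    ∀ (x : St d) (p : Cf 5 d), x ∈ Inv m P.R → S1 P b m x → Pb P.R x p → |WkQ m x p| ≤ C * b ^ 100 := by
  obtain ⟨b1, hb1, hKQ⟩ := s1_KQ (d := d) P
  obtain ⟨b3, hb3, hKP⟩ := s1_KP (d := d) P
  have hM := P.hM
  have hR := P.hR
  have hR0 : 0 ≤ P.R := by linarith
  have hM0 : 0 < P.M := by linarith
  refine ⟨60 * P.M ^ 3 * P.R, by positivity, max b1 b3, le_max_of_le_left hb1,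
    fun b hb m hm x p hinv hS hp => ?_⟩
  have hc1 : b1 ≤ b := (le_max_left _ _).trans hb
  have hc3 : b3 ≤ b := (le_max_right _ _).trans hb
  have hb' : 1 ≤ b := hb1.trans hc1
  by_cases hall : ∀ i j : Fin 5, 2 ≤ i → 2 ≤ j → i ≠ j → 1 / (8 * b ^ 77) ≤ ‖x.1 i - x.1 j‖
  · refine (Wk_case1 hM hb' hm (Wk_bd hR0 hp) (hKQ b hc1 m hm x hS hall)).trans ?_
    have e1 : P.M ≤ P.M ^ 3 := le_self_pow₀ hM (by norm_num)
    have e2 : 0 ≤ P.R * b ^ 100 := by positivity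
    have e3 : P.M * (P.R * b ^ 100) ≤ P.M ^ 3 * (P.R * b ^ 100) :=
      mul_le_mul_of_nonneg_right e1 e2
    have e4 : 0 ≤ P.M ^ 3 * (P.R * b ^ 100) := by positivity
    nlinarith
  · push Not at hall
    obtain ⟨i, j, hi, hj, hij, hlt⟩ := hall
    obtain ⟨σ, hσ, h2, h3⟩ := Wk_exists_perm i j hi hj hij
    rw [← Wk_rel hσ m x p]
    have hm' := hm.rel σ
    have hS' := hS.rel hσ
    have hinv' := inv_rel σ hinv
    have hfree : Free (rel σ x).1 := hinv'.1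
    have hp' := Wk_pb hp σ
    have hb77 : (1 : ℝ) ≤ b ^ 77 := one_le_pow₀ hb'
    have e23 : ‖(rel σ x).1 2 - (rel σ x).1 3‖ < 1 / (8 * b ^ 77) := by
      have : (rel σ x).1 2 - (rel σ x).1 3 = x.1 (σ 2) - x.1 (σ 3) := rfl
      rw [this, h2, h3]
      exact hlt
    have e23' : ‖(rel σ x).1 2 - (rel σ x).1 3‖ < 1 / (2 * b ^ 77) := by
      refine e23.trans_le (one_div_le_one_div_of_le (by positivity) ?_)
      linarith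
    have e24 : ‖(rel σ x).1 2 - (rel σ x).1 3‖ ≤ 1 := by
      refine e23'.le.trans ?_
      rw [div_le_one (by positivity)]
      linarith
    obtain ⟨k1, k2⟩ := hKP b hc3 _ hm' _ hfree hS' e23'
    exact Wk_case2 hM hb' hm' hR0 (Wk_bd hR0 hp') (hp'.lip 2 3)
      (norm_pos_iff.2 (sub_ne_zero.2 (hfree 2 3 (by decide)))) e24 k1 k2

theorem wkT_le (P : Par) : ∃ C > 0, ∃ b0 : ℝ, 1 ≤ b0 ∧ ∀ b ≥ b0, ∀ m : Fin 5 → ℝ, Mb P.M m →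
    ∀ (x : St d) (p : Cf 5 d), x ∈ Inv m P.R → S3 P b m x → Pb P.R x p → |WkT m x p| ≤ C * b ^ 100 := by
  obtain ⟨b1, hb1, hKT⟩ := s3_facts (d := d) P
  have hM := P.hM
  have hR := P.hR
  have hR0 : 0 ≤ P.R := by linarith
  have hM0 : 0 < P.M := by linarith
  refine ⟨48 * P.M * P.R, by positivity, b1, hb1, fun b hb m hm x p hinv hS hp => ?_⟩
  have hb' : 1 ≤ b := hb1.trans hb
  have hb0 : 0 ≤ b := by linarith
  have hpos := hm.pos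
  have hle : ∀ i, m i ≤ P.M := fun i => (hm.2 i).2
  have hpp := Wk_bd hR0 hp
  obtain ⟨-, -, -, hK, -, -⟩ := hKT b hb m hm x hinv hS
  unfold KT at hK
  have n1 : 0 ≤ (m 0 + m 1 + m 2) * ‖cm3 m 0 1 2 x.2‖ ^ 2 := by
    have := hpos 0
    have := hpos 1
    have := hpos 2
    positivity
  have n3 : 0 ≤ m 3 * ‖x.2 3‖ ^ 2 := mul_nonneg (hpos 3).le (by positivity)
  have n4 : 0 ≤ m 4 * ‖x.2 4‖ ^ 2 := mul_nonneg (hpos 4).le (by positivity)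
  have t1 := Wk_term (k := 82) (s := 16) (a := m 0 + m 1 + m 2)
    (by linarith [hpos 0, hpos 1, hpos 2]) (by linarith [hle 0, hle 1, hle 2]) hM hb0
    (cm3 m 0 1 2 x.2) (cm3 m 0 1 2 p) (by linarith) (Wk_cm3 hpos hpp) (by norm_num) (by norm_num)
  have t3 := Wk_term (k := 82) (s := 16) (a := m 3) (hpos 3).le (by linarith [hle 3]) hM hb0
    (x.2 3) (p 3) (by linarith) (hpp 3) (by norm_num) (by norm_num)
  have t4 := Wk_term (k := 82) (s := 16) (a := m 4) (hpos 4).le (by linarith [hle 4]) hM hb0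
    (x.2 4) (p 4) (by linarith) (hpp 4) (by norm_num) (by norm_num)
  unfold WkT
  refine (abs_add_le _ _).trans ?_
  have u1 := abs_add_le ((m 0 + m 1 + m 2) * ⟪cm3 m 0 1 2 x.2, cm3 m 0 1 2 p⟫)
    (m 3 * ⟪x.2 3, p 3⟫)
  linarith

end NBO
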