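import Mathlib
import Pool.Agent.NBO.Defs
import Pool.Agent.NBO.Der
import Pool.Agent.NBO.Fly
import Pool.Agent.NBO.Rel
import Pool.Agent.NBO.Wk
import Pool.Agent.NB5.FrC

/-!
# Good and fast exits are frozen (module NBO-FrC)

The bootstrap of `NB5/FrC.lean` in the outside field `p`. The velocities get the additional term `p`; its integral is small by
`fly`, because the bodies `3`, `4`, `2` and the hard pair are fast (`Fast`). The energy `FQ` changes by at most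
`1 + 100 M^2 R b^100`.
-/

open MeasureTheory Set Filter Topology Metric
open scoped NNReal ENNReal RealInnerProductSpace

namespace NBO

open HDN NB5

variable {d : ℕ}

namespace FrC

open NB5.FrC

/-- the setting of the bootstrap step -/
structure Set0 (P : Par) (b : ℝ) (m : Fin 5 → ℝ) (p : ℝ → Cf 5 d) (γ : ℝ → St d) (τ t : ℝ) : Prop where
  hm : Mb P.M m
  hb : 10 ^ 12 * P.M ^ 10 * P.R ≤ b
  h1 : τ ≤ t
  h2 : t ≤ τ + 1
  sol : PS P.R m p γ (Icc τ t)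
  ham : |Ham m (γ t)| ≤ P.R
  good : Good P b m (γ τ)
  fast : Fast P b m (γ τ)
  F : b ^ 200 / 2 ≤ FQ m (γ τ)
  K : KQ m (γ τ).2 ≤ 9 * b ^ 200
  x1 : 1 / b ^ 96 ≤ ‖(γ τ).1 2 - cm m 0 1 (γ τ).1‖
  x0 : 0 ≤ ⟪(γ τ).1 2 - cm m 0 1 (γ τ).1, (γ τ).2 2 - cm m 0 1 (γ τ).2⟫
  cd : ∀ s ∈ Icc τ t, Cd P b m (γ τ) (γ s)

section

variable {P : Par} {b : ℝ} {m : Fin 5 → ℝ} {p : ℝ → Cf 5 d} {γ : ℝ → St d} {τ t : ℝ}

/-- the centre of mass is additive -/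
theorem cm_add' (a c : Cf 5 d) : cm m 0 1 (a + c) = cm m 0 1 a + cm m 0 1 c := by
  unfold cm
  rw [Pi.add_apply, Pi.add_apply, smul_add (m 0), smul_add (m 1), add_add_add_comm, smul_add]

theorem hasD {s : ℝ} {f : Cf 5 d} (h : HasDerivAt γ ((γ s).2, acc m (γ s).1 + f) s) :
    (∀ i, HasDerivAt (fun s => (γ s).1 i) ((γ s).2 i) s) ∧
    (∀ i, HasDerivAt (fun s => (γ s).2 i) (acc m (γ s).1 i + f i) s) ∧
    HasDerivAt (fun s => cm m 0 1 (γ s).1) (cm m 0 1 (γ s).2) s ∧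
    HasDerivAt (fun s => cm m 0 1 (γ s).2) (cm m 0 1 (acc m (γ s).1) + cm m 0 1 f) s := by
  have hq : ∀ i, HasDerivAt (fun s => (γ s).1 i) ((γ s).2 i) s := by
    have h := (ContinuousLinearMap.fst ℝ (Cf 5 d) (Cf 5 d)).hasFDerivAt.comp_hasDerivAt s h
    exact hasDerivAt_pi.1 h
  have hv : ∀ i, HasDerivAt (fun s => (γ s).2 i) ((acc m (γ s).1 + f) i) s := by
    have h := (ContinuousLinearMap.snd ℝ (Cf 5 d) (Cf 5 d)).hasFDerivAt.comp_hasDerivAt s h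
    exact hasDerivAt_pi.1 h
  have hc := XDerA.cm_deriv (m := m) (a := 0) (b := 1) hv
  rw [cm_add'] at hc
  exact ⟨hq, hv, XDerA.cm_deriv hq, hc⟩

/-- an integral of four functions -/
theorem int4 {f1 f2 f3 f4 : ℝ → ℝ} {τ t C C' c1 c2 c3 c4 : ℝ} (h : τ ≤ t) (hC : 0 ≤ C) (hC' : 0 ≤ C')
    (h1 : ContinuousOn f1 (Icc τ t)) (h2 : ContinuousOn f2 (Icc τ t))
    (h3 : ContinuousOn f3 (Icc τ t)) (h4 : ContinuousOn f4 (Icc τ t))
    (i1 : ∫ s in τ..t, f1 s ≤ c1) (i2 : ∫ s in τ..t, f2 s ≤ c2)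
    (i3 : ∫ s in τ..t, f3 s ≤ c3) (i4 : ∫ s in τ..t, f4 s ≤ c4) :
    ∫ s in τ..t, (C * (f1 s + (f2 s + f3 s)) + C' * f4 s) ≤ C * (c1 + (c2 + c3)) + C' * c4 := by
  have j1 : ContinuousOn (fun s => C * (f1 s + (f2 s + f3 s))) (Icc τ t) :=
    continuousOn_const.mul (h1.add (h2.add h3))
  have j2 : ContinuousOn (fun s => C' * f4 s) (Icc τ t) := continuousOn_const.mul h4
  rw [intervalIntegral.integral_add (j1.intervalIntegrable_of_Icc h)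
    (j2.intervalIntegrable_of_Icc h), intervalIntegral.integral_const_mul (r := C') (f := f4)]
  exact add_le_add (int3 h hC h1 h2 h3 i1 i2 i3) (mul_le_mul_of_nonneg_left i4 hC')

namespace Set0

theorem b12 (h : Set0 P b m p γ τ t) : 10 ^ 12 * P.M ^ 10 ≤ b := by
  refine le_trans ?_ h.hb
  have : 0 ≤ (10 : ℝ) ^ 12 * P.M ^ 10 := by
    have := P.hM
    positivity
  nlinarith [P.hR]

theorem b1 (h : Set0 P b m p γ τ t) : 1 ≤ b := by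
  have h1 := h.b12
  have h2 : 1 ≤ P.M ^ 10 := one_le_pow₀ P.hM
  linarith

theorem nm (h : Set0 P b m p γ τ t) :
    0 < ‖(γ τ).2 2 - cm m 0 1 (γ τ).2‖ ∧
    b ^ 96 / ‖(γ τ).2 2 - cm m 0 1 (γ τ).2‖ ≤ b ^ 48 ∧
    1 ≤ ‖(γ τ).2 2 - cm m 0 1 (γ τ).2‖ ∧
    10 * Om P b m (γ τ) ≤ ‖(γ τ).2 2 - cm m 0 1 (γ τ).2‖ ∧
    10 * (Om P b m (γ τ) + be P b) ≤
      b ^ 10 + P.Kg * b ^ 96 / ‖(γ τ).2 2 - cm m 0 1 (γ τ).2‖ ∧
    (2 / b ^ 6 + (Om P b m (γ τ) + be P b)) * (9 * P.M * b ^ 100) ≤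
      P.Kg * b ^ 100 * (b ^ 96 / ‖(γ τ).2 2 - cm m 0 1 (γ τ).2‖ + 1 / b ^ 3) ∧
    10 * (2 * be P b) ≤ b ^ 10 ∧
    (2 / b ^ 6 + 2 * be P b) * (9 * P.M * b ^ 100) ≤ b ^ 97 :=
  num (w0 := ‖(γ τ).2 2 - cm m 0 1 (γ τ).2‖) P.hM P.hK h.b12 h.good.w_ge

theorem mem0 (h : Set0 P b m p γ τ t) : τ ∈ Icc τ t := ⟨le_rfl, h.h1⟩

theorem memt (h : Set0 P b m p γ τ t) : t ∈ Icc τ t := ⟨h.h1, le_rfl⟩

theorem cont (h : Set0 P b m p γ τ t) : ContinuousOn γ (Icc τ t) := fun s hs =>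
  (h.sol s hs).2.2.2.continuousAt.continuousWithinAt

theorem contv (h : Set0 P b m p γ τ t) (i : Fin 5) : ContinuousOn (fun s => (γ s).2 i) (Icc τ t) :=
  fun s hs => ((hasD (h.sol s hs).2.2.2).2.1 i).continuousAt.continuousWithinAt

theorem contV (h : Set0 P b m p γ τ t) : ContinuousOn (fun s => cm m 0 1 (γ s).2) (Icc τ t) :=
  fun s hs => (hasD (h.sol s hs).2.2.2).2.2.2.continuousAt.continuousWithinAt

theorem contq (h : Set0 P b m p γ τ t) (i : Fin 5) : ContinuousOn (fun s => (γ s).1 i) (Icc τ t) :=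
  fun s hs => ((hasD (h.sol s hs).2.2.2).1 i).continuousAt.continuousWithinAt

theorem contX (h : Set0 P b m p γ τ t) : ContinuousOn (fun s => cm m 0 1 (γ s).1) (Icc τ t) :=
  fun s hs => (hasD (h.sol s hs).2.2.2).2.2.1.continuousAt.continuousWithinAt

/-- velocities at the time `τ` -/
theorem vel (h : Set0 P b m p γ τ t) :
    (∀ j : Fin 5, 2 ≤ j → ‖(γ τ).2 j - cm m 0 1 (γ τ).2‖ ≤ 9 * P.M * b ^ 100) ∧
    ∀ i j : Fin 5, 2 ≤ i → 2 ≤ j → ‖(γ τ).2 i - (γ τ).2 j‖ ≤ 9 * P.M * b ^ 100 := by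
  have hM := P.hM
  have hb := h.b1
  have hk := kq_bound_sub h.hm (γ τ).2
  have key : 8 * P.M * KQ m (γ τ).2 ≤ (9 * P.M * b ^ 100) ^ 2 := by
    have h1 : 8 * P.M * KQ m (γ τ).2 ≤ 8 * P.M * (9 * b ^ 200) := by
      have := h.K
      gcongr
    have h2 : (9 * P.M * b ^ 100) ^ 2 = 81 * P.M ^ 2 * b ^ 200 := by ring
    rw [h2]
    have h3 : 0 ≤ b ^ 200 := by positivity
    nlinarith
  have hnn : 0 ≤ 9 * P.M * b ^ 100 := by positivity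
  exact ⟨fun j hj => le_of_sq (norm_nonneg _) hnn ((hk.1 j hj).trans key),
    fun i j hi hj => le_of_sq (norm_nonneg _) hnn ((hk.2 i j hi hj).trans key)⟩

theorem om_eq : Om P b m (γ τ) =
    100 * P.M * (b ^ 96 / ‖(γ τ).2 2 - cm m 0 1 (γ τ).2‖ + 1 / b ^ 4) := rfl

theorem vj (h : Set0 P b m p γ τ t) {j : Fin 5} (hj : 3 ≤ j) {s : ℝ} (hs : s ∈ Icc τ t) :
    ‖(γ s).2 j - (γ τ).2 j‖ ≤ be P b := by
  have hc := h.cd s hs
  have : j = 3 ∨ j = 4 := by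
    revert hj; revert j; decide
  rcases this with rfl | rfl
  · exact hc.v3
  · exact hc.v4

theorem gp {X V : ℝ → Sp d} (h : Set0 P b m p γ τ t) {j : Fin 5} (hj : 3 ≤ j)
    (hX : ∀ s ∈ Icc τ t, HasDerivAt X (V s) s) (hV : ContinuousOn V (Icc τ t))
    (hO : ∀ s ∈ Icc τ t, ‖V s - V τ‖ ≤ Om P b m (γ τ))
    (hv : ‖V τ - (γ τ).2 j‖ ≤ 9 * P.M * b ^ 100)
    (hg : GoodPair P.Kg b ‖(γ τ).2 2 - cm m 0 1 (γ τ).2‖ (X τ) (V τ) ((γ τ).1 j) ((γ τ).2 j)) :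
    (∀ s ∈ Icc τ t, 2 / b ^ 6 ≤ ‖X s - (γ s).1 j‖) ∧
      ∫ s in τ..t, 1 / ‖X s - (γ s).1 j‖ ^ 2 ≤ 4 / b ^ 4 := by
  obtain ⟨n1, n2, n3, n4, n5, n6, n7, n8⟩ := h.nm
  have hM := P.hM
  have hb := h.b1
  have hK : 0 ≤ P.Kg := le_trans (by positivity) P.hK
  have hpos : 0 ≤ P.Kg * b ^ 96 / ‖(γ τ).2 2 - cm m 0 1 (γ τ).2‖ :=
    div_nonneg (mul_nonneg hK (pow_nonneg (by linarith) 96)) (norm_nonneg _)
  refine pairStep (V := V) (U := fun s => (γ s).2 j) (Y := fun s => (γ s).1 j)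
    (Δ := Om P b m (γ τ) + be P b) h.h1 h.h2 hb hX
    (fun s hs => (hasD (h.sol s hs).2.2.2).1 j) hV (h.contv j)
    (fun s hs => add_le_add (hO s hs) (h.vj hj hs)) ?_ ?_ ?_
  · exact le_trans n5 hg.1
  · exact le_trans (by linarith) hg.1
  · refine le_trans ?_ hg.2
    refine le_trans ?_ n6
    have : 0 ≤ 2 / b ^ 6 + (Om P b m (γ τ) + be P b) := by
      unfold Om be
      positivity
    exact mul_le_mul_of_nonneg_left hv this

theorem pQ (h : Set0 P b m p γ τ t) {j : Fin 5} (hj : 3 ≤ j) :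
    (∀ s ∈ Icc τ t, 2 / b ^ 6 ≤ ‖cm m 0 1 (γ s).1 - (γ s).1 j‖) ∧
      ∫ s in τ..t, 1 / ‖cm m 0 1 (γ s).1 - (γ s).1 j‖ ^ 2 ≤ 4 / b ^ 4 := by
  have hj2 : 2 ≤ j := by revert hj; revert j; decide
  refine h.gp (X := fun s => cm m 0 1 (γ s).1) (V := fun s => cm m 0 1 (γ s).2) hj
    (fun s hs => (hasD (h.sol s hs).2.2.2).2.2.1) h.contV (fun s hs => (h.cd s hs).vQ) ?_
    (h.good.pairs j hj).1
  rw [norm_sub_rev]
  exact h.vel.1 j hj2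

theorem p2 (h : Set0 P b m p γ τ t) {j : Fin 5} (hj : 3 ≤ j) :
    (∀ s ∈ Icc τ t, 2 / b ^ 6 ≤ ‖(γ s).1 2 - (γ s).1 j‖) ∧
      ∫ s in τ..t, 1 / ‖(γ s).1 2 - (γ s).1 j‖ ^ 2 ≤ 4 / b ^ 4 := by
  have hj2 : 2 ≤ j := by revert hj; revert j; decide
  exact h.gp (X := fun s => (γ s).1 2) (V := fun s => (γ s).2 2) hj
    (fun s hs => (hasD (h.sol s hs).2.2.2).1 2) (h.contv 2) (fun s hs => (h.cd s hs).v2)
    (h.vel.2 2 j le_rfl hj2) (h.good.pairs j hj).2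

theorem p34 (h : Set0 P b m p γ τ t) :
    (∀ s ∈ Icc τ t, 2 / b ^ 6 ≤ ‖(γ s).1 3 - (γ s).1 4‖) ∧
      ∫ s in τ..t, 1 / ‖(γ s).1 3 - (γ s).1 4‖ ^ 2 ≤ 4 / b ^ 4 := by
  obtain ⟨n1, n2, n3, n4, n5, n6, n7, n8⟩ := h.nm
  have hM := P.hM
  have hb := h.b1
  refine pairStep (X := fun s => (γ s).1 3) (V := fun s => (γ s).2 3) (U := fun s => (γ s).2 4)
    (Y := fun s => (γ s).1 4)
    (Δ := 2 * be P b) h.h1 h.h2 hb (fun s hs => (hasD (h.sol s hs).2.2.2).1 3)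
    (fun s hs => (hasD (h.sol s hs).2.2.2).1 4) (h.contv 3) (h.contv 4)
    (fun s hs => ?_) ?_ ?_ ?_
  · have h3 := h.vj (j := 3) (by decide) hs
    have h4 := h.vj (j := 4) (by decide) hs
    linarith
  · exact le_trans n7 h.good.v34
  · exact h.good.v34
  · refine le_trans ?_ h.good.j34
    refine le_trans ?_ n8
    have : 0 ≤ 2 / b ^ 6 + 2 * be P b := by
      unfold be
      positivity
    exact mul_le_mul_of_nonneg_left (h.vel.2 3 4 (by decide) (by decide)) this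

theorem esc (h : Set0 P b m p γ τ t) :
    (∀ s ∈ Icc τ t, 1 / (2 * b ^ 96) ≤ ‖(γ s).1 2 - cm m 0 1 (γ s).1‖) ∧
      ∫ s in τ..t, 1 / ‖(γ s).1 2 - cm m 0 1 (γ s).1‖ ^ 2 ≤
        4 * (b ^ 96 / ‖(γ τ).2 2 - cm m 0 1 (γ τ).2‖) ∧
      ∫ s in τ..t, 1 / ‖(γ s).1 2 - cm m 0 1 (γ s).1‖ ^ 4 ≤ 16 * b ^ 288 := by
  obtain ⟨n1, n2, n3, n4, n5, n6, n7, n8⟩ := h.nm
  have hM := P.hM
  have hb := h.b1
  have hb0 : 0 < b := by linarith
  have hx1 := h.x1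
  set x0 := ‖(γ τ).1 2 - cm m 0 1 (γ τ).1‖ with hx0d
  set w0 := ‖(γ τ).2 2 - cm m 0 1 (γ τ).2‖ with hw0d
  have hxpos : 0 < x0 := lt_of_lt_of_le (by positivity) hx1
  have key := escape (x := fun s => (γ s).1 2 - cm m 0 1 (γ s).1)
    (w := fun s => (γ s).2 2 - cm m 0 1 (γ s).2) h.h1
    (fun s hs => ((hasD (h.sol s hs).2.2.2).1 2).sub (hasD (h.sol s hs).2.2.2).2.2.1)
    ((h.contv 2).sub h.contV) h.x0
    (fun s hs => by
      have e : (γ s).2 2 - cm m 0 1 (γ s).2 - ((γ τ).2 2 - cm m 0 1 (γ τ).2) =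
        ((γ s).2 2 - (γ τ).2 2) - (cm m 0 1 (γ s).2 - cm m 0 1 (γ τ).2) := by abel
      rw [e]
      have h1 := norm_sub_le ((γ s).2 2 - (γ τ).2 2) (cm m 0 1 (γ s).2 - cm m 0 1 (γ τ).2)
      have h2 := (h.cd s hs).v2
      have h3 := (h.cd s hs).vQ
      linarith) hxpos n1
  refine ⟨fun s hs => ?_, key.2.1.trans ?_, key.2.2.trans ?_⟩
  · refine le_trans ?_ (key.1 s hs)
    have h1 : 0 ≤ (s - τ) * w0 := mul_nonneg (by linarith [hs.1]) n1.le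
    have h2 : 1 / (2 * b ^ 96) = (1 / 2) * (1 / b ^ 96) := by ring
    rw [h2]
    linarith
  · have e : 4 * (b ^ 96 / w0) = 4 / ((1 / b ^ 96) * w0) := by field_simp
    rw [e]
    gcongr
  · have e : 16 * b ^ 288 = 16 / ((1 / b ^ 96) ^ 3 * 1) := by
      field_simp
    rw [e]
    gcongr

theorem bpow (h : Set0 P b m p γ τ t) : 0 < b ∧ b ≤ b ^ 104 ∧ b ≤ b ^ 12 ∧ b ≤ b ^ 112 ∧
    b ≤ b ^ 200 ∧ b ^ 6 ≤ b ^ 96 ∧ b ^ 24 ≤ b ^ 288 :=
  ⟨by linarith [h.b1], le_self_pow₀ h.b1 (by norm_num), le_self_pow₀ h.b1 (by norm_num),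
    le_self_pow₀ h.b1 (by norm_num), le_self_pow₀ h.b1 (by norm_num),
    pow_le_pow_right₀ h.b1 (by norm_num), pow_le_pow_right₀ h.b1 (by norm_num)⟩

theorem far3 (h : Set0 P b m p γ τ t) {s : ℝ} (hs : s ∈ Icc τ t) {j : Fin 5} (hj : 3 ≤ j) :
    1 / b ^ 6 ≤ ‖(γ s).1 j - cm m 0 1 (γ s).1‖ := by
  have hc := h.cd s hs
  have : j = 3 ∨ j = 4 := by
    revert hj; revert j; decide
  rcases this with rfl | rfl
  · exact hc.x3
  · exact hc.x4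

theorem far (h : Set0 P b m p γ τ t) {s : ℝ} (hs : s ∈ Icc τ t) {j : Fin 5} (hj : 2 ≤ j) :
    1 / (3 * b ^ 96) ≤ ‖(γ s).1 j - cm m 0 1 (γ s).1‖ := by
  have hc := h.cd s hs
  obtain ⟨p0, p1, p2, p3, p4, p5, p6⟩ := h.bpow
  have : j = 2 ∨ 3 ≤ j := by
    revert hj; revert j; decide
  rcases this with rfl | h3
  · exact hc.x2
  · refine le_trans ?_ (h.far3 hs h3)
    apply one_div_le_one_div_of_le (by positivity)
    nlinarith [pow_pos p0 96]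

theorem farpos (h : Set0 P b m p γ τ t) {s : ℝ} (hs : s ∈ Icc τ t) {j : Fin 5} (hj : 2 ≤ j) :
    0 < ‖(γ s).1 j - cm m 0 1 (γ s).1‖ := by
  have := h.bpow.1
  exact lt_of_lt_of_le (by positivity) (h.far hs hj)

theorem hr (h : Set0 P b m p γ τ t) {s : ℝ} (hs : s ∈ Icc τ t) {j : Fin 5} (hj : 2 ≤ j) :
    4 * ‖(γ s).1 0 - (γ s).1 1‖ ≤ ‖(γ s).1 j - cm m 0 1 (γ s).1‖ := by
  refine le_trans ?_ (h.far hs hj)
  obtain ⟨p0, p1, p2, p3, p4, p5, p6⟩ := h.bpow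
  have hc := (h.cd s hs).r
  have hM := P.hM
  have hb := h.b12
  have hM2 : P.M ^ 2 ≤ P.M ^ 10 := pow_le_pow_right₀ hM (by norm_num)
  have h1 : 4 * (4 * P.M ^ 2 / b ^ 200) ≤ 1 / (3 * b ^ 96) := by
    rw [← mul_div_assoc, div_le_div_iff₀ (by positivity) (by positivity)]
    have h2 : 48 * P.M ^ 2 ≤ b ^ 104 := by nlinarith
    calc 4 * (4 * P.M ^ 2) * (3 * b ^ 96) = (48 * P.M ^ 2) * b ^ 96 := by ring
      _ ≤ b ^ 104 * b ^ 96 := by gcongr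
      _ = 1 * b ^ 200 := by ring
  linarith

theorem cont2 (h : Set0 P b m p γ τ t) (n : ℕ) :
    ContinuousOn (fun s => 1 / ‖(γ s).1 2 - cm m 0 1 (γ s).1‖ ^ n) (Icc τ t) :=
  contInv ((h.contq 2).sub h.contX) (fun _ hs => h.farpos hs le_rfl) n

theorem contQ (h : Set0 P b m p γ τ t) {j : Fin 5} (hj : 3 ≤ j) :
    ContinuousOn (fun s => 1 / ‖cm m 0 1 (γ s).1 - (γ s).1 j‖ ^ 2) (Icc τ t) :=
  contInv (h.contX.sub (h.contq j)) (fun s hs => by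
    have := h.bpow.1
    exact lt_of_lt_of_le (by positivity) ((h.pQ hj).1 s hs)) 2

theorem cont2j (h : Set0 P b m p γ τ t) {j : Fin 5} (hj : 3 ≤ j) :
    ContinuousOn (fun s => 1 / ‖(γ s).1 2 - (γ s).1 j‖ ^ 2) (Icc τ t) :=
  contInv ((h.contq 2).sub (h.contq j)) (fun s hs => by
    have := h.bpow.1
    exact lt_of_lt_of_le (by positivity) ((h.p2 hj).1 s hs)) 2

theorem cont34 (h : Set0 P b m p γ τ t) :
    ContinuousOn (fun s => 1 / ‖(γ s).1 3 - (γ s).1 4‖ ^ 2) (Icc τ t) :=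
  contInv ((h.contq 3).sub (h.contq 4)) (fun s hs => by
    have := h.bpow.1
    exact lt_of_lt_of_le (by positivity) (h.p34.1 s hs)) 2

/-- the outside field is small -/
theorem pb (h : Set0 P b m p γ τ t) {s : ℝ} (hs : s ∈ Icc τ t) (i : Fin 5) :
    ‖p s i‖ ≤ 4 * P.R * (1 / (1 + ‖(γ s).1 i‖) ^ 2) := by
  have h1 := (h.sol s hs).2.1.bd i
  have hR := P.hR
  have h2 : 0 ≤ 1 / (1 + ‖(γ s).1 i‖) ^ 2 := by positivity
  rw [div_eq_mul_one_div] at h1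
  nlinarith

theorem pR (h : Set0 P b m p γ τ t) {s : ℝ} (hs : s ∈ Icc τ t) (i : Fin 5) : ‖p s i‖ ≤ P.R := by
  have h1 := (h.sol s hs).2.1.bd i
  have hR := P.hR
  refine h1.trans (div_le_self (by linarith) ?_)
  exact one_le_pow₀ (by linarith [norm_nonneg ((γ s).1 i)])

theorem rle1 (h : Set0 P b m p γ τ t) {s : ℝ} (hs : s ∈ Icc τ t) : ‖(γ s).1 0 - (γ s).1 1‖ ≤ 1 := by
  have hM := P.hM
  obtain ⟨p0, p1, p2, p3, p4, p5, p6⟩ := h.bpow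
  have hb := h.b12
  have hM2 : P.M ^ 2 ≤ P.M ^ 10 := pow_le_pow_right₀ hM (by norm_num)
  refine ((h.cd s hs).r).trans ?_
  rw [div_le_one (by positivity)]
  nlinarith

theorem pbQ (h : Set0 P b m p γ τ t) {s : ℝ} (hs : s ∈ Icc τ t) :
    ‖cm m 0 1 (p s)‖ ≤ 4 * P.R * (1 / (1 + ‖cm m 0 1 (γ s).1‖) ^ 2) := by
  have hR := P.hR
  have hm0 := h.hm.pos 0
  have hm1 := h.hm.pos 1
  have hr := h.rle1 hs
  have hd := cm_dist h.hm.pos (a := 0) (b := 1) (by decide) (γ s).1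
  set X := cm m 0 1 (γ s).1 with hX
  have key : ∀ i : Fin 5, ‖X - (γ s).1 i‖ ≤ ‖(γ s).1 0 - (γ s).1 1‖ →
      ‖p s i‖ ≤ 4 * P.R * (1 / (1 + ‖X‖) ^ 2) := by
    intro i hi
    have h1 := (h.sol s hs).2.1.bd i
    have h2 : ‖X‖ ≤ ‖(γ s).1 i‖ + 1 := by
      have := norm_sub_norm_le X ((γ s).1 i)
      linarith
    have h3 : 0 ≤ ‖(γ s).1 i‖ := norm_nonneg _
    have h4 : 0 ≤ ‖X‖ := norm_nonneg _
    refine h1.trans ?_
    rw [mul_one_div, div_le_div_iff₀ (by positivity) (by positivity)]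
    have h5 : (1 + ‖X‖) ^ 2 ≤ 4 * (1 + ‖(γ s).1 i‖) ^ 2 := by nlinarith
    nlinarith
  have k0 := key 0 hd.1
  have k1 := key 1 hd.2
  have hS : 0 < m 0 + m 1 := add_pos hm0 hm1
  have e : ‖cm m 0 1 (p s)‖ ≤ (m 0 + m 1)⁻¹ * (m 0 * ‖p s 0‖ + m 1 * ‖p s 1‖) := by
    unfold cm
    rw [norm_smul, Real.norm_of_nonneg (inv_nonneg.2 hS.le)]
    refine mul_le_mul_of_nonneg_left ((norm_add_le _ _).trans ?_) (inv_nonneg.2 hS.le)
    rw [norm_smul, norm_smul, Real.norm_of_nonneg hm0.le, Real.norm_of_nonneg hm1.le]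
  refine e.trans ?_
  rw [inv_mul_le_iff₀ hS]
  nlinarith

theorem contF (h : Set0 P b m p γ τ t) (i : Fin 5) :
    ContinuousOn (fun s => 1 / (1 + ‖(γ s).1 i‖) ^ 2) (Icc τ t) :=
  ContinuousOn.div continuousOn_const ((continuousOn_const.add (h.contq i).norm).pow 2)
    fun s _ => by positivity

theorem contFQ (h : Set0 P b m p γ τ t) :
    ContinuousOn (fun s => 1 / (1 + ‖cm m 0 1 (γ s).1‖) ^ 2) (Icc τ t) :=
  ContinuousOn.div continuousOn_const ((continuousOn_const.add h.contX.norm).pow 2)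
    fun s _ => by positivity

theorem bR (h : Set0 P b m p γ τ t) : 10 ^ 12 * P.M ^ 2 * P.R ≤ b := by
  have hM := P.hM
  have hR := P.hR
  have hM2 : P.M ^ 2 ≤ P.M ^ 10 := pow_le_pow_right₀ hM (by norm_num)
  refine le_trans ?_ h.hb
  gcongr

theorem smallR (h : Set0 P b m p γ τ t) {v : ℝ} (hv : b ^ 5 ≤ v) :
    4 * P.R * (3 / v) ≤ P.M * (1 / b ^ 4) := by
  have hM := P.hM
  have hR := P.hR
  have p0 := h.bpow.1
  have hM2 : 1 ≤ P.M ^ 2 := one_le_pow₀ hM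
  have hb := h.bR
  have h12 : 12 * P.R ≤ b := by
    have : P.R ≤ P.M ^ 2 * P.R := le_mul_of_one_le_left (by linarith) hM2
    nlinarith
  have hR0 : 0 ≤ P.R := by linarith
  calc 4 * P.R * (3 / v) ≤ 4 * P.R * (3 / b ^ 5) := by gcongr
    _ = (12 * P.R / b) * (1 / b ^ 4) := by
        field_simp
        norm_num
    _ ≤ 1 * (1 / b ^ 4) := by
        gcongr
        rw [div_le_one p0]
        exact h12
    _ ≤ P.M * (1 / b ^ 4) := by gcongr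

theorem omK (h : Set0 P b m p γ τ t) :
    10 * Om P b m (γ τ) ≤ b ^ 5 + P.Kg * b ^ 96 / ‖(γ τ).2 2 - cm m 0 1 (γ τ).2‖ ∧
      10 * be P b ≤ b ^ 5 ∧
      0 ≤ P.Kg * b ^ 96 / ‖(γ τ).2 2 - cm m 0 1 (γ τ).2‖ := by
  have hM := P.hM
  have p0 := h.bpow.1
  have hb := h.b12
  have hb1 := h.b1
  have n1 := h.nm.1
  have hM10 : P.M ≤ P.M ^ 10 := le_self_pow₀ hM (by norm_num)
  have hM16 : P.M ≤ P.M ^ 6 := le_self_pow₀ hM (by norm_num)
  have hK := P.hK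
  have hK1 : 1000 * P.M ≤ P.Kg := by nlinarith
  have h4 : P.M * (1 / b ^ 4) ≤ 1 / 10 ^ 12 := by
    rw [mul_one_div, div_le_div_iff₀ (by positivity) (by norm_num)]
    have : b ≤ b ^ 4 := le_self_pow₀ hb1 (by norm_num)
    linarith
  have hb5 : 1 ≤ b ^ 5 := one_le_pow₀ hb1
  have hq0 : 0 ≤ b ^ 96 / ‖(γ τ).2 2 - cm m 0 1 (γ τ).2‖ := by positivity
  have hKq : 1000 * P.M * (b ^ 96 / ‖(γ τ).2 2 - cm m 0 1 (γ τ).2‖) ≤
      P.Kg * (b ^ 96 / ‖(γ τ).2 2 - cm m 0 1 (γ τ).2‖) := mul_le_mul_of_nonneg_right hK1 hq0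
  refine ⟨?_, ?_, ?_⟩
  · have e : 10 * Om P b m (γ τ) = 1000 * P.M * (b ^ 96 / ‖(γ τ).2 2 - cm m 0 1 (γ τ).2‖) +
        1000 * (P.M * (1 / b ^ 4)) := by
      unfold Om
      ring
    rw [e, mul_div_assoc P.Kg]
    linarith
  · unfold be
    linarith
  · rw [mul_div_assoc]
    exact mul_nonneg (by linarith) hq0

theorem flyj (h : Set0 P b m p γ τ t) {j : Fin 5} (hj : 3 ≤ j) (hf : b ^ 5 ≤ ‖(γ τ).2 j‖) :
    ∫ s in τ..t, 1 / (1 + ‖(γ s).1 j‖) ^ 2 ≤ 3 / ‖(γ τ).2 j‖ := by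
  have p0 := h.bpow.1
  refine fly (X := fun s => (γ s).1 j) (V := fun s => (γ s).2 j) h.h1
    (fun s hs => (hasD (h.sol s hs).2.2.2).1 j) (h.contv j) (lt_of_lt_of_le (by positivity) hf)
    fun s hs => ?_
  have h1 := h.vj hj hs
  have h2 := h.omK.2.1
  show 10 * ‖(γ s).2 j - (γ τ).2 j‖ ≤ ‖(γ τ).2 j‖
  linarith

theorem fly2 (h : Set0 P b m p γ τ t) :
    ∫ s in τ..t, 1 / (1 + ‖(γ s).1 2‖) ^ 2 ≤ 3 / ‖(γ τ).2 2‖ := by
  have p0 := h.bpow.1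
  have h2 := h.omK
  have hf := h.fast.f2
  have h5 : 0 < b ^ 5 := by positivity
  refine fly (X := fun s => (γ s).1 2) (V := fun s => (γ s).2 2) h.h1
    (fun s hs => (hasD (h.sol s hs).2.2.2).1 2) (h.contv 2) (by linarith [h2.2.2])
    fun s hs => ?_
  have h1 := (h.cd s hs).v2
  show 10 * ‖(γ s).2 2 - (γ τ).2 2‖ ≤ ‖(γ τ).2 2‖
  linarith [h2.1]

theorem flyQ (h : Set0 P b m p γ τ t) :
    ∫ s in τ..t, 1 / (1 + ‖cm m 0 1 (γ s).1‖) ^ 2 ≤ 3 / ‖cm m 0 1 (γ τ).2‖ := by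
  have p0 := h.bpow.1
  have h2 := h.omK
  have hf := h.fast.fQ
  have h5 : 0 < b ^ 5 := by positivity
  refine fly (X := fun s => cm m 0 1 (γ s).1) (V := fun s => cm m 0 1 (γ s).2) h.h1
    (fun s hs => (hasD (h.sol s hs).2.2.2).2.2.1) h.contV (by linarith [h2.2.2])
    fun s hs => ?_
  have h1 := (h.cd s hs).vQ
  show 10 * ‖cm m 0 1 (γ s).2 - cm m 0 1 (γ τ).2‖ ≤ ‖cm m 0 1 (γ τ).2‖
  linarith [h2.1]

theorem v3lt (h : Set0 P b m p γ τ t) : ‖(γ t).2 3 - (γ τ).2 3‖ < be P b := by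
  have hM := P.hM
  have hR := P.hR
  have p0 := h.bpow.1
  have key := norm_le_integral (f := fun s => (γ s).2 3) (f' := fun s => acc m (γ s).1 3 + p s 3)
    (B := fun s => 4 * P.M * (1 / ‖cm m 0 1 (γ s).1 - (γ s).1 3‖ ^ 2 +
      (1 / ‖(γ s).1 2 - (γ s).1 3‖ ^ 2 + 1 / ‖(γ s).1 3 - (γ s).1 4‖ ^ 2)) +
      4 * P.R * (1 / (1 + ‖(γ s).1 3‖) ^ 2)) h.h1
    (fun s hs => (hasD (h.sol s hs).2.2.2).2.1 3)
    ((continuousOn_const.mul ((h.contQ (by decide)).add ((h.cont2j (by decide)).add h.cont34))).add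
      (continuousOn_const.mul (h.contF 3)))
    (fun s hs => by
      have h1 := acc_j_le h.hm (q := (γ s).1) (j := 3) (by decide) (h.hr hs (by decide))
        (h.farpos hs (by decide))
      have e : ({2, 3, 4} : Finset (Fin 5)).erase 3 = {2, 4} := by decide
      rw [e, Finset.sum_pair (by decide), norm_sub_rev ((γ s).1 3) (cm m 0 1 (γ s).1),
        norm_sub_rev ((γ s).1 4) ((γ s).1 3)] at h1
      exact (norm_add_le _ _).trans (add_le_add h1 (h.pb hs 3)))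
  have h2 := int4 h.h1 (C := 4 * P.M) (C' := 4 * P.R) (by positivity) (by linarith)
    (h.contQ (j := 3) (by decide)) (h.cont2j (j := 3) (by decide)) h.cont34 (h.contF 3)
    (h.pQ (j := 3) (by decide)).2 (h.p2 (j := 3) (by decide)).2 h.p34.2
    (h.flyj (j := 3) (by decide) h.fast.f3)
  refine lt_of_le_of_lt (key.trans h2) ?_
  unfold be
  have e : 4 * P.M * (4 / b ^ 4 + (4 / b ^ 4 + 4 / b ^ 4)) = 48 * (P.M * (1 / b ^ 4)) := by ring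
  rw [e]
  have : 0 < P.M * (1 / b ^ 4) := by positivity
  have h3 := h.smallR h.fast.f3
  linarith

theorem v4lt (h : Set0 P b m p γ τ t) : ‖(γ t).2 4 - (γ τ).2 4‖ < be P b := by
  have hM := P.hM
  have hR := P.hR
  have p0 := h.bpow.1
  have key := norm_le_integral (f := fun s => (γ s).2 4) (f' := fun s => acc m (γ s).1 4 + p s 4)
    (B := fun s => 4 * P.M * (1 / ‖cm m 0 1 (γ s).1 - (γ s).1 4‖ ^ 2 +
      (1 / ‖(γ s).1 2 - (γ s).1 4‖ ^ 2 + 1 / ‖(γ s).1 3 - (γ s).1 4‖ ^ 2)) +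
      4 * P.R * (1 / (1 + ‖(γ s).1 4‖) ^ 2)) h.h1
    (fun s hs => (hasD (h.sol s hs).2.2.2).2.1 4)
    ((continuousOn_const.mul ((h.contQ (by decide)).add ((h.cont2j (by decide)).add h.cont34))).add
      (continuousOn_const.mul (h.contF 4)))
    (fun s hs => by
      have h1 := acc_j_le h.hm (q := (γ s).1) (j := 4) (by decide) (h.hr hs (by decide))
        (h.farpos hs (by decide))
      have e : ({2, 3, 4} : Finset (Fin 5)).erase 4 = {2, 3} := by decide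
      rw [e, Finset.sum_pair (by decide), norm_sub_rev ((γ s).1 4) (cm m 0 1 (γ s).1)] at h1
      exact (norm_add_le _ _).trans (add_le_add h1 (h.pb hs 4)))
  have h2 := int4 h.h1 (C := 4 * P.M) (C' := 4 * P.R) (by positivity) (by linarith)
    (h.contQ (j := 4) (by decide)) (h.cont2j (j := 4) (by decide)) h.cont34 (h.contF 4)
    (h.pQ (j := 4) (by decide)).2 (h.p2 (j := 4) (by decide)).2 h.p34.2
    (h.flyj (j := 4) (by decide) h.fast.f4)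
  refine lt_of_le_of_lt (key.trans h2) ?_
  unfold be
  have e : 4 * P.M * (4 / b ^ 4 + (4 / b ^ 4 + 4 / b ^ 4)) = 48 * (P.M * (1 / b ^ 4)) := by ring
  rw [e]
  have : 0 < P.M * (1 / b ^ 4) := by positivity
  have h3 := h.smallR h.fast.f4
  linarith

theorem omlt (h : Set0 P b m p γ τ t) {v : ℝ}
    (hv : b ^ 5 + P.Kg * b ^ 96 / ‖(γ τ).2 2 - cm m 0 1 (γ τ).2‖ ≤ v) : 4 * P.M * (4 * (b ^ 96 /
    ‖(γ τ).2 2 - cm m 0 1 (γ τ).2‖) + (4 / b ^ 4 + 4 / b ^ 4)) + 4 * P.R * (3 / v) <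
      Om P b m (γ τ) := by
  have hM := P.hM
  have p0 := h.bpow.1
  have n1 := h.nm.1
  have h3 := h.smallR (v := v) (by linarith [h.omK.2.2])
  unfold Om
  have e : 4 * P.M * (4 * (b ^ 96 / ‖(γ τ).2 2 - cm m 0 1 (γ τ).2‖) + (4 / b ^ 4 + 4 / b ^ 4)) =
    16 * (P.M * (b ^ 96 / ‖(γ τ).2 2 - cm m 0 1 (γ τ).2‖)) + 32 * (P.M * (1 / b ^ 4)) := by ring
  have e2 : 100 * P.M * (b ^ 96 / ‖(γ τ).2 2 - cm m 0 1 (γ τ).2‖ + 1 / b ^ 4) =
    100 * (P.M * (b ^ 96 / ‖(γ τ).2 2 - cm m 0 1 (γ τ).2‖)) + 100 * (P.M * (1 / b ^ 4)) := by ring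
  rw [e, e2]
  have h1 : 0 < P.M * (1 / b ^ 4) := by positivity
  have h2 : 0 < P.M * (b ^ 96 / ‖(γ τ).2 2 - cm m 0 1 (γ τ).2‖) := by positivity
  linarith

theorem v2lt (h : Set0 P b m p γ τ t) : ‖(γ t).2 2 - (γ τ).2 2‖ < Om P b m (γ τ) := by
  have hM := P.hM
  have hR := P.hR
  have key := norm_le_integral (f := fun s => (γ s).2 2) (f' := fun s => acc m (γ s).1 2 + p s 2)
    (B := fun s => 4 * P.M * (1 / ‖(γ s).1 2 - cm m 0 1 (γ s).1‖ ^ 2 +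
      (1 / ‖(γ s).1 2 - (γ s).1 3‖ ^ 2 + 1 / ‖(γ s).1 2 - (γ s).1 4‖ ^ 2)) +
      4 * P.R * (1 / (1 + ‖(γ s).1 2‖) ^ 2)) h.h1
    (fun s hs => (hasD (h.sol s hs).2.2.2).2.1 2)
    ((continuousOn_const.mul ((h.cont2 2).add ((h.cont2j (by decide)).add
      (h.cont2j (by decide))))).add (continuousOn_const.mul (h.contF 2)))
    (fun s hs => by
      have h1 := acc_j_le h.hm (q := (γ s).1) (j := 2) (by decide) (h.hr hs (by decide))
        (h.farpos hs (by decide))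
      have e : ({2, 3, 4} : Finset (Fin 5)).erase 2 = {3, 4} := by decide
      rw [e, Finset.sum_pair (by decide), norm_sub_rev ((γ s).1 3) ((γ s).1 2),
        norm_sub_rev ((γ s).1 4) ((γ s).1 2)] at h1
      exact (norm_add_le _ _).trans (add_le_add h1 (h.pb hs 2)))
  have h2 := int4 h.h1 (C := 4 * P.M) (C' := 4 * P.R) (by positivity) (by linarith) (h.cont2 2)
    (h.cont2j (j := 3) (by decide)) (h.cont2j (j := 4) (by decide)) (h.contF 2) h.esc.2.1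
    (h.p2 (j := 3) (by decide)).2 (h.p2 (j := 4) (by decide)).2 h.fly2
  exact lt_of_le_of_lt (key.trans h2) (h.omlt h.fast.f2)

theorem vQlt (h : Set0 P b m p γ τ t) :
    ‖cm m 0 1 (γ t).2 - cm m 0 1 (γ τ).2‖ < Om P b m (γ τ) := by
  have hM := P.hM
  have hR := P.hR
  have key := norm_le_integral (f := fun s => cm m 0 1 (γ s).2)
    (f' := fun s => cm m 0 1 (acc m (γ s).1) + cm m 0 1 (p s))
    (B := fun s => 4 * P.M * (1 / ‖(γ s).1 2 - cm m 0 1 (γ s).1‖ ^ 2 +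
      (1 / ‖cm m 0 1 (γ s).1 - (γ s).1 3‖ ^ 2 + 1 / ‖cm m 0 1 (γ s).1 - (γ s).1 4‖ ^ 2)) +
      4 * P.R * (1 / (1 + ‖cm m 0 1 (γ s).1‖) ^ 2)) h.h1
    (fun s hs => (hasD (h.sol s hs).2.2.2).2.2.2)
    ((continuousOn_const.mul ((h.cont2 2).add ((h.contQ (by decide)).add
      (h.contQ (by decide))))).add (continuousOn_const.mul h.contFQ))
    (fun s hs => by
      have h1 := acc_Q_le h.hm (q := (γ s).1) (fun j hj => h.hr hs hj)
        (fun j hj => h.farpos hs hj)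
      rw [norm_sub_rev ((γ s).1 3) (cm m 0 1 (γ s).1),
        norm_sub_rev ((γ s).1 4) (cm m 0 1 (γ s).1), add_assoc] at h1
      exact (norm_add_le _ _).trans (add_le_add h1 (h.pbQ hs)))
  have h2 := int4 h.h1 (C := 4 * P.M) (C' := 4 * P.R) (by positivity) (by linarith) (h.cont2 2)
    (h.contQ (j := 3) (by decide)) (h.contQ (j := 4) (by decide)) h.contFQ h.esc.2.1
    (h.pQ (j := 3) (by decide)).2 (h.pQ (j := 4) (by decide)).2 h.flyQ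
  exact lt_of_le_of_lt (key.trans h2) (h.omlt h.fast.fQ)

theorem vel_s (h : Set0 P b m p γ τ t) {s : ℝ} (hs : s ∈ Icc τ t) {j : Fin 5} (hj : 2 ≤ j) :
    ‖(γ s).2 j - cm m 0 1 (γ s).2‖ ≤ 11 * P.M * b ^ 100 := by
  have hM := P.hM
  obtain ⟨p0, p1, p2, p3, p4, p5, p6⟩ := h.bpow
  obtain ⟨n1, n2, n3, n4, n5, n6, n7, n8⟩ := h.nm
  have hbo : be P b ≤ Om P b m (γ τ) := by
    unfold be Om
    have : 0 ≤ P.M * (b ^ 96 / ‖(γ τ).2 2 - cm m 0 1 (γ τ).2‖) := by positivity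
    have h2 : 100 * P.M * (b ^ 96 / ‖(γ τ).2 2 - cm m 0 1 (γ τ).2‖ + 1 / b ^ 4) =
      100 * (P.M * (b ^ 96 / ‖(γ τ).2 2 - cm m 0 1 (γ τ).2‖)) + 100 * P.M * (1 / b ^ 4) := by ring
    linarith
  have hw := h.vel.1 2 le_rfl
  have h1 : ‖(γ s).2 j - (γ τ).2 j‖ ≤ Om P b m (γ τ) := by
    have : j = 2 ∨ 3 ≤ j := by
      revert hj; revert j; decide
    rcases this with rfl | h3
    · exact (h.cd s hs).v2
    · exact (h.vj h3 hs).trans hbo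
  have h2 := (h.cd s hs).vQ
  have h3 := h.vel.1 j hj
  have e : (γ s).2 j - cm m 0 1 (γ s).2 = ((γ s).2 j - (γ τ).2 j) +
    ((γ τ).2 j - cm m 0 1 (γ τ).2) - (cm m 0 1 (γ s).2 - cm m 0 1 (γ τ).2) := by abel
  rw [e]
  have h4 := norm_sub_le (((γ s).2 j - (γ τ).2 j) + ((γ τ).2 j - cm m 0 1 (γ τ).2))
    (cm m 0 1 (γ s).2 - cm m 0 1 (γ τ).2)
  have h5 := norm_add_le ((γ s).2 j - (γ τ).2 j) ((γ τ).2 j - cm m 0 1 (γ τ).2)
  linarith

theorem term_le (h : Set0 P b m p γ τ t) {s : ℝ} (hs : s ∈ Icc τ t) {j : Fin 5} (hj : 2 ≤ j) :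
    |m j * ⟪(γ s).2 j - cm m 0 1 (γ s).2, DQ m (γ s).1 j⟫| ≤
      352000 * P.M ^ 7 / b ^ 300 * (1 / ‖(γ s).1 j - cm m 0 1 (γ s).1‖ ^ 4) := by
  have hM := P.hM
  have p0 := h.bpow.1
  have h01 : (γ s).1 0 ≠ (γ s).1 1 := (h.sol s hs).1 0 1 (by decide)
  have h1 := DQ_le h.hm (γ s).1 h01 (h.hr hs hj)
  have h2 := h.vel_s hs hj
  have h3 := (h.cd s hs).r
  have hx := h.farpos hs hj
  have hmj := (h.hm.2 j).2
  have hm0 := h.hm.pos j
  rw [abs_mul, abs_of_pos hm0]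
  have h4 := abs_real_inner_le_norm ((γ s).2 j - cm m 0 1 (γ s).2) (DQ m (γ s).1 j)
  have h5 : ‖(γ s).1 0 - (γ s).1 1‖ ^ 2 ≤ (4 * P.M ^ 2 / b ^ 200) ^ 2 := by gcongr
  calc m j * |⟪(γ s).2 j - cm m 0 1 (γ s).2, DQ m (γ s).1 j⟫|
      ≤ P.M * ((11 * P.M * b ^ 100) * (2000 * P.M * (4 * P.M ^ 2 / b ^ 200) ^ 2 /
          ‖(γ s).1 j - cm m 0 1 (γ s).1‖ ^ 4)) := by
        gcongr
        refine h4.trans ?_
        gcongr
        refine h1.trans ?_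
        gcongr
    _ = 352000 * P.M ^ 7 / b ^ 300 * (1 / ‖(γ s).1 j - cm m 0 1 (γ s).1‖ ^ 4) := by
        field_simp
        ring

theorem dF_le (h : Set0 P b m p γ τ t) {s : ℝ} (hs : s ∈ Icc τ t) :
    |dFQ m (γ s)| ≤ 352000 * P.M ^ 7 / b ^ 300 *
      (1 / ‖(γ s).1 2 - cm m 0 1 (γ s).1‖ ^ 4 + 2 * b ^ 24) := by
  have hM := P.hM
  have p0 := h.bpow.1
  have h2 := h.term_le hs (j := 2) (by decide)
  have h3 := h.term_le hs (j := 3) (by decide)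
  have h4 := h.term_le hs (j := 4) (by decide)
  have hf : ∀ j : Fin 5, 3 ≤ j → 1 / ‖(γ s).1 j - cm m 0 1 (γ s).1‖ ^ 4 ≤ b ^ 24 := by
    intro j hj
    have h5 := h.far3 hs hj
    have h6 : (1 / b ^ 6) ^ 4 ≤ ‖(γ s).1 j - cm m 0 1 (γ s).1‖ ^ 4 := by gcongr
    have h7 : (1 / b ^ 6) ^ 4 = 1 / b ^ 24 := by
      field_simp
    rw [h7] at h6
    have h8 : 0 < 1 / b ^ 24 := by positivity
    calc 1 / ‖(γ s).1 j - cm m 0 1 (γ s).1‖ ^ 4 ≤ 1 / (1 / b ^ 24) := by gcongr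
      _ = b ^ 24 := by field_simp
  have hc : 0 ≤ 352000 * P.M ^ 7 / b ^ 300 := by positivity
  have h5 := mul_le_mul_of_nonneg_left (hf 3 (by decide)) hc
  have h6 := mul_le_mul_of_nonneg_left (hf 4 (by decide)) hc
  unfold dFQ
  refine (abs_add_three _ _ _).trans ?_
  linarith

/-- absolute velocities -/
theorem vabs (h : Set0 P b m p γ τ t) {s : ℝ} (hs : s ∈ Icc τ t) :
    ‖cm m 0 1 (γ s).2‖ ≤ 6 * P.M * b ^ 100 ∧
      ∀ j : Fin 5, 2 ≤ j → ‖(γ s).2 j‖ ≤ 6 * P.M * b ^ 100 := by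
  have hM := P.hM
  obtain ⟨p0, p1, p2, p3, p4, p5, p6⟩ := h.bpow
  obtain ⟨n1, n2, n3, n4, n5, n6, n7, n8⟩ := h.nm
  have hk := kq_bound h.hm (γ τ).2
  have key : 2 * P.M * KQ m (γ τ).2 ≤ (5 * P.M * b ^ 100) ^ 2 := by
    have h1 : 2 * P.M * KQ m (γ τ).2 ≤ 2 * P.M * (9 * b ^ 200) := by
      have := h.K
      gcongr
    have h2 : (5 * P.M * b ^ 100) ^ 2 = 25 * P.M ^ 2 * b ^ 200 := by ring
    rw [h2]
    have h3 : 0 ≤ b ^ 200 := by positivity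
    nlinarith
  have hnn : 0 ≤ 5 * P.M * b ^ 100 := by positivity
  have hbo : be P b ≤ Om P b m (γ τ) := by
    unfold be Om
    have : 0 ≤ P.M * (b ^ 96 / ‖(γ τ).2 2 - cm m 0 1 (γ τ).2‖) := by positivity
    have h2 : 100 * P.M * (b ^ 96 / ‖(γ τ).2 2 - cm m 0 1 (γ τ).2‖ + 1 / b ^ 4) =
      100 * (P.M * (b ^ 96 / ‖(γ τ).2 2 - cm m 0 1 (γ τ).2‖)) + 100 * P.M * (1 / b ^ 4) := by ring
    linarith
  have hw := h.vel.1 2 le_rfl
  have hOm : Om P b m (γ τ) ≤ P.M * b ^ 100 := by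
    have h1 : 0 ≤ P.M * b ^ 100 := by positivity
    linarith
  constructor
  · have h1 := le_of_sq (norm_nonneg _) hnn (hk.1.trans key)
    have h2 := (h.cd s hs).vQ
    have h3 := norm_sub_norm_le (cm m 0 1 (γ s).2) (cm m 0 1 (γ τ).2)
    linarith
  · intro j hj
    have h2 : ‖(γ s).2 j - (γ τ).2 j‖ ≤ Om P b m (γ τ) := by
      have : j = 2 ∨ 3 ≤ j := by
        revert hj; revert j; decide
      rcases this with rfl | h3
      · exact (h.cd s hs).v2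
      · exact (h.vj h3 hs).trans hbo
    have h1 := le_of_sq (norm_nonneg _) hnn ((hk.2 j hj).trans key)
    have h3 := norm_sub_norm_le ((γ s).2 j) ((γ τ).2 j)
    linarith

/-- the work of the outside field -/
theorem wk_le (h : Set0 P b m p γ τ t) {s : ℝ} (hs : s ∈ Icc τ t) :
    |WkQ m (γ s) (p s)| ≤ 100 * P.M ^ 2 * P.R * b ^ 100 := by
  have hM := P.hM
  have hR := P.hR
  have p0 := h.bpow.1
  obtain ⟨v0, v1⟩ := h.vabs hs
  have hpQ : ‖cm m 0 1 (p s)‖ ≤ 4 * P.R := by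
    refine (h.pbQ hs).trans ?_
    have h1 : 1 / (1 + ‖cm m 0 1 (γ s).1‖) ^ 2 ≤ 1 := by
      have h2 : 1 ≤ (1 + ‖cm m 0 1 (γ s).1‖) ^ 2 :=
        one_le_pow₀ (by linarith [norm_nonneg (cm m 0 1 (γ s).1)])
      rw [div_le_one (by positivity)]
      exact h2
    calc 4 * P.R * (1 / (1 + ‖cm m 0 1 (γ s).1‖) ^ 2) ≤ 4 * P.R * 1 := by gcongr
      _ = 4 * P.R := mul_one _
  have hm0 := h.hm.pos 0
  have hm1 := h.hm.pos 1
  have hS : m 0 + m 1 ≤ 2 * P.M := by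
    have h1 := (h.hm.2 0).2
    have h2 := (h.hm.2 1).2
    linarith
  have hQ : |(m 0 + m 1) * ⟪cm m 0 1 (γ s).2, cm m 0 1 (p s)⟫| ≤
      2 * P.M * ((6 * P.M * b ^ 100) * (4 * P.R)) := by
    rw [abs_mul, abs_of_pos (add_pos hm0 hm1)]
    have h4 := abs_real_inner_le_norm (cm m 0 1 (γ s).2) (cm m 0 1 (p s))
    gcongr
    refine h4.trans ?_
    gcongr
  have hj : ∀ j : Fin 5, 2 ≤ j → |m j * ⟪(γ s).2 j, p s j⟫| ≤ P.M * ((6 * P.M * b ^ 100) * P.R) := by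
    intro j hj
    rw [abs_mul, abs_of_pos (h.hm.pos j)]
    have h4 := abs_real_inner_le_norm ((γ s).2 j) (p s j)
    have h5 := v1 j hj
    have h6 := h.pR hs j
    have h7 := (h.hm.2 j).2
    gcongr
    refine h4.trans ?_
    gcongr
  have h2 := hj 2 (by decide)
  have h3 := hj 3 (by decide)
  have h4 := hj 4 (by decide)
  unfold WkQ
  have h5 := abs_add_le ((m 0 + m 1) * ⟪cm m 0 1 (γ s).2, cm m 0 1 (p s)⟫ + m 2 * ⟪(γ s).2 2, p s 2⟫ +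
    m 3 * ⟪(γ s).2 3, p s 3⟫) (m 4 * ⟪(γ s).2 4, p s 4⟫)
  have h6 := abs_add_three ((m 0 + m 1) * ⟪cm m 0 1 (γ s).2, cm m 0 1 (p s)⟫)
    (m 2 * ⟪(γ s).2 2, p s 2⟫) (m 3 * ⟪(γ s).2 3, p s 3⟫)
  have e : 2 * P.M * ((6 * P.M * b ^ 100) * (4 * P.R)) + 3 * (P.M * ((6 * P.M * b ^ 100) * P.R)) =
    66 * (P.M ^ 2 * P.R * b ^ 100) := by ring
  have h7 : 0 ≤ P.M ^ 2 * P.R * b ^ 100 := by positivity
  linarith

theorem F_change (h : Set0 P b m p γ τ t) :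
    |FQ m (γ t) - FQ m (γ τ)| ≤ 1 + 100 * P.M ^ 2 * P.R * b ^ 100 := by
  have hM := P.hM
  have hR := P.hR
  obtain ⟨p0, p1, p2, p3, p4, p5, p6⟩ := h.bpow
  have hb := h.b12
  have hM7 : P.M ^ 7 ≤ P.M ^ 10 := pow_le_pow_right₀ hM (by norm_num)
  have hW0 : 0 ≤ 100 * P.M ^ 2 * P.R * b ^ 100 := by positivity
  have key := norm_le_integral (f := fun s => FQ m (γ s))
    (f' := fun s => dFQ m (γ s) + WkQ m (γ s) (p s))
    (B := fun s => 352000 * P.M ^ 7 / b ^ 300 *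
      (1 / ‖(γ s).1 2 - cm m 0 1 (γ s).1‖ ^ 4 + (b ^ 24 + b ^ 24)) +
      1 * (100 * P.M ^ 2 * P.R * b ^ 100)) h.h1
    (fun s hs => hasDerivAt_FQ h.hm.pos (h.sol s hs).1 (h.sol s hs).2.2.2
      (fun j hj => h.farpos hs hj))
    ((continuousOn_const.mul ((h.cont2 4).add (continuousOn_const.add continuousOn_const))).add
      (continuousOn_const.mul continuousOn_const))
    (fun s hs => by
      rw [Real.norm_eq_abs, one_mul]
      have := h.dF_le hs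
      rw [two_mul] at this
      exact (abs_add_le _ _).trans (add_le_add this (h.wk_le hs)))
  have hc : ∀ c : ℝ, 0 ≤ c → ∫ s in τ..t, c ≤ c := by
    intro c hc
    rw [intervalIntegral.integral_const, smul_eq_mul]
    have h1 := h.h1
    have h2 := h.h2
    nlinarith
  have hi := hc (b ^ 24) (by positivity)
  have h2 := int4 h.h1 (C := 352000 * P.M ^ 7 / b ^ 300) (C' := 1) (by positivity) zero_le_one
    (h.cont2 4) (continuousOn_const (c := b ^ 24)) (continuousOn_const (c := b ^ 24))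
    (continuousOn_const (c := 100 * P.M ^ 2 * P.R * b ^ 100)) h.esc.2.2 hi hi (hc _ hW0)
  rw [Real.norm_eq_abs] at key
  refine (key.trans h2).trans ?_
  rw [one_mul]
  refine add_le_add ?_ le_rfl
  have h3 : 352000 * P.M ^ 7 / b ^ 300 * (16 * b ^ 288 + (b ^ 24 + b ^ 24)) ≤
      352000 * P.M ^ 7 / b ^ 300 * (18 * b ^ 288) := by
    gcongr
    linarith
  refine h3.trans ?_
  have e : 352000 * P.M ^ 7 / b ^ 300 * (18 * b ^ 288) = 6336000 * P.M ^ 7 / b ^ 12 := by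
    field_simp
    ring
  rw [e, div_le_one (by positivity)]
  nlinarith

theorem tau_le (h : Set0 P b m p γ τ t) : |tauQ m (γ t).1| ≤ 1 := by
  have hM := P.hM
  obtain ⟨p0, p1, p2, p3, p4, p5, p6⟩ := h.bpow
  have hb := h.b12
  have hM6 : P.M ^ 6 ≤ P.M ^ 10 := pow_le_pow_right₀ hM (by norm_num)
  have h01 : (γ t).1 0 ≠ (γ t).1 1 := (h.sol t h.memt).1 0 1 (by decide)
  have h1 := tauQ_le h.hm (q := (γ t).1) (norm_pos_iff.2 (sub_ne_zero.2 h01))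
    (fun j hj => h.hr h.memt hj)
  have hf : ∀ j : Fin 5, 2 ≤ j → 1 / ‖(γ t).1 j - cm m 0 1 (γ t).1‖ ^ 3 ≤ 27 * b ^ 288 := by
    intro j hj
    have h5 := h.far h.memt hj
    have h6 : (1 / (3 * b ^ 96)) ^ 3 ≤ ‖(γ t).1 j - cm m 0 1 (γ t).1‖ ^ 3 := by gcongr
    have h7 : (1 / (3 * b ^ 96)) ^ 3 = 1 / (27 * b ^ 288) := by
      field_simp
      norm_num
    rw [h7] at h6
    have h8 : 0 < 1 / (27 * b ^ 288) := by positivity
    calc 1 / ‖(γ t).1 j - cm m 0 1 (γ t).1‖ ^ 3 ≤ 1 / (1 / (27 * b ^ 288)) := by gcongr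
      _ = 27 * b ^ 288 := by field_simp
  have h2 := hf 2 (by decide)
  have h3 := hf 3 (by decide)
  have h4 := hf 4 (by decide)
  have hr := (h.cd t h.memt).r
  refine h1.trans ?_
  calc 20 * P.M ^ 2 * ‖(γ t).1 0 - (γ t).1 1‖ ^ 2 * (1 / ‖(γ t).1 2 - cm m 0 1 (γ t).1‖ ^ 3 +
      1 / ‖(γ t).1 3 - cm m 0 1 (γ t).1‖ ^ 3 + 1 / ‖(γ t).1 4 - cm m 0 1 (γ t).1‖ ^ 3)
      ≤ 20 * P.M ^ 2 * (4 * P.M ^ 2 / b ^ 200) ^ 2 * (27 * b ^ 288 + 27 * b ^ 288 + 27 * b ^ 288) := by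
        gcongr
    _ = 25920 * P.M ^ 6 / b ^ 112 := by
        field_simp
        ring
    _ ≤ 1 := by
        rw [div_le_one (by positivity)]
        nlinarith

theorem rlt (h : Set0 P b m p γ τ t) : ‖(γ t).1 0 - (γ t).1 1‖ < 4 * P.M ^ 2 / b ^ 200 := by
  have hM := P.hM
  have hR := P.hR
  obtain ⟨p0, p1, p2, p3, p4, p5, p6⟩ := h.bpow
  have hb := h.hb
  have hM10 : 1 ≤ P.M ^ 10 := one_le_pow₀ hM
  have hbR : 10 ^ 12 * P.R ≤ b := by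
    refine le_trans ?_ hb
    have : P.R ≤ P.M ^ 10 * P.R := le_mul_of_one_le_left (by linarith) hM10
    nlinarith
  have h01 : (γ t).1 0 ≠ (γ t).1 1 := (h.sol t h.memt).1 0 1 (by decide)
  have hr0 : 0 < ‖(γ t).1 0 - (γ t).1 1‖ := norm_pos_iff.2 (sub_ne_zero.2 h01)
  have hham := ham_Q (h.hm.pos) (γ t)
  have h1 := abs_le.1 h.F_change
  have hW : 100 * P.M ^ 2 * P.R * b ^ 100 ≤ b ^ 200 / 100 := by
    have h8 := h.bR
    have h9 : 10000 * P.M ^ 2 * P.R ≤ b ^ 100 := by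
      have h10 : b ≤ b ^ 100 := le_self_pow₀ h.b1 (by norm_num)
      have h11 : 0 ≤ P.M ^ 2 * P.R := by positivity
      linarith
    have h12 : 0 ≤ b ^ 100 := by positivity
    have e2 : b ^ 200 = b ^ 100 * b ^ 100 := by ring
    rw [e2]
    nlinarith
  have h2 := abs_le.1 h.tau_le
  have h3 := abs_le.1 h.ham
  have h4 := h.F
  have hm0 := h.hm.pos 0
  have hm1 := h.hm.pos 1
  have hp1 : -(m 0 * m 1 / ‖(γ t).1 0 - (γ t).1 1‖) ≤ hp m 0 1 (γ t) := by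
    unfold hp
    have : 0 ≤ (1 / 2) * (m 0 * m 1 / (m 0 + m 1)) * ‖(γ t).2 0 - (γ t).2 1‖ ^ 2 := by positivity
    linarith
  have h5 : b ^ 200 / 3 ≤ m 0 * m 1 / ‖(γ t).1 0 - (γ t).1 1‖ := by
    linarith [h1.1, h2.1, h3.1, h3.2]
  rw [le_div_iff₀ hr0] at h5
  have h6 : m 0 * m 1 ≤ P.M ^ 2 := by
    rw [pow_two]
    exact mul_le_mul (h.hm.2 0).2 (h.hm.2 1).2 hm1.le (by linarith)
  rw [lt_div_iff₀ (by positivity)]
  have hMp : 0 < P.M ^ 2 := by positivity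
  nlinarith

theorem step (h : Set0 P b m p γ τ t) : Gf P b m (γ τ) (γ t) < 0 := by
  obtain ⟨p0, p1, p2, p3, p4, p5, p6⟩ := h.bpow
  have hlt : (1 : ℝ) / b ^ 6 < 2 / b ^ 6 := by
    gcongr
    norm_num
  refine Gf_lt h.v2lt h.vQlt h.v3lt h.v4lt h.rlt ?_ ?_ ?_ ?_ ?_ ?_
  · refine lt_of_lt_of_le ?_ (h.esc.1 t h.memt)
    apply one_div_lt_one_div_of_lt (by positivity)
    have : 0 < b ^ 96 := by positivity
    linarith
  · rw [norm_sub_rev]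
    exact lt_of_lt_of_le hlt ((h.pQ (j := 3) (by decide)).1 t h.memt)
  · rw [norm_sub_rev]
    exact lt_of_lt_of_le hlt ((h.pQ (j := 4) (by decide)).1 t h.memt)
  · exact lt_of_lt_of_le hlt ((h.p2 (j := 3) (by decide)).1 t h.memt)
  · exact lt_of_lt_of_le hlt ((h.p2 (j := 4) (by decide)).1 t h.memt)
  · exact lt_of_lt_of_le hlt (h.p34.1 t h.memt)

end Set0

end

end FrC

theorem frozen (P : Par) : ∃ b0 : ℝ, 1 ≤ b0 ∧ ∀ b ≥ b0, ∀ m : Fin 5 → ℝ, Mb P.M m →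
    ∀ (p : ℝ → Cf 5 d) (γ : ℝ → St d) (τ T : ℝ), τ < T → T ≤ τ + 1 →
    PS P.R m p γ (Ico τ T) → (∀ t ∈ Ico τ T, γ t ∈ Inv m P.R) →
    S1 P b m (γ τ) → Good P b m (γ τ) → Fast P b m (γ τ) →
    1 / b ^ 96 ≤ ‖(γ τ).1 2 - cm m 0 1 (γ τ).1‖ → ‖(γ τ).1 2 - cm m 0 1 (γ τ).1‖ ≤ 2 / b ^ 96 →
    0 ≤ ⟪(γ τ).1 2 - cm m 0 1 (γ τ).1, (γ τ).2 2 - cm m 0 1 (γ τ).2⟫ →
    ∀ t ∈ Ico τ T, 1 / (4 * b ^ 96) ≤ Rg 4 (γ t).1 := by
  obtain ⟨b1, hb1, hKQ⟩ := s1_KQ (d := d) P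
  refine ⟨max b1 (10 ^ 12 * P.M ^ 10 * P.R), le_max_of_le_left hb1, ?_⟩
  intro b hb m hm p γ τ T hτT hT1 hsol hinv hS1 hg hfast hx1 hx2 hx0
  have hbb1 : b1 ≤ b := le_trans (le_max_left _ _) hb
  have hbb2 : 10 ^ 12 * P.M ^ 10 * P.R ≤ b := le_trans (le_max_right _ _) hb
  have hb1' : 1 ≤ b := hb1.trans hbb1
  have p0 : 0 < b := by linarith
  have hM := P.hM
  have hM10 : 1 ≤ P.M ^ 10 := one_le_pow₀ hM
  have hR := P.hR
  have hb12 : 10 ^ 12 ≤ b := by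
    refine le_trans ?_ hbb2
    have : 1 ≤ P.M ^ 10 * P.R := by nlinarith
    nlinarith
  have hb96 : b ≤ b ^ 96 := le_self_pow₀ hb1' (by norm_num)
  have hb77 : 1 ≤ b ^ 77 := one_le_pow₀ hb1'
  have hb6 : 1 ≤ b ^ 6 := one_le_pow₀ hb1'
  have h2b : 2 / b ^ 96 ≤ 1 / 2 := by
    rw [div_le_div_iff₀ (by positivity) (by norm_num)]
    linarith
  -- distances at the time `τ`
  have d23 : 1 / 2 ≤ ‖(γ τ).1 2 - (γ τ).1 3‖ := by
    have h1 := hg.far3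
    have h2 := norm_sub_norm_le ((γ τ).1 3 - cm m 0 1 (γ τ).1) ((γ τ).1 2 - cm m 0 1 (γ τ).1)
    rw [sub_sub_sub_cancel_right, norm_sub_rev ((γ τ).1 3) ((γ τ).1 2)] at h2
    linarith
  have d24 : 1 / 2 ≤ ‖(γ τ).1 2 - (γ τ).1 4‖ := by
    have h1 := hg.far4
    have h2 := norm_sub_norm_le ((γ τ).1 4 - cm m 0 1 (γ τ).1) ((γ τ).1 2 - cm m 0 1 (γ τ).1)
    rw [sub_sub_sub_cancel_right, norm_sub_rev ((γ τ).1 4) ((γ τ).1 2)] at h2
    linarith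
  have d34 : 1 / 2 ≤ ‖(γ τ).1 3 - (γ τ).1 4‖ := by
    have := hg.far34
    linarith
  have h77 : 1 / (8 * b ^ 77) ≤ 1 / 2 := by
    apply one_div_le_one_div_of_le (by norm_num)
    linarith
  have h6 : 1 / b ^ 6 ≤ 1 / 2 := by
    apply one_div_le_one_div_of_le (by norm_num)
    have : b ≤ b ^ 6 := le_self_pow₀ hb1' (by norm_num)
    linarith
  have hK : KQ m (γ τ).2 ≤ 9 * b ^ 200 := by
    refine hKQ b hbb1 m hm (γ τ) hS1 ?_
    intro i j hi hj hij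
    have : (i = 2 ∧ j = 3) ∨ (i = 2 ∧ j = 4) ∨ (i = 3 ∧ j = 4) ∨ (i = 3 ∧ j = 2) ∨
        (i = 4 ∧ j = 2) ∨ (i = 4 ∧ j = 3) := by
      revert hi hj hij
      revert i j
      decide
    rcases this with ⟨rfl, rfl⟩ | ⟨rfl, rfl⟩ | ⟨rfl, rfl⟩ | ⟨rfl, rfl⟩ | ⟨rfl, rfl⟩ | ⟨rfl, rfl⟩
    · exact h77.trans d23
    · exact h77.trans d24
    · exact h77.trans d34
    · rw [norm_sub_rev]; exact h77.trans d23
    · rw [norm_sub_rev]; exact h77.trans d24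
    · rw [norm_sub_rev]; exact h77.trans d34
  have hset : ∀ t ∈ Ico τ T, (∀ s ∈ Icc τ t, NB5.FrC.Cd P b m (γ τ) (γ s)) →
      FrC.Set0 P b m p γ τ t := fun t ht hc =>
    { hm := hm
      hb := hbb2
      h1 := ht.1
      h2 := by linarith [ht.2]
      sol := fun s hs => hsol s ⟨hs.1, lt_of_le_of_lt hs.2 ht.2⟩
      ham := (hinv t ht).2.1
      good := hg
      fast := hfast
      F := hS1.F_ge
      K := hK
      x1 := hx1
      x0 := hx0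
      cd := hc }
  have hOm : 0 ≤ NB5.FrC.Om P b m (γ τ) := by
    unfold NB5.FrC.Om
    have h1 : 0 ≤ b ^ 96 / ‖(γ τ).2 2 - cm m 0 1 (γ τ).2‖ :=
      div_nonneg (pow_nonneg p0.le 96) (norm_nonneg _)
    have h2 : 0 ≤ 1 / b ^ 4 := by positivity
    exact mul_nonneg (by linarith) (add_nonneg h1 h2)
  have hboot := NB5.FrC.boot (τ := τ) (T := T) (fun s => NB5.FrC.Gf P b m (γ τ) (γ s))
    (fun s hs => (NB5.FrC.Gf_cont.continuousAt.comp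
      (hsol s hs).2.2.2.continuousAt).continuousWithinAt)
    (by
      refine NB5.FrC.Gf_le.2 ⟨?_, ?_, ?_, ?_, hS1.r_le, ?_, ?_, ?_, h6.trans d23, h6.trans d24,
        h6.trans d34⟩
      · rw [sub_self, norm_zero]; exact hOm
      · rw [sub_self, norm_zero]; exact hOm
      · rw [sub_self, norm_zero]; unfold NB5.FrC.be; positivity
      · rw [sub_self, norm_zero]; unfold NB5.FrC.be; positivity
      · refine le_trans ?_ hx1
        apply one_div_le_one_div_of_le (by positivity)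
        have : 0 < b ^ 96 := by positivity
        linarith
      · have := hg.far3
        linarith
      · have := hg.far4
        linarith)
    (fun t ht hc => (hset t ht (fun s hs => NB5.FrC.Gf_le.1 (hc s hs))).step)
  intro t ht
  have hcd : ∀ s ∈ Icc τ t, NB5.FrC.Cd P b m (γ τ) (γ s) := fun s hs =>
    NB5.FrC.Gf_le.1 (hboot s ⟨hs.1, lt_of_le_of_lt hs.2 ht.2⟩)
  have hS := hset t ht hcd
  have hc := hcd t hS.memt
  set q := (γ t).1 with hq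
  have hlow : 1 / (4 * b ^ 96) ≤ 1 / b ^ 6 := by
    apply one_div_le_one_div_of_le (by positivity)
    have := hS.bpow.2.2.2.2.2.1
    have h96 : 0 < b ^ 96 := by positivity
    linarith
  have hpair : ∀ i j : Fin 5, i ≤ 1 → 2 ≤ j → 1 / (4 * b ^ 96) ≤ ‖q i - q j‖ := by
    intro i j hi hj
    have h1 := hS.far hS.memt hj
    have h2 := hS.hr hS.memt hj
    have h3 : ‖cm m 0 1 q - q i‖ ≤ ‖q 0 - q 1‖ := by
      have hd := cm_dist hm.pos (a := 0) (b := 1) (by decide) q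
      have : i = 0 ∨ i = 1 := by
        revert hi; revert i; decide
      rcases this with rfl | rfl
      · exact hd.1
      · exact hd.2
    have h4 := norm_sub_norm_le (q j - cm m 0 1 q) (q i - cm m 0 1 q)
    rw [sub_sub_sub_cancel_right, norm_sub_rev (q j) (q i), norm_sub_rev (q i) (cm m 0 1 q)] at h4
    have e : 1 / (4 * b ^ 96) = (3 / 4) * (1 / (3 * b ^ 96)) := by
      field_simp
    rw [e]
    rw [← hq] at h1 h2
    linarith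
  refine (le_Rg_iff (by norm_num) (by norm_num)).2 ⟨![0, 0, 1, 2, 3], by decide, ?_⟩
  intro i j hij
  have hcase : (i ≤ 1 ∧ 2 ≤ j) ∨ (j ≤ 1 ∧ 2 ≤ i) ∨ (i = 2 ∧ j = 3) ∨ (i = 2 ∧ j = 4) ∨
      (i = 3 ∧ j = 4) ∨ (i = 3 ∧ j = 2) ∨ (i = 4 ∧ j = 2) ∨ (i = 4 ∧ j = 3) := by
    revert hij
    revert i j
    decide
  rcases hcase with ⟨h1, h2⟩ | ⟨h1, h2⟩ | ⟨rfl, rfl⟩ | ⟨rfl, rfl⟩ | ⟨rfl, rfl⟩ | ⟨rfl, rfl⟩ |
    ⟨rfl, rfl⟩ | ⟨rfl, rfl⟩
  · exact hpair i j h1 h2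
  · rw [norm_sub_rev]; exact hpair j i h1 h2
  · exact hlow.trans hc.d23
  · exact hlow.trans hc.d24
  · exact hlow.trans hc.d34
  · rw [norm_sub_rev]; exact hlow.trans hc.d23
  · rw [norm_sub_rev]; exact hlow.trans hc.d24
  · rw [norm_sub_rev]; exact hlow.trans hc.d34

end NBO
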