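import Mathlib
import Pool.Agent.NBO.Defs
import Pool.Agent.NBO.Der
import Pool.Agent.NB5.KepE
import Pool.Agent.NB5.ExF
import Pool.Agent.NB5.RelMot
import Pool.Agent.NB5.S1F

/-!
# The exchange problem in the outside field (module NBO-KepE)

Copy of `NB5/KepE.lean` (`kep_exc`) with `p`: the perturbation is `pQ m (γ t).1 + (p t 2 - cm m 0 1 (p t))`, where
`‖p 2 - cm m 0 1 p‖ ≤ P.R (‖x 2‖ + ‖q 0 - q 1‖) ≤ 2 P.R ‖x 2‖` (`Pb.lip`). The CONSTANT `10^6 P.M b^231` has room: `pQ_le` and `s1_far`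
(`‖x j‖ ≥ 1/(3 b^77)`, j = 3, 4) give `10^4 M (2 * 27 b^231) ‖x 2‖ = 540000 M b^231 ‖x 2‖` for the second term (look at the proof of `ex_facts` in
`NB5/ExF.lean` and redo this estimate), and `2 P.R ≤ b ≤ M b^231 * 10^5` for `b` large.
-/

open MeasureTheory Set Filter Topology Metric
open scoped NNReal ENNReal RealInnerProductSpace

namespace NBO

open HDN NB5

variable {d : ℕ}

private theorem nke_cm {μ0 μ1 K : ℝ} (h0 : 0 < μ0) (h1 : 0 < μ1) {a b c : Sp d}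
    (ha : ‖c - a‖ ≤ K) (hb : ‖c - b‖ ≤ K) :
    ‖c - (μ0 + μ1)⁻¹ • (μ0 • a + μ1 • b)‖ ≤ K := by
  have hs : 0 < μ0 + μ1 := by linarith
  have e : c - (μ0 + μ1)⁻¹ • (μ0 • a + μ1 • b) =
      (μ0 + μ1)⁻¹ • (μ0 • (c - a) + μ1 • (c - b)) := by
    have e1 : μ0 • (c - a) + μ1 • (c - b) = (μ0 + μ1) • c - (μ0 • a + μ1 • b) := by
      rw [smul_sub, smul_sub, add_smul]
      abel
    rw [e1, smul_sub, smul_smul, inv_mul_cancel₀ hs.ne', one_smul]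
  rw [e, norm_smul, norm_inv, Real.norm_of_nonneg hs.le, inv_mul_le_iff₀ hs]
  calc ‖μ0 • (c - a) + μ1 • (c - b)‖ ≤ ‖μ0 • (c - a)‖ + ‖μ1 • (c - b)‖ := norm_add_le _ _
    _ = μ0 * ‖c - a‖ + μ1 * ‖c - b‖ := by
      rw [norm_smul, norm_smul, Real.norm_of_nonneg h0.le, Real.norm_of_nonneg h1.le]
    _ ≤ μ0 * K + μ1 * K := by gcongr
    _ = (μ0 + μ1) * K := by ring

private theorem nke_inv3 {b e : ℝ} (hb : 1 ≤ b) (h : 1 / (3 * b ^ 77) ≤ e) :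
    1 / e ^ 3 ≤ 27 * b ^ 231 := by
  have h0 : (0:ℝ) < b := by linarith
  have h1 : 0 < 1 / (3 * b ^ 77) := by positivity
  calc 1 / e ^ 3 ≤ 1 / (1 / (3 * b ^ 77)) ^ 3 := by gcongr
    _ = 27 * b ^ 231 := by field_simp; ring

private theorem nke_r4 (P : Par) {b : ℝ} (h1b : 1 ≤ b) {m : Fin 5 → ℝ} {x : St d}
    (hx : S1 P b m x) {j : Fin 5} (hj : 2 ≤ j) :
    4 * ‖x.1 0 - x.1 1‖ ≤ ‖x.1 j - cm m 0 1 x.1‖ := by
  have h0 : (0:ℝ) < b := by linarith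
  have hM := P.hM
  have hZ := P.hZ
  have h26 : P.M ^ 2 ≤ P.M ^ 6 := pow_le_pow_right₀ hM (by norm_num)
  have h2 : 0 ≤ P.M ^ 2 := by positivity
  calc 4 * ‖x.1 0 - x.1 1‖ ≤ 4 * (P.Cr / b ^ 200) := by linarith [hx.r_le]
    _ = 4 * P.Cr / b ^ 200 := by ring
    _ ≤ P.Zp / b ^ 200 := by
      unfold Par.Cr
      gcongr
      nlinarith
    _ ≤ _ := hx.x_ge j hj

private theorem nke_pb (P : Par) : ∃ b0 : ℝ, 1 ≤ b0 ∧ ∀ b ≥ b0, ∀ m : Fin 5 → ℝ, Mb P.M m →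
    ∀ x : St d, x ∈ Inv m P.R → S1 P b m x → ‖x.1 2 - cm m 0 1 x.1‖ ≤ 2 / b ^ 96 →
    ∀ p : Cf 5 d, Pb P.R x p →
    ‖pQ m x.1 + (p 2 - cm m 0 1 p)‖ ≤
      (10 ^ 6 * P.M ^ 5 / b ^ 400) / ‖x.1 2 - cm m 0 1 x.1‖ ^ 4 +
      (10 ^ 6 * P.M * b ^ 231) * ‖x.1 2 - cm m 0 1 x.1‖ := by
  obtain ⟨b1, hb1, H⟩ := s1_far (d := d) P
  have hM := P.hM
  have hR := P.hR
  refine ⟨max b1 (24 + 2 * P.R), le_max_of_le_left hb1, fun b hb m hm x hI hx hX p hp => ?_⟩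
  have hbb1 : b1 ≤ b := (le_max_left _ _).trans hb
  have hbb2 : 24 + 2 * P.R ≤ b := (le_max_right _ _).trans hb
  have h1b : (1:ℝ) ≤ b := by linarith
  have h0b : (0:ℝ) < b := by linarith
  have hM0 : (0:ℝ) < P.M := by linarith
  have hfree : Free x.1 := hI.1
  have hmpos : ∀ i, 0 < m i := hm.pos
  have h19 : (24:ℝ) ≤ b ^ 19 := by
    have h2 : b ≤ b ^ 19 := le_self_pow₀ h1b (by norm_num)
    linarith
  have hd8 : 2 / b ^ 96 ≤ 1 / (8 * b ^ 77) := by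
    rw [div_le_div_iff₀ (by positivity) (by positivity)]
    calc 2 * (8 * b ^ 77) = 16 * b ^ 77 := by ring
      _ ≤ b ^ 19 * b ^ 77 := by gcongr; linarith
      _ = 1 * b ^ 96 := by ring
  have hd3 : 4 * (2 / b ^ 96) ≤ 1 / (3 * b ^ 77) := by
    rw [← mul_div_assoc, div_le_div_iff₀ (by positivity) (by positivity)]
    calc 4 * 2 * (3 * b ^ 77) = 24 * b ^ 77 := by ring
      _ ≤ b ^ 19 * b ^ 77 := by gcongr
      _ = 1 * b ^ 96 := by ring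
  obtain ⟨-, -, F3, -⟩ := H b hbb1 m hm x hx (hX.trans hd8)
  have h3 := F3 3 (le_refl _)
  have h4 := F3 4 (by decide)
  have hr4 := nke_r4 P h1b hx (le_refl (2 : Fin 5))
  have h01 : x.1 0 ≠ x.1 1 := hfree 0 1 (by decide)
  have hr0 : 0 < ‖x.1 0 - x.1 1‖ := norm_pos_iff.2 (sub_ne_zero.2 h01)
  have hXpos : 0 < ‖x.1 2 - cm m 0 1 x.1‖ := by linarith
  have F5 : 4 * ‖x.1 2 - cm m 0 1 x.1‖ ≤ 1 / (3 * b ^ 77) := by linarith
  have hpQ := pQ_le hm hfree hr4 (F5.trans h3) (F5.trans h4)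
  have i3 := nke_inv3 h1b h3
  have i4 := nke_inv3 h1b h4
  have hr2 : ‖x.1 0 - x.1 1‖ ^ 2 ≤ 16 * P.M ^ 4 / b ^ 400 := by
    have hr := hx.r_le
    calc ‖x.1 0 - x.1 1‖ ^ 2 ≤ (P.Cr / b ^ 200) ^ 2 := by gcongr
      _ = 16 * P.M ^ 4 / b ^ 400 := by
        unfold Par.Cr
        rw [div_pow]; ring
  -- the distance of the body 2 from the bodies of the pair
  have hc0 : ‖x.1 0 - cm m 0 1 x.1‖ ≤ ‖x.1 0 - x.1 1‖ :=
    nke_cm (hmpos 0) (hmpos 1) (by rw [sub_self, norm_zero]; exact norm_nonneg _) le_rfl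
  have hc1 : ‖x.1 1 - cm m 0 1 x.1‖ ≤ ‖x.1 0 - x.1 1‖ :=
    nke_cm (hmpos 0) (hmpos 1) (le_of_eq (norm_sub_rev _ _))
      (by rw [sub_self, norm_zero]; exact norm_nonneg _)
  set X := ‖x.1 2 - cm m 0 1 x.1‖ with hXdef
  have hd : ∀ i : Fin 5, ‖x.1 i - cm m 0 1 x.1‖ ≤ ‖x.1 0 - x.1 1‖ →
      ‖p 2 - p i‖ ≤ P.R * (2 * X) := by
    intro i hi
    refine (hp.lip 2 i).trans ?_
    have h5 : ‖x.1 2 - x.1 i‖ ≤ X + ‖x.1 i - cm m 0 1 x.1‖ := by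
      calc ‖x.1 2 - x.1 i‖ = ‖(x.1 2 - cm m 0 1 x.1) - (x.1 i - cm m 0 1 x.1)‖ := by
            congr 1; abel
        _ ≤ _ := norm_sub_le _ _
    have h6 : ‖x.1 2 - x.1 i‖ ≤ 2 * X := by linarith
    exact mul_le_mul_of_nonneg_left h6 (by linarith)
  have hpp : ‖p 2 - cm m 0 1 p‖ ≤ P.R * (2 * X) :=
    nke_cm (hmpos 0) (hmpos 1) (hd 0 hc0) (hd 1 hc1)
  have hb231 : b ≤ b ^ 231 := le_self_pow₀ h1b (by norm_num)
  have hMb : b ^ 231 ≤ P.M * b ^ 231 := le_mul_of_one_le_left (by positivity) hM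
  have hpp2 : ‖p 2 - cm m 0 1 p‖ ≤ (460000 * P.M * b ^ 231) * X := by
    refine hpp.trans ?_
    calc P.R * (2 * X) = (2 * P.R) * X := by ring
      _ ≤ (460000 * P.M * b ^ 231) * X := by
        apply mul_le_mul_of_nonneg_right _ hXpos.le
        nlinarith
  have hA : 10 ^ 4 * P.M * ‖x.1 0 - x.1 1‖ ^ 2 / X ^ 4 ≤
      (10 ^ 6 * P.M ^ 5 / b ^ 400) / X ^ 4 := by
    calc 10 ^ 4 * P.M * ‖x.1 0 - x.1 1‖ ^ 2 / X ^ 4
        ≤ 10 ^ 4 * P.M * (16 * P.M ^ 4 / b ^ 400) / X ^ 4 := by gcongr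
      _ = (160000 * P.M ^ 5 / b ^ 400) / X ^ 4 := by ring
      _ ≤ _ := by
        gcongr
        norm_num
  have hB : 10 ^ 4 * P.M * X * (1 / ‖x.1 3 - cm m 0 1 x.1‖ ^ 3 + 1 / ‖x.1 4 - cm m 0 1 x.1‖ ^ 3)
      ≤ (540000 * P.M * b ^ 231) * X := by
    calc 10 ^ 4 * P.M * X * (1 / ‖x.1 3 - cm m 0 1 x.1‖ ^ 3 + 1 / ‖x.1 4 - cm m 0 1 x.1‖ ^ 3)
        ≤ 10 ^ 4 * P.M * X * (27 * b ^ 231 + 27 * b ^ 231) := by gcongr
      _ = (540000 * P.M * b ^ 231) * X := by ring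
  calc ‖pQ m x.1 + (p 2 - cm m 0 1 p)‖ ≤ ‖pQ m x.1‖ + ‖p 2 - cm m 0 1 p‖ := norm_add_le _ _
    _ ≤ ((10 ^ 6 * P.M ^ 5 / b ^ 400) / X ^ 4 + (540000 * P.M * b ^ 231) * X) +
        (460000 * P.M * b ^ 231) * X := by linarith
    _ = _ := by ring

private theorem nke_cont_acc (m : Fin 5 → ℝ) {γ : ℝ → St d} {s : Set ℝ}
    (hc : ContinuousOn (fun t => (γ t).1) s) (hf : ∀ t ∈ s, Free (γ t).1) (a : Fin 5) :
    ContinuousOn (fun t => acc m (γ t).1 a) s := by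
  have hq : ∀ i : Fin 5, ContinuousOn (fun t => (γ t).1 i) s := fun i =>
    (continuous_apply i).comp_continuousOn hc
  unfold acc
  refine continuousOn_finset_sum _ fun b hb => ?_
  have hba : b ≠ a := Finset.ne_of_mem_erase hb
  have h1 : ContinuousOn (fun t => (γ t).1 b - (γ t).1 a) s := (hq b).sub (hq a)
  refine ContinuousOn.smul (continuousOn_const.div (h1.norm.pow 3) fun t ht => ?_) h1
  exact pow_ne_zero _ (norm_ne_zero_iff.2 (sub_ne_zero.2 (hf t ht b a hba)))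

private theorem nke_cont_cm (m : Fin 5 → ℝ) {f : ℝ → Cf 5 d} {s : Set ℝ}
    (h0 : ContinuousOn (fun t => f t 0) s) (h1 : ContinuousOn (fun t => f t 1) s) :
    ContinuousOn (fun t => cm m 0 1 (f t)) s := by
  unfold cm
  have h2 : ContinuousOn (fun t => m 0 • f t 0) s := h0.const_smul (m 0)
  have h3 : ContinuousOn (fun t => m 1 • f t 1) s := h1.const_smul (m 1)
  have h4 : ContinuousOn (fun t => m 0 • f t 0 + m 1 • f t 1) s := h2.add h3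
  exact h4.const_smul (m 0 + m 1)⁻¹

private theorem nke_cont_grav {f : ℝ → Sp d} {s : Set ℝ} (hf : ContinuousOn f s)
    (h0 : ∀ t ∈ s, 0 < ‖f t‖) : ContinuousOn (fun t => grav (f t)) s := by
  unfold grav
  exact ContinuousOn.smul ((hf.norm.pow 3).inv₀ fun t ht => pow_ne_zero _ (h0 t ht).ne') hf

theorem kep_exc (P : Par) : ∃ b0 : ℝ, 1 ≤ b0 ∧ ∀ b ≥ b0, ∀ m : Fin 5 → ℝ, Mb P.M m →
    ∀ (p : ℝ → Cf 5 d) (γ : ℝ → St d) (α β : ℝ), Exc P b m p γ α β →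
    Kep (m 0 + m 1 + m 2) (1 / b ^ 96) (10 ^ 6 * P.M ^ 5 / b ^ 400) (10 ^ 6 * P.M * b ^ 231) α β
      (x2 m γ) (w2 m γ) (fun t => pQ m (γ t).1 + (p t 2 - cm m 0 1 (p t))) := by
  obtain ⟨b1, hb1, H1⟩ := ex_facts (d := d) P
  obtain ⟨b2, hb2, H2⟩ := ex_en (d := d) P
  obtain ⟨b3, hb3, H3⟩ := nke_pb (d := d) P
  refine ⟨max (max b1 b2) b3, le_max_of_le_left (le_max_of_le_left hb1),
    fun b hb m hm p γ α β X => ?_⟩
  have hbb1 : b1 ≤ b := le_trans (le_trans (le_max_left _ _) (le_max_left _ _)) hb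
  have hbb2 : b2 ≤ b := le_trans (le_trans (le_max_right _ _) (le_max_left _ _)) hb
  have hbb3 : b3 ≤ b := le_trans (le_max_right _ _) hb
  have hb0 : 0 < b := lt_of_lt_of_le one_pos (le_trans hb1 hbb1)
  have hM0 : 0 < P.M := lt_of_lt_of_le one_pos P.hM
  have hmpos : ∀ i, 0 < m i := fun i => lt_of_lt_of_le (by positivity) (hm.2 i).1
  have hG : 0 < m 0 + m 1 + m 2 := by
    have h0 := hmpos 0
    have h1 := hmpos 1
    have h2 := hmpos 2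
    linarith
  have hZ : 0 < P.Zp := lt_of_lt_of_le (by positivity) P.hZ
  have hx0 : ∀ t ∈ Icc α β, 0 < ‖(γ t).1 2 - cm m 0 1 (γ t).1‖ := fun t ht =>
    lt_of_lt_of_le (by positivity) ((X.s1 t ht).x_ge 2 le_rfl)
  have hγc : ContinuousOn (fun t => (γ t).1) (Icc α β) := by
    have h1 : ContinuousOn γ (Icc α β) := fun t ht =>
      ((X.sol t ht).2.2.2.continuousAt).continuousWithinAt
    exact continuous_fst.comp_continuousOn h1
  have hq : ∀ i : Fin 5, ContinuousOn (fun t => (γ t).1 i) (Icc α β) := fun i =>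
    (continuous_apply i).comp_continuousOn hγc
  have hpc : ∀ i : Fin 5, ContinuousOn (fun t => p t i) (Icc α β) := by
    have h1 : ContinuousOn p (Icc α β) := fun t ht =>
      ((X.sol t ht).2.2.1).continuousWithinAt
    exact fun i => (continuous_apply i).comp_continuousOn h1
  have hfree : ∀ t ∈ Icc α β, Free (γ t).1 := fun t ht => (X.sol t ht).1
  have hx2c : ContinuousOn (fun t => (γ t).1 2 - cm m 0 1 (γ t).1) (Icc α β) :=
    (hq 2).sub (nke_cont_cm m (hq 0) (hq 1))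
  refine
    { hαβ := X.hαβ
      hG := hG
      hρ := by positivity
      hA := by positivity
      hB := by positivity
      hx := fun t ht => hasDerivAt_x2 (X.sol t ht).2.2.2
      hw := fun t ht => hasDerivAt_w2 (X.sol t ht).2.2.2
      hp := ?_
      x0 := hx0
      x1 := fun t ht => (X.near t ht).trans (le_of_eq (by ring))
      en := fun t ht => H2 b hbb2 m hm (γ t) (X.inv t ht) (X.s1 t ht) (X.near t ht) (X.hh_ge t ht)
      pb := fun t ht =>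
        H3 b hbb3 m hm (γ t) (X.inv t ht) (X.s1 t ht) (X.near t ht) (p t) (X.sol t ht).2.1
      A_le := fun t ht =>
        (H1 b hbb1 m hm (γ t) (X.inv t ht) (X.s1 t ht) (X.near t ht)).2.2.2.2.1
      B_le := ?_ }
  · have h5 : ContinuousOn (fun t => (m 0 + m 1 + m 2) • grav ((γ t).1 2 - cm m 0 1 (γ t).1))
        (Icc α β) := (nke_cont_grav hx2c hx0).const_smul (m 0 + m 1 + m 2)
    have h6 : ContinuousOn (fun t => acc m (γ t).1 2 - cm m 0 1 (acc m (γ t).1)) (Icc α β) :=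
      (nke_cont_acc m hγc hfree 2).sub
        (nke_cont_cm m (nke_cont_acc m hγc hfree 0) (nke_cont_acc m hγc hfree 1))
    exact (h6.add h5).add ((hpc 2).sub (nke_cont_cm m (hpc 0) (hpc 1)))
  · have hα : α ∈ Icc α β := ⟨le_rfl, X.hαβ⟩
    exact (H1 b hbb1 m hm (γ α) (X.inv α hα) (X.s1 α hα) (X.near α hα)).2.2.2.2.2

end NBO
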