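import Mathlib
import Pool.Agent.NBO.Defs
import Pool.Agent.NBO.Rel
import Pool.Agent.NBO.P5L
import Pool.Agent.NBO.Der
import Pool.Agent.NBO.Wk
import Pool.Agent.NB5.M3

/-!
# Mode III (module NBO-M3)

Copy of `NB5/M3.lean`; the derivative of `FT` is `dFT + WkT`, `|WkT| ≤ C b^100 ≤ b^110` (`wkT_le`), absorbed in the same way as `|dFT| ≤ b^110` in the case of far bodies
(`Dg` allows `b^150` per unit time).
-/

open MeasureTheory Set Filter Topology Metric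
open scoped NNReal ENNReal RealInnerProductSpace

namespace NBO

open HDN NB5

variable {d : ℕ}

/-- the integral of the weight over a subinterval -/
theorem Cx.int_le {P : Par} {ε : ℝ} {m : Fin 5 → ℝ} {p : ℝ → Cf 5 d} {γ : ℝ → St d} {τ T : ℝ}
    (h : Cx P ε m p γ τ T) {a c : ℝ} (ha : τ ≤ a) (hc : c < T) :
    ∫⁻ s in Icc a c, G P m (γ s) ≤ ENNReal.ofReal ε := by
  refine le_trans (lintegral_mono_set ?_) h.hG
  intro s hs
  exact ⟨ha.trans hs.1, hs.2.trans_lt hc⟩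

/-- `Dg` is small for small `ε` and large `k1` -/
theorem Dg_small (P : Par) {C : ℝ} (hC : 0 < C) : ∃ ε0 > 0, ∃ K : ℕ, ∀ ε ≤ ε0,
    ∀ (m : Fin 5 → ℝ) (p : ℝ → Cf 5 d) (γ : ℝ → St d) (τ T : ℝ), Cx P ε m p γ τ T →
    ∀ (t t1 : ℝ) (k1 : ℕ), K ≤ k1 → τ ≤ t → t ≤ t1 → t1 < T →
    0 ≤ Dg P C m γ t t1 k1 ∧ Dg P C m γ t t1 k1 ≤ 1 / 10 := by
  obtain ⟨K, hK⟩ := (tendsto_atTop.1 lev_tendsto (20 * C)).exists
  refine ⟨1 / (20 * C), by positivity, K, ?_⟩
  intro ε hε m p γ τ T h t t1 k1 hk1 hτt htt1 ht1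
  have hI : (∫⁻ s in Icc t t1, G P m (γ s)).toReal ≤ 1 / (20 * C) := by
    have h1 := h.int_le hτt ht1
    have h2 : ∫⁻ s in Icc t t1, G P m (γ s) ≤ ENNReal.ofReal (1 / (20 * C)) :=
      h1.trans (ENNReal.ofReal_le_ofReal hε)
    exact ENNReal.toReal_le_of_le_ofReal (by positivity) h2
  have hl1 : 1 ≤ lev k1 := one_le_lev k1
  have hl : 20 * C ≤ lev k1 ^ 50 := by
    calc 20 * C ≤ lev K := hK
      _ ≤ lev k1 := lev_mono hk1
      _ = lev k1 ^ 1 := (pow_one _).symm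
      _ ≤ lev k1 ^ 50 := pow_le_pow_right₀ hl1 (by norm_num)
  have hd0 : 0 ≤ (t1 - t) / lev k1 ^ 50 := div_nonneg (by linarith) (by positivity)
  have hd : (t1 - t) / lev k1 ^ 50 ≤ 1 / (20 * C) := by
    have h1 : t1 - t ≤ 1 := by linarith [h.hT]
    calc (t1 - t) / lev k1 ^ 50 ≤ 1 / lev k1 ^ 50 := by gcongr
      _ ≤ 1 / (20 * C) := one_div_le_one_div_of_le (by positivity) hl
  unfold Dg
  constructor
  · have := ENNReal.toReal_nonneg (a := ∫⁻ s in Icc t t1, G P m (γ s))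
    positivity
  · calc C * ((∫⁻ s in Icc t t1, G P m (γ s)).toReal + (t1 - t) / lev k1 ^ 50)
        ≤ C * (1 / (20 * C) + 1 / (20 * C)) := by gcongr
      _ = 1 / 10 := by
        field_simp
        norm_num

/-- additivity of `Dg` -/
theorem Dg_add (P : Par) {C ε : ℝ} {m : Fin 5 → ℝ} {p : ℝ → Cf 5 d} {γ : ℝ → St d} {τ T : ℝ}
    (h : Cx P ε m p γ τ T) {t' t t1 : ℝ} {k1 : ℕ} (h0 : τ ≤ t') (h1 : t' ≤ t) (h2 : t ≤ t1)
    (h3 : t1 < T) :
    Dg P C m γ t' t1 k1 = Dg P C m γ t t1 k1 +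
      C * ((∫⁻ s in Icc t' t, G P m (γ s)).toReal + (t - t') / lev k1 ^ 50) := by
  have e : ∫⁻ s in Icc t' t1, G P m (γ s) =
      (∫⁻ s in Icc t' t, G P m (γ s)) + ∫⁻ s in Icc t t1, G P m (γ s) := by
    have e1 : Icc t' t1 = Ico t' t ∪ Icc t t1 := (Ico_union_Icc_eq_Icc h1 h2).symm
    rw [e1, lintegral_union measurableSet_Icc]
    · congr 1
      exact setLIntegral_congr Ico_ae_eq_Icc
    · rw [Set.disjoint_left]
      rintro s hs hs'
      exact absurd hs.2 (not_lt.2 hs'.1)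
  have f1 : ∫⁻ s in Icc t' t, G P m (γ s) ≠ ⊤ :=
    ((h.int_le h0 (h2.trans_lt h3)).trans_lt ENNReal.ofReal_lt_top).ne
  have f2 : ∫⁻ s in Icc t t1, G P m (γ s) ≠ ⊤ :=
    ((h.int_le (h0.trans h1) h3).trans_lt ENNReal.ofReal_lt_top).ne
  unfold Dg
  rw [e, ENNReal.toReal_add f1 f2]
  ring

/-- the case of the trivial relabelling -/
private theorem mode_III_core (P : Par) : ∀ C ≥ 1, ∃ ε0 > 0, ∃ K : ℕ, ∀ ε ≤ ε0,
    ∀ (m : Fin 5 → ℝ) (p : ℝ → Cf 5 d) (γ : ℝ → St d) (τ T : ℝ), Cx P ε m p γ τ T →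
    ∀ (t t1 : ℝ) (k1 k : ℕ), K ≤ k1 → τ ≤ t → t1 < T → 1 / lev k1 ^ 77 ≤ Rg 3 (γ t1).1 →
    k1 ≤ k → t ≤ t1 → TG P m γ t t1 k1 k → SIII P (Dg P C m γ t t1 k1) (lev k) m (γ t) →
    Done m γ τ k1 ∨ ∃ t' ∈ Ico τ t, ∃ k', k ≤ k' ∧ StrI P C m γ t' t1 k1 k' := by
  intro C hC
  obtain ⟨ε1, hε1, K1, hDg⟩ := Dg_small (d := d) P (lt_of_lt_of_le one_pos hC)
  obtain ⟨ε2, hε2, hp5⟩ := p5 (d := d) P
  obtain ⟨bA, hbA1, hsiii⟩ := siii_s3 (d := d) P
  obtain ⟨bB, hbB1, hdrift⟩ := drift_III (d := d) P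
  obtain ⟨K2, h31⟩ := three_to_one (d := d) P
  obtain ⟨Cw, hCw, bW, hbW1, hwk⟩ := wkT_le (d := d) P
  obtain ⟨K3, hK3⟩ := (tendsto_atTop.1 lev_tendsto
    (max (max (max bA bB) (s3b0 P)) (max bW (max Cw 2)))).exists
  refine ⟨min ε1 ε2, lt_min hε1 hε2, max (max K1 K2) (max K3 P.k0), ?_⟩
  intro ε hε m p γ τ T h t t1 k1 k hK hτt ht1 hR31 hk1k htt1 hTG hS
  have hεA : ε ≤ ε1 := hε.trans (min_le_left _ _)
  have hεB : ε ≤ ε2 := hε.trans (min_le_right _ _)
  have hKK1 : K1 ≤ k1 := ((le_max_left _ _).trans (le_max_left _ _)).trans hK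
  have hKK2 : K2 ≤ k1 := ((le_max_right _ _).trans (le_max_left _ _)).trans hK
  have hKK3 : K3 ≤ k1 := ((le_max_left _ _).trans (le_max_right _ _)).trans hK
  have hKk0 : P.k0 ≤ k1 := ((le_max_right _ _).trans (le_max_right _ _)).trans hK
  set b := lev k with hbdef
  have hb1 : 1 ≤ b := one_le_lev k
  have hb0 : 0 < b := lt_of_lt_of_le one_pos hb1
  have hblk : lev k1 ≤ b := lev_mono hk1k
  have hlk0 : 0 < lev k1 := lt_of_lt_of_le one_pos (one_le_lev k1)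
  have hbig0 : max (max (max bA bB) (s3b0 P)) (max bW (max Cw 2)) ≤ b :=
    hK3.trans (lev_mono (hKK3.trans hk1k))
  have hbig : max (max bA bB) (s3b0 P) ≤ b := (le_max_left _ _).trans hbig0
  have hbig2 : max bW (max Cw 2) ≤ b := (le_max_right _ _).trans hbig0
  have hbW : bW ≤ b := (le_max_left _ _).trans hbig2
  have hbC : Cw ≤ b := ((le_max_left _ _).trans (le_max_right _ _)).trans hbig2
  have hb2 : 2 ≤ b := ((le_max_right _ _).trans (le_max_right _ _)).trans hbig2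
  have hbA : bA ≤ b := ((le_max_left _ _).trans (le_max_left _ _)).trans hbig
  have hbB : bB ≤ b := ((le_max_right _ _).trans (le_max_left _ _)).trans hbig
  have hbS : s3b0 P ≤ b := (le_max_right _ _).trans hbig
  have hM := P.hM
  have hM0 : 0 < P.M := lt_of_lt_of_le one_pos hM
  have hmp := fun i => h.hm.pos i
  have htT : t < T := htt1.trans_lt ht1
  have hL1 : 0 ≤ P.L1 b := by unfold Par.L1; positivity
  have hK2 : P.K2 = 32 * P.M ^ 4 := rfl
  have hK3' : P.K3 = 4 * P.K2 := rfl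
  have hK2pos : 0 < P.K2 := by rw [hK2]; positivity
  -- `Done` from a lower bound of `FT`
  have hdone : b ^ 200 / 2 ≤ FT m (γ τ) → Done m γ τ k1 := by
    intro hF
    refine ⟨1, Or.inr ?_⟩
    change lev k1 ^ 200 / 2 ≤ FT m (γ τ)
    have : lev k1 ^ 200 ≤ b ^ 200 := pow_le_pow_left₀ hlk0.le hblk 200
    linarith
  have hDt := hDg ε hεA m p γ τ T h t t1 k1 hKK1 hτt htt1 ht1
  have hS3t : S3 P b m (γ t) := hsiii b hbA m (γ t) _ hDt.2 hS
  -- continuity
  have hcont : ∀ s ∈ Icc τ t, ContinuousAt γ s := fun s hs =>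
    (h.sol s ⟨hs.1, hs.2.trans_lt htT⟩).2.2.2.continuousAt
  have hcγ : ContinuousOn γ (Icc τ t) := fun s hs => (hcont s hs).continuousWithinAt
  have hcq : ContinuousOn (fun s => (γ s).1) (Icc τ t) := continuous_fst.comp_continuousOn hcγ
  have hcv : ContinuousOn (fun s => (γ s).2) (Icc τ t) := continuous_snd.comp_continuousOn hcγ
  have hcqi : ∀ i, ContinuousOn (fun s => (γ s).1 i) (Icc τ t) := fun i =>
    (continuous_apply i).comp_continuousOn hcq
  have hcvi : ∀ i, ContinuousOn (fun s => (γ s).2 i) (Icc τ t) := fun i =>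
    (continuous_apply i).comp_continuousOn hcv
  have hcd : ∀ i j, ContinuousOn (fun s => ‖(γ s).1 i - (γ s).1 j‖) (Icc τ t) := fun i j =>
    ((hcqi i).sub (hcqi j)).norm
  have hcR : ContinuousOn (fun s => Rg 3 (γ s).1) (Icc τ t) :=
    (continuous_Rg (by norm_num) (by norm_num)).comp_continuousOn hcq
  -- first stopping time
  let fA : (Fin 5 × Fin 5) ⊕ Unit → ℝ → ℝ := fun c s => match c with
    | Sum.inl (i, j) => if i ≤ 2 ∧ j ≤ 2 then P.K3 / b ^ 96 - ‖(γ s).1 i - (γ s).1 j‖ else 1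
    | Sum.inr _ => Rg 3 (γ s).1 - 1 / (2 * b ^ 77)
  have hfAc : ∀ c, ContinuousOn (fA c) (Icc τ t) := by
    rintro (⟨i, j⟩ | u)
    · by_cases hij : i ≤ 2 ∧ j ≤ 2
      · have : fA (Sum.inl (i, j)) = fun s => P.K3 / b ^ 96 - ‖(γ s).1 i - (γ s).1 j‖ := by
          funext s
          simp only [fA, if_pos hij]
        rw [this]
        exact continuousOn_const.sub (hcd i j)
      · have : fA (Sum.inl (i, j)) = fun _ => 1 := by
          funext s
          simp only [fA, if_neg hij]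
        rw [this]
        exact continuousOn_const
    · exact hcR.sub continuousOn_const
  have hfA0 : ∀ c, 0 ≤ fA c t := by
    rintro (⟨i, j⟩ | u)
    · by_cases hij : i ≤ 2 ∧ j ≤ 2
      · simp only [fA, if_pos hij]
        linarith [hS3t.dT i j hij.1 hij.2]
      · simp only [fA, if_neg hij]
        norm_num
    · simp only [fA]
      linarith [hS3t.R3]
  obtain ⟨tA, htA, hposA, hendA⟩ := stop hτt hfAc hfA0
  have hgeo : ∀ s ∈ Icc tA t, (∀ i j : Fin 5, i ≤ 2 → j ≤ 2 →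
      ‖(γ s).1 i - (γ s).1 j‖ ≤ P.K3 / b ^ 96) ∧ 1 / (2 * b ^ 77) ≤ Rg 3 (γ s).1 := by
    intro s hs
    constructor
    · intro i j hi hj
      have := hposA s hs (Sum.inl (i, j))
      simp only [fA, if_pos (And.intro hi hj)] at this
      linarith
    · have := hposA s hs (Sum.inr ())
      simp only [fA] at this
      linarith
  have hXfar : ∀ s ∈ Icc tA t, ∀ j : Fin 5, 3 ≤ j →
      1 / (3 * b ^ 77) ≤ ‖(γ s).1 j - cm3 m 0 1 2 (γ s).1‖ := fun s hs =>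
    s3_cm3_geo P hbS h.hm (hgeo s hs).1 (hgeo s hs).2
  have hsubA : Icc tA t ⊆ Icc τ t := Icc_subset_Icc_left htA.1
  have hFT' : ∀ s ∈ Icc tA t, HasDerivAt (fun r => FT m (γ r))
      (dFT m (γ s) + WkT m (γ s) (p s)) s := by
    intro s hs
    have hs' := hsubA hs
    have hsol := h.sol s ⟨hs'.1, hs'.2.trans_lt htT⟩
    exact hasDerivAt_FT hmp hsol.1 hsol.2.2.2
      (lt_of_lt_of_le (by positivity) (hXfar s hs 3 (by decide)))
      (lt_of_lt_of_le (by positivity) (hXfar s hs 4 (by decide)))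
  have hcFT : ContinuousOn (fun r => FT m (γ r)) (Icc tA t) := fun s hs =>
    (hFT' s hs).continuousAt.continuousWithinAt
  -- second stopping time
  let fB : Bool → ℝ → ℝ := fun c s => match c with
    | true => FT m (γ s) - b ^ 200 / 2
    | false => 40 * b ^ 200 - FT m (γ s)
  have hfBc : ∀ c, ContinuousOn (fB c) (Icc tA t) := by
    rintro (_ | _)
    · exact continuousOn_const.sub hcFT
    · exact hcFT.sub continuousOn_const
  have hfB0 : ∀ c, 0 ≤ fB c t := by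
    rintro (_ | _)
    · simp only [fB]
      linarith [hS3t.F_le]
    · simp only [fB]
      linarith [hS3t.F_ge]
  obtain ⟨t3, ht3, hposB, hendB⟩ := stop htA.2 hfBc hfB0
  have hsub3A : Icc t3 t ⊆ Icc tA t := Icc_subset_Icc_left ht3.1
  have hS3 : ∀ s ∈ Icc t3 t, S3 P b m (γ s) := by
    intro s hs
    have g := hgeo s (hsub3A hs)
    have f1 := hposB s hs true
    have f2 := hposB s hs false
    simp only [fB] at f1 f2
    exact ⟨g.1, by linarith, by linarith, g.2⟩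
  have hτ3 : τ ≤ t3 := htA.1.trans ht3.1
  have h3T : t3 < T := ht3.2.trans_lt htT
  have h31' : t3 ≤ t1 := ht3.2.trans htt1
  have hTG3 : TG P m γ t3 t1 k1 k := by
    intro s hs
    rcases le_total t s with hts | hst
    · exact hTG s ⟨hts, hs.2⟩
    · exact ⟨k, hk1k, le_rfl, 1, Or.inr (hS3 s ⟨hs.1, hst⟩)⟩
  have hD3 := hDg ε hεA m p γ τ T h t3 t1 k1 hKK1 hτ3 h31' ht1
  have hadd := Dg_add P (C := C) h (k1 := k1) hτ3 ht3.2 htt1 ht1
  -- the drift
  have hfin : ∫⁻ s in Icc t3 t, G P m (γ s) ≠ ⊤ :=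
    ((h.int_le hτ3 htT).trans_lt ENNReal.ofReal_lt_top).ne
  have hcd0 : ContinuousOn (fun s => dFT m (γ s)) (Icc t3 t) := by
    apply continuousOn_dFT (hcγ.mono (hsub3A.trans hsubA))
    · intro s hs i j hi hj
      have h1 := (s3_far_geo P hbS (hgeo s (hsub3A hs)).1 (hgeo s (hsub3A hs)).2).1 i j hi hj
      exact lt_of_lt_of_le (by positivity) h1
    · intro s hs j hj
      exact lt_of_lt_of_le (by positivity) (hXfar s (hsub3A hs) j hj)
  have hcd' : ContinuousOn (fun s => dFT m (γ s) + WkT m (γ s) (p s)) (Icc t3 t) := by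
    apply hcd0.add
    intro s hs
    have hs' := hsubA (hsub3A hs)
    have hsol := h.sol s ⟨hs'.1, hs'.2.trans_lt htT⟩
    exact (continuousAt_WkT hsol.2.2.2.continuousAt hsol.2.2.1).continuousWithinAt
  have e110 : b ^ 110 = b ^ 200 * (1 / b ^ 90) := by field_simp
  have e220 : b ^ 220 = b ^ 200 * b ^ 20 := by ring
  have hdr0 : ∀ s ∈ Icc t3 t, ENNReal.ofReal |dFT m (γ s)| ≤
      ENNReal.ofReal (b ^ 200) * (G P m (γ s) + ENNReal.ofReal (1 / b ^ 90)) := by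
    intro s hs
    have hS3s := hS3 s hs
    have hs' := hsubA (hsub3A hs)
    have hinv := h.inv s ⟨hs'.1, hs'.2.trans_lt htT⟩
    obtain ⟨d1, d2⟩ := hdrift b hbB m h.hm (γ s) hinv hS3s
    by_cases hfar : 1 / b ^ 50 ≤ ‖(γ s).1 3 - cm3 m 0 1 2 (γ s).1‖ ∧
        1 / b ^ 50 ≤ ‖(γ s).1 4 - cm3 m 0 1 2 (γ s).1‖
    · have d3 := d2 hfar.1 hfar.2
      calc ENNReal.ofReal |dFT m (γ s)| ≤ ENNReal.ofReal (b ^ 110) :=
            ENNReal.ofReal_le_ofReal d3
        _ = ENNReal.ofReal (b ^ 200) * ENNReal.ofReal (1 / b ^ 90) := by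
            rw [← ENNReal.ofReal_mul (by positivity), e110]
        _ ≤ ENNReal.ofReal (b ^ 200) * (G P m (γ s) + ENNReal.ofReal (1 / b ^ 90)) :=
            mul_le_mul' le_rfl le_add_self
    · have hnear : ‖(γ s).1 3 - cm3 m 0 1 2 (γ s).1‖ ≤ 1 / b ^ 50 ∨
          ‖(γ s).1 4 - cm3 m 0 1 2 (γ s).1‖ ≤ 1 / b ^ 50 := by
        by_contra hc
        push Not at hc
        exact hfar ⟨hc.1.le, hc.2.le⟩
      have hgD : gD P b m (γ s) = ENNReal.ofReal (b ^ 20) := by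
        unfold gD onSet
        exact if_pos ⟨hS3s, hnear⟩
      have hG : ENNReal.ofReal (b ^ 20) ≤ G P m (γ s) := by
        rw [← hgD]
        exact gD_le_G P (hKk0.trans hk1k) 1 m (γ s)
      calc ENNReal.ofReal |dFT m (γ s)| ≤ ENNReal.ofReal (b ^ 220) :=
            ENNReal.ofReal_le_ofReal d1
        _ = ENNReal.ofReal (b ^ 200) * ENNReal.ofReal (b ^ 20) := by
            rw [← ENNReal.ofReal_mul (by positivity), e220]
        _ ≤ ENNReal.ofReal (b ^ 200) * (G P m (γ s) + ENNReal.ofReal (1 / b ^ 90)) :=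
            mul_le_mul' le_rfl (hG.trans le_self_add)
  have hdr : ∀ s ∈ Icc t3 t, ENNReal.ofReal |dFT m (γ s) + WkT m (γ s) (p s)| ≤
      ENNReal.ofReal (b ^ 200) * (G P m (γ s) + ENNReal.ofReal (2 / b ^ 90)) := by
    intro s hs
    have hs' := hsubA (hsub3A hs)
    have hsol := h.sol s ⟨hs'.1, hs'.2.trans_lt htT⟩
    have hinv := h.inv s ⟨hs'.1, hs'.2.trans_lt htT⟩
    have hw := hwk b hbW m h.hm (γ s) (p s) hinv (hS3 s hs) hsol.2.1
    have hw2 : |WkT m (γ s) (p s)| ≤ b ^ 110 := by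
      calc |WkT m (γ s) (p s)| ≤ Cw * b ^ 100 := hw
        _ ≤ b * b ^ 100 := by gcongr
        _ = b ^ 101 := by ring
        _ ≤ b ^ 110 := pow_le_pow_right₀ hb1 (by norm_num)
    calc ENNReal.ofReal |dFT m (γ s) + WkT m (γ s) (p s)|
        ≤ ENNReal.ofReal (|dFT m (γ s)| + b ^ 110) :=
          ENNReal.ofReal_le_ofReal ((abs_add_le _ _).trans (by linarith))
      _ = ENNReal.ofReal |dFT m (γ s)| + ENNReal.ofReal (b ^ 110) :=
          ENNReal.ofReal_add (abs_nonneg _) (by positivity)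
      _ ≤ ENNReal.ofReal (b ^ 200) * (G P m (γ s) + ENNReal.ofReal (1 / b ^ 90)) +
          ENNReal.ofReal (b ^ 200) * ENNReal.ofReal (1 / b ^ 90) := by
          apply add_le_add (hdr0 s hs)
          rw [← ENNReal.ofReal_mul (by positivity), e110]
      _ = ENNReal.ofReal (b ^ 200) * (G P m (γ s) + ENNReal.ofReal (2 / b ^ 90)) := by
          have e2 : (2 : ℝ) / b ^ 90 = 1 / b ^ 90 + 1 / b ^ 90 := by ring
          rw [e2, ENNReal.ofReal_add (by positivity) (by positivity), ← mul_add, add_assoc]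
  have hint := drift_int ht3.2 (by positivity : (0 : ℝ) ≤ b ^ 200)
    (by positivity : (0 : ℝ) ≤ 2 / b ^ 90) (fun s hs => hFT' s (hsub3A hs)) hcd' hfin hdr
  set I3 := (∫⁻ s in Icc t3 t, G P m (γ s)).toReal with hI3
  have hI0 : 0 ≤ I3 := ENNReal.toReal_nonneg
  have hcmp : 2 / b ^ 90 * (t - t3) ≤ (t - t3) / lev k1 ^ 50 := by
    have h1 : 2 * lev k1 ^ 50 ≤ b ^ 90 := by
      calc 2 * lev k1 ^ 50 ≤ b * b ^ 50 := by gcongr
        _ = b ^ 51 := by ring
        _ ≤ b ^ 90 := pow_le_pow_right₀ hb1 (by norm_num)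
    have h2 : 2 / b ^ 90 ≤ 1 / lev k1 ^ 50 := by
      rw [div_le_div_iff₀ (by positivity) (by positivity)]
      linarith
    have h3 : 0 ≤ t - t3 := by linarith [ht3.2]
    calc 2 / b ^ 90 * (t - t3) ≤ 1 / lev k1 ^ 50 * (t - t3) := by gcongr
      _ = (t - t3) / lev k1 ^ 50 := by ring
  have hJ0 : 0 ≤ (t - t3) / lev k1 ^ 50 := div_nonneg (by linarith [ht3.2]) (by positivity)
  have hdiff : |FT m (γ t) - FT m (γ t3)| ≤
      b ^ 200 * (Dg P C m γ t3 t1 k1 - Dg P C m γ t t1 k1) := by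
    refine hint.trans ?_
    apply mul_le_mul_of_nonneg_left _ (by positivity)
    rw [hadd]
    have h1 : I3 + (t - t3) / lev k1 ^ 50 ≤ C * (I3 + (t - t3) / lev k1 ^ 50) :=
      le_mul_of_one_le_left (by linarith) hC
    linarith
  have hab := abs_le.1 hdiff
  have hBpos : 0 < b ^ 200 := by positivity
  have hFlow : (1 - Dg P C m γ t3 t1 k1) * b ^ 200 ≤ FT m (γ t3) - P.L1 b := by
    have := hS.F_ge
    nlinarith [hab.2]
  have hFup : FT m (γ t3) ≤ 21 * b ^ 200 := by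
    have h1 := hS.F_le
    have h2 : b ^ 200 * (Dg P C m γ t3 t1 k1 - Dg P C m γ t t1 k1) ≤ b ^ 200 * 1 := by
      apply mul_le_mul_of_nonneg_left _ hBpos.le
      linarith [hD3.2, hDt.1]
    linarith [hab.1]
  have hFhalf : b ^ 200 / 2 < FT m (γ t3) := by
    have h1 : (1 - 1 / 10) * b ^ 200 ≤ (1 - Dg P C m γ t3 t1 k1) * b ^ 200 := by
      apply mul_le_mul_of_nonneg_right _ hBpos.le
      linarith [hD3.2]
    linarith
  rcases eq_or_lt_of_le hτ3 with heq | hlt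
  · left
    apply hdone
    rw [heq]
    exact hFhalf.le
  · right
    have hp5' := hp5 ε hεB m p γ τ T h t3 t1 k1 k hKk0 hτ3 h31' ht1 hk1k hTG3 hR31
    have h3A : t3 = tA := by
      rcases hendB with h1 | ⟨c, hc⟩
      · exact h1
      · exfalso
        rcases c with _ | _
        · simp only [fB] at hc
          linarith
        · simp only [fB] at hc
          linarith
    have hex : ∃ i j : Fin 5, i ≤ 2 ∧ j ≤ 2 ∧ ‖(γ t3).1 i - (γ t3).1 j‖ = P.K3 / b ^ 96 := by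
      rcases hendA with h1 | ⟨c, hc⟩
      · exfalso
        rw [h3A, h1] at hlt
        exact lt_irrefl _ hlt
      · rcases c with ⟨i, j⟩ | u
        · by_cases hij : i ≤ 2 ∧ j ≤ 2
          · simp only [fA, if_pos hij] at hc
            rw [h3A]
            exact ⟨i, j, hij.1, hij.2, by linarith⟩
          · simp only [fA, if_neg hij] at hc
            norm_num at hc
        · exfalso
          simp only [fA] at hc
          rw [← h3A] at hc
          linarith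
    have ht3t : t3 < t := by
      rcases eq_or_lt_of_le ht3.2 with h1 | h1
      · exfalso
        obtain ⟨i, j, hi, hj, hij⟩ := hex
        rw [h1] at hij
        have h2 := hS.dT i j hi hj
        rw [hij, div_le_div_iff_of_pos_right (by positivity), hK3'] at h2
        linarith
      · exact h1
    have hS3t3 := hS3 t3 ⟨le_rfl, ht3.2⟩
    obtain ⟨k', hkk', σ, hSI⟩ := h31 k (hKK2.trans hk1k) m h.hm (γ t3) _ hD3.1 hD3.2
      (h.inv t3 ⟨hτ3, h3T⟩) hS3t3 hFlow hex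
    refine ⟨t3, ⟨hτ3, ht3t⟩, k', hkk', hk1k.trans hkk', h31', ?_, σ, hSI⟩
    intro s hs
    obtain ⟨k'', h1, h2, h3⟩ := hTG3 s hs
    exact ⟨k'', h1, h2.trans hkk', h3⟩

theorem mode_III (P : Par) : ∀ C ≥ 1, ∃ ε0 > 0, ∃ K : ℕ, ∀ ε ≤ ε0,
    ∀ (m : Fin 5 → ℝ) (p : ℝ → Cf 5 d) (γ : ℝ → St d) (τ T : ℝ), Cx P ε m p γ τ T →
    ∀ (t t1 : ℝ) (k1 k : ℕ), K ≤ k1 → τ ≤ t → t1 < T → 1 / lev k1 ^ 77 ≤ Rg 3 (γ t1).1 →
    StrIII P C m γ t t1 k1 k →
    Done m γ τ k1 ∨ ∃ t' ∈ Ico τ t, ∃ k', k ≤ k' ∧ StrI P C m γ t' t1 k1 k' := by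
  intro C hC
  obtain ⟨ε0, hε0, K, hcore⟩ := mode_III_core (d := d) P C hC
  refine ⟨ε0, hε0, K, ?_⟩
  intro ε hε m p γ τ T h t t1 k1 k hK hτt ht1 hR hS
  obtain ⟨hk, htt1, hTG, σ, hσ⟩ := hS
  have h' := h.rel σ
  have hR' : 1 / lev k1 ^ 77 ≤ Rg 3 (rel σ (γ t1)).1 := by
    have e : Rg 3 (rel σ (γ t1)).1 = Rg 3 (γ t1).1 := Rg_rel σ (γ t1).1
    rw [e]
    exact hR
  have hσ' : SIII P (Dg P C (m ∘ σ) (fun t => rel σ (γ t)) t t1 k1) (lev k) (m ∘ σ)
      (rel σ (γ t)) := by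
    rw [Dg_rel]
    exact hσ
  rcases hcore ε hε (m ∘ σ) (fun t => p t ∘ σ) (fun t => rel σ (γ t)) τ T h' t t1 k1 k hK hτt ht1 hR' hk htt1
    ((TG_rel σ).2 hTG) hσ' with h1 | ⟨t', ht', k', hk', h1⟩
  · exact Or.inl ((Done_rel σ).1 h1)
  · exact Or.inr ⟨t', ht', k', hk', (StrI_rel σ).1 h1⟩

end NBO
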