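import Mathlib
import Pool.Agent.NBO.Defs
import Pool.Agent.NBO.ExE
import Pool.Agent.NBO.P5L
import Pool.Agent.NBO.M3
import Pool.Agent.NB5.CsC

/-!
# Case (C) (module NBO-CsC)

Copy of `NB5/CsC.lean` with `p` and the NBO versions; the derivative of `FQ` is `dFQ + WkQ`, `|WkQ| ≤ C b^100` (`wkQ_le`), `Dg` allows `b^150` per unit time.
-/

open MeasureTheory Set Filter Topology Metric
open scoped NNReal ENNReal RealInnerProductSpace

namespace NBO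

open HDN NB5

variable {d : ℕ}

private theorem cs_mono {h y : ℝ → ℝ} {κ a t : ℝ} (hat : a < t) (hd : HasDerivAt h κ t)
    (hκ : 0 < κ) (h0 : h t ≤ 0) (hy : ∀ s ∈ Ioc a t, HasDerivAt y (2 * h s) s) :
    ∀ᶠ s in 𝓝[<] t, y t ≤ y s := by
  have h1 : ∀ᶠ s in 𝓝[≠] t, 0 < slope h t s :=
    (hasDerivAt_iff_tendsto_slope.1 hd).eventually (lt_mem_nhds hκ)
  have h2 : ∀ᶠ s in 𝓝[<] t, h s < 0 := by
    have h3 : ∀ᶠ s in 𝓝[<] t, 0 < slope h t s :=
      h1.filter_mono (nhdsWithin_mono t (fun s hs => ne_of_lt hs))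
    filter_upwards [h3, self_mem_nhdsWithin] with s hs hst
    have hst' : s < t := hst
    rw [slope_def_field] at hs
    have h4 : h s - h t < 0 := by
      by_contra hcon
      have h5 : (h s - h t) / (s - t) ≤ 0 :=
        div_nonpos_of_nonneg_of_nonpos (not_lt.1 hcon) (by linarith)
      linarith
    linarith
  obtain ⟨l, hl, hl2⟩ := (mem_nhdsLT_iff_exists_Ioo_subset).1 h2
  have hl' : l < t := hl
  have hm : max a l < t := max_lt hat hl'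
  filter_upwards [Ioo_mem_nhdsLT hm] with s hs
  have hs1 : a < s := lt_of_le_of_lt (le_max_left a l) hs.1
  have hs2 : l < s := lt_of_le_of_lt (le_max_right a l) hs.1
  have hsub : ∀ u ∈ Icc s t, u ∈ Ioc a t := fun u hu => ⟨lt_of_lt_of_le hs1 hu.1, hu.2⟩
  have hanti : AntitoneOn y (Icc s t) := by
    apply antitoneOn_of_deriv_nonpos (convex_Icc s t)
    · intro u hu
      exact (hy u (hsub u hu)).continuousAt.continuousWithinAt
    · intro u hu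
      rw [interior_Icc] at hu
      exact (hy u (hsub u ⟨hu.1.le, hu.2.le⟩)).differentiableAt.differentiableWithinAt
    · intro u hu
      rw [interior_Icc] at hu
      rw [(hy u (hsub u ⟨hu.1.le, hu.2.le⟩)).deriv]
      have h6 : h u < 0 := hl2 ⟨lt_trans hs2 hu.1, hu.2⟩
      linarith
  exact hanti ⟨le_refl s, hs.2.le⟩ ⟨hs.2.le, le_refl t⟩ hs.2.le

private theorem cs_PQ : ∀ j : Fin 5, 2 ≤ j → PQ (Equiv.swap 2 j) := by
  unfold PQ
  decide

private theorem cs_xj {m : Fin 5 → ℝ} {γ : ℝ → St d} {j : Fin 5} (hj : 2 ≤ j) (s : ℝ) :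
    x2 (m ∘ Equiv.swap 2 j) (fun t => rel (Equiv.swap 2 j) (γ t)) s =
      (γ s).1 j - cm m 0 1 (γ s).1 := by
  unfold x2
  have h1 : (rel (Equiv.swap 2 j) (γ s)).1 = (γ s).1 ∘ Equiv.swap 2 j := rfl
  rw [h1, cm_rel (cs_PQ j hj), Function.comp_apply, Equiv.swap_apply_left]

private theorem cs_wj {m : Fin 5 → ℝ} {γ : ℝ → St d} {j : Fin 5} (hj : 2 ≤ j) (s : ℝ) :
    w2 (m ∘ Equiv.swap 2 j) (fun t => rel (Equiv.swap 2 j) (γ t)) s =
      (γ s).2 j - cm m 0 1 (γ s).2 := by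
  unfold w2
  have h1 : (rel (Equiv.swap 2 j) (γ s)).2 = (γ s).2 ∘ Equiv.swap 2 j := rfl
  rw [h1, cm_rel (cs_PQ j hj), Function.comp_apply, Equiv.swap_apply_left]

private theorem cs_dec (P : Par) : ∃ b0 : ℝ, 1 ≤ b0 ∧ ∀ b ≥ b0, ∀ m : Fin 5 → ℝ, Mb P.M m →
    ∀ (p : ℝ → Cf 5 d) (γ : ℝ → St d) (a t : ℝ), a < t → PS P.R m p γ (Ioc a t) →
    γ t ∈ Inv m P.R → S1 P b m (γ t) → ‖x2 m γ t‖ ≤ 2 / b ^ 96 → -P.L1 b ≤ hh m 2 (γ t) →
    ⟪x2 m γ t, w2 m γ t⟫ ≤ 0 → ∀ᶠ s in 𝓝[<] t, ‖x2 m γ t‖ ≤ ‖x2 m γ s‖ := by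
  obtain ⟨b0, hb0, hk⟩ := kep_exc (d := d) P
  refine ⟨b0, hb0, ?_⟩
  intro b hb m hm p γ a t hat hsol hinv hS1 hx hhh hxw
  have hsol1 : PS P.R m p γ (Icc t t) := by
    intro s hs
    have hst : s = t := le_antisymm hs.2 hs.1
    rw [hst]
    exact hsol t ⟨hat, le_refl t⟩
  have hE : Exc P b m p γ t t := by
    refine ⟨le_refl t, hsol1, ?_, ?_, ?_, ?_⟩
    · intro s hs
      rw [le_antisymm hs.2 hs.1]
      exact hinv
    · intro s hs
      rw [le_antisymm hs.2 hs.1]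
      exact hS1
    · intro s hs
      rw [le_antisymm hs.2 hs.1]
      exact hx
    · intro s hs
      rw [le_antisymm hs.2 hs.1]
      exact hhh
  have hK := hk b hb m hm p γ t t hE
  have htt : t ∈ Icc t t := ⟨le_refl t, le_refl t⟩
  obtain ⟨κ, hκ1, _, hκ3⟩ := kep_conv hK htt
  have hκ : 0 < κ := by
    have h1 := hK.hG
    have h2 := hK.x0 t htt
    have h3 : 0 < (m 0 + m 1 + m 2) / (3 * ‖x2 m γ t‖) := by positivity
    linarith
  have hy : ∀ s ∈ Ioc a t, HasDerivAt (fun s => ‖x2 m γ s‖ ^ 2)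
      (2 * ⟪x2 m γ s, w2 m γ s⟫) s := by
    intro s hs
    have h1 := hasDerivAt_x2 (hsol s hs).2.2.2
    have h2 : HasDerivAt (x2 m γ) (w2 m γ s) s := h1
    have h3 := h2.norm_sq
    exact h3
  have h4 := cs_mono hat hκ1 hκ hxw hy
  filter_upwards [h4] with s hs
  exact (sq_le_sq₀ (norm_nonneg _) (norm_nonneg _)).1 hs

private theorem cs_contP {γ : ℝ → St d} {t : ℝ} {v : St d} (h : HasDerivAt γ v t) :
    ContinuousAt γ t := h.continuousAt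

private theorem cs_cont_xj (m : Fin 5 → ℝ) (j : Fin 5) :
    Continuous (fun x : St d => ‖x.1 j - cm m 0 1 x.1‖) := by
  unfold cm
  fun_prop

private theorem cs_cont_hp (m : Fin 5 → ℝ) (i j : Fin 5) {x : St d} (h : x.1 i ≠ x.1 j) :
    ContinuousAt (fun x : St d => hp m i j x) x := by
  unfold hp
  have h1 : ‖x.1 i - x.1 j‖ ≠ 0 := norm_ne_zero_iff.2 (sub_ne_zero.2 h)
  have h2 : ContinuousAt (fun x : St d => ‖x.1 i - x.1 j‖) x := by fun_prop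
  have h3 : ContinuousAt (fun x : St d => m i * m j / ‖x.1 i - x.1 j‖) x :=
    continuousAt_const.div h2 h1
  have h4 : ContinuousAt (fun x : St d => (1 / 2) * (m i * m j / (m i + m j)) *
      ‖x.2 i - x.2 j‖ ^ 2) x := by fun_prop
  exact h4.sub h3

/-- continuity of `hh` along a solution -/
private theorem cs_cont_hh (P : Par) : ∃ b0 : ℝ, 1 ≤ b0 ∧ ∀ b ≥ b0, ∀ m : Fin 5 → ℝ, Mb P.M m →
    ∀ (p : ℝ → Cf 5 d) (γ : ℝ → St d) (t : ℝ) (j : Fin 5), 2 ≤ j →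
    PS P.R m p γ {t} → S1 P b m (γ t) → (∀ i : Fin 5, 2 ≤ i →
      0 < ‖(γ t).1 i - cm m 0 1 (γ t).1‖) →
    ‖(γ t).1 j - cm m 0 1 (γ t).1‖ ≤ 1 / (8 * b ^ 77) →
    ContinuousAt (fun s => hh m j (γ s)) t := by
  obtain ⟨b0, hb0, hk⟩ := s1_far (d := d) P
  refine ⟨b0, hb0, ?_⟩
  intro b hb m hm p γ t j hj hsol hS1 hpos hx
  have hst := hsol t (Set.mem_singleton t)
  have hfree := hst.1
  have hγ := hst.2.2.2
  have hb1 : 1 ≤ b := hb0.trans hb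
  have hbp : 0 < b := by linarith
  have hmp : ∀ i, 0 < m i := fun i => lt_of_lt_of_le (by have := hm.1; positivity) (hm.2 i).1
  have hFQ : ContinuousAt (fun s => FQ m (γ s)) t :=
    (hasDerivAt_FQ hmp hfree hγ hpos).continuousAt
  have hσ := cs_PQ j hj
  have hS1' := hS1.rel hσ
  have hfar := hk b hb (m ∘ Equiv.swap 2 j) (hm.rel _) (rel (Equiv.swap 2 j) (γ t)) hS1'
  have hxj := cs_xj (m := m) (γ := γ) hj t
  unfold x2 at hxj
  rw [hxj] at hfar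
  obtain ⟨_, _, _, h4⟩ := hfar hx
  have hsol' := hsol.rel (Equiv.swap 2 j) t (Set.mem_singleton t)
  have h3 : 0 < ‖(rel (Equiv.swap 2 j) (γ t)).1 3 -
      cm3 (m ∘ Equiv.swap 2 j) 0 1 2 (rel (Equiv.swap 2 j) (γ t)).1‖ :=
    lt_of_lt_of_le (by positivity) (h4 3 (le_refl 3))
  have h5 : 0 < ‖(rel (Equiv.swap 2 j) (γ t)).1 4 -
      cm3 (m ∘ Equiv.swap 2 j) 0 1 2 (rel (Equiv.swap 2 j) (γ t)).1‖ :=
    lt_of_lt_of_le (by positivity) (h4 4 (by decide))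
  have hFT : ContinuousAt (fun s => FT (m ∘ Equiv.swap 2 j) (rel (Equiv.swap 2 j) (γ s))) t :=
    (hasDerivAt_FT (γ := fun s => rel (Equiv.swap 2 j) (γ s)) (fun i => hmp _) hsol'.1
      hsol'.2.2.2 h3 h5).continuousAt
  unfold hh
  exact hFQ.sub hFT

private theorem cs_lev_big (B : ℝ) : ∃ K : ℕ, ∀ k ≥ K, B ≤ lev k := by
  have h := lev_tendsto.eventually_ge_atTop B
  exact eventually_atTop.1 h

private theorem cs_num {Z b : ℝ} (h1 : 1 ≤ b) (hZ : Z ≤ b) : Z / b ^ 200 ≤ 1 / b ^ 96 := by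
  have hb : 0 < b := by linarith
  rw [div_le_div_iff₀ (by positivity) (by positivity), one_mul]
  calc Z * b ^ 96 ≤ b * b ^ 96 := by
        apply mul_le_mul_of_nonneg_right hZ (by positivity)
    _ = b ^ 97 := by ring
    _ ≤ b ^ 200 := pow_le_pow_right₀ h1 (by norm_num)

private theorem cs_num2 {Z b : ℝ} (h1 : 1 ≤ b) (hZ : 16 * Z ≤ b) :
    2 * Z / b ^ 96 ≤ 1 / (8 * b ^ 77) := by
  have hb : 0 < b := by linarith
  rw [div_le_div_iff₀ (by positivity) (by positivity), one_mul]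
  calc 2 * Z * (8 * b ^ 77) = 16 * Z * b ^ 77 := by ring
    _ ≤ b * b ^ 77 := by
        apply mul_le_mul_of_nonneg_right hZ (by positivity)
    _ = b ^ 78 := by ring
    _ ≤ b ^ 96 := pow_le_pow_right₀ h1 (by norm_num)

private theorem cs_core (P : Par) : ∃ ε0 > 0, ∃ K : ℕ, ∀ ε ≤ ε0,
    ∀ (m : Fin 5 → ℝ) (p : ℝ → Cf 5 d) (γ : ℝ → St d) (τ T : ℝ), Cx P ε m p γ τ T →
    ∀ (t t1 D : ℝ) (k1 k : ℕ), K ≤ k1 → k1 ≤ k → τ < t → t ≤ t1 → t1 < T →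
    1 / lev k1 ^ 77 ≤ Rg 3 (γ t1).1 → TG P m γ t t1 k1 k →
    SI P D (lev k) m (γ t) → D ≤ 1 / 10 → FQ m (γ t) < 4 * lev k ^ 200 →
    (∀ i j : Fin 5, 2 ≤ i → 2 ≤ j → i ≠ j → -(2 * FQ m (γ t)) < hp m i j (γ t)) →
    (∀ j : Fin 5, 2 ≤ j → ‖(γ t).1 j - cm m 0 1 (γ t).1‖ < P.K2 / lev k ^ 96 →
      -P.L1 (lev k) < hh m j (γ t)) →
    (∀ j : Fin 5, 2 ≤ j → ‖(γ t).1 j - cm m 0 1 (γ t).1‖ = 2 / lev k ^ 96 →
      ⟪(γ t).1 j - cm m 0 1 (γ t).1, (γ t).2 j - cm m 0 1 (γ t).2⟫ ≤ 0) →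
    S1 P (lev k) m (γ t) ∧ ∀ᶠ s in 𝓝[<] t, S1 P (lev k) m (γ s) ∧
      (∀ j : Fin 5, 2 ≤ j → 2 / lev k ^ 96 ≤ ‖(γ s).1 j - cm m 0 1 (γ s).1‖) ∧
      (∀ j : Fin 5, 2 ≤ j → ‖(γ s).1 j - cm m 0 1 (γ s).1‖ < P.K2 / lev k ^ 96 →
        -P.L1 (lev k) ≤ hh m j (γ s)) ∧
      FQ m (γ s) ≤ 4 * lev k ^ 200 ∧
      (∀ i j : Fin 5, 2 ≤ i → 2 ≤ j → i ≠ j → -(2 * FQ m (γ s)) ≤ hp m i j (γ s)) := by
  obtain ⟨ε0, hε0, hp5⟩ := p5 (d := d) P
  obtain ⟨ba, hba, hs1⟩ := si_s1 (d := d) P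
  obtain ⟨bb, hbb, hsr⟩ := s1_r (d := d) P
  obtain ⟨bc, hbc, hch⟩ := cs_cont_hh (d := d) P
  obtain ⟨bd, hbd, hau⟩ := hh_auto (d := d) P
  obtain ⟨be, hbe, hdec⟩ := cs_dec (d := d) P
  obtain ⟨K0, hK0⟩ := cs_lev_big (max (max (max ba bb) (max bc bd)) (max be
    (max (16 * P.K2) P.Zp)))
  refine ⟨ε0, hε0, max K0 P.k0, ?_⟩
  intro ε hε m p γ τ T hCx t t1 D k1 k hK1 hk1k hτt htt1 ht1T hR31 hTG hSI hD hF4 hstr hhh hxx
  have hkb := hK0 k ((le_max_left _ _).trans (hK1.trans hk1k))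
  simp only [max_le_iff] at hkb
  obtain ⟨⟨⟨hb1, hb2⟩, hb3, hb4⟩, hb5, hb6, hb7⟩ := hkb
  obtain ⟨b, hb⟩ : ∃ b, b = lev k := ⟨_, rfl⟩
  rw [← hb] at hb1 hb2 hb3 hb4 hb5 hb6 hb7 hSI hF4 hhh hxx ⊢
  have hb0 : 1 ≤ b := by
    rw [hb]
    exact one_le_lev k
  have hbp : 0 < b := by linarith
  have hM : 1 ≤ P.M := P.hM
  have hK2 : 32 ≤ P.K2 := by
    unfold Par.K2
    have : 1 ≤ P.M ^ 4 := one_le_pow₀ hM
    linarith
  have hts : t ∈ Ico τ T := ⟨hτt.le, lt_of_le_of_lt htt1 ht1T⟩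
  have hsolt := hCx.sol t hts
  have hfree : Free (γ t).1 := hsolt.1
  have hder := hsolt.2.2.2
  have hsol1 : PS P.R m p γ {t} := by
    intro s hs
    rw [Set.mem_singleton_iff.1 hs]
    exact hsolt
  have hcont : ContinuousAt γ t := hder.continuousAt
  have hinv := hCx.inv t hts
  have hm := hCx.hm
  have hmp : ∀ i, 0 < m i := fun i => lt_of_lt_of_le (by positivity) (hm.2 i).1
  have hS1 : S1 P b m (γ t) := hs1 b hb1 m (γ t) D hD hSI
  obtain ⟨hr, _, _⟩ := hsr b hb2 m hm (γ t) hinv hS1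
  have hb200 : 0 < b ^ 200 := by positivity
  have hFge : 0.9 * b ^ 200 ≤ FQ m (γ t) := by
    have h1 := hSI.F_ge
    nlinarith
  have hFpos : 0 < FQ m (γ t) := by
    have : 0 < 0.9 * b ^ 200 := by positivity
    linarith
  have hr1 : ‖(γ t).1 0 - (γ t).1 1‖ < P.Cr / b ^ 200 := by
    refine lt_of_le_of_lt hr ?_
    unfold Par.Cr
    rw [div_lt_div_iff₀ hFpos hb200]
    have h2 : 0 < P.M ^ 2 := by positivity
    have h3 : 0 < P.M ^ 2 * b ^ 200 := by positivity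
    nlinarith
  have hxpos : ∀ i : Fin 5, 2 ≤ i → 0 < ‖(γ t).1 i - cm m 0 1 (γ t).1‖ := fun i hi =>
    lt_of_lt_of_le (by positivity) (hSI.x_ge i hi)
  have hR3 : 1 / (2 * b ^ 77) < Rg 3 (γ t).1 := by
    rw [hb]
    exact hp5 ε hε m p γ τ T hCx t t1 k1 k ((le_max_right _ _).trans hK1) hτt.le htt1 ht1T hk1k hTG
      hR31
  have hhh' : ∀ j : Fin 5, 2 ≤ j → ‖(γ t).1 j - cm m 0 1 (γ t).1‖ ≤ P.K2 / b ^ 96 →
      -P.L1 b < hh m j (γ t) := by
    intro j hj hle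
    rcases lt_or_eq_of_le hle with h1 | h1
    · exact hhh j hj h1
    · have hσ := cs_PQ j hj
      have hxj := cs_xj (m := m) (γ := γ) hj t
      unfold x2 at hxj
      have h2 := hau b hb4 (m ∘ Equiv.swap 2 j) (hm.rel _) (rel (Equiv.swap 2 j) (γ t))
        (inv_rel _ hinv) (hS1.rel hσ)
      rw [hxj, hh_rel hσ (le_refl 2), Equiv.swap_apply_left, h1] at h2
      have h3 : 0 < P.K2 / b ^ 96 := by positivity
      apply h2
      · rw [mul_div_assoc]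
        linarith
      · rw [mul_div_assoc]
        linarith
  -- continuity
  have c1 : ContinuousAt (fun s => ‖(γ s).1 0 - (γ s).1 1‖) t := by fun_prop
  have c2 : ContinuousAt (fun s => FQ m (γ s)) t :=
    (hasDerivAt_FQ hmp hfree hder hxpos).continuousAt
  have c3 : ∀ j, ContinuousAt (fun s => ‖(γ s).1 j - cm m 0 1 (γ s).1‖) t := fun j =>
    ContinuousAt.comp (f := γ) (g := fun x : St d => ‖x.1 j - cm m 0 1 x.1‖)
      (cs_cont_xj m j).continuousAt hcont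
  have c4 : ContinuousAt (fun s => Rg 3 (γ s).1) t := by
    have h1 : ContinuousAt (fun x : St d => Rg 3 x.1) (γ t) :=
      ((continuous_Rg (by norm_num) (by norm_num)).comp continuous_fst).continuousAt
    exact ContinuousAt.comp (f := γ) (g := fun x : St d => Rg 3 x.1) h1 hcont
  have c5 : ∀ i j : Fin 5, i ≠ j → ContinuousAt (fun s => hp m i j (γ s)) t := fun i j hij =>
    ContinuousAt.comp (f := γ) (g := fun x : St d => hp m i j x)
      (cs_cont_hp m i j (hfree i j hij)) hcont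
  have e1 : ∀ᶠ s in 𝓝 t, ‖(γ s).1 0 - (γ s).1 1‖ < P.Cr / b ^ 200 :=
    c1.eventually_lt continuousAt_const hr1
  have e2 : ∀ᶠ s in 𝓝 t, FQ m (γ s) < 4 * b ^ 200 := c2.eventually_lt continuousAt_const hF4
  have e3 : ∀ᶠ s in 𝓝 t, b ^ 200 / 2 < FQ m (γ s) :=
    continuousAt_const.eventually_lt c2 (by linarith)
  have e4 : ∀ᶠ s in 𝓝 t, ∀ j : Fin 5, 2 ≤ j → 1 / b ^ 96 < ‖(γ s).1 j - cm m 0 1 (γ s).1‖ := by
    rw [eventually_all]
    intro j
    by_cases hj : 2 ≤ j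
    · have h1 : 1 / b ^ 96 < ‖(γ t).1 j - cm m 0 1 (γ t).1‖ := by
        refine lt_of_lt_of_le ?_ (hSI.x_ge j hj)
        have : 0 < 1 / b ^ 96 := by positivity
        have h2 : 2 / b ^ 96 = 2 * (1 / b ^ 96) := by ring
        linarith
      filter_upwards [continuousAt_const.eventually_lt (c3 j) h1] with s hs _
      exact hs
    · exact Eventually.of_forall fun s h => absurd h hj
  have e5 : ∀ᶠ s in 𝓝 t, 1 / (2 * b ^ 77) < Rg 3 (γ s).1 :=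
    continuousAt_const.eventually_lt c4 hR3
  have e6 : ∀ᶠ s in 𝓝 t, ∀ i j : Fin 5, 2 ≤ i → 2 ≤ j → i ≠ j →
      -(2 * FQ m (γ s)) < hp m i j (γ s) := by
    rw [eventually_all]
    intro i
    rw [eventually_all]
    intro j
    by_cases hij : 2 ≤ i ∧ 2 ≤ j ∧ i ≠ j
    · have h1 : ContinuousAt (fun s => -(2 * FQ m (γ s))) t := (c2.const_mul 2).neg
      filter_upwards [h1.eventually_lt (c5 i j hij.2.2) (hstr i j hij.1 hij.2.1 hij.2.2)]
        with s hs _ _ _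
      exact hs
    · exact Eventually.of_forall fun s h1 h2 h3 => absurd ⟨h1, h2, h3⟩ hij
  have e7 : ∀ᶠ s in 𝓝 t, ∀ j : Fin 5, 2 ≤ j → ‖(γ s).1 j - cm m 0 1 (γ s).1‖ < P.K2 / b ^ 96 →
      -P.L1 b < hh m j (γ s) := by
    rw [eventually_all]
    intro j
    by_cases hj : 2 ≤ j
    · rcases le_or_gt (‖(γ t).1 j - cm m 0 1 (γ t).1‖) (P.K2 / b ^ 96) with h1 | h1
      · have h2 : ‖(γ t).1 j - cm m 0 1 (γ t).1‖ ≤ 1 / (8 * b ^ 77) := by
          refine (h1.trans ?_).trans (cs_num2 hb0 hb6)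
          rw [mul_div_assoc]
          have : 0 < P.K2 / b ^ 96 := by positivity
          linarith
        have h3 := hch b hb3 m hm p γ t j hj hsol1 hS1 hxpos h2
        filter_upwards [continuousAt_const.eventually_lt h3 (hhh' j hj h1)] with s hs _ _
        exact hs
      · filter_upwards [continuousAt_const.eventually_lt (c3 j) h1] with s hs _ hs2
        exact absurd hs2 (not_lt.2 hs.le)
    · exact Eventually.of_forall fun s h => absurd h hj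
  have e8 : ∀ᶠ s in 𝓝[<] t, ∀ j : Fin 5, 2 ≤ j →
      2 / b ^ 96 ≤ ‖(γ s).1 j - cm m 0 1 (γ s).1‖ := by
    rw [eventually_all]
    intro j
    by_cases hj : 2 ≤ j
    · rcases lt_or_eq_of_le (hSI.x_ge j hj) with h1 | h1
      · have h2 : ∀ᶠ s in 𝓝[<] t, 2 / b ^ 96 < ‖(γ s).1 j - cm m 0 1 (γ s).1‖ :=
          (continuousAt_const.eventually_lt (c3 j) h1).filter_mono nhdsWithin_le_nhds
        filter_upwards [h2] with s hs _
        exact hs.le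
      · have hσ := cs_PQ j hj
        have hsolI : PS P.R m p γ (Ioc τ t) := fun s hs =>
          hCx.sol s ⟨hs.1.le, lt_of_le_of_lt hs.2 hts.2⟩
        have hlt : ‖(γ t).1 j - cm m 0 1 (γ t).1‖ < P.K2 / b ^ 96 := by
          rw [← h1]
          apply div_lt_div_of_pos_right _ (by positivity)
          linarith
        have h3 := hdec b hb5 (m ∘ Equiv.swap 2 j) (hm.rel _)
          (fun s => p s ∘ Equiv.swap 2 j)
          (fun s => rel (Equiv.swap 2 j) (γ s)) τ t hτt (hsolI.rel _) (inv_rel _ hinv)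
          (hS1.rel hσ) (by rw [cs_xj hj, h1])
          (by
            rw [hh_rel hσ (le_refl 2), Equiv.swap_apply_left]
            exact (hhh j hj hlt).le)
          (by
            rw [cs_xj hj, cs_wj hj]
            exact hxx j hj h1.symm)
        filter_upwards [h3] with s hs _
        rw [cs_xj hj, cs_xj hj] at hs
        rw [h1]
        exact hs
    · exact Eventually.of_forall fun s h => absurd h hj
  refine ⟨hS1, ?_⟩
  filter_upwards [e1.filter_mono nhdsWithin_le_nhds, e2.filter_mono nhdsWithin_le_nhds,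
    e3.filter_mono nhdsWithin_le_nhds, e4.filter_mono nhdsWithin_le_nhds,
    e5.filter_mono nhdsWithin_le_nhds, e6.filter_mono nhdsWithin_le_nhds,
    e7.filter_mono nhdsWithin_le_nhds, e8] with s h1 h2 h3 h4 h5 h6 h7 h8
  refine ⟨⟨h1.le, h3.le, by linarith, ?_, h5.le, ?_⟩, h8, fun j hj hlt => (h7 j hj hlt).le,
    h2.le, fun i j hi hj hij => (h6 i j hi hj hij).le⟩
  · intro j hj
    exact (cs_num hb0 hb7).trans (h4 j hj).le
  · intro i j hi hj hij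
    have h9 := h6 i j hi hj hij
    linarith

private theorem cs_core2 (P : Par) : ∀ C ≥ 1, ∃ ε0 > 0, ∃ K : ℕ, ∀ ε ≤ ε0,
    ∀ (m : Fin 5 → ℝ) (p : ℝ → Cf 5 d) (γ : ℝ → St d) (τ T : ℝ), Cx P ε m p γ τ T →
    ∀ (t t1 : ℝ) (k1 k : ℕ), K ≤ k1 → k1 ≤ k → τ < t → t ≤ t1 → t1 < T →
    1 / lev k1 ^ 77 ≤ Rg 3 (γ t1).1 → TG P m γ t t1 k1 k →
    SI P (Dg P C m γ t t1 k1) (lev k) m (γ t) → FQ m (γ t) < 4 * lev k ^ 200 →
    (∀ i j : Fin 5, 2 ≤ i → 2 ≤ j → i ≠ j → -(2 * FQ m (γ t)) < hp m i j (γ t)) →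
    (∀ j : Fin 5, 2 ≤ j → ‖(γ t).1 j - cm m 0 1 (γ t).1‖ < P.K2 / lev k ^ 96 →
      -P.L1 (lev k) < hh m j (γ t)) →
    (∀ j : Fin 5, 2 ≤ j → ‖(γ t).1 j - cm m 0 1 (γ t).1‖ = 2 / lev k ^ 96 →
      ⟪(γ t).1 j - cm m 0 1 (γ t).1, (γ t).2 j - cm m 0 1 (γ t).2⟫ ≤ 0) →
    ∃ t' ∈ Ico τ t, StrI P C m γ t' t1 k1 k := by
  intro C hC
  obtain ⟨ε1, hε1, K1, hcore⟩ := cs_core (d := d) P
  obtain ⟨ε2, hε2, K2, hDg⟩ := Dg_small (d := d) P (lt_of_lt_of_le one_pos hC)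
  obtain ⟨ba, hba, hdr⟩ := drift_I (d := d) P
  obtain ⟨Cw, hCw, bb, hbb, hwk⟩ := wkQ_le (d := d) P
  obtain ⟨K0, hK0⟩ := cs_lev_big (max (max ba bb) (max Cw 2))
  refine ⟨min ε1 ε2, lt_min hε1 hε2, max K0 (max K1 K2), ?_⟩
  intro ε hε m p γ τ T hCx t t1 k1 k hK hk1k hτt htt1 ht1T hR31 hTG hSI hF4 hstr hhh hxx
  have hkb := hK0 k ((le_max_left _ _).trans (hK.trans hk1k))
  simp only [max_le_iff] at hkb
  obtain ⟨⟨hb1, hb2⟩, hb3, hb4⟩ := hkb
  have hDs := (hDg ε (hε.trans (min_le_right _ _)) m p γ τ T hCx t t1 k1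
    ((le_max_right K1 K2).trans ((le_max_right K0 _).trans hK)) hτt.le htt1 ht1T).2
  obtain ⟨hS1t, hev⟩ := hcore ε (hε.trans (min_le_left _ _)) m p γ τ T hCx t t1 _ k1 k
    ((le_max_left K1 K2).trans ((le_max_right K0 _).trans hK)) hk1k hτt htt1 ht1T hR31 hTG hSI
    hDs hF4 hstr hhh hxx
  obtain ⟨l, hl, hl2⟩ := (mem_nhdsLT_iff_exists_Ioo_subset).1 hev
  have hl' : l < t := hl
  have hmx : max l τ < t := max_lt hl' hτt
  obtain ⟨t', ht'⟩ : ∃ t', t' = (max l τ + t) / 2 := ⟨_, rfl⟩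
  have ht'1 : max l τ < t' := by
    rw [ht']
    linarith
  have ht'2 : t' < t := by
    rw [ht']
    linarith
  have ht'l : l < t' := lt_of_le_of_lt (le_max_left _ _) ht'1
  have ht'τ : τ < t' := lt_of_le_of_lt (le_max_right _ _) ht'1
  have hgood := fun s (hs : s ∈ Ico t' t) => hl2 ⟨lt_of_lt_of_le ht'l hs.1, hs.2⟩
  have hlev1 : 1 ≤ lev k := one_le_lev k
  have hlevp : 0 < lev k := by linarith
  have hM : 1 ≤ P.M := P.hM
  have hm := hCx.hm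
  have hmp : ∀ i, 0 < m i := fun i => lt_of_lt_of_le (by positivity) (hm.2 i).1
  have hS1all : ∀ s ∈ Icc t' t, S1 P (lev k) m (γ s) := by
    intro s hs
    rcases lt_or_eq_of_le hs.2 with h1 | h1
    · exact (hgood s ⟨hs.1, h1⟩).1
    · rw [h1]
      exact hS1t
  have hxall : ∀ s ∈ Icc t' t, ∀ j : Fin 5, 2 ≤ j →
      2 / lev k ^ 96 ≤ ‖(γ s).1 j - cm m 0 1 (γ s).1‖ := by
    intro s hs
    rcases lt_or_eq_of_le hs.2 with h1 | h1
    · exact (hgood s ⟨hs.1, h1⟩).2.1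
    · rw [h1]
      exact hSI.x_ge
  have hin : ∀ s ∈ Icc t' t, s ∈ Ico τ T := fun s hs =>
    ⟨ht'τ.le.trans hs.1, lt_of_le_of_lt (hs.2.trans htt1) ht1T⟩
  have hderF : ∀ s ∈ Icc t' t, HasDerivAt (fun s => FQ m (γ s))
      (dFQ m (γ s) + WkQ m (γ s) (p s)) s := by
    intro s hs
    have h1 := hCx.sol s (hin s hs)
    exact hasDerivAt_FQ hmp h1.1 h1.2.2.2 fun j hj =>
      lt_of_lt_of_le (by positivity) (hxall s hs j hj)
  have hdF : ∀ s ∈ Icc t' t, |dFQ m (γ s) + WkQ m (γ s) (p s)| ≤ lev k ^ 102 := by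
    intro s hs
    have h1 : |dFQ m (γ s)| ≤ lev k ^ 85 := by
      refine hdr (lev k) hb1 m hm (γ s) (hCx.inv s (hin s hs)) (hS1all s hs) ?_
      intro j hj
      refine le_trans ?_ (hxall s hs j hj)
      apply div_le_div_of_nonneg_right (by norm_num) (by positivity)
    have h2 := hwk (lev k) hb2 m hm (γ s) (p s) (hCx.inv s (hin s hs)) (hS1all s hs)
      (hCx.sol s (hin s hs)).2.1
    have h3 : Cw * lev k ^ 100 ≤ lev k ^ 101 := by
      calc Cw * lev k ^ 100 ≤ lev k * lev k ^ 100 :=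
            mul_le_mul_of_nonneg_right hb3 (by positivity)
        _ = lev k ^ 101 := by ring
    have h4 : lev k ^ 85 ≤ lev k ^ 101 := pow_le_pow_right₀ hlev1 (by norm_num)
    have h5 : 2 * lev k ^ 101 ≤ lev k ^ 102 := by
      calc 2 * lev k ^ 101 ≤ lev k * lev k ^ 101 :=
            mul_le_mul_of_nonneg_right hb4 (by positivity)
        _ = lev k ^ 102 := by ring
    have h6 := abs_add_le (dFQ m (γ s)) (WkQ m (γ s) (p s))
    linarith
  have hmv : |FQ m (γ t) - FQ m (γ t')| ≤ lev k ^ 102 * (t - t') := by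
    have h1 := Convex.norm_image_sub_le_of_norm_hasDerivWithin_le
      (f := fun s => FQ m (γ s)) (f' := fun s => dFQ m (γ s) + WkQ m (γ s) (p s))
      (s := Icc t' t) (C := lev k ^ 102)
      (fun s hs => (hderF s hs).hasDerivWithinAt) (fun s hs => hdF s hs) (convex_Icc t' t)
      (left_mem_Icc.2 ht'2.le) (right_mem_Icc.2 ht'2.le)
    rw [Real.norm_eq_abs, Real.norm_eq_abs, abs_of_nonneg (by linarith : 0 ≤ t - t')] at h1
    exact h1
  have hg' := hgood t' ⟨le_refl t', ht'2⟩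
  have hS1' := hg'.1
  obtain ⟨hg1, hg2, hg3, hg4, hg5⟩ := hg'
  have hDadd := Dg_add P (C := C) hCx (k1 := k1) ht'τ.le ht'2.le htt1 ht1T
  refine ⟨t', ⟨ht'τ.le, ht'2⟩, hk1k, ht'2.le.trans htt1, ?_, 1, ?_⟩
  · intro s hs
    rcases lt_or_ge s t with h1 | h1
    · exact ⟨k, hk1k, le_refl k, 1, Or.inl (hS1all s ⟨hs.1, h1.le⟩)⟩
    · exact hTG s ⟨h1, hs.2⟩
  · have hinv' := hCx.inv t' (hin t' (left_mem_Icc.2 ht'2.le))
    refine ⟨hS1'.r_le, ?_, hg4, hg2, hg3, hS1'.R3, hg5⟩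
    show (1 - Dg P C m γ t' t1 k1) * lev k ^ 200 ≤ FQ m (γ t')
    have h1 := hSI.F_ge
    have h2 : (0 : ℝ) ≤ (∫⁻ s in Icc t' t, G P m (γ s)).toReal := ENNReal.toReal_nonneg
    have h3 : 0 ≤ (t - t') / lev k1 ^ 50 := by
      have : 1 ≤ lev k1 := one_le_lev k1
      have : 0 ≤ t - t' := by linarith
      positivity
    have h4 : (t - t') / lev k1 ^ 50 ≤ C * ((∫⁻ s in Icc t' t, G P m (γ s)).toReal +
        (t - t') / lev k1 ^ 50) := by
      nlinarith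
    have h5 : lev k ^ 102 * (t - t') ≤ (t - t') / lev k1 ^ 50 * lev k ^ 200 := by
      have h6 : 1 ≤ lev k1 := one_le_lev k1
      have h7 : lev k1 ≤ lev k := lev_mono hk1k
      have h8 : lev k1 ^ 50 ≤ lev k ^ 50 := pow_le_pow_left₀ (by linarith) h7 50
      have h9 : 0 < lev k1 ^ 50 := by positivity
      have h10 : lev k ^ 102 * lev k1 ^ 50 ≤ lev k ^ 200 := by
        calc lev k ^ 102 * lev k1 ^ 50 ≤ lev k ^ 102 * lev k ^ 50 :=
              mul_le_mul_of_nonneg_left h8 (by positivity)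
          _ = lev k ^ 152 := by ring
          _ ≤ lev k ^ 200 := pow_le_pow_right₀ hlev1 (by norm_num)
      have h11 : 0 ≤ t - t' := by linarith
      rw [div_mul_eq_mul_div, le_div_iff₀ h9]
      nlinarith
    have h6 := abs_le.1 hmv
    have h7 : 0 < lev k ^ 200 := by positivity
    rw [hDadd]
    have h8 : (t - t') / lev k1 ^ 50 * lev k ^ 200 ≤
        C * ((∫⁻ s in Icc t' t, G P m (γ s)).toReal + (t - t') / lev k1 ^ 50) * lev k ^ 200 :=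
      mul_le_mul_of_nonneg_right h4 h7.le
    have h9 : (1 - (Dg P C m γ t t1 k1 + C * ((∫⁻ s in Icc t' t, G P m (γ s)).toReal +
        (t - t') / lev k1 ^ 50))) * lev k ^ 200 = (1 - Dg P C m γ t t1 k1) * lev k ^ 200 -
        C * ((∫⁻ s in Icc t' t, G P m (γ s)).toReal + (t - t') / lev k1 ^ 50) * lev k ^ 200 := by
      ring
    rw [h9]
    linarith

theorem case_C (P : Par) : ∀ C ≥ 1, ∃ ε0 > 0, ∃ K : ℕ, ∀ ε ≤ ε0,
    ∀ (m : Fin 5 → ℝ) (p : ℝ → Cf 5 d) (γ : ℝ → St d) (τ T : ℝ), Cx P ε m p γ τ T →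
    ∀ (t t1 : ℝ) (k1 k : ℕ), K ≤ k1 → k1 ≤ k → τ < t → t ≤ t1 → t1 < T →
    1 / lev k1 ^ 77 ≤ Rg 3 (γ t1).1 → TG P m γ t t1 k1 k →
    SI P (Dg P C m γ t t1 k1) (lev k) m (γ t) →
    (∀ i j : Fin 5, 2 ≤ i → 2 ≤ j → i ≠ j → -(2 * FQ m (γ t)) < hp m i j (γ t)) →
    (∀ j : Fin 5, 2 ≤ j → ‖(γ t).1 j - cm m 0 1 (γ t).1‖ < P.K2 / lev k ^ 96 →
      -P.L1 (lev k) < hh m j (γ t)) →
    (∀ j : Fin 5, 2 ≤ j → ‖(γ t).1 j - cm m 0 1 (γ t).1‖ = 2 / lev k ^ 96 →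
      ⟪(γ t).1 j - cm m 0 1 (γ t).1, (γ t).2 j - cm m 0 1 (γ t).2⟫ ≤ 0) →
    ∃ t' ∈ Ico τ t, ∃ k', k ≤ k' ∧ StrI P C m γ t' t1 k1 k' := by
  intro C hC
  obtain ⟨ε1, hε1, K1, hcore⟩ := cs_core2 (d := d) P C hC
  obtain ⟨ε2, hε2, K2, hDg⟩ := Dg_small (d := d) P (lt_of_lt_of_le one_pos hC)
  obtain ⟨ba, hba, hs1⟩ := si_s1 (d := d) P
  obtain ⟨bb, hbb, hsr⟩ := s1_r (d := d) P
  obtain ⟨K0, hK0⟩ := cs_lev_big (max ba bb)
  refine ⟨min ε1 ε2, lt_min hε1 hε2, max K0 (max K1 K2), ?_⟩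
  intro ε hε m p γ τ T hCx t t1 k1 k hK hk1k hτt htt1 ht1T hR31 hTG hSI hstr hhh hxx
  have hKK1 : K1 ≤ k1 := (le_max_left K1 K2).trans ((le_max_right K0 _).trans hK)
  rcases lt_or_eq_of_le hSI.F_le with hF | hF
  · obtain ⟨t', ht', hS⟩ := hcore ε (hε.trans (min_le_left _ _)) m p γ τ T hCx t t1 k1 k hKK1 hk1k
      hτt htt1 ht1T hR31 hTG hSI hF hstr hhh hxx
    exact ⟨t', ht', k, le_refl k, hS⟩
  have hkb := hK0 k ((le_max_left _ _).trans (hK.trans hk1k))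
  rw [max_le_iff] at hkb
  obtain ⟨hb1, hb2⟩ := hkb
  have hDs := hDg ε (hε.trans (min_le_right _ _)) m p γ τ T hCx t t1 k1
    ((le_max_right K1 K2).trans ((le_max_right K0 _).trans hK)) hτt.le htt1 ht1T
  have hlev1 : 1 ≤ lev k := one_le_lev k
  have hlevp : 0 < lev k := by linarith
  have hlev1' : 1 ≤ lev (k + 1) := one_le_lev (k + 1)
  have hM : 1 ≤ P.M := P.hM
  have hts : t ∈ Ico τ T := ⟨hτt.le, lt_of_le_of_lt htt1 ht1T⟩
  have hS1 : S1 P (lev k) m (γ t) := hs1 (lev k) hb1 m (γ t) _ hDs.2 hSI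
  obtain ⟨hr, _, _⟩ := hsr (lev k) hb2 m hCx.hm (γ t) (hCx.inv t hts) hS1
  have hlev200 : lev (k + 1) ^ 200 = 4 * lev k ^ 200 := by
    rw [lev_pow_twohundred, lev_pow_twohundred, pow_succ]
    ring
  have hlt : lev k < lev (k + 1) := by
    by_contra hcon
    have h1 : lev (k + 1) ^ 200 ≤ lev k ^ 200 :=
      pow_le_pow_left₀ (by linarith) (not_lt.1 hcon) 200
    have h2 : 0 < lev k ^ 200 := by positivity
    linarith
  have h96 : lev k ^ 96 < lev (k + 1) ^ 96 := pow_lt_pow_left₀ hlt hlevp.le (by norm_num)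
  have h200 : 0 < lev (k + 1) ^ 200 := by positivity
  have hSI' : SI P (Dg P C m γ t t1 k1) (lev (k + 1)) m (γ t) := by
    apply si_up hSI (Nat.le_succ k)
    · refine hr.trans ?_
      rw [hF, ← hlev200]
      apply div_le_div_of_nonneg_right _ h200.le
      unfold Par.Cr
      have : 0 < P.M ^ 2 := by positivity
      linarith
    · rw [hF, ← hlev200]
      have := hDs.1
      nlinarith
    · rw [hF, ← hlev200]
      linarith
  have hTG' : TG P m γ t t1 k1 (k + 1) := by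
    intro s hs
    obtain ⟨k', h1, h2, h3⟩ := hTG s hs
    exact ⟨k', h1, h2.trans (Nat.le_succ k), h3⟩
  have hA : ∀ j : Fin 5, 2 ≤ j → ‖(γ t).1 j - cm m 0 1 (γ t).1‖ < P.K2 / lev (k + 1) ^ 96 →
      -P.L1 (lev (k + 1)) < hh m j (γ t) := by
    intro j hj hlt2
    have h1 : P.K2 / lev (k + 1) ^ 96 ≤ P.K2 / lev k ^ 96 := by
      apply div_le_div_of_nonneg_left _ (by positivity) h96.le
      unfold Par.K2
      positivity
    have h2 := hhh j hj (lt_of_lt_of_le hlt2 h1)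
    refine lt_of_le_of_lt ?_ h2
    unfold Par.L1
    rw [neg_le_neg_iff]
    apply div_le_div_of_nonneg_right h96.le (by positivity)
  have hB : ∀ j : Fin 5, 2 ≤ j → ‖(γ t).1 j - cm m 0 1 (γ t).1‖ = 2 / lev (k + 1) ^ 96 →
      ⟪(γ t).1 j - cm m 0 1 (γ t).1, (γ t).2 j - cm m 0 1 (γ t).2⟫ ≤ 0 := by
    intro j hj heq
    exfalso
    have h1 := hSI.x_ge j hj
    rw [heq] at h1
    have h2 : 2 / lev (k + 1) ^ 96 < 2 / lev k ^ 96 :=
      div_lt_div_of_pos_left (by norm_num) (by positivity) h96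
    linarith
  have hF4 : FQ m (γ t) < 4 * lev (k + 1) ^ 200 := by
    rw [hF, ← hlev200]
    linarith
  obtain ⟨t', ht', hS⟩ := hcore ε (hε.trans (min_le_left _ _)) m p γ τ T hCx t t1 k1 (k + 1) hKK1
    (hk1k.trans (Nat.le_succ k)) hτt htt1 ht1T hR31 hTG' hSI' hF4 hstr hA hB
  exact ⟨t', ht', k + 1, Nat.le_succ k, hS⟩

end NBO
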