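import Mathlib
import Pool.Agent.NBO.Defs
import Pool.Agent.NBO.Rel
import Pool.Agent.NBO.StpB
import Pool.Agent.NB5.Trc

/-!
# The tracing (module NBO-Trc)

Continuity of the functions in strict mode I, of the accumulated error, a bound for the levels, and the backward
induction, as in `NB5/Trc.lean`, with the outside field `p`.
-/

open MeasureTheory Set Filter Topology Metric
open scoped NNReal ENNReal RealInnerProductSpace

namespace NBO

open HDN NB5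

variable {d : ℕ}

/-! ### Continuity -/

private theorem ct_cm (m : Fin 5 → ℝ) : Continuous fun q : Cf 5 d => cm m 0 1 q := by
  unfold cm
  fun_prop

private theorem ct_cm3 (m : Fin 5 → ℝ) : Continuous fun q : Cf 5 d => cm3 m 0 1 2 q := by
  unfold cm3
  fun_prop

private theorem ct_KQ (m : Fin 5 → ℝ) : Continuous fun v : Cf 5 d => KQ m v := by
  have h := ct_cm (d := d) m
  unfold KQ
  fun_prop

private theorem ct_KT (m : Fin 5 → ℝ) : Continuous fun v : Cf 5 d => KT m v := by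
  have h := ct_cm3 (d := d) m
  unfold KT
  fun_prop

private theorem ct_pos (i : Fin 5) : Continuous fun y : St d => y.1 i :=
  (continuous_apply i).comp continuous_fst

private theorem ct_vel (i : Fin 5) : Continuous fun y : St d => y.2 i :=
  (continuous_apply i).comp continuous_snd

private theorem ct_cmp (m : Fin 5 → ℝ) : Continuous fun y : St d => cm m 0 1 y.1 :=
  (ct_cm m).comp continuous_fst

private theorem ct_cmp3 (m : Fin 5 → ℝ) : Continuous fun y : St d => cm3 m 0 1 2 y.1 :=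
  (ct_cm3 m).comp continuous_fst

private theorem ct_div (c : ℝ) {f : St d → Sp d} (hf : Continuous f) {x : St d} (h : f x ≠ 0) :
    ContinuousAt (fun y => c / ‖f y‖) x :=
  continuousAt_const.div hf.norm.continuousAt (norm_ne_zero_iff.2 h)

private theorem ct_FQ {m : Fin 5 → ℝ} {x : St d}
    (h : ∀ j : Fin 5, 2 ≤ j → x.1 j - cm m 0 1 x.1 ≠ 0) (hf : Free x.1) :
    ContinuousAt (FQ m) x := by
  have n2 := ct_div ((m 0 + m 1) * m 2) ((ct_pos 2).sub (ct_cmp m)) (h 2 (by decide))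
  have n3 := ct_div ((m 0 + m 1) * m 3) ((ct_pos 3).sub (ct_cmp m)) (h 3 (by decide))
  have n4 := ct_div ((m 0 + m 1) * m 4) ((ct_pos 4).sub (ct_cmp m)) (h 4 (by decide))
  have n23 := ct_div (m 2 * m 3) ((ct_pos 2).sub (ct_pos 3))
    (sub_ne_zero.2 (hf 2 3 (by decide)))
  have n24 := ct_div (m 2 * m 4) ((ct_pos 2).sub (ct_pos 4))
    (sub_ne_zero.2 (hf 2 4 (by decide)))
  have n34 := ct_div (m 3 * m 4) ((ct_pos 3).sub (ct_pos 4))
    (sub_ne_zero.2 (hf 3 4 (by decide)))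
  have hK : ContinuousAt (fun y : St d => KQ m y.2) x :=
    ((ct_KQ m).comp continuous_snd).continuousAt
  exact hK.sub (((((n2.add n3).add n4).add n23).add n24).add n34)

private theorem ct_FT {m : Fin 5 → ℝ} {x : St d}
    (h : ∀ j : Fin 5, 3 ≤ j → x.1 j - cm3 m 0 1 2 x.1 ≠ 0) (hf : Free x.1) :
    ContinuousAt (FT m) x := by
  have n3 := ct_div ((m 0 + m 1 + m 2) * m 3) ((ct_pos 3).sub (ct_cmp3 m)) (h 3 (by decide))
  have n4 := ct_div ((m 0 + m 1 + m 2) * m 4) ((ct_pos 4).sub (ct_cmp3 m)) (h 4 (by decide))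
  have n34 := ct_div (m 3 * m 4) ((ct_pos 3).sub (ct_pos 4))
    (sub_ne_zero.2 (hf 3 4 (by decide)))
  have hK : ContinuousAt (fun y : St d => KT m y.2) x :=
    ((ct_KT m).comp continuous_snd).continuousAt
  exact hK.sub ((n3.add n4).add n34)

private theorem ct_hp {m : Fin 5 → ℝ} {i j : Fin 5} (hij : i ≠ j) {x : St d} (hf : Free x.1) :
    ContinuousAt (hp m i j) x := by
  have n := ct_div (m i * m j) ((ct_pos i).sub (ct_pos j)) (sub_ne_zero.2 (hf i j hij))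
  have h1 : Continuous fun y : St d => (1 / 2) * (m i * m j / (m i + m j)) *
      ‖y.2 i - y.2 j‖ ^ 2 :=
    continuous_const.mul ((((ct_vel i).sub (ct_vel j)).norm).pow 2)
  exact h1.continuousAt.sub n

private theorem PQ_swap : ∀ j : Fin 5, 2 ≤ j → ∀ i : Fin 5, Equiv.swap 2 j i ≤ 1 ↔ i ≤ 1 := by
  decide

private theorem pow_cmp {P : Par} {b : ℝ} (h1 : 1 ≤ b) (h2 : 8 * P.K2 ≤ b) :
    P.K2 / b ^ 96 ≤ 1 / (8 * b ^ 77) := by
  have hb : 0 < b := by linarith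
  have h3 : b ≤ b ^ 19 := le_self_pow₀ h1 (by norm_num)
  rw [div_le_div_iff₀ (by positivity) (by positivity)]
  calc P.K2 * (8 * b ^ 77) = (8 * P.K2) * b ^ 77 := by ring
    _ ≤ b ^ 19 * b ^ 77 := mul_le_mul_of_nonneg_right (h2.trans h3) (by positivity)
    _ = 1 * b ^ 96 := by ring

/-! ### Strict mode I is a closed condition -/

private theorem si_closed (P : Par) : ∃ b0 : ℝ, 1 ≤ b0 ∧ ∀ b ≥ b0, ∀ m : Fin 5 → ℝ, Mb P.M m →
    ∀ (x : ℕ → St d) (x0 : St d) (D : ℕ → ℝ) (D0 : ℝ), Tendsto x atTop (𝓝 x0) →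
    Tendsto D atTop (𝓝 D0) → Free x0.1 → (∀ n, D n ≤ 1 / 10) → (∀ n, SI P (D n) b m (x n)) →
    SI P D0 b m x0 := by
  obtain ⟨b1, hb1, H1⟩ := si_s1 (d := d) P
  obtain ⟨b2, hb2, H2⟩ := s1_far (d := d) P
  refine ⟨max b1 (max b2 (8 * P.K2)), hb1.trans (le_max_left _ _), ?_⟩
  intro b hb m hm x x0 D D0 hx hD hf hD10 hSI
  have hbb1 : b1 ≤ b := (le_max_left _ _).trans hb
  have hbb2 : b2 ≤ b := (le_max_left _ _).trans ((le_max_right _ _).trans hb)
  have hbb3 : 8 * P.K2 ≤ b := (le_max_right _ _).trans ((le_max_right _ _).trans hb)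
  have hb1' : 1 ≤ b := hb1.trans hbb1
  have hb0 : 0 < b := by linarith
  have hS1 : ∀ n, S1 P b m (x n) := fun n => H1 b hbb1 m (x n) (D n) (hD10 n) (hSI n)
  have tpos : ∀ i : Fin 5, Tendsto (fun n => (x n).1 i) atTop (𝓝 (x0.1 i)) := fun i =>
    ((ct_pos i).tendsto x0).comp hx
  have tcm : Tendsto (fun n => cm m 0 1 (x n).1) atTop (𝓝 (cm m 0 1 x0.1)) :=
    ((ct_cmp m).tendsto x0).comp hx
  have txj : ∀ j : Fin 5, Tendsto (fun n => ‖(x n).1 j - cm m 0 1 (x n).1‖) atTop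
      (𝓝 ‖x0.1 j - cm m 0 1 x0.1‖) := fun j => ((tpos j).sub tcm).norm
  have hx_ge : ∀ j : Fin 5, 2 ≤ j → 2 / b ^ 96 ≤ ‖x0.1 j - cm m 0 1 x0.1‖ := fun j hj =>
    ge_of_tendsto' (txj j) fun n => (hSI n).x_ge j hj
  have hne : ∀ j : Fin 5, 2 ≤ j → x0.1 j - cm m 0 1 x0.1 ≠ 0 := fun j hj => by
    have h1 := hx_ge j hj
    have h2 : 0 < 2 / b ^ 96 := by positivity
    exact norm_pos_iff.1 (lt_of_lt_of_le h2 h1)
  have tFQ : Tendsto (fun n => FQ m (x n)) atTop (𝓝 (FQ m x0)) :=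
    (ct_FQ hne hf).tendsto.comp hx
  have thp : ∀ i j : Fin 5, i ≠ j → Tendsto (fun n => hp m i j (x n)) atTop
      (𝓝 (hp m i j x0)) := fun i j hij => (ct_hp hij hf).tendsto.comp hx
  have tR : Tendsto (fun n => Rg 3 (x n).1) atTop (𝓝 (Rg 3 x0.1)) :=
    (((continuous_Rg (by norm_num) (by norm_num)).comp continuous_fst).tendsto x0).comp hx
  have tr : Tendsto (fun n => ‖(x n).1 0 - (x n).1 1‖) atTop (𝓝 ‖x0.1 0 - x0.1 1‖) :=
    ((tpos 0).sub (tpos 1)).norm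
  have hS10 : S1 P b m x0 := by
    constructor
    · exact le_of_tendsto' tr fun n => (hS1 n).r_le
    · exact ge_of_tendsto' tFQ fun n => (hS1 n).F_ge
    · exact le_of_tendsto' tFQ fun n => (hS1 n).F_le
    · exact fun j hj => ge_of_tendsto' (txj j) fun n => (hS1 n).x_ge j hj
    · exact ge_of_tendsto' tR fun n => (hS1 n).R3
    · exact fun i j hi hj hij => le_of_tendsto_of_tendsto' (tFQ.const_mul 3).neg (thp i j hij)
        fun n => (hS1 n).hard i j hi hj hij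
  constructor
  · exact le_of_tendsto' tr fun n => (hSI n).r_le
  · exact le_of_tendsto_of_tendsto' ((tendsto_const_nhds.sub hD).mul_const _) tFQ
      fun n => (hSI n).F_ge
  · exact le_of_tendsto' tFQ fun n => (hSI n).F_le
  · exact hx_ge
  · intro j hj hlt
    have hPQ : PQ (Equiv.swap 2 j) := PQ_swap j hj
    have hT1 : S1 P b (m ∘ Equiv.swap 2 j) (rel (Equiv.swap 2 j) x0) := hS10.rel hPQ
    have e1 : ‖(rel (Equiv.swap 2 j) x0).1 2 -
        cm (m ∘ Equiv.swap 2 j) 0 1 (rel (Equiv.swap 2 j) x0).1‖ =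
          ‖x0.1 j - cm m 0 1 x0.1‖ := by
      show ‖x0.1 (Equiv.swap 2 j 2) - cm (m ∘ Equiv.swap 2 j) 0 1 (x0.1 ∘ Equiv.swap 2 j)‖ = _
      rw [cm_rel hPQ, Equiv.swap_apply_left]
    obtain ⟨-, -, -, h4⟩ := H2 b hbb2 _ (hm.rel (Equiv.swap 2 j)) _ hT1
      (by rw [e1]; exact hlt.le.trans (pow_cmp hb1' hbb3))
    have hne3 : ∀ i : Fin 5, 3 ≤ i → (rel (Equiv.swap 2 j) x0).1 i -
        cm3 (m ∘ Equiv.swap 2 j) 0 1 2 (rel (Equiv.swap 2 j) x0).1 ≠ 0 := fun i hi => by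
      have h5 := h4 i hi
      have h6 : 0 < 1 / (3 * b ^ 77) := by positivity
      exact norm_pos_iff.1 (lt_of_lt_of_le h6 h5)
    have c1 : ContinuousAt (FT (m ∘ Equiv.swap 2 j)) (rel (Equiv.swap 2 j) x0) :=
      ct_FT hne3 (free_rel _ hf)
    have c2 : Tendsto (fun n => FT (m ∘ Equiv.swap 2 j) (rel (Equiv.swap 2 j) (x n))) atTop
        (𝓝 (FT (m ∘ Equiv.swap 2 j) (rel (Equiv.swap 2 j) x0))) :=
      c1.tendsto.comp (((continuous_rel _).tendsto x0).comp hx)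
    have c3 : Tendsto (fun n => hh m j (x n)) atTop (𝓝 (hh m j x0)) := tFQ.sub c2
    refine ge_of_tendsto c3 (((txj j).eventually_lt_const hlt).mono fun n hn => ?_)
    exact (hSI n).h_ge j hj hn
  · exact ge_of_tendsto' tR fun n => (hSI n).R3
  · exact fun i j hi hj hij => le_of_tendsto_of_tendsto' (tFQ.const_mul 2).neg (thp i j hij)
      fun n => (hSI n).hard i j hi hj hij

/-! ### The error is continuous -/

private theorem Dg_tendsto (P : Par) {C ε : ℝ} {m : Fin 5 → ℝ} {p : ℝ → Cf 5 d} {γ : ℝ → St d}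
    {τ T : ℝ} (h : Cx P ε m p γ τ T) {t t1 : ℝ} {k1 : ℕ} {u : ℕ → ℝ} (hu : ∀ n, u n ∈ Icc τ t1)
    (ht : t ∈ Icc τ t1) (ht1 : t1 < T) (hlim : Tendsto u atTop (𝓝 t)) :
    Tendsto (fun n => Dg P C m γ (u n) t1 k1) atTop (𝓝 (Dg P C m γ t t1 k1)) := by
  have hJ : Tendsto (fun n => (∫⁻ s in Icc (min (u n) t) (max (u n) t), G P m (γ s)).toReal)
      atTop (𝓝 0) := by
    have hfin : ∫⁻ s, G P m (γ s) ∂(volume.restrict (Ico τ T)) ≠ ⊤ :=
      ne_top_of_le_ne_top ENNReal.ofReal_ne_top h.hG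
    have hsub : ∀ n, Icc (min (u n) t) (max (u n) t) ⊆ Ico τ T := by
      intro n s hs
      refine ⟨(le_min (hu n).1 ht.1).trans hs.1, lt_of_le_of_lt (hs.2.trans
        (max_le (hu n).2 ht.2)) ht1⟩
    have hvol : Tendsto ((volume.restrict (Ico τ T)) ∘
        fun n => Icc (min (u n) t) (max (u n) t)) atTop (𝓝 0) := by
      have h1 : Tendsto (fun n => ENNReal.ofReal (max (u n) t - min (u n) t)) atTop (𝓝 0) := by
        have h2 : Tendsto (fun n => max (u n) t - min (u n) t) atTop (𝓝 0) := by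
          have h3 := (hlim.max (tendsto_const_nhds (x := t))).sub
            (hlim.min (tendsto_const_nhds (x := t)))
          rwa [max_self, min_self, sub_self] at h3
        have h4 := ENNReal.tendsto_ofReal h2
        rwa [ENNReal.ofReal_zero] at h4
      refine tendsto_of_tendsto_of_tendsto_of_le_of_le tendsto_const_nhds h1
        (fun n => zero_le) fun n => ?_
      show (volume.restrict (Ico τ T)) (Icc (min (u n) t) (max (u n) t)) ≤ _
      refine (Measure.restrict_apply_le _ _).trans ?_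
      rw [Real.volume_Icc]
    have h5 := tendsto_setLIntegral_zero hfin hvol
    have h6 : Tendsto (fun n => ∫⁻ s in Icc (min (u n) t) (max (u n) t), G P m (γ s)) atTop
        (𝓝 0) := by
      refine h5.congr fun n => ?_
      rw [Measure.restrict_restrict_of_subset (hsub n)]
    have h7 := (ENNReal.tendsto_toReal ENNReal.zero_ne_top).comp h6
    rwa [ENNReal.toReal_zero] at h7
  have hkey : ∀ n, |Dg P C m γ (u n) t1 k1 - Dg P C m γ t t1 k1| ≤
      |C| * ((∫⁻ s in Icc (min (u n) t) (max (u n) t), G P m (γ s)).toReal +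
        |u n - t| / lev k1 ^ 50) := by
    intro n
    have hl : 0 ≤ lev k1 ^ 50 := pow_nonneg (zero_le_one.trans (one_le_lev k1)) _
    rcases le_total (u n) t with hle | hle
    · have e := Dg_add P (C := C) (k1 := k1) h (hu n).1 hle ht.2 ht1
      have e1 : Dg P C m γ (u n) t1 k1 - Dg P C m γ t t1 k1 =
          C * ((∫⁻ s in Icc (u n) t, G P m (γ s)).toReal + (t - u n) / lev k1 ^ 50) := by
        rw [e]
        ring
      rw [e1, min_eq_left hle, max_eq_right hle, abs_mul, abs_sub_comm,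
        abs_of_nonneg (sub_nonneg.2 hle)]
      refine le_of_eq ?_
      congr 1
      exact abs_of_nonneg (add_nonneg ENNReal.toReal_nonneg
        (div_nonneg (sub_nonneg.2 hle) hl))
    · have e := Dg_add P (C := C) (k1 := k1) h ht.1 hle (hu n).2 ht1
      have e1 : Dg P C m γ (u n) t1 k1 - Dg P C m γ t t1 k1 =
          -(C * ((∫⁻ s in Icc t (u n), G P m (γ s)).toReal + (u n - t) / lev k1 ^ 50)) := by
        rw [e]
        ring
      rw [e1, abs_neg, min_eq_right hle, max_eq_left hle, abs_mul,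
        abs_of_nonneg (sub_nonneg.2 hle)]
      refine le_of_eq ?_
      congr 1
      exact abs_of_nonneg (add_nonneg ENNReal.toReal_nonneg
        (div_nonneg (sub_nonneg.2 hle) hl))
  have hz : Tendsto (fun n => |C| * ((∫⁻ s in Icc (min (u n) t) (max (u n) t),
      G P m (γ s)).toReal + |u n - t| / lev k1 ^ 50)) atTop (𝓝 0) := by
    have h1 : Tendsto (fun n => |u n - t|) atTop (𝓝 0) := by
      have h2 := (hlim.sub (tendsto_const_nhds (x := t))).abs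
      rwa [sub_self, abs_zero] at h2
    have h3 := (hJ.add (h1.div_const (lev k1 ^ 50))).const_mul |C|
    rwa [zero_div, add_zero, mul_zero] at h3
  rw [tendsto_iff_norm_sub_tendsto_zero]
  exact squeeze_zero (fun n => norm_nonneg _) hkey hz

/-! ### Bound for the levels -/

private theorem FQ_le_KQ {m : Fin 5 → ℝ} (hm : ∀ i, 0 < m i) (x : St d) : FQ m x ≤ KQ m x.2 := by
  have h0 := hm 0
  have h1 := hm 1
  have h2 := hm 2
  have h3 := hm 3
  have h4 := hm 4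
  have h : 0 ≤ UQ m x.1 := by
    unfold UQ
    positivity
  unfold FQ
  linarith

private theorem FQ_bound {P : Par} {ε : ℝ} {m : Fin 5 → ℝ} {p : ℝ → Cf 5 d} {γ : ℝ → St d}
    {τ T : ℝ} (h : Cx P ε m p γ τ T) {t1 : ℝ} (ht1 : t1 < T) :
    ∃ B : ℝ, ∀ (σ : Equiv.Perm (Fin 5)), ∀ t ∈ Icc τ t1, FQ (m ∘ σ) (rel σ (γ t)) ≤ B := by
  have hγ : ContinuousOn γ (Icc τ t1) := fun t ht =>
    (h.sol t ⟨ht.1, lt_of_le_of_lt ht.2 ht1⟩).2.2.2.continuousAt.continuousWithinAt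
  have h1 : ∀ σ : Equiv.Perm (Fin 5), ∃ B : ℝ, ∀ t ∈ Icc τ t1,
      ‖KQ (m ∘ σ) (rel σ (γ t)).2‖ ≤ B := by
    intro σ
    refine isCompact_Icc.exists_bound_of_continuousOn ?_
    have h2 : Continuous fun x : St d => KQ (m ∘ σ) (rel σ x).2 :=
      (ct_KQ _).comp (continuous_snd.comp (continuous_rel σ))
    exact h2.comp_continuousOn hγ
  choose B hB using h1
  refine ⟨∑ σ, |B σ|, fun σ t ht => ?_⟩
  calc FQ (m ∘ σ) (rel σ (γ t)) ≤ KQ (m ∘ σ) (rel σ (γ t)).2 :=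
        FQ_le_KQ (fun i => (h.hm.rel σ).pos i) _
    _ ≤ ‖KQ (m ∘ σ) (rel σ (γ t)).2‖ := le_abs_self _
    _ ≤ B σ := hB σ t ht
    _ ≤ |B σ| := le_abs_self _
    _ ≤ ∑ σ, |B σ| := Finset.single_le_sum (f := fun σ => |B σ|) (fun σ _ => abs_nonneg _)
        (Finset.mem_univ σ)

private theorem level_le {P : Par} {D B : ℝ} {k : ℕ} {m : Fin 5 → ℝ} {x : St d}
    (hD : D ≤ 1 / 10) (h : SI P D (lev k) m x) (hB : FQ m x ≤ B) :
    k ≤ ⌈(10 / 9) * B⌉₊ := by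
  have h1 := h.F_ge
  rw [lev_pow_twohundred] at h1
  have h2 : (0 : ℝ) < 4 ^ k := by positivity
  have h3 : (4 : ℝ) ^ k ≤ (10 / 9) * B := by nlinarith
  have h4 : (k : ℝ) < 4 ^ k := by
    have h5 : k < 4 ^ k := Nat.lt_pow_self (by norm_num)
    exact_mod_cast h5
  have h6 : (k : ℝ) ≤ ⌈(10 / 9) * B⌉₊ := (h4.le.trans h3).trans (Nat.le_ceil _)
  exact_mod_cast h6

theorem trace (P : Par) : ∃ C ≥ 1, ∃ ε0 > 0, ∃ K : ℕ, ∀ ε ≤ ε0,
    ∀ (m : Fin 5 → ℝ) (p : ℝ → Cf 5 d) (γ : ℝ → St d) (τ T : ℝ), Cx P ε m p γ τ T →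
    ∀ (t1 : ℝ) (k1 : ℕ), K ≤ k1 → τ ≤ t1 → t1 < T → 1 / lev k1 ^ 77 ≤ Rg 3 (γ t1).1 →
    (∃ σ : Equiv.Perm (Fin 5), SI P 0 (lev k1) (m ∘ σ) (rel σ (γ t1)) ∨
      SIII P 0 (lev k1) (m ∘ σ) (rel σ (γ t1))) → Done m γ τ k1 := by
  obtain ⟨C, hC, e1, he1, K1, H1⟩ := trace_step (d := d) P
  obtain ⟨e2, he2, K2, H2⟩ := mode_III (d := d) P C hC
  obtain ⟨e3, he3, K3, H3⟩ := Dg_small (d := d) P (C := C) (by linarith)
  obtain ⟨b1, hb1, B1⟩ := si_s1 (d := d) P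
  obtain ⟨b2, hb2, B2⟩ := siii_s3 (d := d) P
  obtain ⟨b3, hb3, B3⟩ := si_closed (d := d) P
  obtain ⟨K4, HK4⟩ := (lev_tendsto.eventually_ge_atTop (max b1 (max b2 b3))).exists
  refine ⟨1, le_rfl, min e1 (min e2 e3), lt_min he1 (lt_min he2 he3),
    max K1 (max K2 (max K3 K4)), ?_⟩
  intro ε hε m p γ τ T hCx t1 k1 hk1 hτ1 ht1 hR3 hst
  have hε1 : ε ≤ e1 := hε.trans (min_le_left _ _)
  have hε2 : ε ≤ e2 := hε.trans ((min_le_right _ _).trans (min_le_left _ _))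
  have hε3 : ε ≤ e3 := hε.trans ((min_le_right _ _).trans (min_le_right _ _))
  have hK1 : K1 ≤ k1 := by omega
  have hK2 : K2 ≤ k1 := by omega
  have hK3 : K3 ≤ k1 := by omega
  have hK4 : K4 ≤ k1 := by omega
  have hlev : ∀ k, k1 ≤ k → max b1 (max b2 b3) ≤ lev k := fun k hk =>
    HK4.trans (lev_mono (hK4.trans hk))
  have hl1 : ∀ k, k1 ≤ k → b1 ≤ lev k := fun k hk => (le_max_left _ _).trans (hlev k hk)
  have hl2 : ∀ k, k1 ≤ k → b2 ≤ lev k := fun k hk =>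
    (le_max_left _ _).trans ((le_max_right _ _).trans (hlev k hk))
  have hl3 : ∀ k, k1 ≤ k → b3 ≤ lev k := fun k hk =>
    (le_max_right _ _).trans ((le_max_right _ _).trans (hlev k hk))
  by_contra hDone
  have hDg : ∀ t, τ ≤ t → t ≤ t1 → 0 ≤ Dg P C m γ t t1 k1 ∧ Dg P C m γ t t1 k1 ≤ 1 / 10 :=
    fun t h1 h2 => H3 ε hε3 m p γ τ T hCx t t1 k1 hK3 h1 h2 ht1
  have hD1 : Dg P C m γ t1 t1 k1 = 0 := by
    unfold Dg
    rw [Icc_self, Measure.restrict_singleton]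
    simp
  -- the start
  obtain ⟨t0, ht0, k0, hS0⟩ : ∃ t0 ∈ Icc τ t1, ∃ k0, StrI P C m γ t0 t1 k1 k0 := by
    obtain ⟨σ, hσ | hσ⟩ := hst
    · refine ⟨t1, ⟨hτ1, le_rfl⟩, k1, le_rfl, le_rfl, ?_, σ, by rw [hD1]; exact hσ⟩
      intro s hs
      have hs' : s = t1 := le_antisymm hs.2 hs.1
      rw [hs']
      exact ⟨k1, le_rfl, le_rfl, σ, Or.inl (B1 _ (hl1 k1 le_rfl) _ _ 0 (by norm_num) hσ)⟩
    · have h1 : StrIII P C m γ t1 t1 k1 k1 := by
        refine ⟨le_rfl, le_rfl, ?_, σ, by rw [hD1]; exact hσ⟩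
        intro s hs
        have hs' : s = t1 := le_antisymm hs.2 hs.1
        rw [hs']
        exact ⟨k1, le_rfl, le_rfl, σ, Or.inr (B2 _ (hl2 k1 le_rfl) _ _ 0 (by norm_num) hσ)⟩
      rcases H2 ε hε2 m p γ τ T hCx t1 t1 k1 k1 hK2 hτ1 ht1 hR3 h1 with h | ⟨t', ht', k', -, h⟩
      · exact absurd h hDone
      · exact ⟨t', ⟨ht'.1, ht'.2.le⟩, k', h⟩
  obtain ⟨B, hB⟩ := FQ_bound hCx ht1
  have hkB : ∀ t ∈ Icc τ t1, ∀ (k : ℕ) (σ : Equiv.Perm (Fin 5)),
      SI P (Dg P C m γ t t1 k1) (lev k) (m ∘ σ) (rel σ (γ t)) → k < ⌈(10 / 9) * B⌉₊ + 1 :=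
    fun t ht k σ h => Nat.lt_succ_of_le (level_le (hDg t ht.1 ht.2).2 h (hB σ t ht))
  obtain ⟨A, hA⟩ : ∃ A : Fin (⌈(10 / 9) * B⌉₊ + 1) × Equiv.Perm (Fin 5) → Set ℝ,
      A = fun i => {t | t ∈ Icc τ t1 ∧ k1 ≤ (i.1 : ℕ) ∧ TG P m γ t t1 k1 (i.1 : ℕ) ∧
        SI P (Dg P C m γ t t1 k1) (lev (i.1 : ℕ)) (m ∘ i.2) (rel i.2 (γ t))} := ⟨_, rfl⟩
  have key : ∃ i, τ ∈ A i := by
    refine real_ind (a := τ) (b := t1) (A := A) ?_ ?_ ?_ ?_
    all_goals rw [hA]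
    · rintro ⟨k, σ⟩
      refine IsSeqClosed.isClosed fun u t hu hlim => ?_
      have hu' : ∀ n, u n ∈ Icc τ t1 := fun n => (hu n).1
      have htI : t ∈ Icc τ t1 := isClosed_Icc.mem_of_tendsto hlim (Eventually.of_forall hu')
      have hk : k1 ≤ (k : ℕ) := (hu 0).2.1
      have hsolt := hCx.sol t ⟨htI.1, lt_of_le_of_lt htI.2 ht1⟩
      have hγt : Tendsto (fun n => rel σ (γ (u n))) atTop (𝓝 (rel σ (γ t))) :=
        ((continuous_rel σ).tendsto (γ t)).comp (hsolt.2.2.2.continuousAt.tendsto.comp hlim)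
      have hDt := Dg_tendsto P (C := C) (k1 := k1) hCx hu' htI ht1 hlim
      have hSI : SI P (Dg P C m γ t t1 k1) (lev (k : ℕ)) (m ∘ σ) (rel σ (γ t)) :=
        B3 _ (hl3 _ hk) (m ∘ σ) (hCx.hm.rel σ) (fun n => rel σ (γ (u n))) _
          (fun n => Dg P C m γ (u n) t1 k1) _ hγt hDt (free_rel σ hsolt.1)
          (fun n => (hDg (u n) (hu' n).1 (hu' n).2).2) fun n => (hu n).2.2.2
      refine ⟨htI, hk, ?_, hSI⟩
      intro s hs
      rcases eq_or_lt_of_le hs.1 with hst | hst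
      · rw [← hst]
        exact ⟨k, hk, le_rfl, σ, Or.inl (B1 _ (hl1 _ hk) _ _ _ (hDg t htI.1 htI.2).2 hSI)⟩
      · obtain ⟨n, hn⟩ := (hlim.eventually_lt_const hst).exists
        exact (hu n).2.2.1 s ⟨hn.le, hs.2⟩
    · rintro ⟨k, σ⟩ t ht
      exact ht.1
    · obtain ⟨hk, ht, hTG, σ, hSI⟩ := hS0
      exact ⟨(⟨k0, hkB t0 ht0 k0 σ hSI⟩, σ), t0, ht0, hk, hTG, hSI⟩
    · rintro ⟨k, σ⟩ t ⟨htI, hk, hTG, hSI⟩ hτt
      rcases H1 ε hε1 m p γ τ T hCx t t1 k1 k hK1 hτt ht1 hR3 ⟨hk, htI.2, hTG, σ, hSI⟩ with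
        h | ⟨t', ht', k', -, hk', htt', hTG', σ', hSI'⟩
      · exact absurd h hDone
      · have ht'I : t' ∈ Icc τ t1 := ⟨ht'.1, ht'.2.le.trans htI.2⟩
        exact ⟨(⟨k', hkB t' ht'I k' σ' hSI'⟩, σ'), t', ⟨ht'I, hk', hTG', hSI'⟩, ht'.2⟩
  obtain ⟨⟨k, σ⟩, hτA⟩ := key
  rw [hA] at hτA
  obtain ⟨-, hk, -, hSI⟩ := hτA
  apply hDone
  refine ⟨σ, Or.inl ?_⟩
  have h1 := hSI.F_ge
  have h2 := (hDg τ le_rfl hτ1).2
  have h3 : lev k1 ^ 200 ≤ lev (k : ℕ) ^ 200 :=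
    pow_le_pow_left₀ (zero_le_one.trans (one_le_lev k1)) (lev_mono hk) _
  have h4 : 0 ≤ lev k1 ^ 200 := pow_nonneg (zero_le_one.trans (one_le_lev k1)) _
  nlinarith

end NBO
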