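import Mathlib
import Pool.Agent.NBO.Cmb
import Pool.Agent.NBO.Core

/-!
# Forward singularities with at most five participants (module NBO-Fwd)

For every `e : Fin 5 ↪ Fin N` (finitely many): parameters `P R` as in `NB5/Final.lean` (`M` with `Mb M (m ∘ e)`: see `incomplete_null5` in `NB5/MCombo.lean`; `Zp = Kg = 10^9 M^6`, `R ≥ 1`, `k0 = K0` from `G_fin`);
`exists_cx` and `core` give a contradiction.
-/

open MeasureTheory Set Filter Topology Metric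
open scoped NNReal ENNReal RealInnerProductSpace

namespace NBO

open HDN NB5

variable {N d : ℕ}

private theorem fwd_Mb {m : Fin 5 → ℝ} (hm : ∀ i, 0 < m i) : ∃ M, Mb M m := by
  obtain ⟨i0, hi0⟩ := Finite.exists_max fun i => max (m i) (1 / m i)
  refine ⟨max 1 (max (m i0) (1 / m i0)), le_max_left _ _, fun i => ⟨?_, ?_⟩⟩
  · have h1 : 1 / m i ≤ max 1 (max (m i0) (1 / m i0)) :=
      ((le_max_right _ _).trans (hi0 i)).trans (le_max_right _ _)
    have h2 : 0 < 1 / m i := by have := hm i; positivity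
    calc 1 / max 1 (max (m i0) (1 / m i0)) ≤ 1 / (1 / m i) :=
          one_div_le_one_div_of_le h2 h1
      _ = m i := one_div_one_div _
  · exact ((le_max_left _ _).trans (hi0 i)).trans (le_max_right _ _)

theorem fwd_null (hd : 3 ≤ d) (hd5 : d ≤ 5) {m : Fin N → ℝ} (hm : ∀ i, 0 < m i) :
    ∀ᵐ x : Ph N d, ∀ T > 0, ∀ γ : ℝ → Ph N d, γ 0 = x →
      SolOn (nfield m) (FreeSet N d) γ (Ico 0 T) →
      (∀ K, IsCompact K → K ⊆ FreeSet N d → ∃ t ∈ Ico 0 T, γ t ∉ K) →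
      ∀ e : Fin 5 ↪ Fin N, ∀ η > 0, ¬ ∀ t ∈ Ico 0 T, Sep e η (γ t).1 := by
  have key : ∀ e : Fin 5 ↪ Fin N, ∀ᵐ x : Ph N d, ∀ T > 0, ∀ γ : ℝ → Ph N d, γ 0 = x →
      SolOn (nfield m) (FreeSet N d) γ (Ico 0 T) →
      (∀ K, IsCompact K → K ⊆ FreeSet N d → ∃ t ∈ Ico 0 T, γ t ∉ K) →
      ∀ η > 0, ¬ ∀ t ∈ Ico 0 T, Sep e η (γ t).1 := by
    intro e
    obtain ⟨M, hM⟩ := fwd_Mb (m := m ∘ e) fun i => hm (e i)
    have hg := fun R : ℕ => G_fin (d := d) hd hd5 (m ∘ e) M (10 ^ 9 * M ^ 6) (10 ^ 9 * M ^ 6)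
      (max 1 (R : ℝ))
    choose K0 hK0 using hg
    let P : ℕ → Par := fun R =>
      ⟨M, 10 ^ 9 * M ^ 6, 10 ^ 9 * M ^ 6, max 1 (R : ℝ), K0 R, hM.1, le_refl _, le_refl _,
        le_max_left _ _⟩
    have h1 := exists_cx (N := N) hd hm e P (fun _ => hM) (fun R => le_max_right _ _)
      (fun R => hK0 R (P R) rfl rfl rfl rfl le_rfl hM)
    filter_upwards [h1] with x hx T hT γ h0 hγ hK η hη hs
    obtain ⟨R, hR⟩ := hx T hT γ h0 hγ hK η hη hs
    obtain ⟨ε, hε, hcore⟩ := core (d := d) (P R)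
    obtain ⟨τ, hτ⟩ := (hR ε hε).exists
    exact hcore _ _ _ _ _ hτ
  have key2 := ae_all_iff.2 key
  filter_upwards [key2] with x hx T hT γ h0 hγ hK e η hη hs
  exact hx e T hT γ h0 hγ hK η hη hs

end NBO
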