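import Mathlib
import Pool.Agent.NBO.Fwd
import Pool.Agent.HDN.Final
import Pool.Agent.HDN.MaxSol
import Pool.Agent.HDN.FinC
import Pool.Agent.HDN.FinA

/-!
# At least six bodies take part (module NBO-Final)

`Few5 m x`: the solution through `x` ends (forward) at a finite time `T` (no extension to `[0,T]`), and at most five bodies take part in the close encounters. A body `b` which does not take part: there is `η > 0`
with `‖q b - q c‖ ≥ η` for all `c ≠ b` for `t` near `T` (negate `∃ᶠ`), and on the compact rest of `[0,T)` by continuity and `Free`. If at most 5 bodies take part there is `e : Fin 5 ↪ Fin N` whose range contains them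
(`5 ≤ N`), take the minimum of the `η`. Not extendable implies: leaves every compact subset of `FreeSet` (`exists_maximal` with uniqueness of solutions, HDN/MaxSol, FlowA; or directly).
`fwd_few_null` from `fwd_null`.
Backward: `sol_reverse`, `null_reverse` (HDN/FinC).
-/

open MeasureTheory Set Filter Topology Metric
open scoped NNReal ENNReal RealInnerProductSpace

namespace NBO

open HDN NB5

variable {N d : ℕ}

/-- the body `b` takes part in close encounters along the filter `l` -/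
def TakesPart (γ : ℝ → Ph N d) (l : Filter ℝ) (b : Fin N) : Prop :=
  ∀ η > 0, ∃ᶠ t in l, ∃ c, c ≠ b ∧ ‖(γ t).1 b - (γ t).1 c‖ < η

/-- the solution with the initial value `x` ends at a finite time `T > 0` and at most five bodies take part in close
encounters before `T` -/
def Few5 (m : Fin N → ℝ) (x : Ph N d) : Prop :=
  ∃ T > 0, ∃ γ : ℝ → Ph N d, γ 0 = x ∧ SolOn (nfield m) (FreeSet N d) γ (Ico 0 T) ∧
    (¬ ∃ ζ : ℝ → Ph N d, ζ 0 = x ∧ SolOn (nfield m) (FreeSet N d) ζ (Icc 0 T)) ∧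
    {b | TakesPart γ (𝓝[<] T) b}.ncard ≤ 5

/-- the same at a finite time `-T < 0` -/
def Few5b (m : Fin N → ℝ) (x : Ph N d) : Prop :=
  ∃ T > 0, ∃ γ : ℝ → Ph N d, γ 0 = x ∧ SolOn (nfield m) (FreeSet N d) γ (Ioc (-T) 0) ∧
    (¬ ∃ ζ : ℝ → Ph N d, ζ 0 = x ∧ SolOn (nfield m) (FreeSet N d) ζ (Icc (-T) 0)) ∧
    {b | TakesPart γ (𝓝[>] (-T)) b}.ncard ≤ 5

private theorem fin_unique {m : Fin N → ℝ} {γ ζ : ℝ → Ph N d} {t : ℝ} (ht : 0 ≤ t)
    (h0 : γ 0 = ζ 0) (hγ : SolOn (nfield m) (FreeSet N d) γ (Icc 0 t))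
    (hζ : SolOn (nfield m) (FreeSet N d) ζ (Icc 0 t)) : ∀ s ∈ Icc 0 t, γ s = ζ s := by
  have cγ : ContinuousOn γ (Icc 0 t) := fun s hs => (hγ s hs).2.continuousAt.continuousWithinAt
  have cζ : ContinuousOn ζ (Icc 0 t) := fun s hs => (hζ s hs).2.continuousAt.continuousWithinAt
  have hK : IsCompact (γ '' Icc 0 t ∪ ζ '' Icc 0 t) :=
    (isCompact_Icc.image_of_continuousOn cγ).union (isCompact_Icc.image_of_continuousOn cζ)
  have hKΩ : γ '' Icc 0 t ∪ ζ '' Icc 0 t ⊆ FreeSet N d := by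
    rintro y (⟨s, hs, rfl⟩ | ⟨s, hs, rfl⟩)
    · exact (hγ s hs).1
    · exact (hζ s hs).1
  obtain ⟨F⟩ := exists_flow (isOpen_freeSet (N := N) (d := d)) (contDiffOn_nfield (m := m)) hK hKΩ
  intro s hs
  rw [F.eq_of_sol ht cγ (fun r hr => ⟨Or.inl ⟨r, ⟨hr.1, hr.2.le⟩, rfl⟩,
      (hγ r ⟨hr.1, hr.2.le⟩).2.hasDerivWithinAt⟩) s hs,
    F.eq_of_sol ht cζ (fun r hr => ⟨Or.inr ⟨r, ⟨hr.1, hr.2.le⟩, rfl⟩,
      (hζ r ⟨hr.1, hr.2.le⟩).2.hasDerivWithinAt⟩) s hs, h0]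

/-- a solution which cannot be extended leaves every compact set -/
private theorem fin_leaves {m : Fin N → ℝ} {γ : ℝ → Ph N d} {T : ℝ} (hT : 0 < T)
    (hγ : SolOn (nfield m) (FreeSet N d) γ (Ico 0 T))
    (hno : ¬ ∃ ζ : ℝ → Ph N d, ζ 0 = γ 0 ∧ SolOn (nfield m) (FreeSet N d) ζ (Icc 0 T)) :
    ∀ K, IsCompact K → K ⊆ FreeSet N d → ∃ t ∈ Ico 0 T, γ t ∉ K := by
  have hx : γ 0 ∈ FreeSet N d := (hγ 0 ⟨le_rfl, hT⟩).1
  rcases exists_maximal (isOpen_freeSet (N := N) (d := d)) (contDiffOn_nfield (m := m)) hx with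
    ⟨ζ, h0, hζ⟩ | ⟨T1, hT1, ζ, h0, hζ, hleave⟩
  · exact absurd ⟨ζ, h0, fun t ht => hζ t ht.1⟩ hno
  · have hle : T1 ≤ T := by
      by_contra hlt
      push Not at hlt
      exact hno ⟨ζ, h0, fun t ht => hζ t ⟨ht.1, ht.2.trans_lt hlt⟩⟩
    have hge : T ≤ T1 := by
      by_contra hlt
      push Not at hlt
      have hsub : Icc 0 T1 ⊆ Ico 0 T := fun s hs => ⟨hs.1, hs.2.trans_lt hlt⟩
      have cγ : ContinuousOn γ (Icc 0 T1) := fun s hs =>
        (hγ s (hsub hs)).2.continuousAt.continuousWithinAt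
      obtain ⟨t, ht, ht2⟩ := hleave (γ '' Icc 0 T1) (isCompact_Icc.image_of_continuousOn cγ) (by
        rintro y ⟨s, hs, rfl⟩
        exact (hγ s (hsub hs)).1)
      apply ht2
      have h1 := fin_unique (m := m) (γ := γ) (ζ := ζ) ht.1 h0.symm
        (fun s hs => hγ s (hsub ⟨hs.1, hs.2.trans ht.2.le⟩))
        (fun s hs => hζ s ⟨hs.1, hs.2.trans_lt ht.2⟩) t ⟨ht.1, le_rfl⟩
      rw [← h1]
      exact ⟨t, ⟨ht.1, ht.2.le⟩, rfl⟩
    have hTT : T1 = T := le_antisymm hle hge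
    subst hTT
    intro K hK hKs
    obtain ⟨t, ht, ht2⟩ := hleave K hK hKs
    refine ⟨t, ht, ?_⟩
    have h1 := fin_unique (m := m) (γ := γ) (ζ := ζ) ht.1 h0.symm
      (fun s hs => hγ s ⟨hs.1, hs.2.trans_lt ht.2⟩)
      (fun s hs => hζ s ⟨hs.1, hs.2.trans_lt ht.2⟩) t ⟨ht.1, le_rfl⟩
    rw [h1]
    exact ht2

/-- a body which does not take part stays away from the others on `[0, T)` -/
private theorem fin_away {m : Fin N → ℝ} {γ : ℝ → Ph N d} {T : ℝ} (hT : 0 < T)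
    (hγ : SolOn (nfield m) (FreeSet N d) γ (Ico 0 T)) {b : Fin N}
    (hb : ¬ TakesPart γ (𝓝[<] T) b) :
    ∃ η > 0, ∀ t ∈ Ico 0 T, ∀ c, c ≠ b → η ≤ ‖(γ t).1 b - (γ t).1 c‖ := by
  classical
  unfold TakesPart at hb
  push Not at hb
  obtain ⟨η, hη, hev⟩ := hb
  obtain ⟨τ, hτ, hτ2⟩ := (mem_nhdsLT_iff_exists_Ioo_subset).1 hev
  -- a time in `[0, T)`
  set σ := max 0 ((τ + T) / 2) with hσ
  have hτT : τ < T := hτ
  have hσT : σ < T := max_lt hT (by linarith)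
  have hσ0 : 0 ≤ σ := le_max_left _ _
  have hστ : τ < σ := lt_of_lt_of_le (by linarith) (le_max_right _ _)
  have hcont : ∀ i, ContinuousOn (fun t => (γ t).1 i) (Icc 0 σ) := by
    intro i t ht
    have h1 := (hγ t ⟨ht.1, ht.2.trans_lt hσT⟩).2.continuousAt
    have h2 : ContinuousAt (fun s => (γ s).1) t := continuous_fst.continuousAt.comp h1
    exact ((continuous_apply i).continuousAt.comp h2).continuousWithinAt
  have hmin : ∀ c : Fin N, ∃ δ > 0, c ≠ b → ∀ t ∈ Icc 0 σ, δ ≤ ‖(γ t).1 b - (γ t).1 c‖ := by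
    intro c
    by_cases hc : c = b
    · exact ⟨1, one_pos, fun h => absurd hc h⟩
    · obtain ⟨t0, ht0, hmin⟩ := isCompact_Icc.exists_isMinOn (Set.nonempty_Icc.2 hσ0)
        (((hcont b).sub (hcont c)).norm)
      refine ⟨‖(γ t0).1 b - (γ t0).1 c‖, ?_, fun _ t ht => hmin ht⟩
      have hf := (hγ t0 ⟨ht0.1, ht0.2.trans_lt hσT⟩).1
      exact norm_pos_iff.2 (sub_ne_zero.2 (hf b c (Ne.symm hc)))
  choose δ hδ hδ2 using hmin
  have hne : (Finset.univ : Finset (Fin N)).Nonempty := ⟨b, Finset.mem_univ b⟩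
  refine ⟨min η (Finset.univ.inf' hne δ), lt_min hη ((Finset.lt_inf'_iff hne).2 fun c _ => hδ c),
    ?_⟩
  intro t ht c hc
  rcases le_or_gt t σ with h | h
  · exact (min_le_right _ _).trans ((Finset.inf'_le δ (Finset.mem_univ c)).trans
      (hδ2 c hc t ⟨ht.1, h⟩))
  · have h3 := hτ2 ⟨hστ.trans h, ht.2⟩
    exact (min_le_left _ _).trans (h3 c hc)

/-- five bodies which contain all participants -/
private theorem fin_emb (hN : 5 ≤ N) {S : Set (Fin N)} (hS : S.ncard ≤ 5) :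
    ∃ e : Fin 5 ↪ Fin N, S ⊆ range e := by
  classical
  have hfin : S.Finite := Set.toFinite S
  obtain ⟨B, hB1, hB2⟩ := Finset.exists_superset_card_eq (s := hfin.toFinset) (n := 5)
    (by rw [← Set.ncard_eq_toFinset_card S hfin]; exact hS) (by simpa using hN)
  refine ⟨(B.orderEmbOfFin hB2).toEmbedding, fun b hb => ?_⟩
  have h1 : b ∈ B := hB1 (hfin.mem_toFinset.2 hb)
  have h2 : b ∈ range (B.orderEmbOfFin hB2) := by
    rw [Finset.range_orderEmbOfFin]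
    exact h1
  exact h2

theorem few_null (hN : 5 ≤ N) (hd : 3 ≤ d) (hd5 : d ≤ 5) {m : Fin N → ℝ} (hm : ∀ i, 0 < m i) :
    volume {x : Ph N d | Few5 m x} = 0 := by
  classical
  have h := fwd_null (N := N) hd hd5 hm
  rw [ae_iff] at h
  refine measure_mono_null ?_ h
  intro x hx
  obtain ⟨T, hT, γ, h0, hγ, hno, hcard⟩ := hx
  simp only [Set.mem_ofPred_eq]
  intro hall
  have hleave := fin_leaves hT hγ (by rw [h0]; exact hno)
  obtain ⟨e, he⟩ := fin_emb hN hcard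
  have haway : ∀ b : Fin N, ∃ η > 0, b ∉ range e →
      ∀ t ∈ Ico 0 T, ∀ c, c ≠ b → η ≤ ‖(γ t).1 b - (γ t).1 c‖ := by
    intro b
    by_cases hb : b ∈ range e
    · exact ⟨1, one_pos, fun h => absurd hb h⟩
    · obtain ⟨η, hη, h1⟩ := fin_away hT hγ (b := b) fun hb2 => hb (he hb2)
      exact ⟨η, hη, fun _ => h1⟩
  choose η hη hη2 using haway
  have hNe : (Finset.univ : Finset (Fin N)).Nonempty :=
    ⟨⟨0, by omega⟩, Finset.mem_univ _⟩
  refine hall T hT γ h0 hγ hleave e (Finset.univ.inf' hNe η)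
    ((Finset.lt_inf'_iff hNe).2 fun c _ => hη c) ?_
  intro t ht b hb c hc
  exact (Finset.inf'_le η (Finset.mem_univ b)).trans (hη2 b hb t ht c hc)

private theorem fin_rev {m : Fin N → ℝ} {γ : ℝ → Ph N d} {S S' : Set ℝ}
    (hS : ∀ t ∈ S', -t ∈ S) (hγ : SolOn (nfield m) (FreeSet N d) γ S) :
    SolOn (nfield m) (FreeSet N d) (fun t => ((γ (-t)).1, -(γ (-t)).2)) S' := by
  intro t ht
  obtain ⟨hF, hd⟩ := hγ (-t) (hS t ht)
  refine ⟨hF, ?_⟩
  have h1 : HasDerivAt (fun s : ℝ => γ (-s)) (-(nfield m (γ (-t)))) t := by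
    have h2 := HasDerivAt.scomp t hd (hasDerivAt_neg t)
    simpa [Function.comp_def] using h2
  have h3 : HasDerivAt (fun s : ℝ => (γ (-s)).1) (-(nfield m (γ (-t)))).1 t := h1.fst
  have h4 : HasDerivAt (fun s : ℝ => (γ (-s)).2) (-(nfield m (γ (-t)))).2 t := h1.snd
  have h5 := h3.prodMk h4.neg
  have h6 : (((-(nfield m (γ (-t)))).1, -(-(nfield m (γ (-t)))).2) : Ph N d) =
      nfield m ((γ (-t)).1, -(γ (-t)).2) := by
    unfold nfield
    ext1
    · simp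
    · simp
  rw [h6] at h5
  exact h5

theorem fewb_null (hN : 5 ≤ N) (hd : 3 ≤ d) (hd5 : d ≤ 5) {m : Fin N → ℝ} (hm : ∀ i, 0 < m i) :
    volume {x : Ph N d | Few5b m x} = 0 := by
  have h := null_reverse (few_null hN hd hd5 hm)
  refine measure_mono_null ?_ h
  rintro x ⟨T, hT, γ, h0, hγ, hno, hcard⟩
  refine ⟨T, hT, fun t => ((γ (-t)).1, -(γ (-t)).2), ?_, ?_, ?_, ?_⟩
  · simp only [neg_zero, h0]
  · exact fin_rev (S' := Ico 0 T) (S := Ioc (-T) 0)
      (fun t ht => ⟨by linarith [ht.2], by linarith [ht.1]⟩) hγ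
  · rintro ⟨ζ, hζ0, hζ⟩
    refine hno ⟨fun t => ((ζ (-t)).1, -(ζ (-t)).2), ?_,
      fin_rev (S' := Icc (-T) 0) (S := Icc 0 T)
        (fun t ht => ⟨by linarith [ht.2], by linarith [ht.1]⟩) hζ⟩
    simp only [neg_zero, hζ0, neg_neg]
  · refine le_trans (le_of_eq ?_) hcard
    congr 1
    ext b
    have key : Tendsto (fun t : ℝ => -t) (𝓝[<] T) (𝓝[>] (-T)) := tendsto_neg_nhdsLT
    have key2 : Tendsto (fun t : ℝ => -t) (𝓝[>] (-T)) (𝓝[<] T) := tendsto_neg_nhdsGT_neg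
    constructor
    · intro hb η hη
      exact key.frequently (p := fun t => ∃ c, c ≠ b ∧ ‖(γ t).1 b - (γ t).1 c‖ < η) (hb η hη)
    · intro hb η hη
      have h1 : ∃ᶠ t in 𝓝[>] (-T), ∃ c, c ≠ b ∧ ‖(γ (-(-t))).1 b - (γ (-(-t))).1 c‖ < η := by
        simpa only [neg_neg] using hb η hη
      exact key2.frequently
        (p := fun t => ∃ c, c ≠ b ∧ ‖(γ (-t)).1 b - (γ (-t)).1 c‖ < η) h1

end NBO
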